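import Pool.Agent.Lead.IP.Lin
/-! MODULE HullA: the hull form (bilinear form `hull n v w`): bilinearity, symmetry, adjoints. -/
namespace IP
open Finset Real

theorem hull_add_left (n : ℕ) (v v' w : M) : hull n (v + v') w = hull n v w + hull n v' w := by
  classical
  unfold hull
  rw [Finsupp.sum_add_index']
  · intro σ
    simp only [zero_mul, ite_self]
    exact Finset.sum_eq_zero fun _ _ => rfl
  · intro σ x y
    rw [← Finsupp.sum_add]
    refine Finset.sum_congr rfl fun τ _ => ?_
    dsimp only
    split_ifs
    · ring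
    · ring

theorem hull_add_right (n : ℕ) (v w w' : M) : hull n v (w + w') = hull n v w + hull n v w' := by
  classical
  unfold hull
  rw [← Finsupp.sum_add]
  refine Finset.sum_congr rfl fun σ _ => ?_
  refine Finsupp.sum_add_index' ?_ ?_
  · intro τ
    simp only [mul_zero, ite_self]
  · intro τ x y
    split_ifs
    · ring
    · ring

theorem hull_smul_left (n : ℕ) (c : ℝ) (v w : M) : hull n (c • v) w = c * hull n v w := by
  classical
  unfold hull
  rw [Finsupp.sum_smul_index', Finsupp.mul_sum]
  · refine Finset.sum_congr rfl fun σ _ => ?_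
    dsimp only
    rw [Finsupp.mul_sum]
    refine Finset.sum_congr rfl fun τ _ => ?_
    dsimp only
    split_ifs
    · rw [smul_eq_mul]; ring
    · ring
  · intro σ
    simp only [zero_mul, ite_self]
    exact Finset.sum_eq_zero fun _ _ => rfl

theorem hull_smul_right (n : ℕ) (c : ℝ) (v w : M) : hull n v (c • w) = c * hull n v w := by
  classical
  unfold hull
  rw [Finsupp.mul_sum]
  refine Finset.sum_congr rfl fun σ _ => ?_
  dsimp only
  rw [Finsupp.sum_smul_index', Finsupp.mul_sum]
  · refine Finset.sum_congr rfl fun τ _ => ?_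
    dsimp only
    split_ifs
    · rw [smul_eq_mul]; ring
    · ring
  · intro τ
    simp only [mul_zero, ite_self]

theorem hull_zero_left (n : ℕ) (w : M) : hull n 0 w = 0 := by
  have h := hull_smul_left n 0 0 w
  rw [zero_smul, zero_mul] at h
  exact h

theorem hull_zero_right (n : ℕ) (v : M) : hull n v 0 = 0 := by
  have h := hull_smul_right n 0 v 0
  rw [zero_smul, zero_mul] at h
  exact h

theorem hull_single (n : ℕ) (σ τ : St) (x y : ℝ) : hull n (Finsupp.single σ x) (Finsupp.single τ y) =
    open Classical in if (σ ⊔ τ) 0 n then x * y else 0 := by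
  classical
  unfold hull
  rw [Finsupp.sum_single_index, Finsupp.sum_single_index]
  · simp only [mul_zero, ite_self]
  · rw [Finsupp.sum_single_index]
    · simp only [zero_mul, ite_self]
    · simp only [zero_mul, ite_self]

theorem hull_symm (n : ℕ) (v w : M) : hull n v w = hull n w v := by
  classical
  induction v using Finsupp.induction_linear with
  | zero => rw [hull_zero_left, hull_zero_right]
  | add v v' h h' => rw [hull_add_left, hull_add_right, h, h']
  | single σ x =>
    induction w using Finsupp.induction_linear with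
    | zero => rw [hull_zero_left, hull_zero_right]
    | add v v' h h' => rw [hull_add_left, hull_add_right, h, h']
    | single τ y => rw [hull_single, hull_single, sup_comm σ τ, mul_comm x y]

/-- as a finite sum over the states of `W n` -/
theorem hull_eq_sum (n : ℕ) {v w : M} (hv : v ∈ Sup (W n)) (hw : w ∈ Sup (W n)) :
    hull n v w = open Classical in ∑ σ ∈ (W_finite n).toFinset, ∑ τ ∈ (W_finite n).toFinset,
      if (σ ⊔ τ) 0 n then v σ * w τ else 0 := by
  classical
  have hv' : v.support ⊆ (W_finite n).toFinset := by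
    intro σ hσ
    rw [Set.Finite.mem_toFinset]
    exact (Finsupp.mem_supported ℝ v).1 hv hσ
  have hw' : w.support ⊆ (W_finite n).toFinset := by
    intro σ hσ
    rw [Set.Finite.mem_toFinset]
    exact (Finsupp.mem_supported ℝ w).1 hw hσ
  unfold hull
  rw [Finsupp.sum_of_support_subset v hv']
  · refine Finset.sum_congr rfl fun σ _ => ?_
    rw [Finsupp.sum_of_support_subset w hw']
    intro τ _
    simp only [mul_zero, ite_self]
  · intro σ _
    simp only [zero_mul, ite_self]
    exact Finset.sum_eq_zero fun _ _ => rfl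

theorem hull_tendsto (n : ℕ) {ι : Type*} (l : Filter ι) (v w : ι → M) (v' w' : M)
    (hv : ∀ i, v i ∈ Sup (W n)) (hw : ∀ i, w i ∈ Sup (W n)) (hv' : v' ∈ Sup (W n)) (hw' : w' ∈ Sup (W n))
    (h1 : ∀ σ, Filter.Tendsto (fun i => v i σ) l (nhds (v' σ)))
    (h2 : ∀ σ, Filter.Tendsto (fun i => w i σ) l (nhds (w' σ))) :
    Filter.Tendsto (fun i => hull n (v i) (w i)) l (nhds (hull n v' w')) := by
  classical
  rw [hull_eq_sum n hv' hw']
  have e : (fun i => hull n (v i) (w i)) = fun i => ∑ σ ∈ (W_finite n).toFinset,
      ∑ τ ∈ (W_finite n).toFinset, if (σ ⊔ τ) 0 n then v i σ * w i τ else 0 := by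
    funext i
    rw [hull_eq_sum n (hv i) (hw i)]
  rw [e]
  refine tendsto_finsetSum _ fun σ _ => tendsto_finsetSum _ fun τ _ => ?_
  split_ifs
  · exact (h1 σ).mul (h2 τ)
  · exact tendsto_const_nhds

/-! ### connectivity -/

theorem ha_detach_iff (k : ℕ) (σ : St) (x y : ℕ) :
    (detach k σ) x y ↔ (x = y ∨ (x ≠ k ∧ y ≠ k ∧ σ x y)) := Iff.rfl

theorem ha_join_iff (j k : ℕ) (σ : St) (x y : ℕ) :
    (join j k σ) x y ↔ (σ x y ∨ (σ x j ∧ σ k y) ∨ (σ x k ∧ σ j y)) := Iff.rfl

theorem ha_insS_iff (k : ℕ) (σ : St) (x y : ℕ) :
    (insS k σ) x y ↔ (x = y ∨ (x ≠ k ∧ y ≠ k ∧ σ (unskip k x) (unskip k y))) := Iff.rfl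

theorem ha_detach_le (k : ℕ) (σ : St) : detach k σ ≤ σ := by
  rw [Setoid.le_def]
  intro x y h
  rcases (ha_detach_iff k σ x y).1 h with rfl | h
  · exact σ.refl _
  · exact h.2.2

theorem ha_le_join (j k : ℕ) (σ : St) : σ ≤ join j k σ := by
  rw [Setoid.le_def]
  intro x y h
  exact (ha_join_iff j k σ x y).2 (Or.inl h)

theorem ha_join_pair (j k : ℕ) (σ : St) : (join j k σ) j k :=
  (ha_join_iff j k σ j k).2 (Or.inr (Or.inl ⟨σ.refl _, σ.refl _⟩))

theorem ha_join_le {j k : ℕ} {σ S : St} (h : σ ≤ S) (hjk : S j k) : join j k σ ≤ S := by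
  rw [Setoid.le_def] at h ⊢
  intro x y hxy
  rcases (ha_join_iff j k σ x y).1 hxy with h1 | ⟨h1, h2⟩ | ⟨h1, h2⟩
  · exact h h1
  · exact S.trans (h h1) (S.trans hjk (h h2))
  · exact S.trans (h h1) (S.trans (S.symm hjk) (h h2))

/-- paths of `detach k σ ⊔ τ` can avoid the site `k` -/
theorem ha_detach_sup (k : ℕ) (σ τ : St) {a b : ℕ} (ha : a ≠ k) (hb : b ≠ k)
    (h : (detach k σ ⊔ τ) a b) : (detach k σ ⊔ detach k τ) a b := by
  classical
  set D : St := detach k σ ⊔ detach k τ with hD
  have hD1 : detach k σ ≤ D := le_sup_left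
  have hD2 : detach k τ ≤ D := le_sup_right
  rw [Setoid.le_def] at hD1 hD2
  let f : ℕ → ℕ := fun x => if x = k then (if hz : ∃ z, z ≠ k ∧ τ k z then hz.choose else k) else x
  have hf : ∀ x, x ≠ k → f x = x := fun x hx => if_neg hx
  have hfk : ∀ z, z ≠ k → τ k z → f k ≠ k ∧ τ k (f k) := by
    intro z hz1 hz2
    have hz : ∃ z, z ≠ k ∧ τ k z := ⟨z, hz1, hz2⟩
    have e : f k = hz.choose := by
      show (if k = k then (if hz : ∃ z, z ≠ k ∧ τ k z then hz.choose else k) else k) = _
      rw [if_pos rfl, dif_pos hz]
    rw [e]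
    exact hz.choose_spec
  have key : detach k σ ⊔ τ ≤ Setoid.comap f D := by
    refine sup_le ?_ ?_
    · rw [Setoid.le_def]
      intro x y hxy
      rw [Setoid.comap_rel]
      rcases (ha_detach_iff k σ x y).1 hxy with rfl | h1
      · exact D.refl _
      · rw [hf x h1.1, hf y h1.2.1]
        exact hD1 hxy
    · rw [Setoid.le_def]
      intro x y hxy
      rw [Setoid.comap_rel]
      by_cases hx : x = k
      · by_cases hy : y = k
        · rw [hx, hy]
        · rw [hx] at hxy ⊢
          obtain ⟨h1, h2⟩ := hfk y hy hxy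
          rw [hf y hy]
          exact hD2 ((ha_detach_iff k τ _ _).2 (Or.inr ⟨h1, hy, τ.trans (τ.symm h2) hxy⟩))
      · by_cases hy : y = k
        · rw [hy] at hxy ⊢
          obtain ⟨h1, h2⟩ := hfk x hx (τ.symm hxy)
          rw [hf x hx]
          exact hD2 ((ha_detach_iff k τ _ _).2 (Or.inr ⟨hx, h1, τ.trans hxy h2⟩))
        · rw [hf x hx, hf y hy]
          exact hD2 ((ha_detach_iff k τ _ _).2 (Or.inr ⟨hx, hy, hxy⟩))
  rw [Setoid.le_def] at key
  have h1 := key h
  rw [Setoid.comap_rel, hf a ha, hf b hb] at h1
  exact h1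

theorem ha_act_even (k : ℕ) (σ : St) : act (2 * k) σ = detach k σ := by
  unfold act
  rw [if_pos (by omega)]
  congr 1
  omega

theorem ha_act_odd (k : ℕ) (σ : St) : act (2 * k + 1) σ = join k (k + 1) σ := by
  unfold act
  rw [if_neg (by omega)]
  congr 1 <;> omega

theorem ha_act_one {n i : ℕ} (h1 : 1 ≤ i) (h2 : i < 2 * n) (σ τ : St)
    (h : (act i σ ⊔ τ) 0 n) : (σ ⊔ act i τ) 0 n := by
  rcases Nat.even_or_odd' i with ⟨k, rfl | rfl⟩
  · rw [ha_act_even] at h ⊢
    have h3 := ha_detach_sup k σ τ (by omega) (by omega) h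
    have h4 : detach k σ ⊔ detach k τ ≤ σ ⊔ detach k τ := sup_le_sup_right (ha_detach_le k σ) _
    rw [Setoid.le_def] at h4
    exact h4 h3
  · rw [ha_act_odd] at h ⊢
    have h4 : join k (k + 1) σ ⊔ τ ≤ σ ⊔ join k (k + 1) τ := by
      have h5 : join k (k + 1) τ ≤ σ ⊔ join k (k + 1) τ := le_sup_right
      refine sup_le (ha_join_le le_sup_left ?_) ((ha_le_join _ _ _).trans le_sup_right)
      rw [Setoid.le_def] at h5
      exact h5 (ha_join_pair _ _ _)
    rw [Setoid.le_def] at h4
    exact h4 h

/-- the generators `act i`, `1 ≤ i < 2n`, are self-adjoint (only the sites `0` and `n` are special) -/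
theorem hull_act {n i : ℕ} (h1 : 1 ≤ i) (h2 : i < 2 * n) (σ τ : St) :
    (act i σ ⊔ τ) 0 n ↔ (σ ⊔ act i τ) 0 n := by
  constructor
  · exact ha_act_one h1 h2 σ τ
  · intro h
    rw [sup_comm] at h ⊢
    exact ha_act_one h1 h2 τ σ h

theorem hull_E {n i : ℕ} (h1 : 1 ≤ i) (h2 : i < 2 * n) (v w : M) : hull n (E i v) w = hull n v (E i w) := by
  classical
  induction v using Finsupp.induction_linear with
  | zero => rw [map_zero, hull_zero_left, hull_zero_left]
  | add v v' h h' => rw [map_add, hull_add_left, hull_add_left, h, h']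
  | single σ x =>
    induction w using Finsupp.induction_linear with
    | zero => rw [map_zero, hull_zero_right, hull_zero_right]
    | add v v' h h' => rw [map_add, hull_add_right, hull_add_right, h, h']
    | single τ y =>
      rw [E_single, E_single, hull_single, hull_single]
      simp only [hull_act h1 h2 σ τ]

theorem hull_Rt {n i : ℕ} (h1 : 1 ≤ i) (h2 : i < 2 * n) (u : ℝ) (v w : M) :
    hull n (Rt i u v) w = hull n v (Rt i u w) := by
  unfold Rt
  simp only [LinearMap.add_apply, LinearMap.smul_apply, LinearMap.id_apply]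
  rw [hull_add_left, hull_add_right, hull_smul_left, hull_smul_left, hull_smul_right,
    hull_smul_right, hull_E h1 h2]

theorem ha_ins_even (k : ℕ) (σ : St) : ins (2 * k) σ = insS k σ := by
  unfold ins
  rw [if_pos (by omega)]
  congr 1
  omega

theorem ha_ins_odd (k : ℕ) (σ : St) : ins (2 * k + 1) σ = Setoid.comap (coll k) σ := by
  unfold ins
  rw [if_neg (by omega)]
  congr 2
  omega

theorem ha_del_even (k : ℕ) (σ : St) : del (2 * k) σ = Setoid.comap (skip k) σ := by
  unfold del
  rw [if_pos (by omega)]
  congr 2
  omega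

theorem ha_del_odd (k : ℕ) (σ : St) :
    del (2 * k + 1) σ = Setoid.comap (skip (k + 1)) (join k (k + 1) σ) := by
  unfold del
  rw [if_neg (by omega)]
  have h : (2 * k + 1) / 2 = k := by omega
  rw [h]

theorem ha_skip_ne (k x : ℕ) : skip k x ≠ k := by
  unfold skip
  split_ifs <;> omega

theorem ha_unskip_skip (k x : ℕ) : unskip k (skip k x) = x := by
  unfold unskip skip
  split_ifs <;> omega

theorem ha_skip_unskip {k x : ℕ} (h : x ≠ k) : skip k (unskip k x) = x := by
  unfold unskip skip
  split_ifs <;> omega

theorem ha_coll_skip (k x : ℕ) : coll k (skip (k + 1) x) = x := by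
  unfold coll skip
  split_ifs <;> omega

/-- `In i` and `De i` are adjoint, `1 ≤ i ≤ 2n+1` -/
theorem hull_ins {n i : ℕ} (h1 : 1 ≤ i) (h2 : i ≤ 2 * n + 1) (σ τ : St) :
    (ins i σ ⊔ τ) 0 (n + 1) ↔ (σ ⊔ del i τ) 0 n := by
  rcases Nat.even_or_odd' i with ⟨k, rfl | rfl⟩
  · rw [ha_ins_even, ha_del_even]
    constructor
    · intro h
      have hd : detach k (insS k σ) = insS k σ := by
        ext x y
        rw [ha_detach_iff, ha_insS_iff]
        tauto
      rw [← hd] at h
      have h3 := ha_detach_sup k (insS k σ) τ (by omega) (by omega) h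
      rw [hd] at h3
      have h4 : insS k σ ⊔ detach k τ ≤ insS k (σ ⊔ Setoid.comap (skip k) τ) := by
        refine sup_le ?_ ?_
        · rw [Setoid.le_def]
          intro x y hxy
          rw [ha_insS_iff] at hxy ⊢
          rcases hxy with h5 | ⟨h5, h6, h7⟩
          · exact Or.inl h5
          · refine Or.inr ⟨h5, h6, ?_⟩
            have h8 : σ ≤ σ ⊔ Setoid.comap (skip k) τ := le_sup_left
            rw [Setoid.le_def] at h8
            exact h8 h7
        · rw [Setoid.le_def]
          intro x y hxy
          rw [ha_detach_iff] at hxy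
          rw [ha_insS_iff]
          rcases hxy with h5 | ⟨h5, h6, h7⟩
          · exact Or.inl h5
          · refine Or.inr ⟨h5, h6, ?_⟩
            have h8 : Setoid.comap (skip k) τ ≤ σ ⊔ Setoid.comap (skip k) τ := le_sup_right
            rw [Setoid.le_def] at h8
            refine h8 ?_
            rw [Setoid.comap_rel, ha_skip_unskip h5, ha_skip_unskip h6]
            exact h7
      rw [Setoid.le_def] at h4
      have h5 := h4 h3
      rw [ha_insS_iff] at h5
      rcases h5 with h5 | ⟨_, _, h5⟩
      · omega
      · have e1 : unskip k 0 = 0 := by unfold unskip; split_ifs <;> omega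
        have e2 : unskip k (n + 1) = n := by unfold unskip; split_ifs <;> omega
        rw [e1, e2] at h5
        exact h5
    · intro h
      have h4 : σ ⊔ Setoid.comap (skip k) τ ≤ Setoid.comap (skip k) (insS k σ ⊔ τ) := by
        refine sup_le ?_ ?_
        · rw [Setoid.le_def]
          intro x y hxy
          rw [Setoid.comap_rel]
          have h8 : insS k σ ≤ insS k σ ⊔ τ := le_sup_left
          rw [Setoid.le_def] at h8
          refine h8 ?_
          rw [ha_insS_iff, ha_unskip_skip, ha_unskip_skip]
          exact Or.inr ⟨ha_skip_ne k x, ha_skip_ne k y, hxy⟩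
        · rw [Setoid.le_def]
          intro x y hxy
          rw [Setoid.comap_rel] at hxy ⊢
          have h8 : τ ≤ insS k σ ⊔ τ := le_sup_right
          rw [Setoid.le_def] at h8
          exact h8 hxy
      rw [Setoid.le_def] at h4
      have h5 := h4 h
      rw [Setoid.comap_rel] at h5
      have e1 : skip k 0 = 0 := by unfold skip; split_ifs <;> omega
      have e2 : skip k n = n + 1 := by unfold skip; split_ifs <;> omega
      rw [e1, e2] at h5
      exact h5
  · rw [ha_ins_odd, ha_del_odd]
    constructor
    · intro h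
      have h4 : Setoid.comap (coll k) σ ⊔ τ ≤
          Setoid.comap (coll k) (σ ⊔ Setoid.comap (skip (k + 1)) (join k (k + 1) τ)) := by
        refine sup_le ?_ ?_
        · rw [Setoid.le_def]
          intro x y hxy
          rw [Setoid.comap_rel] at hxy ⊢
          have h8 : σ ≤ σ ⊔ Setoid.comap (skip (k + 1)) (join k (k + 1) τ) := le_sup_left
          rw [Setoid.le_def] at h8
          exact h8 hxy
        · rw [Setoid.le_def]
          intro x y hxy
          rw [Setoid.comap_rel]
          have h8 : Setoid.comap (skip (k + 1)) (join k (k + 1) τ) ≤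
            σ ⊔ Setoid.comap (skip (k + 1)) (join k (k + 1) τ) := le_sup_right
          rw [Setoid.le_def] at h8
          refine h8 ?_
          rw [Setoid.comap_rel]
          have hz : ∀ z, (join k (k + 1) τ) (skip (k + 1) (coll k z)) z := by
            intro z
            by_cases hz : z = k + 1
            · have e : skip (k + 1) (coll k z) = k := by
                unfold skip coll; split_ifs <;> omega
              rw [e, hz]
              exact ha_join_pair _ _ _
            · have e : skip (k + 1) (coll k z) = z := by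
                unfold skip coll; split_ifs <;> omega
              rw [e]
          have h9 := ha_le_join k (k + 1) τ
          rw [Setoid.le_def] at h9
          exact (join k (k + 1) τ).trans (hz x) ((join k (k + 1) τ).trans (h9 hxy)
            ((join k (k + 1) τ).symm (hz y)))
      rw [Setoid.le_def] at h4
      have h5 := h4 h
      rw [Setoid.comap_rel] at h5
      have e1 : coll k 0 = 0 := by unfold coll; split_ifs <;> omega
      have e2 : coll k (n + 1) = n := by unfold coll; split_ifs <;> omega
      rw [e1, e2] at h5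
      exact h5
    · intro h
      set S : St := Setoid.comap (coll k) σ ⊔ τ with hS
      have hS1 : Setoid.comap (coll k) σ ≤ S := le_sup_left
      have hS2 : τ ≤ S := le_sup_right
      have hkk : S k (k + 1) := by
        rw [Setoid.le_def] at hS1
        refine hS1 ?_
        rw [Setoid.comap_rel]
        have e : coll k k = coll k (k + 1) := by unfold coll; split_ifs <;> omega
        rw [e]
      have h4 : σ ⊔ Setoid.comap (skip (k + 1)) (join k (k + 1) τ) ≤ Setoid.comap (skip (k + 1)) S := by
        refine sup_le ?_ ?_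
        · rw [Setoid.le_def]
          intro x y hxy
          rw [Setoid.comap_rel]
          rw [Setoid.le_def] at hS1
          refine hS1 ?_
          rw [Setoid.comap_rel, ha_coll_skip, ha_coll_skip]
          exact hxy
        · rw [Setoid.le_def]
          intro x y hxy
          rw [Setoid.comap_rel] at hxy ⊢
          have h9 : join k (k + 1) τ ≤ S := ha_join_le hS2 hkk
          rw [Setoid.le_def] at h9
          exact h9 hxy
      rw [Setoid.le_def] at h4
      have h5 := h4 h
      rw [Setoid.comap_rel] at h5
      have e1 : skip (k + 1) 0 = 0 := by unfold skip; split_ifs <;> omega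
      rw [e1] at h5
      by_cases hk : k = n
      · have e2 : skip (k + 1) n = k := by unfold skip; split_ifs <;> omega
        rw [e2] at h5
        have h6 := S.trans h5 hkk
        rw [hk] at h6
        exact h6
      · have e2 : skip (k + 1) n = n + 1 := by unfold skip; split_ifs <;> omega
        rw [e2] at h5
        exact h5

theorem hull_In {n i : ℕ} (h1 : 1 ≤ i) (h2 : i ≤ 2 * n + 1) (v w : M) :
    hull (n + 1) (In i v) w = hull n v (De i w) := by
  classical
  induction v using Finsupp.induction_linear with
  | zero => rw [map_zero, hull_zero_left, hull_zero_left]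
  | add v v' h h' => rw [map_add, hull_add_left, hull_add_left, h, h']
  | single σ x =>
    induction w using Finsupp.induction_linear with
    | zero => rw [map_zero, hull_zero_right, hull_zero_right]
    | add v v' h h' => rw [map_add, hull_add_right, hull_add_right, h, h']
    | single τ y =>
      rw [In_single, De_single, hull_single, hull_single]
      simp only [hull_ins h1 h2 σ τ]

end IP
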