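import Pool.Agent.Lead.IP.TrigB
/-! MODULE TrigC: zero sets of separately trigonometric polynomials. -/
namespace IP
open Finset Real

/-- vanishing on a box implies vanishing everywhere (same proof as `Sep.eq_zero`) -/
theorem Sep.eq_zero_box {L m : ℕ} {F : (ℕ → ℝ) → ℝ} (hF : Sep L m F) (c : ℕ → ℝ) {ε : ℝ} (hε : 0 < ε)
    (h0 : ∀ b, (∀ j, |b j - c j| < ε) → F b = 0) : ∀ b, F b = 0 := by
  have key : ∀ k : ℕ, ∀ b : ℕ → ℝ, (∀ j, k ≤ j → |b j - c j| < ε) → F b = 0 := by
    intro k
    induction k with
    | zero => intro b hb; exact h0 b (fun j => hb j (Nat.zero_le j))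
    | succ k ih =>
      intro b hb
      by_cases hk : k < L
      · have h1 := hF.1 b k hk
        have h2 := h1.eq_zero_of_interval (a := c k - ε) (b := c k + ε) (by linarith) (by
          intro x hx
          apply ih
          intro j hj
          by_cases hjk : j = k
          · rw [hjk, Function.update_self, abs_lt]
            exact ⟨by linarith [hx.1], by linarith [hx.2]⟩
          · rw [Function.update_of_ne hjk]
            exact hb j (by omega)) (b k)
        rwa [Function.update_eq_self] at h2
      · have h2 : F b = F (Function.update b k (c k)) := by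
          apply hF.2
          intro j hj
          rw [Function.update_of_ne (by omega)]
        rw [h2]
        apply ih
        intro j hj
        by_cases hjk : j = k
        · rw [hjk, Function.update_self, sub_self, abs_zero]; exact hε
        · rw [Function.update_of_ne hjk]
          exact hb j (by omega)
  intro b
  have h1 : F b = F (fun j => if j < L then b j else c j) := by
    apply hF.2
    intro j hj
    rw [if_pos hj]
  rw [h1]
  apply key L
  intro j hj
  rw [if_neg (by omega), sub_self, abs_zero]
  exact hε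

/-- open sets contain boxes -/
theorem exists_box {U : Set (ℕ → ℝ)} (hU : IsOpen U) {c : ℕ → ℝ} (hc : c ∈ U) :
    ∃ ε : ℝ, 0 < ε ∧ ∀ b : ℕ → ℝ, (∀ j, |b j - c j| < ε) → b ∈ U := by
  by_contra hcon
  push Not at hcon
  have h1 : ∀ k : ℕ, ∃ b : ℕ → ℝ, (∀ j, |b j - c j| < 1 / ((k : ℝ) + 1)) ∧ b ∉ U := by
    intro k
    exact hcon _ (by positivity)
  choose f hf1 hf2 using h1
  have h2 : Filter.Tendsto f Filter.atTop (nhds c) := by
    rw [tendsto_pi_nhds]
    intro j
    rw [tendsto_iff_dist_tendsto_zero]
    apply squeeze_zero (fun _ => dist_nonneg) (g := fun k : ℕ => 1 / ((k : ℝ) + 1))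
    · intro k
      rw [Real.dist_eq]
      exact (hf1 k j).le
    · exact tendsto_one_div_add_atTop_nhds_zero_nat
  have h3 := h2.eventually (hU.mem_nhds hc)
  obtain ⟨k, hk⟩ := h3.exists
  exact hf2 k hk

/-- integral domain property -/
theorem Sep.eq_zero_of_mul {L m k : ℕ} {F G : (ℕ → ℝ) → ℝ} (hF : Sep L m F) (hG : Sep L k G)
    (hG0 : ∃ b, G b ≠ 0) (h : ∀ b, G b ≠ 0 → F b = 0) : ∀ b, F b = 0 := by
  obtain ⟨c, hc⟩ := hG0
  have hU : IsOpen {b : ℕ → ℝ | G b ≠ 0} := isOpen_ne_fun hG.continuous continuous_const
  obtain ⟨ε, hε, hb⟩ := exists_box hU hc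
  exact hF.eq_zero_box c hε (fun b hbb => h b (hb b hbb))

/-- it is enough to check on the cube, away from the zeros of `G` -/
theorem Sep.eq_zero_of_mul_Cube {L m k : ℕ} {F G : (ℕ → ℝ) → ℝ} (hF : Sep L m F) (hG : Sep L k G)
    (hG0 : ∃ b, G b ≠ 0) (h : ∀ b ∈ Cube, G b ≠ 0 → F b = 0) : ∀ b, F b = 0 := by
  have h1 : ∀ b, F b * G b = 0 := by
    apply (hF.mul hG).eq_zero
    intro b hb
    by_cases hg : G b = 0
    · rw [hg, mul_zero]
    · rw [h b hb hg, zero_mul]
  apply hF.eq_zero_of_mul hG hG0
  intro b hb
  rcases mul_eq_zero.1 (h1 b) with h2 | h2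
  · exact h2
  · exact absurd h2 hb

theorem Sep.const (L : ℕ) (c : ℝ) : Sep L 0 (fun _ => c) :=
  ⟨fun _ _ _ => TP.const c, fun _ _ _ => rfl⟩

theorem Sep.mono {L m : ℕ} {F : (ℕ → ℝ) → ℝ} (k : ℕ) (hF : Sep L m F) : Sep L (m + 2 * k) F :=
  ⟨fun b j hj => (hF.1 b j hj).mono k, hF.2⟩

/-- the product of two nonzero functions is nonzero -/
theorem Sep.mul_ne {L m k : ℕ} {F G : (ℕ → ℝ) → ℝ} (hF : Sep L m F) (hG : Sep L k G)
    (hF0 : ∃ b, F b ≠ 0) (hG0 : ∃ b, G b ≠ 0) : ∃ b, F b * G b ≠ 0 := by
  by_contra hcon
  push Not at hcon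
  obtain ⟨c, hc⟩ := hF0
  apply hc
  apply hF.eq_zero_of_mul hG hG0
  intro b hb
  rcases mul_eq_zero.1 (hcon b) with h2 | h2
  · exact h2
  · exact absurd h2 hb

/-- products of finitely many nonzero functions -/
theorem Sep.prod_ne {L : ℕ} {ι : Type*} (t : Finset ι) (m : ι → ℕ) (F : ι → (ℕ → ℝ) → ℝ)
    (h : ∀ i ∈ t, Sep L (m i) (F i)) (h0 : ∀ i ∈ t, ∃ b, F i b ≠ 0) :
    Sep L (∑ i ∈ t, m i) (fun b => ∏ i ∈ t, F i b) ∧ ∃ b, ∏ i ∈ t, F i b ≠ 0 := by
  classical
  induction t using Finset.induction_on with
  | empty =>
    simp only [prod_empty, sum_empty]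
    exact ⟨Sep.const L 1, fun _ => 0, one_ne_zero⟩
  | insert i t hi ih =>
    obtain ⟨h1, h2⟩ := ih (fun j hj => h j (mem_insert_of_mem hj)) (fun j hj => h0 j (mem_insert_of_mem hj))
    have h3 := h i (mem_insert_self i t)
    have h4 := h0 i (mem_insert_self i t)
    simp only [prod_insert hi, sum_insert hi]
    exact ⟨h3.mul h1, h3.mul_ne h1 h4 h2⟩

/-- a function of one coordinate -/
theorem Sep.of_TP {L m : ℕ} {i : ℕ} (hi : i < L) {g : ℝ → ℝ} (hg : TP (2 * m) g) :
    Sep L (2 * m) (fun b => g (b i)) := by
  constructor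
  · intro b k hk
    by_cases h : k = i
    · subst h
      have : (fun x => g (Function.update b k x k)) = g := by
        funext x; rw [Function.update_self]
      rw [this]; exact hg
    · have : (fun x => g (Function.update b k x i)) = fun _ => g (b i) := by
        funext x; rw [Function.update_of_ne (fun h' => h h'.symm)]
      rw [this]
      have h2 := (TP.const (g (b i))).mono m
      rwa [zero_add] at h2
  · intro b b' h
    simp only [h i hi]

/-- a function of two coordinates -/
theorem Sep.of_TP2 {L m : ℕ} {i j : ℕ} (hi : i < L) (hj : j < L) (hij : i ≠ j) {g : ℝ → ℝ → ℝ}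
    (hg1 : ∀ y, TP (2 * m) (fun x => g x y)) (hg2 : ∀ x, TP (2 * m) (fun y => g x y)) :
    Sep L (2 * m) (fun b => g (b i) (b j)) := by
  constructor
  · intro b k hk
    by_cases h : k = i
    · subst h
      have : (fun x => g (Function.update b k x k) (Function.update b k x j)) =
          fun x => g x (b j) := by
        funext x; rw [Function.update_self, Function.update_of_ne (fun h' => hij h'.symm)]
      rw [this]; exact hg1 _
    · by_cases h2 : k = j
      · subst h2
        have : (fun x => g (Function.update b k x i) (Function.update b k x k)) =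
            fun x => g (b i) x := by
          funext x; rw [Function.update_self, Function.update_of_ne (fun h' => h h'.symm)]
        rw [this]; exact hg2 _
      · have : (fun x => g (Function.update b k x i) (Function.update b k x j)) =
            fun _ => g (b i) (b j) := by
          funext x
          rw [Function.update_of_ne (fun h' => h h'.symm),
            Function.update_of_ne (fun h' => h2 h'.symm)]
        rw [this]
        have h2 := (TP.const (g (b i) (b j))).mono m
        rwa [zero_add] at h2
  · intro b b' h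
    simp only [h i hi, h j hj]

theorem Sep.sin_sub (L i j : ℕ) (hi : i < L) (hj : j < L) (hij : i ≠ j) (y : ℝ) :
    Sep L 2 (fun b => Real.sin (b i - b j + y) * Real.sin (b i - b j + y)) := by
  apply Sep.of_TP2 (m := 1) hi hj hij (g := fun x z => Real.sin (x - z + y) * Real.sin (x - z + y))
  · intro z
    have h : TP 1 (fun x => Real.sin (x - z + y)) := by
      have := TP.sin_add (-z + y)
      have e : (fun x => Real.sin (x + (-z + y))) = fun x => Real.sin (x - z + y) := by
        funext x; congr 1; ring
      rwa [e] at this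
    exact h.mul h
  · intro x
    have h : TP 1 (fun z => Real.sin (x - z + y)) := by
      have := TP.sin_sub (x + y)
      have e : (fun z => Real.sin ((x + y) - z)) = fun z => Real.sin (x - z + y) := by
        funext z; congr 1; ring
      rwa [e] at this
    exact h.mul h

theorem Sep.sin_add (L i j : ℕ) (hi : i < L) (hj : j < L) (hij : i ≠ j) (y : ℝ) :
    Sep L 2 (fun b => Real.sin (b i + b j + y) * Real.sin (b i + b j + y)) := by
  apply Sep.of_TP2 (m := 1) hi hj hij (g := fun x z => Real.sin (x + z + y) * Real.sin (x + z + y))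
  · intro z
    have h : TP 1 (fun x => Real.sin (x + z + y)) := by
      have := TP.sin_add (z + y)
      have e : (fun x => Real.sin (x + (z + y))) = fun x => Real.sin (x + z + y) := by
        funext x; congr 1; ring
      rwa [e] at this
    exact h.mul h
  · intro x
    have h : TP 1 (fun z => Real.sin (x + z + y)) := by
      have := TP.sin_add (x + y)
      have e : (fun z => Real.sin (z + (x + y))) = fun z => Real.sin (x + z + y) := by
        funext z; congr 1; ring
      rwa [e] at this
    exact h.mul h

/-- density along lines: a function in `Sep L m` vanishes identically if for every `b` there is a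
direction `c` such that it vanishes at `b + t c` for all but countably many `t` -/
theorem Sep.eq_zero_of_line {L m : ℕ} {F : (ℕ → ℝ) → ℝ} (hF : Sep L m F)
    (h : ∀ b : ℕ → ℝ, ∃ c : ℕ → ℝ, {t : ℝ | F (fun k => b k + t * c k) ≠ 0}.Countable) :
    ∀ b, F b = 0 := by
  intro b
  obtain ⟨c, hcount⟩ := h b
  have hcont : Continuous (fun t : ℝ => F (fun k => b k + t * c k)) := by
    apply hF.continuous.comp
    apply continuous_pi
    intro k
    fun_prop
  have hdense := hcount.dense_compl ℝ
  have h1 : (fun t : ℝ => F (fun k => b k + t * c k)) = fun _ => 0 := by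
    apply Continuous.ext_on hdense hcont continuous_const
    intro t ht
    by_contra h
    exact ht h
  have h2 := congrFun h1 0
  simpa using h2

theorem countable_sin_zero' (α β : ℝ) (h : β ≠ 0 ∨ Real.sin α ≠ 0) :
    {t : ℝ | Real.sin (α + t * β) = 0}.Countable := by
  by_cases hβ : β = 0
  · have h2 : Real.sin α ≠ 0 := by
      rcases h with h | h
      · exact absurd hβ h
      · exact h
    have : {t : ℝ | Real.sin (α + t * β) = 0} = ∅ := by
      ext t
      simp only [Set.mem_ofPred_eq, Set.mem_empty_iff_false, iff_false]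
      rw [hβ, mul_zero, add_zero]
      exact h2
    rw [this]
    exact Set.countable_empty
  · have h2 : {t : ℝ | Real.sin (α + t * β) = 0} ⊆ Set.range (fun k : ℤ => ((k : ℝ) * π - α) / β) := by
      intro t ht
      rw [Set.mem_ofPred_eq, Real.sin_eq_zero_iff] at ht
      obtain ⟨k, hk⟩ := ht
      refine ⟨k, ?_⟩
      simp only
      rw [hk]
      field_simp
      ring
    exact (Set.countable_range _).mono h2
end IP
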