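import Pool.Agent.Lead.IP.Recur
import Pool.Agent.Lead.IP.TrigC
import Pool.Agent.Lead.IP.HullA
/-! MODULE NformA: the polynomial `NN n x b = hull n (V n b) (V n (-b'))`, `b' = (x, b 1, b 2, ...)`.
* symmetric and even in `b 1, ..., b (2n)` (`V_sw`, `hull_Rt`, `unitarity`, `V_ngR`; then `Sep.eq_zero_of_mul`);
* `Sep`-polynomial of degree `4n` in each `b j`, `1 ≤ j ≤ 2n`;
* recursion for a pair `(i, i+1)`, `1 ≤ i`, with `b (i+1) = b i + π/3`: `V_rec` for `V (n+1) b`, `De_V` for `V (n+1) (-b')`, `hull_In`;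
* base case `n = 1`: `hull 1 v w = tot v * tot w - v (bot 1) * w (bot 1)`, `V 1 b (bot 1) = Z 1 b - f0 1 b`, `Z_form`, `chi_three`,
  `chi_four`;
* step: interpolation in `b 1` at the `4(2n+1) > 4(n+1)` points `± b j ± π/3`, `2 ≤ j ≤ 2n+2` (`n ≥ 1`), for generic other
  variables, using `chi_quot` for `Dt (2n+2)`, `Dt (2n+4)`. -/
namespace IP
open Finset Real

/-- `(x, b 1, b 2, ...)` -/
def setZ (x : ℝ) (b : ℕ → ℝ) : ℕ → ℝ := fun j => if j = 0 then x else b j
/-- `(b 1, b 2, ...)` -/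
def tl (b : ℕ → ℝ) : ℕ → ℝ := fun j => b (j + 1)
/-- `(x, b 0, b 1, ...)` -/
def cons (x : ℝ) (b : ℕ → ℝ) : ℕ → ℝ := fun j => if j = 0 then x else b (j - 1)

noncomputable def NN (n : ℕ) (x : ℝ) (b : ℕ → ℝ) : ℝ := hull n (V n b) (V n (fun j => - setZ x b j))

/-! ### auxiliary facts -/

/-- the second argument -/
def nz (x : ℝ) (b : ℕ → ℝ) : ℕ → ℝ := fun j => - setZ x b j

theorem NN_def (n : ℕ) (x : ℝ) (b : ℕ → ℝ) : NN n x b = hull n (V n b) (V n (nz x b)) := rfl

theorem nz_zero (x : ℝ) (b : ℕ → ℝ) : nz x b 0 = -x := by simp [nz, setZ]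
theorem nz_pos {j : ℕ} (h : 1 ≤ j) (x : ℝ) (b : ℕ → ℝ) : nz x b j = - b j := by
  have : j ≠ 0 := by omega
  simp [nz, setZ, this]

theorem nz_sw {i : ℕ} (h : 1 ≤ i) (x : ℝ) (b : ℕ → ℝ) : nz x (sw i b) = sw i (nz x b) := by
  funext j
  rcases Nat.eq_zero_or_pos j with rfl | hj
  · have h0 : Equiv.swap i (i + 1) 0 = 0 := Equiv.swap_apply_of_ne_of_ne (by omega) (by omega)
    have : sw i (nz x b) 0 = nz x b 0 := by unfold sw; rw [h0]
    rw [this, nz_zero, nz_zero]
  · rw [nz_pos hj]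
    unfold sw
    have hk : 1 ≤ Equiv.swap i (i + 1) j := by
      by_contra hlt
      have h0 : Equiv.swap i (i + 1) j = 0 := by omega
      have h1 : Equiv.swap i (i + 1) 0 = 0 := Equiv.swap_apply_of_ne_of_ne (by omega) (by omega)
      have := (Equiv.swap i (i + 1)).injective (h0.trans h1.symm)
      omega
    rw [nz_pos hk]

theorem nz_ng {i : ℕ} (h : 1 ≤ i) (x : ℝ) (b : ℕ → ℝ) : nz x (ng i b) = ng i (nz x b) := by
  funext j
  unfold ng
  by_cases hj : j = i
  · subst hj
    rw [Function.update_self, nz_pos h, Function.update_self, nz_pos h]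
  · rw [Function.update_of_ne hj]
    rcases Nat.eq_zero_or_pos j with rfl | hj'
    · rw [nz_zero, nz_zero]
    · rw [nz_pos hj', nz_pos hj', Function.update_of_ne hj]

theorem nz_rem_one (x : ℝ) (b : ℕ → ℝ) : nz x (rem 1 b) = rem 1 (nz x b) := by
  funext j
  rcases Nat.eq_zero_or_pos j with rfl | hj
  · rw [nz_zero]
    simp [rem, nz_zero]
  · rw [nz_pos hj]
    have h1 : ¬ (j < 1) := by omega
    unfold rem
    rw [if_neg h1, if_neg h1, nz_pos (by omega)]

theorem nz_update {i : ℕ} (h : 1 ≤ i) (x y : ℝ) (b : ℕ → ℝ) :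
    nz x (Function.update b i y) = Function.update (nz x b) i (-y) := by
  funext j
  by_cases hj : j = i
  · subst hj
    rw [Function.update_self, nz_pos h, Function.update_self]
  · rw [Function.update_of_ne hj]
    rcases Nat.eq_zero_or_pos j with rfl | hj'
    · rw [nz_zero, nz_zero]
    · rw [nz_pos hj', nz_pos hj', Function.update_of_ne hj]

theorem nz_update_zero (x y : ℝ) (b : ℕ → ℝ) : nz x (Function.update b 0 y) = nz x b := by
  funext j
  rcases Nat.eq_zero_or_pos j with rfl | hj'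
  · rw [nz_zero, nz_zero]
  · rw [nz_pos hj', nz_pos hj', Function.update_of_ne (by omega)]

theorem nz_continuous : Continuous (fun p : ℝ × (ℕ → ℝ) => nz p.1 p.2) := by
  refine continuous_pi fun j => ?_
  rcases Nat.eq_zero_or_pos j with rfl | hj
  · simp only [nz_zero]; fun_prop
  · simp only [nz_pos hj]; fun_prop

/-- expansion of `NN` as a finite sum -/
theorem NN_sum (n : ℕ) (x : ℝ) (b : ℕ → ℝ) : NN n x b =
    open Classical in ∑ σ ∈ (W_finite n).toFinset, ∑ τ ∈ (W_finite n).toFinset,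
      if (σ ⊔ τ) 0 n then V n b σ * V n (nz x b) τ else 0 := by
  rw [NN_def, hull_eq_sum n (V_Sup n b) (V_Sup n (nz x b))]

theorem NN_TP_pos {n i : ℕ} (h1 : 1 ≤ i) (h2 : i ≤ 2 * n) (x : ℝ) (b : ℕ → ℝ) :
    TP (4 * n) (fun y => NN n x (Function.update b i y)) := by
  simp only [NN_sum, nz_update h1]
  refine TP.sum _ fun σ _ => TP.sum _ fun τ _ => ?_
  split_ifs with h
  · have e1 : TP (2 * n) (fun y => V n (Function.update b i y) σ) := (V_Sep n σ).1 b i (by omega)
    have e2 : TP (2 * n) (fun y => V n (Function.update (nz x b) i (-y)) τ) :=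
      ((V_Sep n τ).1 (nz x b) i (by omega)).comp_neg
    have := e1.mul e2
    rwa [show 2 * n + 2 * n = 4 * n by ring] at this
  · exact TP.zero _

theorem NN_TP_zero (n : ℕ) (x : ℝ) (b : ℕ → ℝ) :
    TP (4 * n) (fun y => NN n x (Function.update b 0 y)) := by
  simp only [NN_sum, nz_update_zero]
  refine TP.sum _ fun σ _ => TP.sum _ fun τ _ => ?_
  split_ifs with h
  · have e1 : TP (2 * n) (fun y => V n (Function.update b 0 y) σ) := (V_Sep n σ).1 b 0 (by omega)
    have := (e1.smul (V n (nz x b) τ)).mono n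
    rw [show 2 * n + 2 * n = 4 * n by ring] at this
    convert this using 1
    funext y
    ring
  · exact TP.zero _

theorem NN_Sep (n : ℕ) (x : ℝ) : Sep (2 * n + 1) (4 * n) (NN n x) := by
  constructor
  · intro b j hj
    rcases Nat.eq_zero_or_pos j with rfl | hj'
    · exact NN_TP_zero n x b
    · exact NN_TP_pos hj' (by omega) x b
  · intro b b' h
    rw [NN_sum, NN_sum]
    refine sum_congr rfl fun σ _ => sum_congr rfl fun τ _ => ?_
    have e1 : V n b σ = V n b' σ := (V_Sep n σ).2 b b' h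
    have e2 : V n (nz x b) τ = V n (nz x b') τ := by
      refine (V_Sep n τ).2 _ _ fun j hj => ?_
      rcases Nat.eq_zero_or_pos j with rfl | hj'
      · rw [nz_zero, nz_zero]
      · rw [nz_pos hj', nz_pos hj', h j hj]
    rw [e1, e2]

theorem NN_sw_mul {n i : ℕ} (h1 : 1 ≤ i) (h2 : i < 2 * n) (x : ℝ) (b : ℕ → ℝ) :
    (s (b i - b (i + 1)) * s (-(b i - b (i + 1)))) * NN n x (sw i b) =
      (s (b i - b (i + 1)) * s (-(b i - b (i + 1)))) * NN n x b := by
  have hv := V_sw (n := n) (i := i) (by omega) b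
  have hw := V_sw (n := n) (i := i) (by omega) (nz x b)
  have hd : nz x b i - nz x b (i + 1) = -(b i - b (i + 1)) := by
    rw [nz_pos h1, nz_pos (by omega)]; ring
  rw [hd] at hw
  set u := b i - b (i + 1) with hu
  rw [NN_def, NN_def, nz_sw h1]
  have e1 : s u * s (-u) * hull n (V n (sw i b)) (V n (sw i (nz x b))) =
      hull n (s u • V n (sw i b)) (s (-u) • V n (sw i (nz x b))) := by
    rw [hull_smul_left, hull_smul_right, mul_assoc]
  rw [e1, hv, hw, hull_Rt h1 h2, unitarity, hull_smul_right]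

theorem s_mul_s_neg (u : ℝ) : s u * s (-u) = Real.sin (π / 3) ^ 2 - Real.sin u ^ 2 := by
  unfold s
  rw [Real.sin_add, Real.sin_add, Real.sin_neg, Real.cos_neg]
  have h1 := Real.sin_sq_add_cos_sq (π / 3)
  have h2 := Real.sin_sq_add_cos_sq u
  nlinarith

theorem ss_Sep {n i : ℕ} (h2 : i < 2 * n) :
    Sep (2 * n + 1) 2 (fun b => s (b i - b (i + 1)) * s (-(b i - b (i + 1)))) := by
  constructor
  · intro b j hj
    by_cases hji : j = i
    · subst hji
      have hne : j + 1 ≠ j := by omega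
      simp only [Function.update_self, Function.update_of_ne hne]
      have := (TP.s_add (-b (j + 1))).mul (TP.s_sub (b (j + 1)))
      convert this using 1
      funext y
      congr 2
      ring
    · by_cases hji1 : j = i + 1
      · subst hji1
        have hne : i ≠ i + 1 := by omega
        simp only [Function.update_self, Function.update_of_ne hne]
        have := (TP.s_sub (b i)).mul (TP.s_add (-b i))
        convert this using 1
        funext y
        congr 2
        ring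
      · have hne : i ≠ j := fun h => hji h.symm
        have hne1 : i + 1 ≠ j := fun h => hji1 h.symm
        simp only [Function.update_of_ne hne, Function.update_of_ne hne1]
        exact (TP.const (s (b i - b (i + 1)) * s (-(b i - b (i + 1))))).mono 1
  · intro b b' h
    simp only
    rw [h i (by omega), h (i + 1) (by omega)]

theorem NN_sw {n i : ℕ} (h1 : 1 ≤ i) (h2 : i < 2 * n) (x : ℝ) (b : ℕ → ℝ) : NN n x (sw i b) = NN n x b := by
  have hS : Sep (2 * n + 1) (4 * n) (fun b => NN n x (sw i b) - NN n x b) :=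
    ((NN_Sep n x).comp_sw (by omega)).sub (NN_Sep n x)
  have h0 : ∃ b : ℕ → ℝ, (fun b : ℕ → ℝ => s (b i - b (i + 1)) * s (-(b i - b (i + 1)))) b ≠ 0 := by
    refine ⟨fun _ => 0, ?_⟩
    simp only [sub_self, neg_zero]
    have : s 0 ≠ 0 := by
      unfold s
      rw [add_zero]
      exact rc_sin_pi_third_pos.ne'
    exact mul_ne_zero this this
  have := Sep.eq_zero_of_mul hS (ss_Sep h2) h0 (fun c hc => by
    have h := NN_sw_mul h1 h2 x c
    have := mul_left_cancel₀ hc h
    rw [this, sub_self]) b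
  exact sub_eq_zero.mp this

theorem NN_ngR {n : ℕ} (h : 1 ≤ n) (x : ℝ) (b : ℕ → ℝ) : NN n x (ng (2 * n) b) = NN n x b := by
  rw [NN_def, NN_def, nz_ng (by omega), V_ngR, V_ngR]

theorem ng_conj (i : ℕ) (b : ℕ → ℝ) : ng i b = sw i (ng (i + 1) (sw i b)) := by
  funext j
  unfold ng sw
  by_cases hj : j = i
  · subst hj
    rw [Equiv.swap_apply_left, Function.update_self, Function.update_self,
      Equiv.swap_apply_right]
  · by_cases hj1 : j = i + 1
    · subst hj1
      rw [Equiv.swap_apply_right, Function.update_of_ne hj, Function.update_of_ne (by omega),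
        Equiv.swap_apply_left]
    · rw [Equiv.swap_apply_of_ne_of_ne hj hj1, Function.update_of_ne hj,
        Function.update_of_ne hj1, Equiv.swap_apply_of_ne_of_ne hj hj1]

theorem NN_ng {n i : ℕ} (h1 : 1 ≤ i) (h2 : i ≤ 2 * n) (x : ℝ) (b : ℕ → ℝ) : NN n x (ng i b) = NN n x b := by
  obtain ⟨k, hk⟩ : ∃ k, i + k = 2 * n := ⟨2 * n - i, by omega⟩
  induction k generalizing i b with
  | zero =>
    have : i = 2 * n := by omega
    subst this
    exact NN_ngR (by omega) x b
  | succ k ih =>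
    rw [ng_conj, NN_sw h1 (by omega), ih (by omega) (by omega) _ (by omega), NN_sw h1 (by omega)]

theorem NN_TP {n i : ℕ} (h1 : 1 ≤ i) (h2 : i ≤ 2 * n) (x : ℝ) (b : ℕ → ℝ) :
    TP (4 * n) (fun y => NN n x (Function.update b i y)) := NN_TP_pos h1 h2 x b

theorem NN_continuous (n : ℕ) : Continuous (fun p : ℝ × (ℕ → ℝ) => NN n p.1 p.2) := by
  simp only [NN_sum]
  refine continuous_finsetSum _ fun σ _ => continuous_finsetSum _ fun τ _ => ?_
  split_ifs with h
  · refine Continuous.mul ?_ ?_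
    · exact (V_Sep n σ).continuous.comp continuous_snd
    · exact (V_Sep n τ).continuous.comp nz_continuous
  · exact continuous_const

theorem s_mul_s_cos (y c : ℝ) :
    s (y - c) * s (-y - c) = (Real.cos (2 * y) - Real.cos (2 * c - 2 * π / 3)) / 2 := by
  unfold s
  have e1 : Real.cos (2 * y) = Real.cos ((π / 3 + (y - c)) - (π / 3 + (-y - c))) := by
    congr 1; ring
  have e2 : Real.cos (2 * c - 2 * π / 3) = Real.cos ((π / 3 + (y - c)) + (π / 3 + (-y - c))) := by
    rw [← Real.cos_neg]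
    congr 1; ring
  rw [e1, e2]
  generalize π / 3 + (y - c) = p
  generalize π / 3 + (-y - c) = q
  rw [Real.cos_sub, Real.cos_add]
  ring

theorem range_filter_one (n : ℕ) :
    (range (2 * (n + 1) + 1)).filter (fun j => j ≠ 1 ∧ j ≠ 1 + 1) = insert 0 (Ico 3 (2 * n + 3)) := by
  ext j
  simp only [mem_filter, mem_range, mem_insert, mem_Ico]
  omega

theorem K_one (n : ℕ) (b : ℕ → ℝ) : K (n + 1) 1 b =
    ((Real.cos (2 * b 0) - Real.cos (2 * b 1 - 2 * π / 3)) / 2) *
      ∏ i ∈ Ico 3 (2 * n + 3), ((Real.cos (2 * b i) - Real.cos (2 * b 1 - 2 * π / 3)) / 2) := by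
  unfold K
  rw [range_filter_one, prod_insert (by simp)]
  simp only [s_mul_s_cos]

theorem K_one_sw (n : ℕ) (x : ℝ) (b : ℕ → ℝ) (hb : b 2 = b 1 + π / 3) :
    K (n + 1) 1 (sw 1 (nz x b)) =
    ((Real.cos (2 * x) - Real.cos (2 * b 1 - 2 * π / 3)) / 2) *
      ∏ i ∈ Ico 3 (2 * n + 3), ((Real.cos (2 * b i) - Real.cos (2 * b 1 - 2 * π / 3)) / 2) := by
  rw [K_one]
  have h1 : sw 1 (nz x b) 1 = -(b 1 + π / 3) := by
    unfold sw
    rw [Equiv.swap_apply_left, nz_pos (by omega), hb]
  have h0 : sw 1 (nz x b) 0 = -x := by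
    unfold sw
    rw [Equiv.swap_apply_of_ne_of_ne (by omega) (by omega), nz_zero]
  have hj : ∀ j, 3 ≤ j → sw 1 (nz x b) j = - b j := by
    intro j hj
    unfold sw
    rw [Equiv.swap_apply_of_ne_of_ne (by omega) (by omega), nz_pos (by omega)]
  have hc : Real.cos (2 * -(b 1 + π / 3) - 2 * π / 3) = Real.cos (2 * b 1 - 2 * π / 3) := by
    rw [← Real.cos_neg, ← Real.cos_sub_two_pi]
    congr 1
    ring
  rw [h1, h0, hc]
  congr 1
  · rw [mul_neg, Real.cos_neg]
  · refine prod_congr rfl fun j hj' => ?_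
    rw [hj j (mem_Ico.mp hj').1, mul_neg, Real.cos_neg]

/-- recursion for the pair `(1, 2)` -/
theorem NN_rec (n : ℕ) (x : ℝ) (b : ℕ → ℝ) (hb : b 2 = b 1 + π / 3) :
    4 ^ (2 * n + 1) * NN (n + 1) x b = (∏ i ∈ Ico 3 (2 * n + 3), (Real.cos (2 * b i) - Real.cos (2 * b 1 - 2 * π / 3)) ^ 2) *
      (Real.cos (2 * b 0) - Real.cos (2 * b 1 - 2 * π / 3)) * (Real.cos (2 * x) - Real.cos (2 * b 1 - 2 * π / 3)) *
      NN n x (rem 1 b) := by
  have hv := V_rec (n := n) (i := 1) (by omega) b hb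
  have hw := De_V (n := n) (i := 1) (by omega) (nz x b) (by
    rw [nz_pos (by omega), nz_pos (by omega), show 1 + 1 = 2 by rfl, hb]; ring)
  rw [NN_def, NN_def, hv, hull_smul_left, hull_In (by omega) (by omega), hw, hull_smul_right,
    K_one, K_one_sw n x b hb, nz_rem_one, prod_div_distrib, prod_const, Nat.card_Ico,
    show 2 * n + 3 - 3 = 2 * n by omega, prod_pow]
  have h2 : (2 : ℝ) ^ (2 * n) ≠ 0 := by positivity
  have h4 : (4 : ℝ) ^ (2 * n + 1) = 4 * (2 ^ (2 * n) * 2 ^ (2 * n)) := by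
    rw [pow_succ, ← mul_pow]; norm_num; ring
  rw [h4]
  field_simp
  ring
end IP
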