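import Pool.Agent.Lead.IP.Zform
import Pool.Agent.Lead.IP.NformA
/-! MODULE NformB: base case and interpolation step of the formula for `NN` (see the header of NformA). -/
namespace IP
open Finset Real

/-! ### base case -/

theorem nb_W_one {σ : St} (h : σ ∈ W 1) : σ = bot 1 ∨ σ = top 1 := by
  by_cases h0 : σ 0 1
  · right
    ext i j
    constructor
    · intro _
      show i = j ∨ min i 1 + min j 1 = 1 ∨ (1 ≤ i ∧ 1 ≤ j)
      omega
    · intro _
      rcases Nat.eq_zero_or_pos i with rfl | hi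
      · rcases Nat.eq_zero_or_pos j with rfl | hj
        · exact σ.refl _
        · exact σ.trans h0 (h 1 j le_rfl hj)
      · rcases Nat.eq_zero_or_pos j with rfl | hj
        · exact σ.trans (h i 1 hi le_rfl) (σ.symm h0)
        · exact h i j hi hj
  · left
    ext i j
    constructor
    · intro hij
      show i = j ∨ (1 ≤ i ∧ 1 ≤ j)
      rcases Nat.eq_zero_or_pos i with rfl | hi
      · rcases Nat.eq_zero_or_pos j with rfl | hj
        · exact Or.inl rfl
        · exact absurd (σ.trans hij (h j 1 hj le_rfl)) h0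
      · rcases Nat.eq_zero_or_pos j with rfl | hj
        · exact absurd (σ.symm (σ.trans (h 1 i le_rfl hi) hij)) h0
        · exact Or.inr ⟨hi, hj⟩
    · intro hij
      rcases (hij : i = j ∨ (1 ≤ i ∧ 1 ≤ j)) with rfl | hij
      · exact σ.refl _
      · exact h i j hij.1 hij.2

theorem nb_bot_ne_top : bot 1 ≠ top 1 := by
  intro h
  have h1 : (top 1) 0 1 := Or.inr (Or.inl (by simp))
  rw [← h] at h1
  rcases (h1 : (0:ℕ) = 1 ∨ ((1:ℕ) ≤ 0 ∧ (1:ℕ) ≤ 1)) with h2 | h2 <;> omega

theorem nb_tot_eq_sum (n : ℕ) {v : M} (hv : v ∈ Sup (W n)) :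
    tot v = ∑ σ ∈ (W_finite n).toFinset, v σ := by
  have hv' : v.support ⊆ (W_finite n).toFinset := by
    intro σ hσ
    rw [Set.Finite.mem_toFinset]
    exact (Finsupp.mem_supported ℝ v).1 hv hσ
  have h1 : tot v = v.sum fun _ x => x := by
    unfold tot
    rw [Finsupp.lsum_apply]
    rfl
  rw [h1, Finsupp.sum_of_support_subset v hv']
  intro _ _
  rfl

open Classical in
theorem nb_toFinset : (W_finite 1).toFinset = {bot 1, top 1} := by
  ext σ
  rw [Set.Finite.mem_toFinset, mem_insert, mem_singleton]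
  constructor
  · exact nb_W_one
  · rintro (rfl | rfl)
    · exact bot_W 1
    · exact top_W 1

theorem nb_tot_one {v : M} (hv : v ∈ Sup (W 1)) : tot v = v (bot 1) + v (top 1) := by
  classical
  rw [nb_tot_eq_sum 1 hv, nb_toFinset, sum_pair nb_bot_ne_top]

theorem nb_hull_one {v w : M} (hv : v ∈ Sup (W 1)) (hw : w ∈ Sup (W 1)) :
    hull 1 v w = tot v * tot w - v (bot 1) * w (bot 1) := by
  classical
  have ht : (top 1) 0 1 := Or.inr (Or.inl (by simp))
  have h1 : ¬ (bot 1 ⊔ bot 1) 0 1 := by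
    rw [sup_idem]
    intro h
    rcases (h : (0:ℕ) = 1 ∨ ((1:ℕ) ≤ 0 ∧ (1:ℕ) ≤ 1)) with h2 | h2 <;> omega
  have h2 : ∀ σ : St, (top 1 ⊔ σ) 0 1 := by
    intro σ
    have : top 1 ≤ top 1 ⊔ σ := le_sup_left
    rw [Setoid.le_def] at this
    exact this ht
  have h3 : ∀ σ : St, (σ ⊔ top 1) 0 1 := by
    intro σ
    rw [sup_comm]
    exact h2 σ
  rw [hull_eq_sum 1 hv hw, nb_toFinset, sum_pair nb_bot_ne_top, sum_pair nb_bot_ne_top,
    sum_pair nb_bot_ne_top, if_neg h1, if_pos (h3 _), if_pos (h2 _), if_pos (h2 _),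
    nb_tot_one hv, nb_tot_one hw]
  ring

theorem nb_four_ss (x a : ℝ) : 4 * (s (x - a) * s (-x - a)) =
    2 * Real.cos (2 * x) - 2 * Real.cos (2 * a - 2 * π / 3) := by
  unfold s
  have h := Real.cos_sub_cos (2 * x) (2 * a - 2 * π / 3)
  rw [show (2 * x + (2 * a - 2 * π / 3)) / 2 = -(π / 3 + (-x - a)) by ring,
    show (2 * x - (2 * a - 2 * π / 3)) / 2 = π / 3 + (x - a) by ring, Real.sin_neg] at h
  rw [← mul_sub, h]
  ring

theorem nb_cos_Sep (L i : ℕ) (hi : i < L) : Sep L 2 (fun b => 2 * Real.cos (2 * b i)) := by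
  have h1 : TP 2 (fun x => Real.cos (2 * x)) := by
    have := TP.cos_mul 2
    simpa using this
  have h2 := (Sep.of_TP (m := 1) hi h1).smul 2
  exact h2

theorem nb_Z_one (b : ℕ → ℝ) : 4 * Z 1 b =
    2 * Real.cos (2 * b 0) + 2 * Real.cos (2 * b 1) + 2 * Real.cos (2 * b 2) := by
  have hF : Sep 3 2 (fun b => 4 * Z 1 b -
      (2 * Real.cos (2 * b 0) + 2 * Real.cos (2 * b 1) + 2 * Real.cos (2 * b 2))) :=
    ((Z_Sep 1).smul 4).sub (((nb_cos_Sep 3 0 (by omega)).add (nb_cos_Sep 3 1 (by omega))).add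
      (nb_cos_Sep 3 2 (by omega)))
  have hG := Dl_Sep 3
  have h := hF.eq_zero_of_mul hG ⟨fun i => (i + 1 : ℝ) * (π / 8), by
    rw [Dl_ne_zero_iff]
    have hs : ∀ k : ℤ, ¬ (8 ∣ k) → Real.sin (k * (π / 8)) ≠ 0 := by
      intro k hk h0
      rw [Real.sin_eq_zero_iff] at h0
      obtain ⟨m, hm⟩ := h0
      apply hk
      have hpi := Real.pi_pos
      have : (m : ℝ) * 8 = k := by
        field_simp at hm
        linarith
      exact ⟨m, by exact_mod_cast (by linarith : (k : ℝ) = 8 * m)⟩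
    constructor
    · intro i hi
      have := hs (2 * (i + 1)) (by omega)
      push_cast at this
      rwa [mul_assoc] at this
    · intro i j hi hj hij
      have h1 := hs (i - j) (by omega)
      have h2 := hs (i + 1 + (j + 1)) (by omega)
      push_cast at h1 h2
      constructor
      · rwa [show ((i : ℝ) + 1) * (π / 8) - (j + 1) * (π / 8) = (i - j) * (π / 8) by ring]
      · rwa [show ((i : ℝ) + 1) * (π / 8) + (j + 1) * (π / 8) = (i + 1 + (j + 1)) * (π / 8) by ring]⟩
    (by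
      intro b hb
      have h1 := Z_form 1 b
      rw [show 2 * 1 + 1 = 3 by norm_num, chi_three] at h1
      simp only [one_pow, pow_one] at h1
      have h2 : Dl 3 b * (4 * Z 1 b -
        (2 * Real.cos (2 * b 0) + 2 * Real.cos (2 * b 1) + 2 * Real.cos (2 * b 2))) = 0 := by
        linear_combination h1
      exact (mul_eq_zero.1 h2).resolve_left hb) b
  linarith

theorem nb_bot_one (b : ℕ → ℝ) : 4 * V 1 b (bot 1) =
    2 * Real.cos (2 * b 2) + 2 * Real.cos (2 * b 1 - π / 3) := by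
  have h1 : Z 1 b = V 1 b (bot 1) + V 1 b (top 1) := nb_tot_one (V_Sup 1 b)
  have h2 := nb_Z_one b
  have h3 : V 1 b (top 1) = s (b 0 - b 1) * s (-b 0 - b 1) := by
    rw [V_top]
    unfold f0
    simp [prod_range_succ]
  have h4 := nb_four_ss (b 0) (b 1)
  have h5 : Real.cos (2 * b 1 - 2 * π / 3) = Real.cos (2 * b 1 - π / 3) - Real.cos (2 * b 1) := by
    rw [show 2 * b 1 - 2 * π / 3 = (2 * b 1 - π / 3) - π / 3 by ring,
      show Real.cos (2 * b 1) = Real.cos ((2 * b 1 - π / 3) + π / 3) by congr 1; ring,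
      Real.cos_sub (2 * b 1 - π / 3), Real.cos_add (2 * b 1 - π / 3), Real.cos_pi_div_three]
    ring
  rw [h3] at h1
  rw [h5] at h4
  linarith

theorem NN_one (x : ℝ) (b : ℕ → ℝ) : 16 * NN 1 x b =
    3 + ∑ j ∈ range 4, ∑ i ∈ range j, (2 * Real.cos (2 * cons x b i)) * (2 * Real.cos (2 * cons x b j)) := by
  unfold NN
  rw [nb_hull_one (V_Sup 1 _) (V_Sup 1 _)]
  have h1 := nb_Z_one b
  have h2 := nb_Z_one (fun j => - setZ x b j)
  have h3 := nb_bot_one b
  have h4 := nb_bot_one (fun j => - setZ x b j)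
  have e0 : setZ x b 0 = x := if_pos rfl
  have e1 : setZ x b 1 = b 1 := if_neg (by norm_num)
  have e2 : setZ x b 2 = b 2 := if_neg (by norm_num)
  simp only [e0, e1, e2, mul_neg, Real.cos_neg] at h2 h4
  rw [show -(2 * b 1) - π / 3 = -(2 * b 1 + π / 3) by ring, Real.cos_neg] at h4
  have h5 : 16 * (tot (V 1 b) * tot (V 1 fun j => - setZ x b j) -
      V 1 b (bot 1) * V 1 (fun j => - setZ x b j) (bot 1)) =
      (4 * Z 1 b) * (4 * Z 1 (fun j => - setZ x b j)) -
      (4 * V 1 b (bot 1)) * (4 * V 1 (fun j => - setZ x b j) (bot 1)) := by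
    unfold Z
    ring
  rw [h5, h1, h2, h3, h4]
  have h6 : Real.cos (2 * b 1 - π / 3) + Real.cos (2 * b 1 + π / 3) = Real.cos (2 * b 1) := by
    rw [Real.cos_sub, Real.cos_add, Real.cos_pi_div_three]; ring
  have h7 : 4 * (Real.cos (2 * b 1 - π / 3) * Real.cos (2 * b 1 + π / 3)) =
      4 * Real.cos (2 * b 1) ^ 2 - 3 := by
    rw [Real.cos_sub, Real.cos_add, Real.cos_pi_div_three, Real.sin_pi_div_three]
    have h8 : Real.sqrt 3 ^ 2 = 3 := Real.sq_sqrt (by norm_num)
    have h9 := Real.sin_sq_add_cos_sq (2 * b 1)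
    linear_combination (-(Real.sin (2 * b 1)) ^ 2) * h8 - 3 * h9
  simp only [sum_range_succ, sum_range_zero, cons, if_true, one_ne_zero, if_false,
    OfNat.ofNat_ne_zero]
  norm_num
  linear_combination (-4 * Real.cos (2 * b 2)) * h6 - h7

/-! ### interpolation step -/

noncomputable def FN (n : ℕ) (x : ℝ) (b : ℕ → ℝ) : ℝ :=
  4 ^ (2 * n ^ 2) * NN n x b * (Dl (2 * n) (tl b) * Dl (2 * n + 2) (cons x b)) -
    Dt (2 * n) (tl b) * Dt (2 * n + 2) (cons x b)

theorem nb_sw_ne {i j : ℕ} (h1 : j ≠ i) (h2 : j ≠ i + 1) (b : ℕ → ℝ) : sw i b j = b j := by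
  unfold sw
  rw [Equiv.swap_apply_of_ne_of_ne h1 h2]

theorem nb_sw_left (i : ℕ) (b : ℕ → ℝ) : sw i b i = b (i + 1) := by
  unfold sw
  rw [Equiv.swap_apply_left]

theorem nb_sw_right (i : ℕ) (b : ℕ → ℝ) : sw i b (i + 1) = b i := by
  unfold sw
  rw [Equiv.swap_apply_right]

theorem tl_sw (i : ℕ) (b : ℕ → ℝ) : tl (sw (i + 1) b) = sw i (tl b) := by
  funext l
  unfold tl
  by_cases h1 : l = i
  · subst h1
    rw [nb_sw_left, nb_sw_left]
  · by_cases h2 : l = i + 1
    · subst h2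
      rw [nb_sw_right, nb_sw_right]
    · rw [nb_sw_ne (by omega) (by omega), nb_sw_ne h1 h2]

theorem cons_sw (x : ℝ) (i : ℕ) (b : ℕ → ℝ) : cons x (sw i b) = sw (i + 1) (cons x b) := by
  funext l
  by_cases h1 : l = i + 1
  · subst h1
    rw [nb_sw_left]
    unfold cons
    rw [if_neg (by omega), if_neg (by omega), Nat.add_sub_cancel, Nat.add_sub_cancel, nb_sw_left]
  · by_cases h2 : l = i + 1 + 1
    · subst h2
      rw [nb_sw_right]
      unfold cons
      rw [if_neg (by omega), if_neg (by omega), Nat.add_sub_cancel, Nat.add_sub_cancel, nb_sw_right]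
    · rw [nb_sw_ne h1 h2]
      unfold cons
      by_cases h3 : l = 0
      · rw [if_pos h3, if_pos h3]
      · rw [if_neg h3, if_neg h3, nb_sw_ne (by omega) (by omega)]

theorem tl_ng (i : ℕ) (b : ℕ → ℝ) : tl (ng (i + 1) b) = ng i (tl b) := by
  funext l
  unfold tl ng
  by_cases h1 : l = i
  · subst h1
    rw [Function.update_self, Function.update_self]
  · rw [Function.update_of_ne (by omega), Function.update_of_ne h1]

theorem cons_ng (x : ℝ) (i : ℕ) (b : ℕ → ℝ) : cons x (ng i b) = ng (i + 1) (cons x b) := by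
  funext l
  unfold ng
  by_cases h1 : l = i + 1
  · subst h1
    rw [Function.update_self]
    unfold cons
    rw [if_neg (by omega), if_neg (by omega), Nat.add_sub_cancel, Function.update_self]
  · rw [Function.update_of_ne h1]
    unfold cons
    by_cases h3 : l = 0
    · rw [if_pos h3, if_pos h3]
    · rw [if_neg h3, if_neg h3, Function.update_of_ne (by omega)]

theorem FN_sw {n i : ℕ} (h2 : i + 1 < 2 * n) (x : ℝ) (b : ℕ → ℝ) :
    FN n x (sw (i + 1) b) = FN n x b := by
  unfold FN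
  rw [NN_sw (by omega) h2, tl_sw, cons_sw, Dl_sw (by omega), Dl_sw (by omega), Dt_sw (by omega),
    Dt_sw (by omega)]
  ring

theorem FN_ng {n i : ℕ} (h2 : i + 1 ≤ 2 * n) (x : ℝ) (b : ℕ → ℝ) :
    FN n x (ng (i + 1) b) = FN n x b := by
  unfold FN
  rw [NN_ng (by omega) h2, tl_ng, cons_ng, Dl_ng (by omega), Dl_ng (by omega), Dt_ng (by omega),
    Dt_ng (by omega)]
  ring

/-- `(b 1, b 2, x, b 0, b 3, ...)` -/
noncomputable def cc (x : ℝ) (b : ℕ → ℝ) : ℕ → ℝ := sw 1 (sw 2 (sw 0 (sw 1 (cons x b))))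

theorem cc_zero (x : ℝ) (b : ℕ → ℝ) : cc x b 0 = b 1 := by
  simp [cc, sw, cons, Equiv.swap_apply_def]
theorem cc_one (x : ℝ) (b : ℕ → ℝ) : cc x b 1 = b 2 := by
  simp [cc, sw, cons, Equiv.swap_apply_def]
theorem cc_two (x : ℝ) (b : ℕ → ℝ) : cc x b 2 = x := by
  simp [cc, sw, cons, Equiv.swap_apply_def]
theorem cc_three (x : ℝ) (b : ℕ → ℝ) : cc x b 3 = b 0 := by
  simp [cc, sw, cons, Equiv.swap_apply_def]
theorem cc_add_four (x : ℝ) (b : ℕ → ℝ) (k : ℕ) : cc x b (k + 4) = b (k + 3) := by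
  unfold cc
  rw [nb_sw_ne (by omega) (by omega), nb_sw_ne (by omega) (by omega), nb_sw_ne (by omega) (by omega),
    nb_sw_ne (by omega) (by omega)]
  unfold cons
  rw [if_neg (by omega)]
  rfl

theorem Dt_cc (m : ℕ) (hm : 4 ≤ m) (x : ℝ) (b : ℕ → ℝ) : Dt m (cc x b) = Dt m (cons x b) := by
  unfold cc
  rw [Dt_sw (by omega), Dt_sw (by omega), Dt_sw (by omega), Dt_sw (by omega)]
  ring

theorem Dl_cc (m : ℕ) (hm : 4 ≤ m) (x : ℝ) (b : ℕ → ℝ) : Dl m (cc x b) = Dl m (cons x b) := by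
  unfold cc
  rw [Dl_sw (by omega), Dl_sw (by omega), Dl_sw (by omega), Dl_sw (by omega)]
  ring

theorem rem_zero_cc (x : ℝ) (b : ℕ → ℝ) : rem 0 (cc x b) = cons x (rem 1 b) := by
  funext k
  have h : rem 0 (cc x b) k = cc x b (k + 2) := by simp [rem]
  rw [h]
  rcases k with _ | _ | k
  · rw [cc_two]; simp [cons]
  · rw [cc_three]; simp [cons, rem]
  · rw [show k + 1 + 1 + 2 = k + 4 by ring, cc_add_four]
    unfold cons rem
    rw [if_neg (by omega), if_neg (by omega)]
    congr 1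

theorem rem_zero_tl (b : ℕ → ℝ) : rem 0 (tl b) = tl (rem 1 b) := by
  funext k
  simp [rem, tl]

theorem nb_cos_six (x a : ℝ) : 2 * (Real.cos (6 * x) - Real.cos (6 * a)) =
    (2 * (Real.cos (2 * x) - Real.cos (2 * a))) *
    (2 * (Real.cos (2 * x) - Real.cos (2 * (a + π / 3)))) *
    (2 * (Real.cos (2 * x) - Real.cos (2 * a - 2 * π / 3))) := by
  have h1 : Real.cos (6 * x) = 4 * Real.cos (2 * x) ^ 3 - 3 * Real.cos (2 * x) := by
    rw [← Real.cos_three_mul]; congr 1; ring
  have h2 : Real.cos (6 * a) = 4 * Real.cos (2 * a) ^ 3 - 3 * Real.cos (2 * a) := by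
    rw [← Real.cos_three_mul]; congr 1; ring
  have h3 : Real.cos (2 * π / 3) = -1 / 2 := by
    rw [show 2 * π / 3 = π - π / 3 by ring, Real.cos_pi_sub, Real.cos_pi_div_three]; ring
  have h4 : Real.sin (2 * π / 3) = Real.sqrt 3 / 2 := by
    rw [show 2 * π / 3 = π - π / 3 by ring, Real.sin_pi_sub, Real.sin_pi_div_three]
  rw [h1, h2, show 2 * (a + π / 3) = 2 * a + 2 * π / 3 by ring, Real.cos_add, Real.cos_sub, h3, h4]
  have h5 : Real.sqrt 3 ^ 2 = 3 := Real.sq_sqrt (by norm_num)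
  have h6 := Real.sin_sq_add_cos_sq (2 * a)
  have h7 : Real.sin (2 * a) ^ 2 = 1 - Real.cos (2 * a) ^ 2 := by linarith
  linear_combination ((2 * Real.cos (2 * x) - 2 * Real.cos (2 * a)) * Real.sin (2 * a) ^ 2) * h5 +
    (3 * (2 * Real.cos (2 * x) - 2 * Real.cos (2 * a))) * h7

/-- the recursions of both determinants with a common factor -/
theorem nb_rec (m : ℕ) (b : ℕ → ℝ) (hb : b 1 = b 0 + π / 3) : ∃ S : ℝ,
    Dl (m + 2) b = S * Dl m (rem 0 b) ∧
    Dt (m + 2) b = S * (∏ i ∈ Ico 2 (m + 2), 2 * (Real.cos (2 * b i) - Real.cos (2 * b 0 - 2 * π / 3))) *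
      Dt m (rem 0 b) := by
  refine ⟨Dl 2 b * (∏ i ∈ Ico 2 (m + 2), (2 * (Real.cos (2 * b i) - Real.cos (2 * b 0))) *
      (2 * (Real.cos (2 * b i) - Real.cos (2 * b 1)))), Dl_rec m b, ?_⟩
  have hp : (∏ i ∈ Ico 2 (m + 2), 2 * (Real.cos (6 * b i) - Real.cos (6 * b 0))) =
      (∏ i ∈ Ico 2 (m + 2), (2 * (Real.cos (2 * b i) - Real.cos (2 * b 0))) *
      (2 * (Real.cos (2 * b i) - Real.cos (2 * b 1)))) *
      ∏ i ∈ Ico 2 (m + 2), 2 * (Real.cos (2 * b i) - Real.cos (2 * b 0 - 2 * π / 3)) := by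
    rw [← prod_mul_distrib]
    refine prod_congr rfl fun i _ => ?_
    rw [nb_cos_six, hb]
  rw [Dt_rec m b hb, Dt_two, hp]
  ring

theorem FN_base (n : ℕ) (ih : ∀ x b, FN n x b = 0) (x : ℝ) (b : ℕ → ℝ) (h : b 2 = b 1 + π / 3) :
    FN (n + 1) x b = 0 := by
  obtain ⟨SA, hA1, hA2⟩ := nb_rec (2 * n) (tl b) (by simpa [tl] using h)
  obtain ⟨SB, hB1, hB2⟩ := nb_rec (2 * n + 2) (cc x b) (by rw [cc_one, cc_zero, h])
  have h1 := ih x (rem 1 b)
  have h2 := NN_rec n x b h
  unfold FN at h1 ⊢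
  rw [show 2 * (n + 1) = 2 * n + 2 by ring, hA1, hA2, ← Dl_cc _ (by omega), ← Dt_cc _ (by omega),
    hB1, hB2, rem_zero_tl, rem_zero_cc]
  have e0 : tl b 0 = b 1 := rfl
  rw [cc_zero, e0]
  set C : ℝ := Real.cos (2 * b 1 - 2 * π / 3) with hC
  have h3 : (∏ i ∈ Ico 2 (2 * n + 2), 2 * (Real.cos (2 * tl b i) - C)) =
      4 ^ n * ∏ i ∈ Ico 3 (2 * n + 3), (Real.cos (2 * b i) - C) := by
    rw [prod_Ico_eq_prod_range, prod_Ico_eq_prod_range, show 2 * n + 2 - 2 = 2 * n by omega,
      show 2 * n + 3 - 3 = 2 * n by omega, prod_mul_distrib, prod_const, card_range, pow_mul]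
    congr 1
    · norm_num
    · refine prod_congr rfl fun i _ => ?_
      unfold tl
      rw [show 2 + i + 1 = 3 + i by ring]
  have h4 : (∏ i ∈ Ico 2 (2 * n + 2 + 2), 2 * (Real.cos (2 * cc x b i) - C)) =
      4 ^ (n + 1) * (Real.cos (2 * x) - C) * (Real.cos (2 * b 0) - C) *
        ∏ i ∈ Ico 3 (2 * n + 3), (Real.cos (2 * b i) - C) := by
    rw [prod_Ico_eq_prod_range, prod_Ico_eq_prod_range, show 2 * n + 2 + 2 - 2 = 2 * n + 1 + 1 by omega,
      show 2 * n + 3 - 3 = 2 * n by omega, prod_range_succ', prod_range_succ']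
    rw [show 2 + 0 = 2 by rfl, show 2 + (0 + 1) = 3 by rfl, cc_two, cc_three]
    have h5 : ∏ k ∈ range (2 * n), 2 * (Real.cos (2 * cc x b (2 + (k + 1 + 1))) - C) =
        4 ^ n * ∏ k ∈ range (2 * n), (Real.cos (2 * b (3 + k)) - C) := by
      rw [prod_mul_distrib, prod_const, card_range, pow_mul]
      congr 1
      · norm_num
      · refine prod_congr rfl fun i _ => ?_
        rw [show 2 + (i + 1 + 1) = i + 4 by ring, cc_add_four, add_comm 3 i]
    rw [h5, pow_succ]
    ring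
  rw [h3, h4]
  have h6 : (∏ i ∈ Ico 3 (2 * n + 3), (Real.cos (2 * b i) - C) ^ 2) =
      (∏ i ∈ Ico 3 (2 * n + 3), (Real.cos (2 * b i) - C)) ^ 2 := by
    rw [prod_pow]
  rw [h6] at h2
  set Pi : ℝ := ∏ i ∈ Ico 3 (2 * n + 3), (Real.cos (2 * b i) - C) with hPi
  have h7 : (4 : ℝ) ^ (2 * (n + 1) ^ 2) = 4 ^ (2 * n ^ 2) * 4 ^ (2 * n + 1) * 4 ^ (2 * n + 1) := by
    rw [← pow_add, ← pow_add]
    congr 1
    ring
  have h8 : (4 : ℝ) ^ (2 * n + 1) = 4 ^ n * 4 ^ (n + 1) := by
    rw [← pow_add]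
    congr 1
    ring
  rw [h7]
  linear_combination (4 ^ (2 * n ^ 2) * 4 ^ (2 * n + 1) *
    (SA * Dl (2 * n) (tl (rem 1 b)) * (SB * Dl (2 * n + 2) (cons x (rem 1 b))))) * h2 +
    (SA * SB * 4 ^ (2 * n + 1) * Pi ^ 2 * (Real.cos (2 * b 0) - C) * (Real.cos (2 * x) - C)) * h1 +
    (SA * SB * Pi ^ 2 * (Real.cos (2 * b 0) - C) * (Real.cos (2 * x) - C) *
      Dt (2 * n) (tl (rem 1 b)) * Dt (2 * n + 2) (cons x (rem 1 b))) * h8

theorem FN_k (n : ℕ) (ih : ∀ x b, FN n x b = 0) : ∀ k, 2 ≤ k → k ≤ 2 * n + 2 → ∀ (x : ℝ) (b : ℕ → ℝ),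
    b k = b 1 + π / 3 → FN (n + 1) x b = 0 := by
  intro k hk
  induction k, hk using Nat.le_induction with
  | base => intro _ x b hb; exact FN_base n ih x b hb
  | succ k hk ihk =>
    intro hk2 x b hb
    obtain ⟨l, rfl⟩ : ∃ l, k = l + 1 := ⟨k - 1, by omega⟩
    have h1 := ihk (by omega) x (sw (l + 1) b) (by
      rw [nb_sw_left, nb_sw_ne (by omega) (by omega)]
      exact hb)
    rwa [FN_sw (by omega)] at h1

/-- vanishing at all the points `± b k ± π/3` -/
theorem FN_pts (n : ℕ) (ih : ∀ x b, FN n x b = 0) {k : ℕ} (h1 : 2 ≤ k) (h2 : k ≤ 2 * n + 2) (e f : Bool)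
    (x : ℝ) (b : ℕ → ℝ)
    (hb : b 1 = (if e then b k else -b k) + (if f then π / 3 else -(π / 3))) :
    FN (n + 1) x b = 0 := by
  have a0 : ∀ c : ℕ → ℝ, ng (0 + 1) c 1 = -c 1 := fun c => by simp [ng]
  have a1 : ∀ c : ℕ → ℝ, ng (0 + 1) c k = c k := fun c => by
    unfold ng; rw [Function.update_of_ne (by omega)]
  obtain ⟨l, rfl⟩ : ∃ l, k = l + 1 := ⟨k - 1, by omega⟩
  have a2 : ∀ c : ℕ → ℝ, ng (l + 1) c 1 = c 1 := fun c => by
    unfold ng; rw [Function.update_of_ne (by omega)]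
  have a3 : ∀ c : ℕ → ℝ, ng (l + 1) c (l + 1) = -c (l + 1) := fun c => by simp [ng]
  cases e <;> cases f <;> simp at hb
  · have h3 := FN_k n ih (l + 1) h1 h2 x (ng (l + 1) b) (by rw [a2, a3]; linarith)
    rwa [FN_ng (by omega)] at h3
  · have h3 := FN_k n ih (l + 1) h1 h2 x (ng (0 + 1) b) (by rw [a0, a1]; linarith)
    rwa [FN_ng (by omega)] at h3
  · exact FN_k n ih (l + 1) h1 h2 x b (by linarith)
  · have h3 := FN_k n ih (l + 1) h1 h2 x (ng (0 + 1) (ng (l + 1) b)) (by
      rw [a0, a1, a2, a3]; linarith)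
    rwa [FN_ng (by omega), FN_ng (by omega)] at h3

/-- genericity -/
def Gn (u : ℕ → ℝ) : Prop := ∀ (i j : ℕ) (k : ℤ), Real.sin (u i + u j + k * (π / 3)) ≠ 0 ∧
  (i ≠ j → Real.sin (u i - u j + k * (π / 3)) ≠ 0)

theorem Gn.add {u : ℕ → ℝ} (h : Gn u) (i j : ℕ) (k : ℤ) : Real.sin (u i + u j + k * (π / 3)) ≠ 0 :=
  (h i j k).1

theorem Gn.sub {u : ℕ → ℝ} (h : Gn u) {i j : ℕ} (hij : i ≠ j) (k : ℤ) :
    Real.sin (u i - u j + k * (π / 3)) ≠ 0 := (h i j k).2 hij

/-- generic directions -/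
theorem Gn_line (u : ℕ → ℝ) : {t : ℝ | ¬ Gn (fun i => u i + t * ((i : ℝ) + 1))}.Countable := by
  have hsub : {t : ℝ | ¬ Gn (fun i => u i + t * ((i : ℝ) + 1))} ⊆
      ⋃ i : ℕ, ⋃ j : ℕ, ⋃ k : ℤ, ({t : ℝ | Real.sin ((u i + u j + k * (π / 3)) +
          t * (((i : ℝ) + 1) + ((j : ℝ) + 1))) = 0} ∪
        {t : ℝ | i ≠ j ∧ Real.sin ((u i - u j + k * (π / 3)) +
          t * (((i : ℝ) + 1) - ((j : ℝ) + 1))) = 0}) := by
    intro t ht
    rw [Set.mem_ofPred_eq] at ht
    unfold Gn at ht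
    push Not at ht
    obtain ⟨i, j, k, hk⟩ := ht
    simp only [Set.mem_iUnion]
    refine ⟨i, j, k, ?_⟩
    by_cases h1 : Real.sin ((u i + u j + k * (π / 3)) + t * (((i : ℝ) + 1) + ((j : ℝ) + 1))) = 0
    · exact Or.inl h1
    · right
      obtain ⟨h2, h3⟩ := hk (by
        rw [show u i + t * ((i : ℝ) + 1) + (u j + t * ((j : ℝ) + 1)) + k * (π / 3) =
          (u i + u j + k * (π / 3)) + t * (((i : ℝ) + 1) + ((j : ℝ) + 1)) by ring]
        exact h1)
      refine ⟨h2, ?_⟩
      rw [← h3]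
      congr 1
      ring
  refine Set.Countable.mono hsub ?_
  refine Set.countable_iUnion fun i => Set.countable_iUnion fun j => Set.countable_iUnion fun k => ?_
  refine Set.Countable.union ?_ ?_
  · exact countable_sin_zero' _ _ (Or.inl (by positivity))
  · by_cases hij : i = j
    · have : {t : ℝ | i ≠ j ∧ Real.sin ((u i - u j + k * (π / 3)) +
          t * (((i : ℝ) + 1) - ((j : ℝ) + 1))) = 0} = ∅ := by
        ext t
        simp [hij]
      rw [this]
      exact Set.countable_empty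
    · refine Set.Countable.mono ?_ (countable_sin_zero' (u i - u j + k * (π / 3))
        (((i : ℝ) + 1) - ((j : ℝ) + 1)) (Or.inl ?_))
      · intro t ht
        exact ht.2
      · intro h
        apply hij
        have : (i : ℝ) = j := by linarith
        exact_mod_cast this

theorem sin_k_pi (k : ℤ) (hk : ¬ (3 ∣ k)) : Real.sin (k * (π / 3)) ≠ 0 := by
  intro h0
  rw [Real.sin_eq_zero_iff] at h0
  obtain ⟨m, hm⟩ := h0
  apply hk
  have hpi := Real.pi_pos
  have : (m : ℝ) * 3 = k := by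
    field_simp at hm
    linarith
  exact ⟨m, by exact_mod_cast (by linarith : (k : ℝ) = 3 * m)⟩

/-- a label: index, sign of the coordinate, sign of `π/3` -/
noncomputable def lb (u : ℕ → ℝ) (l : ℕ × Bool × Bool) : ℝ :=
  (if l.2.1 then u l.1 else -u l.1) + (if l.2.2 then π / 3 else -(π / 3))

theorem lb_sub {u : ℕ → ℝ} (h : Gn u) {l l' : ℕ × Bool × Bool} (hl : l ≠ l') :
    Real.sin (lb u l - lb u l') ≠ 0 := by
  obtain ⟨i, e, f⟩ := l
  obtain ⟨j, e', f'⟩ := l'
  have hc : ∃ k : ℤ, (if f then π / 3 else -(π / 3)) - (if f' then π / 3 else -(π / 3)) =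
      k * (π / 3) ∧ (f ≠ f' → ¬ (3 ∣ k)) := by
    cases f <;> cases f'
    · exact ⟨0, by simp, fun h => absurd rfl h⟩
    · exact ⟨-2, by push_cast; simp; ring, fun _ => by decide⟩
    · exact ⟨2, by push_cast; simp; ring, fun _ => by decide⟩
    · exact ⟨0, by simp, fun h => absurd rfl h⟩
  obtain ⟨k, hk, hk3⟩ := hc
  have e1 : lb u (i, e, f) - lb u (j, e', f') =
      ((if e then u i else -u i) - (if e' then u j else -u j)) + k * (π / 3) := by
    rw [← hk]
    unfold lb
    ring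
  rw [e1]
  cases e <;> cases e'
  · by_cases hij : i = j
    · subst hij
      have hf : f ≠ f' := fun hf => hl (by rw [hf])
      simpa using sin_k_pi k (hk3 hf)
    · have := h.sub (Ne.symm hij) k
      simp only [Bool.false_eq_true, if_false]
      rwa [show -u i - -u j + k * (π / 3) = u j - u i + k * (π / 3) by ring]
  · have := h.add i j (-k)
    simp only [Bool.false_eq_true, if_false, if_true]
    rw [show -u i - u j + k * (π / 3) = -(u i + u j + ((-k : ℤ) : ℝ) * (π / 3)) by push_cast; ring,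
      Real.sin_neg]
    exact neg_ne_zero.2 this
  · have := h.add i j k
    simp only [Bool.false_eq_true, if_false, if_true]
    rwa [show u i - -u j + k * (π / 3) = u i + u j + k * (π / 3) by ring]
  · by_cases hij : i = j
    · subst hij
      have hf : f ≠ f' := fun hf => hl (by rw [hf])
      simpa using sin_k_pi k (hk3 hf)
    · have := h.sub hij k
      simp only [if_true]
      exact this

theorem lb_two {u : ℕ → ℝ} (h : Gn u) (l : ℕ × Bool × Bool) : Real.sin (2 * lb u l) ≠ 0 := by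
  obtain ⟨i, e, f⟩ := l
  cases e <;> cases f <;> simp only [lb, Bool.false_eq_true, if_false, if_true]
  · have := h.add i i 2
    rw [show 2 * (-u i + -(π / 3)) = -(u i + u i + ((2 : ℤ) : ℝ) * (π / 3)) by push_cast; ring,
      Real.sin_neg]
    exact neg_ne_zero.2 this
  · have := h.add i i (-2)
    rw [show 2 * (-u i + π / 3) = -(u i + u i + ((-2 : ℤ) : ℝ) * (π / 3)) by push_cast; ring,
      Real.sin_neg]
    exact neg_ne_zero.2 this
  · have := h.add i i (-2)
    rwa [show 2 * (u i + -(π / 3)) = (u i + u i + ((-2 : ℤ) : ℝ) * (π / 3)) by push_cast; ring]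
  · have := h.add i i 2
    rwa [show 2 * (u i + π / 3) = (u i + u i + ((2 : ℤ) : ℝ) * (π / 3)) by push_cast; ring]

theorem lb_sub_coord {u : ℕ → ℝ} (h : Gn u) (l : ℕ × Bool × Bool) (j : ℕ) :
    Real.sin (lb u l - u j) ≠ 0 ∧ Real.sin (lb u l + u j) ≠ 0 := by
  have key : ∀ (i : ℕ) (k : ℤ), ¬ (3 ∣ k) → Real.sin (u i - u j + k * (π / 3)) ≠ 0 := by
    intro i k hk
    by_cases hij : i = j
    · subst hij
      simpa using sin_k_pi k hk
    · exact h.sub hij k
  have key' : ∀ (i : ℕ) (k : ℤ), ¬ (3 ∣ k) → Real.sin (u j - u i + k * (π / 3)) ≠ 0 := by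
    intro i k hk
    by_cases hij : i = j
    · subst hij
      simpa using sin_k_pi k hk
    · exact h.sub (Ne.symm hij) k
  have n1 : ¬ ((3 : ℤ) ∣ 1) := by decide
  have n2 : ¬ ((3 : ℤ) ∣ -1) := by decide
  obtain ⟨i, e, f⟩ := l
  cases e <;> cases f <;> simp only [lb, Bool.false_eq_true, if_false, if_true]
  · constructor
    · rw [show -u i + -(π / 3) - u j = -(u i + u j + ((1 : ℤ) : ℝ) * (π / 3)) by push_cast; ring,
        Real.sin_neg]
      exact neg_ne_zero.2 (h.add i j 1)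
    · rw [show -u i + -(π / 3) + u j = (u j - u i + ((-1 : ℤ) : ℝ) * (π / 3)) by push_cast; ring]
      exact key' i (-1) n2
  · constructor
    · rw [show -u i + π / 3 - u j = -(u i + u j + ((-1 : ℤ) : ℝ) * (π / 3)) by push_cast; ring,
        Real.sin_neg]
      exact neg_ne_zero.2 (h.add i j (-1))
    · rw [show -u i + π / 3 + u j = (u j - u i + ((1 : ℤ) : ℝ) * (π / 3)) by push_cast; ring]
      exact key' i 1 n1
  · constructor
    · rw [show u i + -(π / 3) - u j = (u i - u j + ((-1 : ℤ) : ℝ) * (π / 3)) by push_cast; ring]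
      exact key i (-1) n2
    · rw [show u i + -(π / 3) + u j = (u i + u j + ((-1 : ℤ) : ℝ) * (π / 3)) by push_cast; ring]
      exact h.add i j (-1)
  · constructor
    · rw [show u i + π / 3 - u j = (u i - u j + ((1 : ℤ) : ℝ) * (π / 3)) by push_cast; ring]
      exact key i 1 n1
    · rw [show u i + π / 3 + u j = (u i + u j + ((1 : ℤ) : ℝ) * (π / 3)) by push_cast; ring]
      exact h.add i j 1

/-- nonvanishing of `Dl` at a label -/
theorem Dl_lb {u : ℕ → ℝ} (h : Gn u) (l : ℕ × Bool × Bool) (m i : ℕ) (g : ℕ → ℕ) (hg : Function.Injective g) :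
    Dl m (Function.update (fun k => u (g k)) i (lb u l)) ≠ 0 := by
  rw [Dl_ne_zero_iff]
  have h0 : ∀ j, Real.sin (2 * u j) ≠ 0 := by
    intro j
    have := h.add j j 0
    rwa [show u j + u j + ((0 : ℤ) : ℝ) * (π / 3) = 2 * u j by push_cast; ring] at this
  have h1 : ∀ a c, a ≠ c → Real.sin (u a - u c) ≠ 0 ∧ Real.sin (u a + u c) ≠ 0 := by
    intro a c hac
    have h2 := h.add a c 0
    have h3 := h.sub hac 0
    constructor
    · rwa [show u a - u c + ((0 : ℤ) : ℝ) * (π / 3) = u a - u c by push_cast; ring] at h3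
    · rwa [show u a + u c + ((0 : ℤ) : ℝ) * (π / 3) = u a + u c by push_cast; ring] at h2
  constructor
  · intro a _
    by_cases ha : a = i
    · rw [ha, Function.update_self]
      exact lb_two h l
    · rw [Function.update_of_ne ha]
      exact h0 _
  · intro a c _ _ hac
    by_cases ha : a = i
    · rw [ha, Function.update_self, Function.update_of_ne (fun h' => hac (ha.trans h'.symm))]
      exact lb_sub_coord h l _
    · rw [Function.update_of_ne ha]
      by_cases hc : c = i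
      · rw [hc, Function.update_self]
        obtain ⟨h2, h3⟩ := lb_sub_coord h l (g a)
        constructor
        · rw [show u (g a) - lb u l = -(lb u l - u (g a)) by ring, Real.sin_neg]
          exact neg_ne_zero.2 h2
        · rwa [add_comm]
      · rw [Function.update_of_ne hc]
        exact h1 _ _ (fun h' => hac (hg h'))

theorem cons_update (x : ℝ) (b : ℕ → ℝ) (y : ℝ) :
    cons x (Function.update b 1 y) = Function.update (cons x b) 2 y := by
  funext k
  by_cases h : k = 2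
  · subst h
    rw [Function.update_self]
    simp [cons]
  · rw [Function.update_of_ne h]
    unfold cons
    by_cases h0 : k = 0
    · rw [if_pos h0, if_pos h0]
    · rw [if_neg h0, if_neg h0, Function.update_of_ne (by omega)]

theorem tl_update (b : ℕ → ℝ) (y : ℝ) : tl (Function.update b 1 y) = Function.update (tl b) 0 y := by
  funext k
  unfold tl
  by_cases h : k = 0
  · subst h
    rw [Function.update_self, Function.update_self]
  · rw [Function.update_of_ne h, Function.update_of_ne (by omega)]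

theorem tl_eq_cons (x : ℝ) (b : ℕ → ℝ) : tl b = fun k => cons x b (k + 2) := by
  funext k
  unfold tl cons
  rw [if_neg (by omega)]
  rfl

theorem FN_generic (n : ℕ) (hn : 1 ≤ n) (ih : ∀ x b, FN n x b = 0) (x : ℝ) (b : ℕ → ℝ)
    (hG : Gn (cons x b)) : FN (n + 1) x b = 0 := by
  set u := cons x b with hu
  have h0 : ∀ j, Real.sin (2 * u j) ≠ 0 := by
    intro j
    have := hG.add j j 0
    rwa [show u j + u j + ((0 : ℤ) : ℝ) * (π / 3) = 2 * u j by push_cast; ring] at this
  have h1 : ∀ a c, a ≠ c → Real.sin (u a - u c) ≠ 0 ∧ Real.sin (u a + u c) ≠ 0 := by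
    intro a c hac
    have h2 := hG.add a c 0
    have h3 := hG.sub hac 0
    constructor
    · rwa [show u a - u c + ((0 : ℤ) : ℝ) * (π / 3) = u a - u c by push_cast; ring] at h3
    · rwa [show u a + u c + ((0 : ℤ) : ℝ) * (π / 3) = u a + u c by push_cast; ring] at h2
  have htl : tl b = fun k => u (k + 2) := tl_eq_cons x b
  obtain ⟨q1, hq1, hq1'⟩ := chi_quot (m := 2 * (n + 1)) (i := 0) (by omega) (tl b)
    (by
      intro j k _ _ _ _ hjk
      rw [htl]
      exact h1 _ _ (by omega))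
    (by
      intro j _ _
      rw [htl]
      exact h0 _)
  obtain ⟨q2, hq2, hq2'⟩ := chi_quot (m := 2 * (n + 1) + 2) (i := 2) (by omega) u
    (by
      intro j k _ _ _ _ hjk
      exact h1 _ _ hjk)
    (by
      intro j _ _
      exact h0 _)
  have hfac : ∀ y, FN (n + 1) x (Function.update b 1 y) =
      (Dl (2 * (n + 1)) (Function.update (tl b) 0 y) * Dl (2 * (n + 1) + 2) (Function.update u 2 y)) *
      (4 ^ (2 * (n + 1) ^ 2) * NN (n + 1) x (Function.update b 1 y) - q1 y * q2 y) := by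
    intro y
    unfold FN
    rw [tl_update, cons_update, ← hu, hq1', hq2']
    ring
  have hTP : TP (4 * (n + 1)) (fun y => 4 ^ (2 * (n + 1) ^ 2) *
      NN (n + 1) x (Function.update b 1 y) - q1 y * q2 y) := by
    have t1 := (NN_TP (n := n + 1) (i := 1) le_rfl (by omega) x b).smul (4 ^ (2 * (n + 1) ^ 2))
    have t2 := (hq1.mul hq2).mono 1
    have e1 : 2 * (mu (2 * (n + 1) - 1) - 2 * (n + 1)) + 2 * (mu (2 * (n + 1) + 2 - 1) -
        (2 * (n + 1) + 2)) + 2 * 1 = 4 * (n + 1) := by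
      unfold mu
      omega
    rw [e1] at t2
    exact t1.sub t2
  set T : Finset (ℕ × Bool × Bool) := (Ico 3 (2 * n + 4)) ×ˢ (univ : Finset (Bool × Bool)) with hT
  have hcard : T.card = 8 * n + 4 := by
    rw [hT, card_product, Nat.card_Ico]
    simp
    omega
  have hinj : Set.InjOn (lb u) (T : Set (ℕ × Bool × Bool)) := by
    intro l _ l' _ h
    by_contra hne
    apply lb_sub hG hne
    rw [h, sub_self, Real.sin_zero]
  have hz := hTP.eq_zero (T.image (lb u)) (by rw [card_image_of_injOn hinj, hcard]; omega)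
    (by
      intro y hy z hz hyz
      obtain ⟨l, hl, rfl⟩ := mem_image.1 hy
      obtain ⟨l', hl', rfl⟩ := mem_image.1 hz
      exact lb_sub hG (fun h => hyz (by rw [h])))
    (by
      intro y hy
      obtain ⟨l, hl, rfl⟩ := mem_image.1 hy
      have hl2 : 3 ≤ l.1 ∧ l.1 < 2 * n + 4 := by
        rw [hT, mem_product, mem_Ico] at hl
        exact hl.1
      have h3 := FN_pts n ih (k := l.1 - 1) (by omega) (by omega) l.2.1 l.2.2 x
        (Function.update b 1 (lb u l)) (by
          rw [Function.update_self, Function.update_of_ne (by omega)]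
          have : b (l.1 - 1) = u l.1 := by
            rw [hu]
            unfold cons
            rw [if_neg (by omega)]
          rw [this]
          rfl)
      rw [hfac] at h3
      refine (mul_eq_zero.1 h3).resolve_left (mul_ne_zero ?_ ?_)
      · rw [htl]
        exact Dl_lb hG l _ 0 (fun k => k + 2) (fun a c h => by simpa using h)
      · exact Dl_lb hG l _ 2 (fun k => k) (fun a c h => h))
  have h4 := hfac (b 1)
  rw [Function.update_eq_self] at h4
  rw [h4]
  have h5 := hz (b 1)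
  simp only [Function.update_eq_self] at h5
  rw [h5, mul_zero]

theorem FN_continuous (n : ℕ) : Continuous (fun p : ℝ × (ℕ → ℝ) => FN n p.1 p.2) := by
  have hD : ∀ m : ℕ, Continuous (Dl m) := fun m => (Dl_Sep m).continuous
  have hDt : ∀ m : ℕ, Continuous (Dt m) := fun m => (Dt_Sep m).continuous
  have htl : Continuous (fun p : ℝ × (ℕ → ℝ) => tl p.2) := by
    unfold tl
    fun_prop
  have hc : Continuous (fun p : ℝ × (ℕ → ℝ) => cons p.1 p.2) := by
    refine continuous_pi fun k => ?_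
    unfold cons
    split_ifs
    · fun_prop
    · fun_prop
  unfold FN
  exact ((continuous_const.mul (NN_continuous n)).mul (((hD _).comp htl).mul ((hD _).comp hc))).sub
    (((hDt _).comp htl).mul ((hDt _).comp hc))

theorem FN_succ (n : ℕ) (hn : 1 ≤ n) (ih : ∀ x b, FN n x b = 0) (x : ℝ) (b : ℕ → ℝ) :
    FN (n + 1) x b = 0 := by
  have hcont : Continuous (fun t : ℝ => FN (n + 1) (x + t * 1) (fun k => b k + t * ((k : ℝ) + 2))) := by
    refine (FN_continuous (n + 1)).comp (f := fun t : ℝ => (x + t * 1, fun k => b k + t * ((k : ℝ) + 2))) ?_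
    fun_prop
  have hcount := Gn_line (cons x b)
  have hdense := hcount.dense_compl ℝ
  have h1 : (fun t : ℝ => FN (n + 1) (x + t * 1) (fun k => b k + t * ((k : ℝ) + 2))) = fun _ => 0 := by
    apply Continuous.ext_on hdense hcont continuous_const
    intro t ht
    have ht' : Gn (fun i => cons x b i + t * ((i : ℝ) + 1)) := by
      by_contra h
      exact ht h
    apply FN_generic n hn ih
    have e : cons (x + t * 1) (fun k => b k + t * ((k : ℝ) + 2)) =
        fun i => cons x b i + t * ((i : ℝ) + 1) := by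
      funext i
      unfold cons
      rcases i with _ | i
      · simp
      · rw [if_neg (by omega), if_neg (by omega), Nat.add_sub_cancel]
        push_cast
        ring
    rw [e]
    exact ht'
  have h2 := congrFun h1 0
  simpa using h2

theorem FN_one (x : ℝ) (b : ℕ → ℝ) : FN 1 x b = 0 := by
  unfold FN
  have h1 := NN_one x b
  rw [show 2 * 1 = 2 by norm_num, show 2 + 2 = 4 by norm_num, Dt_two, chi_four]
  rw [← h1]
  norm_num
  ring

theorem FN_zero (n : ℕ) (hn : 1 ≤ n) : ∀ x b, FN n x b = 0 := by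
  induction n, hn using Nat.le_induction with
  | base => exact FN_one
  | succ n hn ih => exact FN_succ n hn ih

theorem NN_form (n : ℕ) (hn : 1 ≤ n) (x : ℝ) (b : ℕ → ℝ) :
    4 ^ (2 * n ^ 2) * NN n x b * (Dl (2 * n) (tl b) * Dl (2 * n + 2) (cons x b)) =
      Dt (2 * n) (tl b) * Dt (2 * n + 2) (cons x b) := by
  have h := FN_zero n hn x b
  unfold FN at h
  linarith
end IP
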