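import Pool.Agent.Lead.IP.ValueA
import Pool.Agent.Lead.IP.NformB
/-! MODULE ValueB: the value at `b = 0`.
`P n 0 = (Z n 0)⁻¹ • V n 0`, so `hull n (P n 0) (P n 0) = NN n 0 0 / (Z n 0)^2`; continuity along `b = ε (1, 2, 3, ...)`
for `Z`; for `NN` take `x = (2n+1) ε`, `b 0 = (2n+2) ε`, `b j = j ε` (`1 ≤ j ≤ 2n`), so that
`tl b = ε (1, ..., 2n)` and `cons x b` is a permutation of `ε (1, ..., 2n+2)`. -/
namespace IP
open Finset Real Filter Topology

theorem zero_Cube : (fun _ => (0 : ℝ)) ∈ Cube := by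
  intro j
  rw [abs_zero]
  positivity

/-- `Dl` does not vanish on the test curve -/
theorem vb_Dl_ne (m : ℕ) : ∀ᶠ ε in 𝓝[>] (0 : ℝ), Dl m (fun i => ε * (i + 1)) ≠ 0 := by
  filter_upwards [(chi_tendsto m).eventually_ne (cm_pos m).ne'] with ε h h0
  rw [h0, div_zero] at h
  exact h rfl

/-- `Dl` does not vanish on the permuted test curve -/
theorem vb_Dl_ne' (m : ℕ) (e : Equiv.Perm (Fin m)) : ∀ᶠ ε in 𝓝[>] (0 : ℝ),
    Dl m (fun i => if h : i < m then ε * ((e ⟨i, h⟩ : ℕ) + 1) else 0) ≠ 0 := by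
  filter_upwards [(chi_tendsto' m e).eventually_ne (cm_pos m).ne'] with ε h h0
  rw [h0, div_zero] at h
  exact h rfl

theorem Z_zero (n : ℕ) : 4 ^ (n ^ 2) * Z n (fun _ => 0) = cm (2 * n + 1) := by
  have h1 : Tendsto (fun ε : ℝ => 4 ^ (n ^ 2) * Z n (fun i => ε * ((i : ℝ) + 1))) (𝓝[>] 0)
      (𝓝 (4 ^ (n ^ 2) * Z n (fun _ => 0))) := by
    have hc : Continuous (fun ε : ℝ => 4 ^ (n ^ 2) * Z n (fun i => ε * ((i : ℝ) + 1))) :=
      continuous_const.mul ((Z_Sep n).continuous.comp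
        (continuous_pi fun i => continuous_id.mul continuous_const))
    have h := hc.tendsto 0
    simp only [zero_mul] at h
    exact h.mono_left nhdsWithin_le_nhds
  refine tendsto_nhds_unique (h1.congr' ?_) (chi_tendsto (2 * n + 1))
  filter_upwards [vb_Dl_ne (2 * n + 1)] with ε hε
  rw [eq_div_iff hε]
  exact Z_form n _

/-- the test curve for `NN` -/
noncomputable def vb_b (n : ℕ) (ε : ℝ) : ℕ → ℝ := fun j => if j = 0 then (2 * n + 2) * ε else j * ε

theorem vb_tl (n : ℕ) (ε : ℝ) : tl (vb_b n ε) = fun i : ℕ => ε * ((i : ℝ) + 1) := by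
  funext i
  unfold tl vb_b
  rw [if_neg (by omega)]
  push_cast
  ring

/-- the shift by `2n` modulo `2n + 2` -/
def vb_e (n : ℕ) : Equiv.Perm (Fin (2 * n + 2)) := Equiv.addRight (⟨2 * n, by omega⟩ : Fin (2 * n + 2))

theorem vb_e_val (n : ℕ) (i : Fin (2 * n + 2)) :
    ((vb_e n i : Fin (2 * n + 2)) : ℕ) = ((i : ℕ) + 2 * n) % (2 * n + 2) := by
  unfold vb_e
  rw [Equiv.coe_addRight, Fin.val_add]

theorem vb_cons (n : ℕ) (ε : ℝ) (i : ℕ) (hi : i < 2 * n + 2) :
    cons ((2 * n + 1) * ε) (vb_b n ε) i =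
      if h : i < 2 * n + 2 then ε * ((vb_e n ⟨i, h⟩ : ℕ) + 1) else 0 := by
  rw [dif_pos hi, vb_e_val]
  unfold cons vb_b
  show (if i = 0 then _ else _) = ε * ((((i + 2 * n) % (2 * n + 2) : ℕ) : ℝ) + 1)
  rcases Nat.lt_or_ge i 2 with h2 | h2
  · rcases Nat.eq_zero_or_pos i with h0 | h0
    · subst h0
      rw [if_pos rfl, Nat.mod_eq_of_lt (by omega)]
      push_cast
      ring
    · have : i = 1 := by omega
      subst this
      rw [if_neg (by omega), if_pos (by omega), Nat.mod_eq_of_lt (by omega)]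
      push_cast
      ring
  · have h3 : (i + 2 * n) % (2 * n + 2) = i - 2 := by
      rw [show i + 2 * n = (i - 2) + (2 * n + 2) by omega, Nat.add_mod_right,
        Nat.mod_eq_of_lt (by omega)]
    rw [if_neg (by omega), if_neg (by omega), h3, Nat.cast_sub h2, Nat.cast_sub (by omega)]
    push_cast
    ring

theorem vb_NN_zero (n : ℕ) (hn : 1 ≤ n) :
    4 ^ (2 * n ^ 2) * NN n 0 (fun _ => 0) = cm (2 * n) * cm (2 * n + 2) := by
  have h1 : Tendsto (fun ε : ℝ => 4 ^ (2 * n ^ 2) * NN n ((2 * n + 1) * ε) (vb_b n ε)) (𝓝[>] 0)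
      (𝓝 (4 ^ (2 * n ^ 2) * NN n 0 (fun _ => 0))) := by
    have hb : Continuous (fun ε : ℝ => ((2 * (n : ℝ) + 1) * ε, vb_b n ε)) := by
      refine Continuous.prodMk (continuous_const.mul continuous_id) (continuous_pi fun j => ?_)
      unfold vb_b
      by_cases h : j = 0
      · simp only [h, if_true]
        exact continuous_const.mul continuous_id
      · simp only [h, if_false]
        exact continuous_const.mul continuous_id
    have hc : Continuous (fun ε : ℝ => 4 ^ (2 * n ^ 2) * NN n ((2 * n + 1) * ε) (vb_b n ε)) :=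
      continuous_const.mul ((NN_continuous n).comp hb)
    have h := hc.tendsto 0
    have h0 : vb_b n 0 = fun _ => 0 := by
      funext j
      unfold vb_b
      simp
    simp only [mul_zero, h0] at h
    exact h.mono_left nhdsWithin_le_nhds
  refine tendsto_nhds_unique (h1.congr' ?_)
    ((chi_tendsto (2 * n)).mul (chi_tendsto' (2 * n + 2) (vb_e n)))
  filter_upwards [vb_Dl_ne (2 * n), vb_Dl_ne' (2 * n + 2) (vb_e n)] with ε h2 h3
  rw [div_mul_div_comm, eq_div_iff (mul_ne_zero h2 h3)]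
  have h4 := NN_form n hn ((2 * n + 1) * ε) (vb_b n ε)
  rw [vb_tl, Dt_congr (vb_cons n ε), Dl_congr (vb_cons n ε)] at h4
  exact h4

theorem hull_zero (n : ℕ) : hull n (P n (fun _ => 0)) (P n (fun _ => 0)) = RR n := by
  rcases Nat.eq_zero_or_pos n with h0 | hn
  · subst h0
    have hZ : Z 0 (fun _ => 0) = 1 := by
      unfold Z
      rw [V_zero, tot_single]
    rw [P_eq 0 zero_Cube, hZ, inv_one, one_smul, V_zero, hull_single, if_pos (Setoid.refl' _ 0)]
    unfold RR
    norm_num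
  · have h1 : hull n (P n (fun _ => 0)) (P n (fun _ => 0)) =
        NN n 0 (fun _ => 0) / (Z n (fun _ => 0)) ^ 2 := by
      have h2 : (fun j => - setZ 0 (fun _ => (0 : ℝ)) j) = fun _ => (0 : ℝ) := by
        funext j
        unfold setZ
        simp
      rw [P_eq n zero_Cube, hull_smul_left, hull_smul_right]
      unfold NN
      rw [h2]
      ring
    have h3 := Z_zero n
    have h4 := vb_NN_zero n hn
    have h5 := Z_ne n zero_Cube
    have h6 : (4 : ℝ) ^ (2 * n ^ 2) = (4 ^ (n ^ 2)) ^ 2 := by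
      rw [← pow_mul]
      congr 1
      ring
    rw [h1, ← cm_RR n, ← h3, ← h4, h6]
    have h7 : (4 : ℝ) ^ (n ^ 2) ≠ 0 := by positivity
    field_simp
end IP
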