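import Pool.Agent.Lead.IP.TrigA
/-! MODULE TrigB: trigonometric polynomials in several variables (`Sep`). -/
namespace IP
open Finset Real

/-! ### auxiliary: nodes and Lagrange interpolation -/

/-- nodes `1/(k+1)`, pairwise distinct modulo `π` -/
noncomputable def tb_nd (k : ℕ) : ℝ := 1 / ((k : ℝ) + 1)

theorem tb_nd_pos (k : ℕ) : 0 < tb_nd k := by unfold tb_nd; positivity

theorem tb_nd_le (k : ℕ) : tb_nd k ≤ 1 := by
  unfold tb_nd
  rw [div_le_one (by positivity)]
  have : (0 : ℝ) ≤ k := Nat.cast_nonneg k
  linarith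

theorem tb_nd_inj {j k : ℕ} (h : tb_nd j = tb_nd k) : j = k := by
  unfold tb_nd at h
  have h1 : ((j : ℝ) + 1) ≠ 0 := by positivity
  have h2 : ((k : ℝ) + 1) ≠ 0 := by positivity
  rw [div_eq_div_iff h1 h2] at h
  have : (j : ℝ) = k := by linarith
  exact_mod_cast this

/-- `sin x ≠ 0` for `0 < |x| < π` -/
theorem tb_sin_ne_zero_aux {x : ℝ} (h0 : x ≠ 0) (h1 : -π < x) (h2 : x < π) : Real.sin x ≠ 0 := by
  rcases lt_or_gt_of_ne h0 with h | h
  · exact (Real.sin_neg_of_neg_of_neg_pi_lt h h1).ne
  · exact (Real.sin_pos_of_pos_of_lt_pi h h2).ne'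

theorem tb_sin_nd_sub {j k : ℕ} (h : j ≠ k) : Real.sin (tb_nd j - tb_nd k) ≠ 0 := by
  have h1 := tb_nd_pos j
  have h2 := tb_nd_pos k
  have h3 := tb_nd_le j
  have h4 := tb_nd_le k
  have h5 := Real.pi_gt_three
  refine tb_sin_ne_zero_aux ?_ (by linarith) (by linarith)
  intro h6
  exact h (tb_nd_inj (by linarith))

/-- Lagrange basis for the nodes `z 0, ..., z m` -/
noncomputable def tb_lag (z : ℕ → ℝ) (m a : ℕ) (x : ℝ) : ℝ :=
  ∏ c ∈ (range (m + 1)).erase a, Real.sin (x - z c) * (Real.sin (z a - z c))⁻¹

theorem tb_lag_TP (z : ℕ → ℝ) {m a : ℕ} (ha : a ∈ range (m + 1)) : TP m (tb_lag z m a) := by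
  have h := TP.prod ((range (m + 1)).erase a) (m := fun _ => 1)
    (F := fun c x => Real.sin (x - z c) * (Real.sin (z a - z c))⁻¹) (by
      intro c _
      have := (TP.sin_add (-z c)).smul (Real.sin (z a - z c))⁻¹
      simpa [sub_eq_add_neg, mul_comm] using this)
  rw [Finset.sum_const, Finset.card_erase_of_mem ha, Finset.card_range] at h
  have h2 : (m + 1 - 1) • 1 = m := by simp
  rw [h2] at h
  exact h

theorem tb_lag_self {z : ℕ → ℝ} (hz : ∀ j k, j ≠ k → Real.sin (z j - z k) ≠ 0) (m a : ℕ) :
    tb_lag z m a (z a) = 1 := by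
  unfold tb_lag
  refine Finset.prod_eq_one fun c hc => ?_
  exact mul_inv_cancel₀ (hz a c (Finset.ne_of_mem_erase hc).symm)

theorem tb_lag_other {z : ℕ → ℝ} {m a c : ℕ} (hc : c ∈ range (m + 1)) (h : c ≠ a) :
    tb_lag z m a (z c) = 0 := by
  unfold tb_lag
  refine Finset.prod_eq_zero (Finset.mem_erase.2 ⟨h, hc⟩) ?_
  simp

theorem tb_sum_lag {z : ℕ → ℝ} (hz : ∀ j k, j ≠ k → Real.sin (z j - z k) ≠ 0) (m : ℕ) (f : ℕ → ℝ)
    {c : ℕ} (hc : c ∈ range (m + 1)) :
    ∑ a ∈ range (m + 1), f a * tb_lag z m a (z c) = f c := by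
  rw [Finset.sum_eq_single c]
  · rw [tb_lag_self hz, mul_one]
  · intro a _ h
    rw [tb_lag_other hc h.symm, mul_zero]
  · intro h; exact absurd hc h

/-- Lagrange interpolation -/
theorem TP.tb_interp {m : ℕ} {F : ℝ → ℝ} (hF : TP m F) {z : ℕ → ℝ}
    (hz : ∀ j k, j ≠ k → Real.sin (z j - z k) ≠ 0) (x : ℝ) :
    F x = ∑ a ∈ range (m + 1), F (z a) * tb_lag z m a x := by
  have hinj : Function.Injective z := by
    intro j k h
    by_contra hjk
    exact hz j k hjk (by rw [h]; simp)
  have hG : TP m (fun x => F x - ∑ a ∈ range (m + 1), F (z a) * tb_lag z m a x) :=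
    hF.sub (TP.sum _ fun a ha => (tb_lag_TP z ha).smul _)
  have := hG.eq_zero ((range (m + 1)).image z)
    (by rw [Finset.card_image_of_injective _ hinj, Finset.card_range]; exact Nat.lt_succ_self m)
    (by
      intro x hx y hy hxy
      obtain ⟨j, _, rfl⟩ := Finset.mem_image.1 hx
      obtain ⟨k, _, rfl⟩ := Finset.mem_image.1 hy
      exact hz j k fun h => hxy (by rw [h]))
    (by
      intro x hx
      obtain ⟨j, hj, rfl⟩ := Finset.mem_image.1 hx
      rw [tb_sum_lag hz m (fun a => F (z a)) hj, sub_self]) x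
  exact sub_eq_zero.1 this

/-- uniqueness: a function with `m` zeros at the nodes and one more -/
theorem TP.tb_eq_zero_nodes {m : ℕ} {F : ℝ → ℝ} (hF : TP m F) {z : ℕ → ℝ}
    (hz : ∀ j k, j ≠ k → Real.sin (z j - z k) ≠ 0) (u : ℝ)
    (hu : ∀ j, Real.sin (u - z j) ≠ 0) (h0 : ∀ j, j < m → F (z j) = 0) (h1 : F u = 0) :
    ∀ x, F x = 0 := by
  have hinj : Function.Injective z := by
    intro j k h
    by_contra hjk
    exact hz j k hjk (by rw [h]; simp)
  have hu' : u ∉ (range m).image z := by
    intro h
    obtain ⟨j, _, rfl⟩ := Finset.mem_image.1 h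
    exact hu j (by simp)
  refine hF.eq_zero (insert u ((range m).image z)) ?_ ?_ ?_
  · rw [Finset.card_insert_of_notMem hu', Finset.card_image_of_injective _ hinj, Finset.card_range]
    exact Nat.lt_succ_self m
  · intro x hx y hy hxy
    rcases Finset.mem_insert.1 hx with rfl | hx
    · rcases Finset.mem_insert.1 hy with rfl | hy
      · exact absurd rfl hxy
      · obtain ⟨k, _, rfl⟩ := Finset.mem_image.1 hy
        exact hu k
    · obtain ⟨j, _, rfl⟩ := Finset.mem_image.1 hx
      rcases Finset.mem_insert.1 hy with rfl | hy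
      · have := hu j
        rw [← neg_sub, Real.sin_neg, neg_ne_zero]
        exact this
      · obtain ⟨k, _, rfl⟩ := Finset.mem_image.1 hy
        exact hz j k fun h => hxy (by rw [h])
  · intro x hx
    rcases Finset.mem_insert.1 hx with rfl | hx
    · exact h1
    · obtain ⟨j, hj, rfl⟩ := Finset.mem_image.1 hx
      exact h0 j (Finset.mem_range.1 hj)

/-! ### closure properties -/

theorem Sep.add {L m : ℕ} {F G : (ℕ → ℝ) → ℝ} (hF : Sep L m F) (hG : Sep L m G) : Sep L m (fun b => F b + G b) :=
  ⟨fun b j hj => (hF.1 b j hj).add (hG.1 b j hj), fun b b' h => by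
    show F b + G b = F b' + G b'
    rw [hF.2 b b' h, hG.2 b b' h]⟩
theorem Sep.sub {L m : ℕ} {F G : (ℕ → ℝ) → ℝ} (hF : Sep L m F) (hG : Sep L m G) : Sep L m (fun b => F b - G b) :=
  ⟨fun b j hj => (hF.1 b j hj).sub (hG.1 b j hj), fun b b' h => by
    show F b - G b = F b' - G b'
    rw [hF.2 b b' h, hG.2 b b' h]⟩
theorem Sep.smul {L m : ℕ} {F : (ℕ → ℝ) → ℝ} (c : ℝ) (hF : Sep L m F) : Sep L m (fun b => c * F b) :=
  ⟨fun b j hj => (hF.1 b j hj).smul c, fun b b' h => by
    show c * F b = c * F b'
    rw [hF.2 b b' h]⟩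
theorem Sep.mul {L m k : ℕ} {F G : (ℕ → ℝ) → ℝ} (hF : Sep L m F) (hG : Sep L k G) : Sep L (m + k) (fun b => F b * G b) :=
  ⟨fun b j hj => (hF.1 b j hj).mul (hG.1 b j hj), fun b b' h => by
    show F b * G b = F b' * G b'
    rw [hF.2 b b' h, hG.2 b b' h]⟩
theorem Sep.sum {ι : Type*} (t : Finset ι) {L m : ℕ} {F : ι → (ℕ → ℝ) → ℝ} (h : ∀ i ∈ t, Sep L m (F i)) :
    Sep L m (fun b => ∑ i ∈ t, F i b) :=
  ⟨fun b j hj => TP.sum t fun i hi => (h i hi).1 b j hj, fun b b' hb => by
    show ∑ i ∈ t, F i b = ∑ i ∈ t, F i b'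
    exact Finset.sum_congr rfl fun i hi => (h i hi).2 b b' hb⟩

theorem tb_swap_lt {L i : ℕ} (hi : i + 1 < L) {j : ℕ} (hj : j < L) : Equiv.swap i (i + 1) j < L := by
  by_cases h1 : j = i
  · rw [h1, Equiv.swap_apply_left]; exact hi
  · by_cases h2 : j = i + 1
    · rw [h2, Equiv.swap_apply_right]; omega
    · rw [Equiv.swap_apply_of_ne_of_ne h1 h2]; exact hj

theorem tb_sw_update (i j : ℕ) (b : ℕ → ℝ) (x : ℝ) :
    sw i (Function.update b j x) = Function.update (sw i b) (Equiv.swap i (i + 1) j) x := by
  funext k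
  unfold sw
  by_cases h : k = Equiv.swap i (i + 1) j
  · rw [h, Equiv.swap_apply_self, Function.update_self, Function.update_self]
  · rw [Function.update_of_ne h, Function.update_of_ne]
    intro h'
    apply h
    rw [← h', Equiv.swap_apply_self]

theorem Sep.comp_sw {L m i : ℕ} (hi : i + 1 < L) {F : (ℕ → ℝ) → ℝ} (hF : Sep L m F) : Sep L m (fun b => F (sw i b)) := by
  refine ⟨fun b j hj => ?_, fun b b' h => ?_⟩
  · have := hF.1 (sw i b) _ (tb_swap_lt hi hj)
    simpa only [tb_sw_update] using this
  · exact hF.2 _ _ fun j hj => h _ (tb_swap_lt hi hj)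

theorem Sep.comp_ng {L m i : ℕ} {F : (ℕ → ℝ) → ℝ} (hF : Sep L m F) : Sep L m (fun b => F (ng i b)) := by
  refine ⟨fun b j hj => ?_, fun b b' h => ?_⟩
  · by_cases hij : i = j
    · subst hij
      have := (hF.1 b i hj).comp_neg
      simpa [ng] using this
    · have := hF.1 (ng i b) j hj
      have h2 : ∀ x, ng i (Function.update b j x) = Function.update (ng i b) j x := by
        intro x
        unfold ng
        rw [Function.update_of_ne hij, Function.update_comm (Ne.symm hij)]
      simpa only [h2] using this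
  · refine hF.2 _ _ fun j hj => ?_
    unfold ng
    by_cases hij : j = i
    · subst hij
      rw [Function.update_self, Function.update_self, h j hj]
    · rw [Function.update_of_ne hij, Function.update_of_ne hij, h j hj]

theorem Sep.comp_neg {L m : ℕ} {F : (ℕ → ℝ) → ℝ} (hF : Sep L m F) : Sep L m (fun b => F (fun j => -b j)) := by
  refine ⟨fun b j hj => ?_, fun b b' h => ?_⟩
  · have := (hF.1 (fun j => -b j) j hj).comp_neg
    have h2 : ∀ x, (fun k => -(Function.update b j x k)) = Function.update (fun k => -b k) j (-x) := by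
      intro x
      funext k
      by_cases hk : k = j
      · subst hk; simp
      · rw [Function.update_of_ne hk, Function.update_of_ne hk]
    simpa only [h2] using this
  · exact hF.2 _ _ fun j hj => by rw [h j hj]

/-- freezing the last coordinate -/
theorem Sep.tb_freeze {L m : ℕ} {F : (ℕ → ℝ) → ℝ} (hF : Sep (L + 1) m F) (x : ℝ) :
    Sep L m (fun b => F (Function.update b L x)) := by
  refine ⟨fun b j hj => ?_, fun b b' h => ?_⟩
  · have := hF.1 (Function.update b L x) j (by omega)
    have h2 : ∀ y, Function.update (Function.update b j y) L x =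
        Function.update (Function.update b L x) j y := fun y =>
      Function.update_comm (by omega) _ _ _
    simpa only [h2] using this
  · refine hF.2 _ _ fun j hj => ?_
    by_cases hjL : j = L
    · subst hjL; rw [Function.update_self, Function.update_self]
    · rw [Function.update_of_ne hjL, Function.update_of_ne hjL]
      exact h j (by omega)

theorem Sep.continuous {L m : ℕ} {F : (ℕ → ℝ) → ℝ} (hF : Sep L m F) : Continuous F := by
  induction L generalizing F with
  | zero =>
    have : F = fun _ => F 0 := by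
      funext b
      exact hF.2 b 0 (by intro j hj; omega)
    rw [this]
    exact continuous_const
  | succ L ih =>
    have h : F = fun b => ∑ a ∈ range (m + 1), F (Function.update b L (tb_nd a)) * tb_lag tb_nd m a (b L) := by
      funext b
      have := (hF.1 b L (Nat.lt_succ_self L)).tb_interp (fun j k h => tb_sin_nd_sub h) (b L)
      simpa using this
    rw [h]
    refine continuous_finsetSum _ fun a ha => ?_
    refine (ih (hF.tb_freeze (tb_nd a))).mul ?_
    exact (tb_lag_TP tb_nd ha).continuous.comp (continuous_apply L)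

/-- a separately trigonometric polynomial vanishing on the cube vanishes everywhere -/
theorem Sep.eq_zero {L m : ℕ} {F : (ℕ → ℝ) → ℝ} (hF : Sep L m F) (h0 : ∀ b ∈ Cube, F b = 0) : ∀ b, F b = 0 := by
  induction L generalizing F with
  | zero =>
    intro b
    rw [hF.2 b 0 (by intro j hj; omega)]
    refine h0 0 fun j => ?_
    simp [Real.pi_pos]
  | succ L ih =>
    intro b
    have h1 : ∀ x ∈ Set.Ioo (-(π / 6)) (π / 6), ∀ b, F (Function.update b L x) = 0 := by
      intro x hx
      refine ih (hF.tb_freeze x) fun b hb => h0 _ fun j => ?_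
      by_cases hj : j = L
      · subst hj; rw [Function.update_self]; exact abs_lt.2 hx
      · rw [Function.update_of_ne hj]; exact hb j
    have h2 := (hF.1 b L (Nat.lt_succ_self L)).eq_zero_of_interval
      (a := -(π / 6)) (b := π / 6) (by linarith [Real.pi_pos]) (fun x hx => h1 x hx b) (b L)
    simpa using h2

/-! ### divided differences -/

/-- `A` divided by `sin (b i - b (i+1))`, explicitly (if `A` vanishes for `b i = b (i+1)`) -/
noncomputable def tb_dd (m i : ℕ) (A : (ℕ → ℝ) → ℝ) (b : ℕ → ℝ) : ℝ :=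
  ∑ a ∈ range (m + 1), ∑ c ∈ range (m + 1),
    (A (Function.update (Function.update b i (tb_nd a)) (i + 1) (-tb_nd c)) *
      (Real.sin (tb_nd a + tb_nd c))⁻¹) * (tb_lag tb_nd m a (b i) * tb_lag (fun j => -tb_nd j) m c (b (i + 1)))

theorem tb_sin_nd_add (j k : ℕ) : Real.sin (tb_nd j + tb_nd k) ≠ 0 := by
  have h1 := tb_nd_pos j
  have h2 := tb_nd_pos k
  have h3 := tb_nd_le j
  have h4 := tb_nd_le k
  have h5 := Real.pi_gt_three
  exact tb_sin_ne_zero_aux (by linarith) (by linarith) (by linarith)

theorem tb_sin_neg_nd_sub {j k : ℕ} (h : j ≠ k) : Real.sin (-tb_nd j - -tb_nd k) ≠ 0 := by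
  have : -tb_nd j - -tb_nd k = tb_nd k - tb_nd j := by ring
  rw [this]
  exact tb_sin_nd_sub h.symm

theorem TP.tb_congr {m : ℕ} {F G : ℝ → ℝ} (hF : TP m F) (h : ∀ x, G x = F x) : TP m G := by
  have : G = F := funext h
  rw [this]; exact hF

/-- the antisymmetric part -/
theorem Sep.tb_asym {L m i : ℕ} (hi : i + 1 < L) {F : (ℕ → ℝ) → ℝ} (hF : Sep L m F) :
    Sep L m (fun b => F (sw i b) - F b) := (hF.comp_sw hi).sub hF

theorem tb_sw_self {i : ℕ} {b : ℕ → ℝ} (h : b i = b (i + 1)) : sw i b = b := by
  funext j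
  unfold sw
  by_cases h1 : j = i
  · rw [h1, Equiv.swap_apply_left, h]
  · by_cases h2 : j = i + 1
    · rw [h2, Equiv.swap_apply_right, h]
    · rw [Equiv.swap_apply_of_ne_of_ne h1 h2]

/-- the two-variable division lemma -/
theorem tb_div_two {m : ℕ} (A : ℝ → ℝ → ℝ) (h1 : ∀ v, TP (m + 1) (fun u => A u v))
    (h2 : ∀ u, TP (m + 1) (fun v => A u v)) (h0 : ∀ u, A u u = 0) (u v : ℝ) :
    A u v = Real.sin (u - v) * ∑ a ∈ range (m + 1), ∑ c ∈ range (m + 1),
      (A (tb_nd a) (-tb_nd c) * (Real.sin (tb_nd a + tb_nd c))⁻¹) *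
        (tb_lag tb_nd m a u * tb_lag (fun j => -tb_nd j) m c v) := by
  -- the explicit quotient
  set H : ℝ → ℝ → ℝ := fun u v => ∑ a ∈ range (m + 1), ∑ c ∈ range (m + 1),
      (A (tb_nd a) (-tb_nd c) * (Real.sin (tb_nd a + tb_nd c))⁻¹) *
        (tb_lag tb_nd m a u * tb_lag (fun j => -tb_nd j) m c v) with hH
  have hH1 : ∀ v, TP m (fun u => H u v) := by
    intro v
    rw [hH]
    refine TP.sum _ fun a ha => TP.sum _ fun c hc => ?_
    refine ((tb_lag_TP tb_nd ha).smul ((A (tb_nd a) (-tb_nd c) * (Real.sin (tb_nd a + tb_nd c))⁻¹) *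
      tb_lag (fun j => -tb_nd j) m c v)).tb_congr fun x => ?_
    ring
  have hH2 : ∀ u, TP m (fun v => H u v) := by
    intro u
    rw [hH]
    refine TP.sum _ fun a ha => TP.sum _ fun c hc => ?_
    refine ((tb_lag_TP (fun j => -tb_nd j) hc).smul ((A (tb_nd a) (-tb_nd c) * (Real.sin (tb_nd a + tb_nd c))⁻¹) *
      tb_lag tb_nd m a u)).tb_congr fun x => ?_
    ring
  have hz : ∀ j k, j ≠ k → Real.sin (tb_nd j - tb_nd k) ≠ 0 := fun j k h => tb_sin_nd_sub h
  have hz' : ∀ j k, j ≠ k → Real.sin ((fun j => -tb_nd j) j - (fun j => -tb_nd j) k) ≠ 0 :=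
    fun j k h => tb_sin_neg_nd_sub h
  -- values of `H` at the grid
  have hval : ∀ a ∈ range (m + 1), ∀ c ∈ range (m + 1),
      H (tb_nd a) (-tb_nd c) = A (tb_nd a) (-tb_nd c) * (Real.sin (tb_nd a + tb_nd c))⁻¹ := by
    intro a ha c hc
    show (∑ a' ∈ range (m + 1), ∑ c' ∈ range (m + 1),
      (A (tb_nd a') (-tb_nd c') * (Real.sin (tb_nd a' + tb_nd c'))⁻¹) *
        (tb_lag tb_nd m a' (tb_nd a) * tb_lag (fun j => -tb_nd j) m c' (-tb_nd c))) = _
    rw [Finset.sum_eq_single a]
    · rw [tb_lag_self hz]
      have := tb_sum_lag hz' m (fun c' => A (tb_nd a) (-tb_nd c') * (Real.sin (tb_nd a + tb_nd c'))⁻¹) hc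
      simpa using this
    · intro a' _ h'
      refine Finset.sum_eq_zero fun c' _ => ?_
      rw [tb_lag_other ha h'.symm, zero_mul, mul_zero]
    · intro h; exact absurd ha h
  -- identity at `v = -tb_nd c`
  have hid1 : ∀ c ∈ range (m + 1), ∀ u, A u (-tb_nd c) = Real.sin (u - -tb_nd c) * H u (-tb_nd c) := by
    intro c hc
    obtain ⟨G, hG, hG'⟩ := (h1 (-tb_nd c)).div (-tb_nd c) (h0 _)
    have hGH : ∀ u, G u = H u (-tb_nd c) := by
      intro u
      rw [hG.tb_interp hz u, (hH1 (-tb_nd c)).tb_interp hz u]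
      refine Finset.sum_congr rfl fun a ha => ?_
      congr 1
      show G (tb_nd a) = H (tb_nd a) (-tb_nd c)
      rw [hval a ha c hc, hG' (tb_nd a)]
      have := tb_sin_nd_add a c
      rw [sub_neg_eq_add]
      field_simp
    intro u
    rw [← hGH u]
    exact hG' u
  -- identity for `u` in `(0,1)`
  have hid2 : ∀ u ∈ Set.Ioo (0 : ℝ) 1, ∀ v, A u v = Real.sin (u - v) * H u v := by
    intro u hu v
    have hs : TP (m + 1) (fun v => A u v - Real.sin (u - v) * H u v) := by
      have := (TP.sin_sub u).mul (hH2 u)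
      rw [add_comm] at this
      exact (h2 u).sub this
    have := hs.tb_eq_zero_nodes hz' u (by
      intro j
      have h1 := tb_nd_pos j
      have h3 := tb_nd_le j
      have h5 := Real.pi_gt_three
      exact tb_sin_ne_zero_aux (by linarith [hu.1]) (by linarith [hu.1]) (by linarith [hu.2]))
      (by
        intro j hj
        show A u (-tb_nd j) - Real.sin (u - -tb_nd j) * H u (-tb_nd j) = 0
        rw [hid1 j (Finset.mem_range.2 hj), sub_self])
      (by rw [h0, sub_self, Real.sin_zero]; ring) v
    exact sub_eq_zero.1 this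
  have hs : TP (m + 1) (fun u => A u v - Real.sin (u - v) * H u v) := by
    have := ((TP.sin_add (-v)).tb_congr (G := fun u => Real.sin (u - v))
      (fun u => by rw [sub_eq_add_neg])).mul (hH1 v)
    rw [add_comm] at this
    exact (h1 v).sub this
  have := hs.eq_zero_of_interval (a := 0) (b := 1) one_pos
    (fun u hu => by rw [hid2 u hu v, sub_self]) u
  exact sub_eq_zero.1 this

theorem tb_upd3 (b : ℕ → ℝ) {i j : ℕ} (h1 : j ≠ i) (h2 : j ≠ i + 1) (x y z : ℝ) :
    Function.update (Function.update (Function.update b j x) i y) (i + 1) z =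
      Function.update (Function.update (Function.update b i y) (i + 1) z) j x := by
  rw [Function.update_comm h1, Function.update_comm h2]

theorem tb_upd4 (b : ℕ → ℝ) {i : ℕ} (x y z : ℝ) :
    Function.update (Function.update (Function.update b (i + 1) x) i y) (i + 1) z =
      Function.update (Function.update b i y) (i + 1) z := by
  rw [Function.update_comm (by omega : i + 1 ≠ i), Function.update_idem]

theorem tb_upd5 (b : ℕ → ℝ) {i : ℕ} (x y z : ℝ) :
    Function.update (Function.update (Function.update b i x) i y) (i + 1) z =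
      Function.update (Function.update b i y) (i + 1) z := by
  rw [Function.update_idem]

theorem tb_dd_id {L m i : ℕ} (hi : i + 1 < L) {A : (ℕ → ℝ) → ℝ} (hA : Sep L (m + 1) A)
    (h0 : ∀ b, b i = b (i + 1) → A b = 0) (b : ℕ → ℝ) :
    A b = Real.sin (b i - b (i + 1)) * tb_dd m i A b := by
  have h := tb_div_two (m := m) (fun u v => A (Function.update (Function.update b i u) (i + 1) v))
    (by
      intro v
      refine (hA.1 (Function.update b (i + 1) v) i (by omega)).tb_congr fun u => ?_
      rw [Function.update_comm (by omega : i ≠ i + 1)])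
    (fun u => hA.1 _ _ hi)
    (by
      intro u
      refine h0 _ ?_
      rw [Function.update_self, Function.update_of_ne (by omega), Function.update_self])
    (b i) (b (i + 1))
  simp only [Function.update_eq_self] at h
  exact h

theorem tb_cos_dd_Sep {L m i : ℕ} (hi : i + 1 < L) {A : (ℕ → ℝ) → ℝ} (hA : Sep L (m + 1) A) :
    Sep L (m + 1) (fun b => Real.cos (b i - b (i + 1)) * tb_dd m i A b) := by
  have hcos : ∀ y, TP 1 (fun x => Real.cos (x - y)) := by
    intro y
    refine (TP.sin_add (π / 2 - y)).tb_congr fun x => ?_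
    rw [← Real.sin_add_pi_div_two]
    congr 1; ring
  have hcos' : ∀ y, TP 1 (fun x => Real.cos (y - x)) := by
    intro y
    refine (hcos y).tb_congr fun x => ?_
    rw [← Real.cos_neg]; congr 1; ring
  refine ⟨fun b j hj => ?_, fun b b' h => ?_⟩
  · by_cases h1 : j = i
    · subst h1
      have h3 : TP m (fun x => tb_dd m j A (Function.update b j x)) := by
        refine TP.sum _ fun a ha => TP.sum _ fun c hc => ?_
        refine ((tb_lag_TP tb_nd ha).smul
          ((A (Function.update (Function.update b j (tb_nd a)) (j + 1) (-tb_nd c)) *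
            (Real.sin (tb_nd a + tb_nd c))⁻¹) * tb_lag (fun j => -tb_nd j) m c (b (j + 1)))).tb_congr fun x => ?_
        rw [tb_upd5, Function.update_self, Function.update_of_ne (by omega)]
        ring
      have h4 := (hcos (b (j + 1))).mul h3
      rw [add_comm] at h4
      refine h4.tb_congr fun x => ?_
      beta_reduce
      rw [Function.update_self, Function.update_of_ne (by omega)]
    · by_cases h2 : j = i + 1
      · subst h2
        have h3 : TP m (fun x => tb_dd m i A (Function.update b (i + 1) x)) := by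
          refine TP.sum _ fun a ha => TP.sum _ fun c hc => ?_
          refine ((tb_lag_TP (fun j => -tb_nd j) hc).smul
            ((A (Function.update (Function.update b i (tb_nd a)) (i + 1) (-tb_nd c)) *
              (Real.sin (tb_nd a + tb_nd c))⁻¹) * tb_lag tb_nd m a (b i))).tb_congr fun x => ?_
          rw [tb_upd4, Function.update_self, Function.update_of_ne (by omega)]
          ring
        have h4 := (hcos' (b i)).mul h3
        rw [add_comm] at h4
        refine h4.tb_congr fun x => ?_
        beta_reduce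
        rw [Function.update_self, Function.update_of_ne (by omega)]
      · refine (TP.smul (Real.cos (b i - b (i + 1))) (TP.sum (range (m + 1))
          (F := fun a x => ∑ c ∈ range (m + 1),
            (A (Function.update (Function.update (Function.update b i (tb_nd a)) (i + 1) (-tb_nd c)) j x) *
            (Real.sin (tb_nd a + tb_nd c))⁻¹) * (tb_lag tb_nd m a (b i) * tb_lag (fun j => -tb_nd j) m c (b (i + 1))))
          fun a _ => TP.sum _ fun c _ => ?_)).tb_congr fun x => ?_
        · refine ((hA.1 (Function.update (Function.update b i (tb_nd a)) (i + 1) (-tb_nd c)) j hj).smul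
            ((Real.sin (tb_nd a + tb_nd c))⁻¹ *
              (tb_lag tb_nd m a (b i) * tb_lag (fun j => -tb_nd j) m c (b (i + 1))))).tb_congr fun x => ?_
          ring
        · unfold tb_dd
          beta_reduce
          rw [Function.update_of_ne (Ne.symm h1), Function.update_of_ne (Ne.symm h2)]
          simp only [tb_upd3 b h1 h2]
  · show Real.cos (b i - b (i + 1)) * tb_dd m i A b = Real.cos (b' i - b' (i + 1)) * tb_dd m i A b'
    unfold tb_dd
    rw [h i (by omega), h (i + 1) hi]
    congr 1
    refine Finset.sum_congr rfl fun a _ => Finset.sum_congr rfl fun c _ => ?_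
    congr 2
    refine hA.2 _ _ fun j hj => ?_
    by_cases h2 : j = i + 1
    · rw [h2, Function.update_self, Function.update_self]
    · rw [Function.update_of_ne h2, Function.update_of_ne h2]
      by_cases h1 : j = i
      · rw [h1, Function.update_self, Function.update_self]
      · rw [Function.update_of_ne h1, Function.update_of_ne h1, h j hj]

theorem TP.tb_const_of_zero {F : ℝ → ℝ} (hF : TP 0 F) (x y : ℝ) : F x = F y := by
  rw [hF.tb_interp (fun j k h => tb_sin_nd_sub h) x, hF.tb_interp (fun j k h => tb_sin_nd_sub h) y]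
  simp [tb_lag]

theorem Sep.tb_sw_of_zero {L i : ℕ} (hi : i + 1 < L) {F : (ℕ → ℝ) → ℝ} (hF : Sep L 0 F)
    (b : ℕ → ℝ) : F (sw i b) = F b := by
  have h1 : ∀ b j x, j < L → F (Function.update b j x) = F b := by
    intro b j x hj
    have := (hF.1 b j hj).tb_const_of_zero x (b j)
    simpa using this
  have h2 : sw i b = Function.update (Function.update b i (b (i + 1))) (i + 1) (b i) := by
    funext j
    unfold sw
    by_cases h2 : j = i + 1
    · rw [h2, Equiv.swap_apply_right, Function.update_self]
    · rw [Function.update_of_ne h2]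
      by_cases h1 : j = i
      · rw [h1, Equiv.swap_apply_left, Function.update_self]
      · rw [Function.update_of_ne h1, Equiv.swap_apply_of_ne_of_ne h1 h2]
  rw [h2, h1 _ _ _ hi, h1 _ _ _ (by omega)]

theorem tb_s_eq (x : ℝ) : s x = Real.sin (π / 3) * Real.cos x + 1 / 2 * Real.sin x := by
  unfold s
  rw [Real.sin_add, Real.cos_pi_div_three]

theorem tb_s_neg_eq (x : ℝ) : s (-x) = Real.sin (π / 3) * Real.cos x - 1 / 2 * Real.sin x := by
  rw [tb_s_eq, Real.cos_neg, Real.sin_neg]; ring

/-- the divided difference operator preserves `Sep L m`, `m` even -/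
theorem Sep.divdiff {L m i : ℕ} (hi : i + 1 < L) (hm : Even m) {F : (ℕ → ℝ) → ℝ} (hF : Sep L m F) :
    ∃ G : (ℕ → ℝ) → ℝ, Sep L m G ∧ ∀ b, Real.sin (b i - b (i + 1)) * G b =
      s (b i - b (i + 1)) * F (sw i b) - s (-(b i - b (i + 1))) * F b := by
  have _ := hm
  rcases m with _ | m
  · refine ⟨F, hF, fun b => ?_⟩
    rw [hF.tb_sw_of_zero hi, tb_s_eq, tb_s_neg_eq]
    ring
  · have hA := hF.tb_asym hi
    refine ⟨fun b => Real.sin (π / 3) *
      (Real.cos (b i - b (i + 1)) * tb_dd m i (fun b => F (sw i b) - F b) b) +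
      1 / 2 * (F (sw i b) + F b), ((tb_cos_dd_Sep hi hA).smul _).add
        (((hF.comp_sw hi).add hF).smul _), fun b => ?_⟩
    have h := tb_dd_id hi hA (fun b hb => by show F (sw i b) - F b = 0; rw [tb_sw_self hb, sub_self]) b
    rw [tb_s_eq, tb_s_neg_eq]
    show Real.sin (b i - b (i + 1)) * (Real.sin (π / 3) *
      (Real.cos (b i - b (i + 1)) * tb_dd m i (fun b => F (sw i b) - F b) b) +
      1 / 2 * (F (sw i b) + F b)) = _
    linear_combination (-Real.sin (π / 3) * Real.cos (b i - b (i + 1))) * h

/-! ### the vector `f0` -/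

theorem tb_sum_deg (a N k : ℕ) :
    ∑ j ∈ Ico a (a + N), ∑ i ∈ Ico a j, (if i = k ∨ j = k then 2 else 0) =
      if a ≤ k ∧ k < a + N then 2 * (N - 1) else 0 := by
  induction N with
  | zero => simp
  | succ N ih =>
    rw [← Nat.add_assoc, Finset.sum_Ico_succ_top (by omega), ih]
    by_cases h1 : a + N = k
    · have h2 : ∀ i ∈ Ico a (a + N), (if i = k ∨ a + N = k then 2 else 0) = 2 := by
        intro i _; rw [if_pos (Or.inr h1)]
      rw [Finset.sum_congr rfl h2, Finset.sum_const, Nat.card_Ico, if_neg (by omega),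
        if_pos (by omega), smul_eq_mul]
      omega
    · have h2 : ∀ i ∈ Ico a (a + N), (if i = k ∨ a + N = k then 2 else 0) =
          if i = k then 2 else 0 := by
        intro i _
        by_cases h3 : i = k
        · rw [if_pos (Or.inl h3), if_pos h3]
        · rw [if_neg (by tauto), if_neg h3]
      rw [Finset.sum_congr rfl h2, Finset.sum_ite_eq']
      simp only [Finset.mem_Ico]
      by_cases h3 : a ≤ k ∧ k < a + N
      · rw [if_pos h3, if_pos h3, if_pos (by omega)]
        omega
      · rw [if_neg h3, if_neg h3, if_neg (by omega), Nat.add_zero]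

theorem tb_f0_factor (b : ℕ → ℝ) {k i j : ℕ} (hij : i ≠ j) :
    TP (if i = k ∨ j = k then 2 else 0)
      (fun x => s (Function.update b k x i - Function.update b k x j) *
        s (-Function.update b k x i - Function.update b k x j)) := by
  by_cases h : i = k ∨ j = k
  · rw [if_pos h]
    rcases h with h | h
    · subst h
      refine ((TP.s_add (-b j)).mul (TP.s_sub (-b j))).tb_congr fun x => ?_
      rw [Function.update_self, Function.update_of_ne hij.symm]
      congr 2; ring
    · subst h
      refine ((TP.s_sub (b i)).mul (TP.s_sub (-b i))).tb_congr fun x => ?_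
      rw [Function.update_self, Function.update_of_ne hij]
  · rw [if_neg h]
    push Not at h
    refine (TP.const (s (b i - b j) * s (-b i - b j))).tb_congr fun x => ?_
    rw [Function.update_of_ne h.1, Function.update_of_ne h.2]

theorem tb_f0_factor' (b : ℕ → ℝ) {k i j : ℕ} (hij : i ≠ j) :
    TP (if i = k ∨ j = k then 2 else 0)
      (fun x => s (Function.update b k x i - Function.update b k x j) *
        s (Function.update b k x i + Function.update b k x j)) := by
  by_cases h : i = k ∨ j = k
  · rw [if_pos h]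
    rcases h with h | h
    · subst h
      refine ((TP.s_add (-b j)).mul (TP.s_add (b j))).tb_congr fun x => ?_
      rw [Function.update_self, Function.update_of_ne hij.symm]
      congr 2
    · subst h
      refine ((TP.s_sub (b i)).mul (TP.s_add (b i))).tb_congr fun x => ?_
      rw [Function.update_self, Function.update_of_ne hij]
      congr 2; ring
  · rw [if_neg h]
    push Not at h
    refine (TP.const (s (b i - b j) * s (b i + b j))).tb_congr fun x => ?_
    rw [Function.update_of_ne h.1, Function.update_of_ne h.2]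

theorem f0_Sep (n : ℕ) : Sep (2 * n + 1) (2 * n) (f0 n) := by
  refine ⟨fun b k hk => ?_, fun b b' h => ?_⟩
  · have h1 : TP (if k < n + 1 then 2 * n else 0)
        (fun x => ∏ j ∈ range (n + 1), ∏ i ∈ range j,
          s (Function.update b k x i - Function.update b k x j) *
          s (-Function.update b k x i - Function.update b k x j)) := by
      have h2 := TP.prod (range (n + 1)) (m := fun j => ∑ i ∈ range j, if i = k ∨ j = k then 2 else 0)
        (F := fun j x => ∏ i ∈ range j,
          s (Function.update b k x i - Function.update b k x j) *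
          s (-Function.update b k x i - Function.update b k x j))
        (fun j _ => TP.prod (range j) (m := fun i => if i = k ∨ j = k then 2 else 0)
          fun i hi => tb_f0_factor b (by have := Finset.mem_range.1 hi; omega))
      have h3 := tb_sum_deg 0 (n + 1) k
      simp only [← Finset.range_eq_Ico, Nat.zero_add, Nat.zero_le, true_and,
        Nat.add_sub_cancel] at h3
      rw [h3] at h2
      exact h2
    have h1' : TP (if n + 1 ≤ k ∧ k < n + 1 + n then 2 * (n - 1) else 0)
        (fun x => ∏ j ∈ Ico (n + 1) (2 * n + 1), ∏ i ∈ Ico (n + 1) j,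
          s (Function.update b k x i - Function.update b k x j) *
          s (Function.update b k x i + Function.update b k x j)) := by
      have h2 := TP.prod (Ico (n + 1) (2 * n + 1))
        (m := fun j => ∑ i ∈ Ico (n + 1) j, if i = k ∨ j = k then 2 else 0)
        (F := fun j x => ∏ i ∈ Ico (n + 1) j,
          s (Function.update b k x i - Function.update b k x j) *
          s (Function.update b k x i + Function.update b k x j))
        (fun j _ => TP.prod (Ico (n + 1) j) (m := fun i => if i = k ∨ j = k then 2 else 0)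
          fun i hi => tb_f0_factor' b (by have := Finset.mem_Ico.1 hi; omega))
      have h3 := tb_sum_deg (n + 1) n k
      have h4 : n + 1 + n = 2 * n + 1 := by ring
      rw [h4] at h3 ⊢
      rw [h3] at h2
      exact h2
    have h5 := h1.mul h1'
    by_cases hkn : k < n + 1
    · rw [if_pos hkn, if_neg (by omega)] at h5
      exact h5
    · rw [if_neg hkn, if_pos (by omega)] at h5
      have h6 := h5.mono 1
      have h7 : 0 + 2 * (n - 1) + 2 * 1 = 2 * n := by omega
      rw [h7] at h6
      exact h6
  · unfold f0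
    congr 1
    · refine Finset.prod_congr rfl fun j hj => Finset.prod_congr rfl fun i hi => ?_
      have := Finset.mem_range.1 hj
      have := Finset.mem_range.1 hi
      rw [h i (by omega), h j (by omega)]
    · refine Finset.prod_congr rfl fun j hj => Finset.prod_congr rfl fun i hi => ?_
      have := Finset.mem_Ico.1 hj
      have := Finset.mem_Ico.1 hi
      rw [h i (by omega), h j (by omega)]
end IP
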