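import Pool.Agent.Lead.IP.DetA
/-! MODULE DetB: recursion of the determinants at `b 1 = b 0 + π/3`, quotient.
Put `u_μ = (sin (2 μ b i))_i`; then `u_(μ+3) + u_(μ-3) - 2 cos (6 b 0) u_μ = (2 (cos (6 b i) - cos (6 b 0)) sin (2 μ b i))_i`
vanishes in the rows `0` and `1`.  Column operations (from the last column on; `u_(-2) = -u_2`, `u_(-1) = - u_1`):
`Dt (m+2) b = Dt 2 b * ∏_{i ≥ 2} 2 (cos (6 b i) - cos (6 b 0)) * Dt m (rem 0 b)`; and
`cos 3x - cos 3y = 4 ∏_k (cos x - cos (y + 2πk/3))`, `Dt 2 = Dl 2`.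
(The recursion is by helper24, `IPDet`; the rest by helper92.) -/
namespace IP
open Finset Real Filter Topology

theorem Dt_two (b : ℕ → ℝ) : Dt 2 b = Dl 2 b := by
  unfold Dt Dl
  congr 1
  ext i j
  simp only [Matrix.of_apply]
  have hj : ((mu j : ℕ) : ℝ) = (((j : ℕ) + 1 : ℕ) : ℝ) := by
    congr 1
    fin_cases j <;> rfl
  rw [hj]

/-! ### The recursion of `Dt` -/

theorem dB_mu_add_two (j : ℕ) : mu (j + 2) = mu j + 3 := by unfold mu; omega

/-- column operation coefficients -/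
noncomputable def dB_uu (c : ℝ) (k j : ℕ) : ℝ :=
  (if k = j then 1 else 0) + (if k + 2 = j then -c else 0) + (if k + 4 = j then 1 else 0) +
  (if k = 1 ∧ j = 2 then -1 else 0) + (if k = 0 ∧ j = 3 then -1 else 0)

theorem dB_sum_uu (c : ℝ) (F : ℕ → ℝ) (N : ℕ) (j : ℕ) (hj : j < N) :
    ∑ k ∈ range N, F k * dB_uu c k j =
      F j + (if 2 ≤ j then -c * F (j - 2) else 0) + (if 4 ≤ j then F (j - 4) else 0) +
      (if j = 2 then -F 1 else 0) + (if j = 3 then -F 0 else 0) := by
  unfold dB_uu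
  simp only [mul_add, sum_add_distrib]
  congr 1
  · congr 1
    · congr 1
      · congr 1
        · simp [hj]
        · by_cases h : 2 ≤ j
          · obtain ⟨i, rfl⟩ : ∃ i, j = i + 2 := ⟨j - 2, by omega⟩
            rw [if_pos h, sum_eq_single i]
            · simp; ring
            · intro k _ hk; rw [if_neg (by omega), mul_zero]
            · intro h'; exact absurd (mem_range.2 (by omega)) h'
          · rw [if_neg h]
            apply sum_eq_zero
            intro k _; rw [if_neg (by omega), mul_zero]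
      · by_cases h : 4 ≤ j
        · obtain ⟨i, rfl⟩ : ∃ i, j = i + 4 := ⟨j - 4, by omega⟩
          rw [if_pos h, sum_eq_single i]
          · simp
          · intro k _ hk; rw [if_neg (by omega), mul_zero]
          · intro h'; exact absurd (mem_range.2 (by omega)) h'
        · rw [if_neg h]
          apply sum_eq_zero
          intro k _; rw [if_neg (by omega), mul_zero]
    · by_cases h : j = 2
      · rw [if_pos h, sum_eq_single 1]
        · simp [h]
        · intro k _ hk; rw [if_neg (by omega), mul_zero]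
        · intro h'; exact absurd (mem_range.2 (by omega)) h'
      · rw [if_neg h]
        apply sum_eq_zero
        intro k _; rw [if_neg (by omega), mul_zero]
  · by_cases h : j = 3
    · rw [if_pos h, sum_eq_single 0]
      · simp [h]
      · intro k _ hk; rw [if_neg (by omega), mul_zero]
      · intro h'; exact absurd (mem_range.2 (by omega)) h'
    · rw [if_neg h]
      apply sum_eq_zero
      intro k _; rw [if_neg (by omega), mul_zero]

/-- the columns after the column operations -/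
noncomputable def dB_NNd (c x : ℝ) (j : ℕ) : ℝ :=
  if j < 2 then Real.sin (2 * mu j * x) else
    (2 * Real.cos (6 * x) - c) * Real.sin (2 * mu (j - 2) * x)

theorem dB_sin_mu_rec (x : ℝ) (j : ℕ) : Real.sin (2 * mu (j + 4) * x) =
    2 * Real.cos (6 * x) * Real.sin (2 * mu (j + 2) * x) - Real.sin (2 * mu j * x) := by
  rw [dB_mu_add_two (j + 2), dB_mu_add_two]
  push_cast
  rw [show 2 * ((mu j : ℝ) + 3 + 3) * x = 2 * ((mu j : ℝ) + 3) * x + 6 * x by ring,
    show 2 * (mu j : ℝ) * x = 2 * ((mu j : ℝ) + 3) * x - 6 * x by ring, Real.sin_add, Real.sin_sub]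
  ring

theorem dB_uu_NNd (c x : ℝ) (N : ℕ) (j : ℕ) (hj : j < N) :
    ∑ k ∈ range N, Real.sin (2 * mu k * x) * dB_uu c k j = dB_NNd c x j := by
  rw [dB_sum_uu c (fun k => Real.sin (2 * mu k * x)) N j hj]
  unfold dB_NNd
  rcases j with _ | _ | _ | _ | j
  · simp
  · simp
  · have h8 : Real.sin (8 * x) = 2 * Real.cos (6 * x) * Real.sin (2 * x) + Real.sin (4 * x) := by
      rw [show 8 * x = 2 * x + 6 * x by ring, show 4 * x = 6 * x - 2 * x by ring, Real.sin_add,
        Real.sin_sub]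
      ring
    simp [mu]
    rw [show (2 : ℝ) * 4 * x = 8 * x by ring, show (2 : ℝ) * 2 * x = 4 * x by ring, h8]
    ring
  · have h8 : Real.sin (10 * x) = 2 * Real.cos (6 * x) * Real.sin (4 * x) + Real.sin (2 * x) := by
      rw [show 10 * x = 4 * x + 6 * x by ring, show 2 * x = 6 * x - 4 * x by ring, Real.sin_add,
        Real.sin_sub]
      ring
    simp [mu]
    rw [show (2 : ℝ) * 5 * x = 10 * x by ring,
      show (2 : ℝ) * 2 * x = 4 * x by ring, h8]
    ring
  · have h := dB_sin_mu_rec x j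
    simp only [show ¬ (j + 1 + 1 + 1 + 1 < 2) by omega, if_false,
      show 2 ≤ j + 1 + 1 + 1 + 1 by omega, if_true, show 4 ≤ j + 1 + 1 + 1 + 1 by omega,
      show ¬ (j + 1 + 1 + 1 + 1 = 2) by omega, show ¬ (j + 1 + 1 + 1 + 1 = 3) by omega]
    rw [show j + 1 + 1 + 1 + 1 = j + 4 by omega, show j + 4 - 2 = j + 2 by omega,
      show j + 4 - 4 = j by omega, h]
    ring

theorem dB_Dt_eq_NNd (m : ℕ) (c : ℝ) (b : ℕ → ℝ) :
    Dt m b = Matrix.det (Matrix.of fun i j : Fin m => dB_NNd c (b i) j) := by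
  have h1 : (Matrix.of fun i j : Fin m => dB_NNd c (b i) j) =
      (Matrix.of fun i j : Fin m => Real.sin (2 * mu j * b i)) *
        (Matrix.of fun k j : Fin m => dB_uu c k j) := by
    ext i j
    rw [Matrix.mul_apply, Matrix.of_apply]
    simp only [Matrix.of_apply]
    rw [Fin.sum_univ_eq_sum_range (fun k => Real.sin (2 * mu k * b i) * dB_uu c k j),
      dB_uu_NNd c (b i) m j j.2]
  have h2 : Matrix.det (Matrix.of fun k j : Fin m => dB_uu c k j) = 1 := by
    rw [Matrix.det_of_isUpperTriangular]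
    · apply prod_eq_one
      intro i _
      simp only [Matrix.of_apply, dB_uu]
      simp only [if_true, show ¬ ((i : ℕ) + 2 = i) by omega, show ¬ ((i : ℕ) + 4 = i) by omega,
        show ¬ ((i : ℕ) = 1 ∧ (i : ℕ) = 2) by omega, show ¬ ((i : ℕ) = 0 ∧ (i : ℕ) = 3) by omega,
        if_false]
      norm_num
    · intro i j hij
      have hij' : (j : ℕ) < i := hij
      simp only [Matrix.of_apply, dB_uu]
      simp only [show ¬ ((i : ℕ) = j) by omega, show ¬ ((i : ℕ) + 2 = j) by omega,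
        show ¬ ((i : ℕ) + 4 = j) by omega, show ¬ ((i : ℕ) = 1 ∧ (j : ℕ) = 2) by omega,
        show ¬ ((i : ℕ) = 0 ∧ (j : ℕ) = 3) by omega, if_false]
      norm_num
  rw [h1, Matrix.det_mul, h2, mul_one]
  rfl

theorem dB_rem_zero (b : ℕ → ℝ) : rem 0 b = fun k => b (k + 2) := by
  funext k
  unfold rem
  rw [if_neg (by omega)]

theorem dB_Dt_rec (m : ℕ) (b : ℕ → ℝ) (h : Real.cos (6 * b 1) = Real.cos (6 * b 0)) :
    Dt (m + 2) b = Dt 2 b *
      (∏ k ∈ range m, (2 * (Real.cos (6 * b (k + 2)) - Real.cos (6 * b 0)))) *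
      Dt m (fun k => b (k + 2)) := by
  rw [dB_Dt_eq_NNd (m + 2) (2 * Real.cos (6 * b 0)) b]
  set e : Fin 2 ⊕ Fin m ≃ Fin (m + 2) := finSumFinEquiv.trans (finCongr (by omega)) with he
  rw [← Matrix.det_submatrix_equiv_self e]
  have hl : ∀ i : Fin 2, ((e (Sum.inl i) : Fin (m + 2)) : ℕ) = i := by
    intro i; simp [he]
  have hr : ∀ i : Fin m, ((e (Sum.inr i) : Fin (m + 2)) : ℕ) = i + 2 := by
    intro i; simp [he]
  have h1 : (Matrix.of fun i j : Fin (m + 2) => dB_NNd (2 * Real.cos (6 * b 0)) (b i) j).submatrix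
      e e =
      Matrix.fromBlocks (Matrix.of fun i j : Fin 2 => Real.sin (2 * mu j * b i)) 0
        (Matrix.of fun (i : Fin m) (j : Fin 2) => Real.sin (2 * mu j * b (i + 2)))
        (Matrix.diagonal (fun i : Fin m => 2 * (Real.cos (6 * b (i + 2)) - Real.cos (6 * b 0))) *
          Matrix.of (fun i j : Fin m => Real.sin (2 * mu j * b (i + 2)))) := by
    ext i j
    rcases i with i | i <;> rcases j with j | j
    · simp only [Matrix.submatrix_apply, Matrix.of_apply, Matrix.fromBlocks_apply₁₁, hl, dB_NNd, j.2,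
        if_true]
    · simp only [Matrix.submatrix_apply, Matrix.of_apply, Matrix.fromBlocks_apply₁₂, hl, hr, dB_NNd,
        show ¬ ((j : ℕ) + 2 < 2) by omega, if_false, Matrix.zero_apply]
      have hi : (i : ℕ) = 0 ∨ (i : ℕ) = 1 := by omega
      rcases hi with hi | hi
      · rw [hi]; ring
      · rw [hi, h]; ring
    · simp only [Matrix.submatrix_apply, Matrix.of_apply, Matrix.fromBlocks_apply₂₁, hl, hr, dB_NNd,
        j.2, if_true]
    · simp only [Matrix.submatrix_apply, Matrix.of_apply, Matrix.fromBlocks_apply₂₂, hr, dB_NNd,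
        show ¬ ((j : ℕ) + 2 < 2) by omega, if_false, Matrix.diagonal_mul]
      rw [show (j : ℕ) + 2 - 2 = j by omega]
      ring
  rw [h1, Matrix.det_fromBlocks_zero₁₂, Matrix.det_mul, Matrix.det_diagonal,
    Fin.prod_univ_eq_prod_range (fun i => 2 * (Real.cos (6 * b (i + 2)) - Real.cos (6 * b 0)))]
  unfold Dt
  rw [mul_assoc]

theorem dB_prod_Ico (m : ℕ) (f : ℕ → ℝ) : ∏ i ∈ Ico 2 (m + 2), f i = ∏ k ∈ range m, f (k + 2) := by
  rw [prod_Ico_eq_prod_range]
  apply prod_congr (by rw [Nat.add_sub_cancel])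
  intro k _
  rw [add_comm]

theorem Dt_rec (m : ℕ) (b : ℕ → ℝ) (hb : b 1 = b 0 + π / 3) :
    Dt (m + 2) b = Dt 2 b * (∏ i ∈ Ico 2 (m + 2), 2 * (Real.cos (6 * b i) - Real.cos (6 * b 0))) *
      Dt m (rem 0 b) := by
  have h6 : Real.cos (6 * b 1) = Real.cos (6 * b 0) := by
    rw [hb, show 6 * (b 0 + π / 3) = 6 * b 0 + 2 * π by ring, Real.cos_add_two_pi]
  rw [dB_Dt_rec m b h6, dB_prod_Ico, dB_rem_zero]

theorem Dl_rec (m : ℕ) (b : ℕ → ℝ) :
    Dl (m + 2) b = Dl 2 b * (∏ i ∈ Ico 2 (m + 2), (2 * (Real.cos (2 * b i) - Real.cos (2 * b 0))) *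
      (2 * (Real.cos (2 * b i) - Real.cos (2 * b 1)))) * Dl m (rem 0 b) := by
  rw [dB_prod_Ico m (fun i => (2 * (Real.cos (2 * b i) - Real.cos (2 * b 0))) *
      (2 * (Real.cos (2 * b i) - Real.cos (2 * b 1)))), dB_rem_zero, Dl_eq, Dl_eq, Dl_eq]
  rw [prod_range_succ', prod_range_succ' _ m, prod_range_succ' (fun j => ∏ i ∈ range j, _) (m + 1),
    prod_range_succ' _ m]
  have h1 : ∀ j, (∏ i ∈ range (j + 1 + 1),
      (2 * (Real.cos (2 * b (j + 1 + 1)) - Real.cos (2 * b i)))) =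
      ((2 * (Real.cos (2 * b (j + 2)) - Real.cos (2 * b 0))) *
      (2 * (Real.cos (2 * b (j + 2)) - Real.cos (2 * b 1)))) *
      ∏ i ∈ range j, (2 * (Real.cos (2 * b (j + 2)) - Real.cos (2 * b (i + 2)))) := by
    intro j
    rw [prod_range_succ', prod_range_succ']
    ring
  rw [prod_congr rfl (fun j _ => h1 j), prod_mul_distrib]
  simp only [prod_range_succ, prod_range_zero, one_mul, zero_add]
  ring

theorem dB_cos_six (x a : ℝ) : 2 * (Real.cos (6 * x) - Real.cos (6 * a)) =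
    (2 * (Real.cos (2 * x) - Real.cos (2 * a))) *
    (2 * (Real.cos (2 * x) - Real.cos (2 * (a + π / 3)))) *
    (2 * (Real.cos (2 * x) - Real.cos (2 * a - 2 * π / 3))) := by
  have h1 : Real.cos (6 * x) = 4 * Real.cos (2 * x) ^ 3 - 3 * Real.cos (2 * x) := by
    rw [← Real.cos_three_mul]; congr 1; ring
  have h2 : Real.cos (6 * a) = 4 * Real.cos (2 * a) ^ 3 - 3 * Real.cos (2 * a) := by
    rw [← Real.cos_three_mul]; congr 1; ring
  have h3 : Real.cos (2 * π / 3) = -1 / 2 := by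
    rw [show 2 * π / 3 = π - π / 3 by ring, Real.cos_pi_sub, Real.cos_pi_div_three]; ring
  have h4 : Real.sin (2 * π / 3) = Real.sqrt 3 / 2 := by
    rw [show 2 * π / 3 = π - π / 3 by ring, Real.sin_pi_sub, Real.sin_pi_div_three]
  rw [h1, h2, show 2 * (a + π / 3) = 2 * a + 2 * π / 3 by ring, Real.cos_add, Real.cos_sub, h3, h4]
  have h5 : Real.sqrt 3 ^ 2 = 3 := Real.sq_sqrt (by norm_num)
  have h7 : Real.sin (2 * a) ^ 2 = 1 - Real.cos (2 * a) ^ 2 := by
    have h6 := Real.sin_sq_add_cos_sq (2 * a)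
    linarith
  linear_combination ((2 * Real.cos (2 * x) - 2 * Real.cos (2 * a)) * Real.sin (2 * a) ^ 2) * h5 +
    (3 * (2 * Real.cos (2 * x) - 2 * Real.cos (2 * a))) * h7

/-- the recursion in the form in which it is used -/
theorem chi_rec (m : ℕ) (b : ℕ → ℝ) (hb : b 1 = b 0 + π / 3) :
    Dt (m + 2) b * Dl m (rem 0 b) =
      (∏ i ∈ Ico 2 (m + 2), 2 * (Real.cos (2 * b i) - Real.cos (2 * b 0 - 2 * π / 3))) *
        (Dl (m + 2) b * Dt m (rem 0 b)) := by
  rw [Dt_rec m b hb, Dl_rec, Dt_two]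
  have h1 : (∏ i ∈ Ico 2 (m + 2), 2 * (Real.cos (6 * b i) - Real.cos (6 * b 0))) =
      (∏ i ∈ Ico 2 (m + 2), (2 * (Real.cos (2 * b i) - Real.cos (2 * b 0))) *
      (2 * (Real.cos (2 * b i) - Real.cos (2 * b 1)))) *
      ∏ i ∈ Ico 2 (m + 2), 2 * (Real.cos (2 * b i) - Real.cos (2 * b 0 - 2 * π / 3)) := by
    rw [← prod_mul_distrib]
    apply prod_congr rfl
    intro k _
    rw [dB_cos_six, hb]
  rw [h1]
  ring

/-! ### the quotient in one variable -/

theorem dB_divs {ι : Type*} [DecidableEq ι] (y : ι → ℝ) (t : Finset ι) :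
    ∀ {k : ℕ} {H : ℝ → ℝ}, TP (k + t.card) H → (∀ a ∈ t, H (y a) = 0) →
    (∀ a ∈ t, ∀ c ∈ t, a ≠ c → Real.sin (y c - y a) ≠ 0) →
    ∃ G : ℝ → ℝ, TP k G ∧ ∀ x, H x = (∏ a ∈ t, Real.sin (x - y a)) * G x := by
  induction t using Finset.induction_on with
  | empty =>
    intro k H hH _ _
    exact ⟨H, by simpa using hH, fun x => by simp⟩
  | insert a t ha ih =>
    intro k H hH h0 hd
    rw [card_insert_of_notMem ha, ← add_assoc] at hH
    obtain ⟨G1, hG1, h1⟩ := hH.div (y a) (h0 a (mem_insert_self _ _))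
    obtain ⟨G, hG, h2⟩ := ih hG1
      (fun c hc => by
        have h3 := h0 c (mem_insert_of_mem hc)
        rw [h1] at h3
        have h4 := hd a (mem_insert_self _ _) c (mem_insert_of_mem hc)
          (by rintro rfl; exact ha hc)
        exact (mul_eq_zero.1 h3).resolve_left h4)
      (fun c hc c' hc' hne => hd c (mem_insert_of_mem hc) c' (mem_insert_of_mem hc') hne)
    refine ⟨G, hG, fun x => ?_⟩
    rw [h1, h2, prod_insert ha]
    ring

theorem dB_TP_zero {G : ℝ → ℝ} (h : TP 0 G) (x : ℝ) : G x = G 0 := by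
  obtain ⟨P, hP, hG⟩ := h
  have h1 : P = Polynomial.C (P.coeff 0) := Polynomial.eq_C_of_natDegree_le_zero hP
  have h2 : (G x : ℂ) = (G 0 : ℂ) := by
    rw [hG x, hG 0, h1]
    simp
  exact_mod_cast h2

/-- the nodes -/
noncomputable def dB_nd (i : ℕ) (b : ℕ → ℝ) (a : ℕ × Bool) : ℝ :=
  if a.1 = i then (if a.2 then 0 else π / 2) else (if a.2 then b a.1 else -b a.1)

theorem dB_sin_half (x : ℝ) : Real.sin (x - π / 2) = -Real.cos x := Real.sin_sub_pi_div_two x

theorem dB_nd_dist {m i : ℕ} (b : ℕ → ℝ)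
    (hg : ∀ j k, j < m → k < m → j ≠ i → k ≠ i → j ≠ k →
      Real.sin (b j - b k) ≠ 0 ∧ Real.sin (b j + b k) ≠ 0)
    (hg0 : ∀ j, j < m → j ≠ i → Real.sin (2 * b j) ≠ 0) :
    ∀ a ∈ range m ×ˢ (univ : Finset Bool), ∀ c ∈ range m ×ˢ (univ : Finset Bool), a ≠ c →
      Real.sin (dB_nd i b c - dB_nd i b a) ≠ 0 := by
  have hs : ∀ j, j < m → j ≠ i → Real.sin (b j) ≠ 0 ∧ Real.cos (b j) ≠ 0 := by
    intro j h1 h2
    have h3 := hg0 j h1 h2
    rw [Real.sin_two_mul] at h3
    exact ⟨fun h => h3 (by rw [h]; ring), fun h => h3 (by rw [h]; ring)⟩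
  rintro ⟨j, e⟩ ha ⟨k, e'⟩ hc hne
  rw [mem_product, mem_range] at ha hc
  have hj := ha.1
  have hk := hc.1
  simp only at hj hk
  unfold dB_nd
  simp only
  by_cases h1 : j = i
  · by_cases h2 : k = i
    · subst h1
      subst h2
      cases e <;> cases e' <;> simp at hne ⊢
    · rw [if_pos h1, if_neg h2]
      obtain ⟨s1, s2⟩ := hs k hk h2
      cases e <;> cases e' <;> simp [Real.sin_sub_pi_div_two, s1, s2]
  · by_cases h2 : k = i
    · rw [if_neg h1, if_pos h2]
      obtain ⟨s1, s2⟩ := hs j hj h1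
      cases e <;> cases e'
      · simp only [Bool.false_eq_true, if_false]
        rw [sub_neg_eq_add, add_comm, Real.sin_add_pi_div_two]
        exact s2
      · simp [s1]
      · simp only [Bool.false_eq_true, if_false, if_true]
        rw [Real.sin_pi_div_two_sub]
        exact s2
      · simp [s1]
    · rw [if_neg h1, if_neg h2]
      by_cases h3 : j = k
      · subst h3
        have h4 := hg0 j hj h1
        cases e <;> cases e' <;> simp at hne ⊢
        · rw [← two_mul]; exact h4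
        · rw [show -b j - b j = -(2 * b j) by ring, Real.sin_neg]
          intro h5
          exact h4 (neg_eq_zero.1 h5)
      · obtain ⟨t1, t2⟩ := hg k j hk hj h2 h1 (Ne.symm h3)
        cases e <;> cases e' <;> simp only [Bool.false_eq_true, if_false, if_true]
        · rw [show -b k - -b j = -(b k - b j) by ring, Real.sin_neg, neg_ne_zero]; exact t1
        · rw [sub_neg_eq_add]; exact t2
        · rw [show -b k - b j = -(b k + b j) by ring, Real.sin_neg, neg_ne_zero]; exact t2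
        · exact t1

/-- vanishing of an alternant of odd functions at the nodes -/
theorem dB_vanish {m i : ℕ} (hi : i < m) (ν : ℕ → ℕ) (b : ℕ → ℝ) (a : ℕ × Bool)
    (ha : a ∈ range m ×ˢ (univ : Finset Bool)) :
    Matrix.det (Matrix.of fun k j : Fin m =>
      Real.sin (2 * (ν j : ℝ) * (Function.update b i (dB_nd i b a)) k)) = 0 := by
  obtain ⟨j, e⟩ := a
  rw [mem_product, mem_range] at ha
  have hj := ha.1
  simp only at hj
  by_cases h1 : j = i
  · apply Matrix.det_eq_zero_of_row_eq_zero ⟨i, hi⟩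
    intro l
    simp only [Matrix.of_apply, Function.update_self]
    unfold dB_nd
    rw [if_pos h1]
    cases e
    · simp only [Bool.false_eq_true, if_false]
      rw [show 2 * (ν l : ℝ) * (π / 2) = ν l * π by ring]
      exact Real.sin_nat_mul_pi _
    · simp
  · have hne : (⟨i, hi⟩ : Fin m) ≠ ⟨j, hj⟩ := by
      intro h
      rw [Fin.mk.injEq] at h
      exact h1 h.symm
    unfold dB_nd
    rw [if_neg h1]
    cases e
    · -- row i = - row j
      simp only [Bool.false_eq_true, if_false]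
      set A := Matrix.of fun k l : Fin m =>
        Real.sin (2 * (ν l : ℝ) * (Function.update b i (-b j)) k) with hA
      have h2 : A = Matrix.updateRow A ⟨i, hi⟩ ((-1 : ℝ) • A ⟨j, hj⟩) := by
        ext k l
        by_cases hk : k = ⟨i, hi⟩
        · subst hk
          rw [Matrix.updateRow_self]
          simp only [hA, Matrix.of_apply, Pi.smul_apply, Function.update_self, smul_eq_mul]
          rw [Function.update_of_ne h1]
          rw [mul_neg, Real.sin_neg]
          ring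
        · rw [Matrix.updateRow_ne hk]
      rw [h2, Matrix.det_updateRow_smul]
      have h3 : Matrix.det (Matrix.updateRow A ⟨i, hi⟩ (A ⟨j, hj⟩)) = 0 := by
        apply Matrix.det_zero_of_row_eq hne
        rw [Matrix.updateRow_self, Matrix.updateRow_ne (Ne.symm hne)]
      rw [h3, mul_zero]
    · simp only [if_true]
      apply Matrix.det_zero_of_row_eq hne
      funext l
      simp only [Matrix.of_apply, Function.update_self]
      rw [Function.update_of_ne h1]

theorem dB_generic {ι : Type*} (y : ι → ℝ) (t : Finset ι) :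
    ∃ x : ℝ, ∀ a ∈ t, Real.sin (x - y a) ≠ 0 := by
  have hc : (⋃ a ∈ t, {x : ℝ | Real.sin (x - y a) = 0}).Countable := by
    apply Set.Countable.biUnion t.countable_toSet
    intro a _
    have h1 : {x : ℝ | Real.sin (x - y a) = 0} ⊆ Set.range (fun n : ℤ => (n : ℝ) * π + y a) := by
      intro x hx
      obtain ⟨n, hn⟩ := Real.sin_eq_zero_iff.1 hx
      exact ⟨n, by simp only; linarith⟩
    exact (Set.countable_range _).mono h1
  obtain ⟨x, hx⟩ := (hc.dense_compl ℝ).nonempty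
  refine ⟨x, fun a ha h => hx ?_⟩
  rw [Set.mem_iUnion₂]
  exact ⟨a, ha, h⟩

/-- the quotient `Dt / Dl` as a function of one variable (`m ≥ 1`); division by the simple roots
`0, π/2, ± b j` with `TP.div` -/
theorem chi_quot {m i : ℕ} (h : i < m) (b : ℕ → ℝ)
    (hg : ∀ j k, j < m → k < m → j ≠ i → k ≠ i → j ≠ k → Real.sin (b j - b k) ≠ 0 ∧ Real.sin (b j + b k) ≠ 0)
    (hg0 : ∀ j, j < m → j ≠ i → Real.sin (2 * b j) ≠ 0) :
    ∃ q : ℝ → ℝ, TP (2 * (mu (m - 1) - m)) q ∧
      ∀ x, Dt m (Function.update b i x) = Dl m (Function.update b i x) * q x := by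
  set t := range m ×ˢ (univ : Finset Bool) with ht
  have hcard : t.card = 2 * m := by
    rw [ht, card_product, card_range, card_univ, Fintype.card_bool, mul_comm]
  have hmu : m ≤ mu (m - 1) := by unfold mu; omega
  have hd := dB_nd_dist b hg hg0
  have hT : TP (2 * (mu (m - 1) - m) + t.card) (fun x => Dt m (Function.update b i x)) := by
    have h1 := (Dt_Sep m).1 b i h
    rw [hcard, show 2 * (mu (m - 1) - m) + 2 * m = 2 * mu (m - 1) by omega]
    exact h1
  have hL : TP (0 + t.card) (fun x => Dl m (Function.update b i x)) := by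
    have h1 := (Dl_Sep m).1 b i h
    rw [hcard, zero_add]
    exact h1
  obtain ⟨G, hG, h1⟩ := dB_divs (dB_nd i b) t hT (fun a ha => dB_vanish h mu b a ha) hd
  obtain ⟨C, hC, h2⟩ := dB_divs (dB_nd i b) t hL
    (fun a ha => dB_vanish h (fun j => j + 1) b a ha) hd
  have hC0 : C 0 ≠ 0 := by
    intro hcon
    obtain ⟨x, hx⟩ := dB_generic (dB_nd i b) t
    have h3 : Dl m (Function.update b i x) = 0 := by
      have h4 := h2 x
      rw [dB_TP_zero hC x, hcon, mul_zero] at h4
      exact h4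
    have h5 : Dl m (Function.update b i x) ≠ 0 := by
      rw [Dl_ne_zero_iff]
      have hx0 : Real.sin x ≠ 0 ∧ Real.cos x ≠ 0 := by
        have e1 := hx (i, true) (mem_product.2 ⟨mem_range.2 h, mem_univ _⟩)
        have e2 := hx (i, false) (mem_product.2 ⟨mem_range.2 h, mem_univ _⟩)
        unfold dB_nd at e1 e2
        simp only [if_true, Bool.false_eq_true, if_false, sub_zero] at e1 e2
        rw [dB_sin_half, neg_ne_zero] at e2
        exact ⟨e1, e2⟩
      have hxj : ∀ j, j < m → j ≠ i → Real.sin (x - b j) ≠ 0 ∧ Real.sin (x + b j) ≠ 0 := by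
        intro j hj hji
        have e1 := hx (j, true) (mem_product.2 ⟨mem_range.2 hj, mem_univ _⟩)
        have e2 := hx (j, false) (mem_product.2 ⟨mem_range.2 hj, mem_univ _⟩)
        unfold dB_nd at e1 e2
        simp only [if_neg hji, if_true, Bool.false_eq_true, if_false, sub_neg_eq_add] at e1 e2
        exact ⟨e1, e2⟩
      refine ⟨fun j hj => ?_, fun j k hj hk hjk => ?_⟩
      · by_cases hji : j = i
        · subst hji
          rw [Function.update_self, Real.sin_two_mul]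
          exact mul_ne_zero (mul_ne_zero two_ne_zero hx0.1) hx0.2
        · rw [Function.update_of_ne hji]
          exact hg0 j hj hji
      · by_cases hji : j = i
        · subst hji
          rw [Function.update_self, Function.update_of_ne (Ne.symm hjk)]
          exact hxj k hk (Ne.symm hjk)
        · by_cases hki : k = i
          · subst hki
            rw [Function.update_self, Function.update_of_ne hji]
            obtain ⟨e1, e2⟩ := hxj j hj hji
            refine ⟨?_, by rw [add_comm]; exact e2⟩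
            rw [← neg_sub, Real.sin_neg, neg_ne_zero]
            exact e1
          · rw [Function.update_of_ne hji, Function.update_of_ne hki]
            exact hg j k hj hk hji hki hjk
    exact h5 h3
  refine ⟨fun x => (C 0)⁻¹ * G x, hG.smul _, fun x => ?_⟩
  have h3 := h1 x
  have h4 := h2 x
  rw [dB_TP_zero hC x] at h4
  rw [h3, h4]
  field_simp

/-- explicit small cases, `c i = 2 cos (2 b i)` -/
theorem dB_sin4 (x : ℝ) : Real.sin (2 * 2 * x) = Real.sin (2 * x) * (2 * Real.cos (2 * x)) := by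
  rw [show 2 * 2 * x = 2 * (2 * x) by ring, Real.sin_two_mul]; ring

theorem dB_sin6 (x : ℝ) :
    Real.sin (2 * 3 * x) = Real.sin (2 * x) * ((2 * Real.cos (2 * x)) ^ 2 - 1) := by
  have h := Real.sin_three_mul (2 * x)
  have h2 : Real.sin (2 * x) ^ 2 = 1 - Real.cos (2 * x) ^ 2 := by
    have := Real.sin_sq_add_cos_sq (2 * x); linarith
  rw [show 2 * 3 * x = 3 * (2 * x) by ring, h]
  linear_combination (-4 * Real.sin (2 * x)) * h2

theorem dB_sin8 (x : ℝ) : Real.sin (2 * 4 * x) =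
    Real.sin (2 * x) * ((2 * Real.cos (2 * x)) ^ 3 - 2 * (2 * Real.cos (2 * x))) := by
  have h1 := dB_sin6 x
  have h2 := dB_sin4 x
  have h3 : Real.sin (2 * 4 * x) = 2 * Real.sin (2 * 3 * x) * Real.cos (2 * x) -
      Real.sin (2 * 2 * x) := by
    rw [show 2 * 4 * x = 2 * 3 * x + 2 * x by ring, show 2 * 2 * x = 2 * 3 * x - 2 * x by ring,
      Real.sin_add, Real.sin_sub]
    ring
  rw [h3, h1, h2]
  ring

theorem dB_sin10 (x : ℝ) : Real.sin (2 * 5 * x) =
    Real.sin (2 * x) * ((2 * Real.cos (2 * x)) ^ 4 - 3 * (2 * Real.cos (2 * x)) ^ 2 + 1) := by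
  have h1 := dB_sin6 x
  have h2 := dB_sin8 x
  have h3 : Real.sin (2 * 5 * x) = 2 * Real.sin (2 * 4 * x) * Real.cos (2 * x) -
      Real.sin (2 * 3 * x) := by
    rw [show 2 * 5 * x = 2 * 4 * x + 2 * x by ring, show 2 * 3 * x = 2 * 4 * x - 2 * x by ring,
      Real.sin_add, Real.sin_sub]
    ring
  rw [h3, h1, h2]
  ring

theorem dB_sin2 (x : ℝ) : Real.sin (2 * 1 * x) = Real.sin (2 * x) := by rw [mul_one]

theorem chi_three (b : ℕ → ℝ) : Dt 3 b = Dl 3 b *
    (2 * Real.cos (2 * b 0) + 2 * Real.cos (2 * b 1) + 2 * Real.cos (2 * b 2)) := by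
  unfold Dt Dl
  rw [Matrix.det_fin_three, Matrix.det_fin_three]
  have e0 : ((mu 0 : ℕ) : ℝ) = 1 := by norm_num [mu]
  have e1 : ((mu 1 : ℕ) : ℝ) = 2 := by norm_num [mu]
  have e2 : ((mu 2 : ℕ) : ℝ) = 4 := by norm_num [mu]
  have f0 : (((0 + 1 : ℕ)) : ℝ) = 1 := by norm_num
  have f1 : (((1 + 1 : ℕ)) : ℝ) = 2 := by norm_num
  have f2 : (((2 + 1 : ℕ)) : ℝ) = 3 := by norm_num
  simp only [Matrix.of_apply, Fin.val_zero, Fin.val_one, Fin.val_two, e0, e1, e2, f0, f1, f2,
    dB_sin2, dB_sin4, dB_sin6, dB_sin8]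
  ring

theorem chi_four (b : ℕ → ℝ) : Dt 4 b = Dl 4 b *
    (3 + ∑ j ∈ range 4, ∑ i ∈ range j, (2 * Real.cos (2 * b i)) * (2 * Real.cos (2 * b j))) := by
  have hf : ∀ ν : ℕ → ℝ, Matrix.det (Matrix.of fun i j : Fin 4 => Real.sin (2 * ν j * b i)) =
      Matrix.det !![Real.sin (2 * ν 0 * b 0), Real.sin (2 * ν 1 * b 0), Real.sin (2 * ν 2 * b 0),
        Real.sin (2 * ν 3 * b 0);
        Real.sin (2 * ν 0 * b 1), Real.sin (2 * ν 1 * b 1), Real.sin (2 * ν 2 * b 1),
        Real.sin (2 * ν 3 * b 1);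
        Real.sin (2 * ν 0 * b 2), Real.sin (2 * ν 1 * b 2), Real.sin (2 * ν 2 * b 2),
        Real.sin (2 * ν 3 * b 2);
        Real.sin (2 * ν 0 * b 3), Real.sin (2 * ν 1 * b 3), Real.sin (2 * ν 2 * b 3),
        Real.sin (2 * ν 3 * b 3)] := by
    intro ν
    congr 1
    ext i j
    fin_cases i <;> fin_cases j <;> rfl
  have h1 := hf (fun j => ((mu j : ℕ) : ℝ))
  have h2 := hf (fun j => ((j + 1 : ℕ) : ℝ))
  have e0 : ((mu 0 : ℕ) : ℝ) = 1 := by norm_num [mu]
  have e1 : ((mu 1 : ℕ) : ℝ) = 2 := by norm_num [mu]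
  have e2 : ((mu 2 : ℕ) : ℝ) = 4 := by norm_num [mu]
  have e3 : ((mu 3 : ℕ) : ℝ) = 5 := by norm_num [mu]
  have f0 : (((0 + 1 : ℕ)) : ℝ) = 1 := by norm_num
  have f1 : (((1 + 1 : ℕ)) : ℝ) = 2 := by norm_num
  have f2 : (((2 + 1 : ℕ)) : ℝ) = 3 := by norm_num
  have f3 : (((3 + 1 : ℕ)) : ℝ) = 4 := by norm_num
  simp only [e0, e1, e2, e3, f0, f1, f2, f3, dB_sin2, dB_sin4, dB_sin6, dB_sin8, dB_sin10] at h1 h2
  unfold Dt Dl
  rw [h1, h2]
  obtain ⟨S0, hS0⟩ : ∃ y, Real.sin (2 * b 0) = y := ⟨_, rfl⟩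
  obtain ⟨S1, hS1⟩ : ∃ y, Real.sin (2 * b 1) = y := ⟨_, rfl⟩
  obtain ⟨S2, hS2⟩ : ∃ y, Real.sin (2 * b 2) = y := ⟨_, rfl⟩
  obtain ⟨S3, hS3⟩ : ∃ y, Real.sin (2 * b 3) = y := ⟨_, rfl⟩
  obtain ⟨c0, hc0⟩ : ∃ y, 2 * Real.cos (2 * b 0) = y := ⟨_, rfl⟩
  obtain ⟨c1, hc1⟩ : ∃ y, 2 * Real.cos (2 * b 1) = y := ⟨_, rfl⟩
  obtain ⟨c2, hc2⟩ : ∃ y, 2 * Real.cos (2 * b 2) = y := ⟨_, rfl⟩
  obtain ⟨c3, hc3⟩ : ∃ y, 2 * Real.cos (2 * b 3) = y := ⟨_, rfl⟩
  simp only [sum_range_succ, sum_range_zero, hS0, hS1, hS2, hS3, hc0, hc1, hc2, hc3]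
  simp [Matrix.det_succ_row_zero, Fin.sum_univ_succ, Fin.succAbove]
  ring
end IP
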