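import Pool.Agent.Lead.IP.Vsol
/-! MODULE Recur: the recursion `2n+3 → 2n+1` strands when `b (i+1) = b i + π/3`.
`V_sw` at `b (i+1) = b i + π/3` (`s (b i - b (i+1)) = 0`) gives `V = E i V = In i (De i V)`; by `V_Tt`,
`Tt_In` and `P_unique` (on the cube for `rem i b`, then by `Sep`-continuation) `De i V = κ • V n (rem i b)`;
for `i = n+1` compare the top coordinates (`ins_top`), for other `i` compare total masses and use the
symmetry of `Z`.  `K` is symmetric and even in the remaining coordinates. -/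
namespace IP
open Finset Real

/-- insert the coordinates `x`, `x + π/3` at the positions `i`, `i+1` -/
noncomputable def ins2 (i : ℕ) (x : ℝ) (c : ℕ → ℝ) : ℕ → ℝ :=
  fun j => if j < i then c j else if j = i then x else if j = i + 1 then x + π / 3 else c (j - 2)

theorem ins2_lt {i j : ℕ} (h : j < i) (x : ℝ) (c : ℕ → ℝ) : ins2 i x c j = c j := by
  unfold ins2; simp [h]
theorem ins2_self (i : ℕ) (x : ℝ) (c : ℕ → ℝ) : ins2 i x c i = x := by
  unfold ins2; simp
theorem ins2_succ (i : ℕ) (x : ℝ) (c : ℕ → ℝ) : ins2 i x c (i + 1) = x + π / 3 := by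
  unfold ins2
  have h1 : ¬ (i + 1 < i) := by omega
  have h2 : ¬ (i + 1 = i) := by omega
  simp [h1]
theorem ins2_ge {i j : ℕ} (h : i ≤ j) (x : ℝ) (c : ℕ → ℝ) : ins2 i x c (j + 2) = c j := by
  unfold ins2
  have h1 : ¬ (j + 2 < i) := by omega
  have h2 : ¬ (j + 2 = i) := by omega
  have h3 : ¬ (j + 2 = i + 1) := by omega
  simp [h1, h2, h3]

theorem rem_ins2 (i : ℕ) (x : ℝ) (c : ℕ → ℝ) : rem i (ins2 i x c) = c := by
  funext j
  unfold rem
  split_ifs with h
  · exact ins2_lt h x c
  · exact ins2_ge (by omega) x c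

theorem ins2_rem {i : ℕ} {b : ℕ → ℝ} (hb : b (i + 1) = b i + π / 3) :
    ins2 i (b i) (rem i b) = b := by
  funext j
  rcases lt_or_ge j i with h | h
  · rw [ins2_lt h]; simp [rem, h]
  · rcases eq_or_lt_of_le h with h' | h'
    · subst h'; rw [ins2_self]
    · rcases eq_or_lt_of_le (Nat.succ_le_of_lt h') with h2 | h2
      · have : j = i + 1 := h2.symm
        subst this
        rw [ins2_succ, hb]
      · obtain ⟨k, rfl⟩ : ∃ k, j = k + 2 := ⟨j - 2, by omega⟩
        rw [ins2_ge (by omega)]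
        have : ¬ (k < i) := by omega
        simp [rem, this]

/-- the factor `K` as a function of the remaining coordinates -/
noncomputable def KK (n : ℕ) (x : ℝ) (c : ℕ → ℝ) : ℝ :=
  ∏ j ∈ range (2 * n + 1), s (c j - x) * s (-c j - x)

theorem rc_prod_rem {n i : ℕ} (hi : i + 1 ≤ 2 * n + 2) (b : ℕ → ℝ) (F : ℝ → ℝ) :
    ∏ j ∈ (range (2 * (n + 1) + 1)).filter (fun j => j ≠ i ∧ j ≠ i + 1), F (b j) =
      ∏ j ∈ range (2 * n + 1), F (rem i b j) := by
  refine Finset.prod_nbij' (fun j => if j < i then j else j - 2)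
    (fun j => if j < i then j else j + 2) ?_ ?_ ?_ ?_ ?_
  · intro j hj
    simp only [mem_filter, mem_range] at hj ⊢
    split_ifs <;> omega
  · intro j hj
    simp only [mem_filter, mem_range] at hj ⊢
    split_ifs <;> omega
  · intro j hj
    simp only [mem_filter, mem_range] at hj ⊢
    split_ifs <;> omega
  · intro j hj
    simp only [mem_range] at hj ⊢
    split_ifs <;> omega
  · intro j hj
    simp only [mem_filter, mem_range] at hj
    by_cases h : j < i
    · simp [rem, h]
    · have h1 : ¬ (j - 2 < i) := by omega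
      have h2 : j - 2 + 2 = j := by omega
      simp [rem, h, h1, h2]

theorem K_eq {n i : ℕ} (hi : i + 1 ≤ 2 * n + 2) (b : ℕ → ℝ) :
    K (n + 1) i b = KK n (b i) (rem i b) := by
  unfold K KK
  exact rc_prod_rem hi b (fun y => s (y - b i) * s (-y - b i))

theorem rc_prod_full {n i : ℕ} (hi : i + 1 ≤ 2 * n + 2) (b : ℕ → ℝ) (F : ℝ → ℝ) :
    ∏ j ∈ range (2 * (n + 1) + 1), F (b j) =
      F (b i) * F (b (i + 1)) * ∏ j ∈ range (2 * n + 1), F (rem i b j) := by
  rw [← rc_prod_rem hi b F]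
  have h1 : i ∈ range (2 * (n + 1) + 1) := by simp only [mem_range]; omega
  have h2 : i + 1 ∈ (range (2 * (n + 1) + 1)).erase i := by
    simp only [mem_erase, mem_range]; omega
  rw [← Finset.mul_prod_erase _ _ h1, ← Finset.mul_prod_erase _ _ h2, mul_assoc]
  congr 2
  apply Finset.prod_congr _ (fun _ _ => rfl)
  ext j
  simp only [mem_erase, mem_filter, mem_range]
  tauto

theorem rc_nrm_rem {n i : ℕ} (hi : i + 1 ≤ 2 * n + 2) (b : ℕ → ℝ) (hb : b (i + 1) = b i + π / 3) :
    nrm (n + 1) b = (s (b i + π / 6) * s (-(b i + π / 6))) ^ 2 * nrm n (rem i b) := by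
  unfold nrm
  rw [rc_prod_full hi b (fun y => s (y + π / 6) ^ 2), hb,
    show b i + π / 3 + π / 6 = (b i + π / 6) + π / 3 by ring, s_add_pi_third]
  ring

theorem rc_sin_pi_third_pos : 0 < Real.sin (π / 3) :=
  Real.sin_pos_of_pos_of_lt_pi (by positivity) (by linarith [Real.pi_pos])

theorem rc_s_pi_third : s (π / 3) = Real.sin (π / 3) := by
  unfold s
  rw [← Real.sin_pi_sub]
  congr 1
  ring

theorem rc_E_V {n i : ℕ} (hi : i + 1 ≤ 2 * n + 2) (b : ℕ → ℝ) (hb : b (i + 1) = b i + π / 3) :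
    E i (V (n + 1) b) = V (n + 1) b := by
  have h := V_sw (n := n + 1) (i := i) (by omega) b
  have hd : b i - b (i + 1) = -(π / 3) := by rw [hb]; ring
  rw [hd] at h
  have h0 : s (-(π / 3)) = 0 := by unfold s; simp
  rw [h0, zero_smul] at h
  unfold Rt at h
  rw [LinearMap.add_apply, LinearMap.smul_apply, LinearMap.smul_apply, LinearMap.id_apply,
    neg_neg, rc_s_pi_third, Real.sin_neg, neg_smul, ← sub_eq_add_neg, ← smul_sub] at h
  have h2 : V (n + 1) b - E i (V (n + 1) b) = 0 := by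
    rcases smul_eq_zero.mp h.symm with h' | h'
    · exact absurd h' rc_sin_pi_third_pos.ne'
    · exact h'
  exact (sub_eq_zero.mp h2).symm

theorem rc_In_De_V {n i : ℕ} (hi : i + 1 ≤ 2 * n + 2) (b : ℕ → ℝ) (hb : b (i + 1) = b i + π / 3) :
    In i (De i (V (n + 1) b)) = V (n + 1) b := by
  rw [In_De, rc_E_V hi b hb]

theorem rc_s_good (x : ℝ) : s (x + π / 6) = Real.cos x := by
  unfold s
  rw [show π / 3 + (x + π / 6) = x + π / 2 by ring, Real.sin_add_pi_div_two]

theorem rc_s_good' (x : ℝ) : s (-(x + π / 6)) = Real.sin (π / 6 - x) := by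
  unfold s
  congr 1
  ring

theorem rc_stepA {n i : ℕ} (hi : i + 1 ≤ 2 * n + 2) {c : ℕ → ℝ} (hc : c ∈ Cube) {x : ℝ}
    (h1 : Real.cos x ≠ 0) (h2 : Real.sin (π / 6 - x) ≠ 0) :
    Z n c • De i (V (n + 1) (ins2 i x c)) = Z (n + 1) (ins2 i x c) • V n c := by
  set b := ins2 i x c with hbdef
  have hbi : b i = x := ins2_self i x c
  have hb : b (i + 1) = b i + π / 3 := by rw [hbi]; exact ins2_succ i x c
  have hrem : rem i b = c := rem_ins2 i x c
  set w := De i (V (n + 1) b) with hw
  have hv : In i w = V (n + 1) b := rc_In_De_V hi b hb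
  have hT := V_Tt (n + 1) b
  rw [← hv, Tt_In (by omega) b hb w, rc_nrm_rem hi b hb, hrem] at hT
  have hT2 := congrArg (De i) hT
  rw [map_smul, map_smul, De_In, De_In, hbi, mul_smul] at hT2
  have hne : (s (x + π / 6) * s (-(x + π / 6))) ^ 2 ≠ 0 := by
    rw [rc_s_good, rc_s_good']
    exact pow_ne_zero _ (mul_ne_zero h1 h2)
  have hT3 : Tt n c w = nrm n c • w := smul_right_injective _ hne hT2
  have hws : w ∈ Sup (W n) := De_Sup (by omega) (V_Sup (n + 1) b)
  have hP := P_unique n hc hws hT3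
  have htot : tot w = Z (n + 1) b := by rw [hw, tot_De]; rfl
  rw [htot, P_eq n hc] at hP
  rw [hP, smul_comm (Z n c), smul_smul (Z n c), mul_inv_cancel₀ (Z_ne n hc), one_smul]

theorem rc_In_apply (i : ℕ) (v : M) (σ : St) : In i v (ins i σ) = v σ := by
  unfold In
  rw [Finsupp.lmapDomain_apply]
  exact Finsupp.mapDomain_apply (Function.LeftInverse.injective (g := del i) (del_ins i)) v σ

theorem rc_In_apply_notin (i : ℕ) (v : M) {τ : St} (h : τ ∉ Set.range (ins i)) : In i v τ = 0 := by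
  unfold In
  rw [Finsupp.lmapDomain_apply]
  exact Finsupp.mapDomain_of_notMem_range _ _ h

theorem f0_rec (n : ℕ) (x : ℝ) (c : ℕ → ℝ) :
    f0 (n + 1) (ins2 (n + 1) x c) = KK n x c * f0 n c := by
  set b := ins2 (n + 1) x c with hb
  have hlt : ∀ j, j < n + 1 → b j = c j := fun j h => ins2_lt h x c
  have hs : b (n + 1) = x := ins2_self _ _ _
  have hs1 : b (n + 1 + 1) = x + π / 3 := ins2_succ _ _ _
  have hge : ∀ j, n + 1 ≤ j → b (j + 2) = c j := fun j h => ins2_ge h x c
  unfold f0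
  -- left part
  have hL : (∏ j ∈ range (n + 1 + 1), ∏ i ∈ range j, s (b i - b j) * s (-b i - b j)) =
      (∏ j ∈ range (n + 1), ∏ i ∈ range j, s (c i - c j) * s (-c i - c j)) *
        ∏ i ∈ range (n + 1), s (c i - x) * s (-c i - x) := by
    rw [prod_range_succ]
    congr 1
    · refine prod_congr rfl fun j hj => prod_congr rfl fun i hi => ?_
      rw [mem_range] at hj hi
      rw [hlt i (by omega), hlt j (by omega)]
    · refine prod_congr rfl fun i hi => ?_
      rw [mem_range] at hi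
      rw [hlt i (by omega), hs]
  -- right part
  have hR : (∏ j ∈ Ico (n + 1 + 1) (2 * (n + 1) + 1), ∏ i ∈ Ico (n + 1 + 1) j,
        s (b i - b j) * s (b i + b j)) =
      (∏ j ∈ Ico (n + 1) (2 * n + 1), s (c j - x) * s (-c j - x)) *
        ∏ j ∈ Ico (n + 1) (2 * n + 1), ∏ i ∈ Ico (n + 1) j, s (c i - c j) * s (c i + c j) := by
    rw [Finset.prod_eq_prod_Ico_succ_bot (by omega : n + 1 + 1 < 2 * (n + 1) + 1), Ico_self,
      prod_empty, one_mul]
    rw [show n + 1 + 1 + 1 = (n + 1) + 2 by ring, show 2 * (n + 1) + 1 = (2 * n + 1) + 2 by ring,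
      ← Finset.prod_Ico_add' _ (n + 1) (2 * n + 1) 2, ← prod_mul_distrib]
    refine prod_congr rfl fun j hj => ?_
    rw [mem_Ico] at hj
    rw [Finset.prod_eq_prod_Ico_succ_bot (by omega : n + 1 + 1 < j + 2), hs1, hge j hj.1]
    congr 1
    · rw [show x + π / 3 - c j = (x - c j) + π / 3 by ring,
        show x + π / 3 + c j = (x + c j) + π / 3 by ring, s_add_pi_third, s_add_pi_third]
      congr 2 <;> ring
    · rw [show n + 1 + 1 + 1 = (n + 1) + 2 by ring, ← Finset.prod_Ico_add' _ (n + 1) j 2]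
      refine prod_congr rfl fun i hi => ?_
      rw [mem_Ico] at hi
      rw [hge i hi.1]
  rw [hL, hR]
  unfold KK
  rw [← Finset.prod_range_mul_prod_Ico _ (show n + 1 ≤ 2 * n + 1 by omega)]
  ring

theorem ins2_sw (i : ℕ) (x : ℝ) (c : ℕ → ℝ) :
    ins2 (i + 1) x c = sw i (sw (i + 1) (ins2 i x c)) := by
  funext j
  unfold sw
  rcases lt_or_ge j i with h | h
  · have e1 : Equiv.swap i (i + 1) j = j :=
      Equiv.swap_apply_of_ne_of_ne (by omega) (by omega)
    have e2 : Equiv.swap (i + 1) (i + 1 + 1) j = j :=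
      Equiv.swap_apply_of_ne_of_ne (by omega) (by omega)
    rw [e1, e2, ins2_lt (by omega), ins2_lt h]
  · obtain ⟨k, rfl⟩ : ∃ k, j = i + k := ⟨j - i, by omega⟩
    match k with
    | 0 =>
      have e1 : Equiv.swap i (i + 1) (i + 0) = i + 1 := Equiv.swap_apply_left _ _
      have e2 : Equiv.swap (i + 1) (i + 1 + 1) (i + 1) = i + 1 + 1 := Equiv.swap_apply_left _ _
      rw [e1, e2, ins2_lt (by omega)]
      exact (ins2_ge (le_refl i) x c).symm
    | 1 =>
      have e1 : Equiv.swap i (i + 1) (i + 1) = i := Equiv.swap_apply_right _ _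
      have e2 : Equiv.swap (i + 1) (i + 1 + 1) i = i :=
        Equiv.swap_apply_of_ne_of_ne (by omega) (by omega)
      rw [e1, e2, ins2_self, ins2_self]
    | 2 =>
      have e1 : Equiv.swap i (i + 1) (i + 2) = i + 2 :=
        Equiv.swap_apply_of_ne_of_ne (by omega) (by omega)
      have e2 : Equiv.swap (i + 1) (i + 1 + 1) (i + 2) = i + 1 := Equiv.swap_apply_right _ _
      rw [e1, e2, show i + 2 = i + 1 + 1 by ring, ins2_succ, ins2_succ]
    | (k + 3) =>
      have e1 : Equiv.swap i (i + 1) (i + (k + 3)) = i + (k + 3) :=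
        Equiv.swap_apply_of_ne_of_ne (by omega) (by omega)
      have e2 : Equiv.swap (i + 1) (i + 1 + 1) (i + (k + 3)) = i + (k + 3) :=
        Equiv.swap_apply_of_ne_of_ne (by omega) (by omega)
      rw [e1, e2, show i + (k + 3) = (i + k + 1) + 2 by ring, ins2_ge (by omega),
        ins2_ge (by omega)]

theorem Z_ins2 (n : ℕ) (x : ℝ) (c : ℕ → ℝ) (i : ℕ) (hi : i + 1 ≤ 2 * n + 2) :
    Z (n + 1) (ins2 i x c) = Z (n + 1) (ins2 0 x c) := by
  induction i with
  | zero => rfl
  | succ i ih =>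
    rw [ins2_sw, Z_sw (by omega), Z_sw (by omega)]
    exact ih (by omega)

theorem rc_Z_good (n : ℕ) {c : ℕ → ℝ} (hc : c ∈ Cube) {x : ℝ}
    (h1 : Real.cos x ≠ 0) (h2 : Real.sin (π / 6 - x) ≠ 0) :
    Z (n + 1) (ins2 0 x c) = KK n x c * Z n c := by
  have hi : (n + 1) + 1 ≤ 2 * n + 2 := by omega
  have h := rc_stepA hi hc h1 h2
  set b := ins2 (n + 1) x c with hbdef
  have hbi : b (n + 1) = x := ins2_self _ x c
  have hb : b (n + 1 + 1) = b (n + 1) + π / 3 := by rw [hbi]; exact ins2_succ _ x c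
  have ht : De (n + 1) (V (n + 1) b) (top n) = f0 (n + 1) b := by
    rw [← V_top (n + 1) b]
    conv_rhs => rw [← rc_In_De_V hi b hb, ← ins_top n]
    rw [rc_In_apply]
  have h3 := congrArg (fun v : M => v (top n)) h
  simp only [Finsupp.smul_apply, smul_eq_mul] at h3
  rw [ht, V_top, f0_rec] at h3
  rw [← Z_ins2 n x c (n + 1) hi]
  have hf := f0_pos n hc
  have : (Z (n + 1) b - KK n x c * Z n c) * f0 n c = 0 := by linarith
  rcases mul_eq_zero.mp this with h4 | h4
  · linarith
  · exact absurd h4 hf.ne'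

theorem rc_V_good {n i : ℕ} (hi : i + 1 ≤ 2 * n + 2) {c : ℕ → ℝ} (hc : c ∈ Cube) {x : ℝ}
    (h1 : Real.cos x ≠ 0) (h2 : Real.sin (π / 6 - x) ≠ 0) :
    V (n + 1) (ins2 i x c) = KK n x c • In i (V n c) := by
  have h := rc_stepA hi hc h1 h2
  rw [Z_ins2 n x c i hi, rc_Z_good n hc h1 h2, mul_comm, mul_smul] at h
  have h3 : De i (V (n + 1) (ins2 i x c)) = KK n x c • V n c :=
    smul_right_injective _ (Z_ne n hc) h
  have hb : (ins2 i x c) (i + 1) = (ins2 i x c) i + π / 3 := by
    rw [ins2_self]; exact ins2_succ i x c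
  rw [← rc_In_De_V hi (ins2 i x c) hb, h3, map_smul]

theorem rc_good_dense : Dense {x : ℝ | Real.cos x ≠ 0 ∧ Real.sin (π / 6 - x) ≠ 0} := by
  have hA : {x : ℝ | Real.cos x = 0}.Countable := by
    refine (Set.countable_range (fun k : ℤ => (2 * (k : ℝ) + 1) * π / 2)).mono ?_
    intro x hx
    obtain ⟨k, hk⟩ := Real.cos_eq_zero_iff.mp hx
    exact ⟨k, hk.symm⟩
  have hB : {x : ℝ | Real.sin (π / 6 - x) = 0}.Countable := by
    refine (Set.countable_range (fun k : ℤ => π / 6 - (k : ℝ) * π)).mono ?_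
    intro x hx
    obtain ⟨k, hk⟩ := Real.sin_eq_zero_iff.mp hx
    exact ⟨k, by simp only; linarith⟩
  have := (hA.union hB).dense_compl ℝ
  refine this.mono ?_
  intro x hx
  simp only [Set.mem_compl_iff, Set.mem_union, not_or] at hx
  exact hx

theorem rc_s_continuous : Continuous s := by
  unfold s
  fun_prop

theorem rc_ins2_continuous (i : ℕ) (c : ℕ → ℝ) : Continuous (fun x => ins2 i x c) := by
  refine continuous_pi fun j => ?_
  unfold ins2
  split_ifs <;> fun_prop

theorem rc_KK_continuous (n : ℕ) (c : ℕ → ℝ) : Continuous (fun x => KK n x c) := by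
  unfold KK
  refine continuous_finsetProd _ fun j _ => ?_
  exact (rc_s_continuous.comp (by fun_prop)).mul (rc_s_continuous.comp (by fun_prop))

theorem rc_V_cube {n i : ℕ} (hi : i + 1 ≤ 2 * n + 2) {c : ℕ → ℝ} (hc : c ∈ Cube) (x : ℝ) (τ : St) :
    V (n + 1) (ins2 i x c) τ = KK n x c * In i (V n c) τ := by
  have h1 : Continuous (fun x => V (n + 1) (ins2 i x c) τ) :=
    (V_Sep (n + 1) τ).continuous.comp (rc_ins2_continuous i c)
  have h2 : Continuous (fun x => KK n x c * In i (V n c) τ) :=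
    (rc_KK_continuous n c).mul continuous_const
  have h3 : Set.EqOn (fun x => V (n + 1) (ins2 i x c) τ) (fun x => KK n x c * In i (V n c) τ)
      {x : ℝ | Real.cos x ≠ 0 ∧ Real.sin (π / 6 - x) ≠ 0} := by
    intro y hy
    simp only
    rw [rc_V_good hi hc hy.1 hy.2, Finsupp.smul_apply, smul_eq_mul]
  exact congrFun (Continuous.ext_on rc_good_dense h1 h2 h3) x

theorem rc_KK_Sep (n : ℕ) (x : ℝ) : Sep (2 * n + 1) 2 (KK n x) := by
  constructor
  · intro c j hj
    have hj' : j ∈ range (2 * n + 1) := mem_range.mpr hj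
    have : (fun y => KK n x (Function.update c j y)) = fun y =>
        (s (y + (-x)) * s (-x - y)) *
          ∏ k ∈ (range (2 * n + 1)).erase j, s (c k - x) * s (-c k - x) := by
      funext y
      unfold KK
      rw [← Finset.mul_prod_erase _ _ hj', Function.update_self]
      congr 1
      · congr 2
        ring
      · refine prod_congr rfl fun k hk => ?_
        rw [Function.update_of_ne (ne_of_mem_erase hk)]
    rw [this]
    have h := ((TP.s_add (-x)).mul (TP.s_sub (-x))).smul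
      (∏ k ∈ (range (2 * n + 1)).erase j, s (c k - x) * s (-c k - x))
    convert h using 1
    funext y
    ring
  · intro b b' h
    unfold KK
    refine prod_congr rfl fun k hk => ?_
    rw [h k (mem_range.mp hk)]

theorem rc_Sep_zero (L m : ℕ) : Sep L m (fun _ => 0) :=
  ⟨fun _ _ _ => TP.zero m, fun _ _ _ => rfl⟩

theorem rc_In_V_Sep (n i : ℕ) (τ : St) : Sep (2 * n + 1) (2 * n) (fun c => In i (V n c) τ) := by
  by_cases h : τ ∈ Set.range (ins i)
  · obtain ⟨σ, rfl⟩ := h
    simp only [rc_In_apply]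
    exact V_Sep n σ
  · simp only [rc_In_apply_notin i _ h]
    exact rc_Sep_zero _ _

theorem ins2_update_lt {i j : ℕ} (h : j < i) (x y : ℝ) (c : ℕ → ℝ) :
    ins2 i x (Function.update c j y) = Function.update (ins2 i x c) j y := by
  funext k
  by_cases hk : k = j
  · subst hk
    rw [ins2_lt h, Function.update_self, Function.update_self]
  · rw [Function.update_of_ne hk]
    unfold ins2
    split_ifs with h1 h2 h3
    · rw [Function.update_of_ne hk]
    · rfl
    · rfl
    · rw [Function.update_of_ne (by omega)]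

theorem ins2_update_ge {i j : ℕ} (h : i ≤ j) (x y : ℝ) (c : ℕ → ℝ) :
    ins2 i x (Function.update c j y) = Function.update (ins2 i x c) (j + 2) y := by
  funext k
  by_cases hk : k = j + 2
  · subst hk
    rw [ins2_ge h, Function.update_self, Function.update_self]
  · rw [Function.update_of_ne hk]
    unfold ins2
    split_ifs with h1 h2 h3
    · rw [Function.update_of_ne (by omega)]
    · rfl
    · rfl
    · rw [Function.update_of_ne (by omega)]

theorem rc_V_ins2_Sep {n i : ℕ} (hi : i + 1 ≤ 2 * n + 2) (x : ℝ) (τ : St) :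
    Sep (2 * n + 1) (2 * n + 2) (fun c => V (n + 1) (ins2 i x c) τ) := by
  have hV := V_Sep (n + 1) τ
  constructor
  · intro c j hj
    rcases lt_or_ge j i with h | h
    · simp only [ins2_update_lt h]
      exact hV.1 (ins2 i x c) j (by omega)
    · simp only [ins2_update_ge h]
      exact hV.1 (ins2 i x c) (j + 2) (by omega)
  · intro b b' h
    refine hV.2 _ _ fun j hj => ?_
    unfold ins2
    split_ifs with h1 h2 h3
    · exact h j (by omega)
    · rfl
    · rfl
    · exact h (j - 2) (by omega)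

theorem V_all {n i : ℕ} (hi : i + 1 ≤ 2 * n + 2) (c : ℕ → ℝ) (x : ℝ) :
    V (n + 1) (ins2 i x c) = KK n x c • In i (V n c) := by
  ext τ
  have h1 := rc_V_ins2_Sep hi x τ
  have h2 : Sep (2 * n + 1) (2 * n + 2) (fun c => KK n x c * In i (V n c) τ) := by
    have := (rc_KK_Sep n x).mul (rc_In_V_Sep n i τ)
    rwa [show 2 + 2 * n = 2 * n + 2 by ring] at this
  have h3 := (h1.sub h2).eq_zero (fun b hb => by
    rw [rc_V_cube hi hb x τ, sub_self]) c
  rw [Finsupp.smul_apply, smul_eq_mul]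
  linarith

theorem V_rec {n i : ℕ} (hi : i + 1 ≤ 2 * n + 2) (b : ℕ → ℝ) (hb : b (i + 1) = b i + π / 3) :
    V (n + 1) b = K (n + 1) i b • In i (V n (rem i b)) := by
  rw [K_eq hi b, ← V_all hi (rem i b) (b i), ins2_rem hb]

/-- the other ordering -/
theorem De_V {n i : ℕ} (hi : i + 1 ≤ 2 * n + 2) (b : ℕ → ℝ) (hb : b i = b (i + 1) + π / 3) :
    De i (V (n + 1) b) = K (n + 1) i (sw i b) • V n (rem i b) := by
  have h1 : sw i b i = b (i + 1) := by unfold sw; rw [Equiv.swap_apply_left]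
  have h2 : sw i b (i + 1) = b i := by unfold sw; rw [Equiv.swap_apply_right]
  have h3 : rem i (sw i b) = rem i b := by
    funext j
    unfold rem sw
    split_ifs with h
    · rw [Equiv.swap_apply_of_ne_of_ne (by omega) (by omega)]
    · rw [Equiv.swap_apply_of_ne_of_ne (by omega) (by omega)]
  have hr := V_rec hi (sw i b) (by rw [h1, h2, hb])
  rw [h3] at hr
  have hs := V_sw (n := n + 1) (i := i) (by omega) b
  have hd : b i - b (i + 1) = π / 3 := by rw [hb]; ring
  rw [hd, rc_s_pi_third] at hs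
  unfold Rt at hs
  have h0 : s (-(π / 3)) = 0 := by unfold s; simp
  rw [LinearMap.add_apply, LinearMap.smul_apply, LinearMap.smul_apply, h0, zero_smul,
    zero_add] at hs
  have h4 : V (n + 1) (sw i b) = E i (V (n + 1) b) :=
    smul_right_injective _ rc_sin_pi_third_pos.ne' hs
  rw [← De_E, ← h4, hr, map_smul, De_In]

theorem Z_rec {n i : ℕ} (hi : i + 1 ≤ 2 * n + 2) (b : ℕ → ℝ) (hb : b (i + 1) = b i + π / 3) :
    Z (n + 1) b = K (n + 1) i b * Z n (rem i b) := by
  unfold Z
  rw [V_rec hi b hb, map_smul, smul_eq_mul, tot_In]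
end IP
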