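import Pool.Agent.Lead.IP.Basic
/-! MODULE Lin: linear maps, Yang-Baxter equation, sliding of arcs. -/
namespace IP
open Finset Real

theorem s_zero_sub (x : ℝ) : s x - s (-x) = Real.sin x := by
  unfold s
  rw [Real.sin_add, Real.sin_add, Real.sin_neg, Real.cos_neg, Real.cos_pi_div_three]
  ring
theorem s_add_pi_third (x : ℝ) : s (x + π / 3) = s (-x) := by
  unfold s
  rw [← Real.sin_pi_sub]
  congr 1
  ring
theorem s_neg_sub (x : ℝ) : s (-(x + π / 3)) = - Real.sin x := by
  unfold s
  rw [← Real.sin_neg]
  congr 1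
  ring
theorem sin_add_pi_third (x : ℝ) : Real.sin (x + π / 3) = s x := by
  unfold s
  rw [add_comm]

@[simp] theorem E_single (i : ℕ) (σ : St) (c : ℝ) : E i (Finsupp.single σ c) = Finsupp.single (act i σ) c := by
  simp [E]
@[simp] theorem In_single (i : ℕ) (σ : St) (c : ℝ) : In i (Finsupp.single σ c) = Finsupp.single (ins i σ) c := by
  simp [In]
@[simp] theorem De_single (i : ℕ) (σ : St) (c : ℝ) : De i (Finsupp.single σ c) = Finsupp.single (del i σ) c := by
  simp [De]
@[simp] theorem tot_single (σ : St) (c : ℝ) : tot (Finsupp.single σ c) = c := by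
  simp [tot]

theorem tot_E (i : ℕ) (v : M) : tot (E i v) = tot v := by
  induction v using Finsupp.induction_linear with
  | zero => simp
  | add a b ha hb => simp only [map_add, ha, hb]
  | single σ c => simp
theorem tot_In (i : ℕ) (v : M) : tot (In i v) = tot v := by
  induction v using Finsupp.induction_linear with
  | zero => simp
  | add a b ha hb => simp only [map_add, ha, hb]
  | single σ c => simp
theorem tot_De (i : ℕ) (v : M) : tot (De i v) = tot v := by
  induction v using Finsupp.induction_linear with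
  | zero => simp
  | add a b ha hb => simp only [map_add, ha, hb]
  | single σ c => simp

theorem Rt_apply (i : ℕ) (u : ℝ) (v : M) : Rt i u v = s (-u) • v + Real.sin u • E i v := rfl

theorem tot_Rt (i : ℕ) (u : ℝ) (v : M) : tot (Rt i u v) = s u * tot v := by
  rw [Rt_apply, map_add, map_smul, map_smul, tot_E, smul_eq_mul, smul_eq_mul, ← s_zero_sub u]
  ring

theorem E_E (i : ℕ) (v : M) : E i (E i v) = E i v := by
  induction v using Finsupp.induction_linear with
  | zero => simp
  | add a b ha hb => simp only [map_add, ha, hb]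
  | single σ c => simp [act_act]
theorem E_braid (i : ℕ) (v : M) : E i (E (i + 1) (E i v)) = E i v := by
  induction v using Finsupp.induction_linear with
  | zero => simp
  | add a b ha hb => simp only [map_add, ha, hb]
  | single σ c => simp [act_braid]
theorem E_braid' (i : ℕ) (v : M) : E (i + 1) (E i (E (i + 1) v)) = E (i + 1) v := by
  induction v using Finsupp.induction_linear with
  | zero => simp
  | add a b ha hb => simp only [map_add, ha, hb]
  | single σ c => simp [act_braid']
theorem E_comm {i j : ℕ} (h : i + 2 ≤ j) (v : M) : E i (E j v) = E j (E i v) := by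
  induction v using Finsupp.induction_linear with
  | zero => simp
  | add a b ha hb => simp only [map_add, ha, hb]
  | single σ c => simp [act_comm h]
theorem Rt_comm {i j : ℕ} (h : i + 2 ≤ j) (u u' : ℝ) (v : M) :
    Rt i u (Rt j u' v) = Rt j u' (Rt i u v) := by
  simp only [Rt_apply, map_add, map_smul, smul_add, smul_smul, E_comm h]
  module

theorem yb_identity (u w : ℝ) :
    s (-u) * s (-(u + w)) * Real.sin w + Real.sin u * s (-(u + w)) * s (-w)
      + Real.sin u * s (-(u + w)) * Real.sin w + Real.sin u * Real.sin (u + w) * Real.sin w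
      = s (-w) * Real.sin (u + w) * s (-u) := by
  have h3 : Real.sqrt 3 ^ 2 = 3 := Real.sq_sqrt (by norm_num)
  have hs : ∀ x : ℝ, s (-x) = Real.sqrt 3 / 2 * Real.cos x - 1 / 2 * Real.sin x := by
    intro x
    unfold s
    rw [Real.sin_add, Real.sin_neg, Real.cos_neg, Real.sin_pi_div_three, Real.cos_pi_div_three]
    ring
  rw [hs u, hs w, hs (u + w), Real.cos_add, Real.sin_add]
  linear_combination ((Real.sin u * Real.cos w + Real.cos u * Real.sin w) *
    (-(1 / 4) * Real.sin u * Real.sin w)) * h3

/-- Yang-Baxter equation -/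
theorem yang_baxter (i : ℕ) (u w : ℝ) (v : M) :
    Rt i u (Rt (i + 1) (u + w) (Rt i w v)) = Rt (i + 1) w (Rt i (u + w) (Rt (i + 1) u v)) := by
  simp only [Rt_apply, map_add, map_smul, smul_add, smul_smul, E_E, E_braid, E_braid']
  have h := yb_identity u w
  match_scalars
  · ring
  · linear_combination h
  · linear_combination (-1 : ℝ) * h
  · ring
  · ring

/-- unitarity -/
theorem unitarity (i : ℕ) (u : ℝ) (v : M) : Rt i u (Rt i (-u) v) = (s u * s (-u)) • v := by
  have h := s_zero_sub u
  simp only [Rt_apply, map_add, map_smul, smul_add, smul_smul, E_E, Real.sin_neg, neg_neg]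
  match_scalars
  · ring
  · linear_combination (Real.sin u) * h

theorem In_De (i : ℕ) (v : M) : In i (De i v) = E i v := by
  induction v using Finsupp.induction_linear with
  | zero => simp
  | add a b ha hb => simp only [map_add, ha, hb]
  | single σ c => simp [ins_del]
theorem De_In (i : ℕ) (v : M) : De i (In i v) = v := by
  induction v using Finsupp.induction_linear with
  | zero => simp
  | add a b ha hb => simp only [map_add, ha, hb]
  | single σ c => simp [del_ins]
theorem E_In (i : ℕ) (v : M) : E i (In i v) = In i v := by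
  induction v using Finsupp.induction_linear with
  | zero => simp
  | add a b ha hb => simp only [map_add, ha, hb]
  | single σ c => simp [act_ins]
theorem De_E (i : ℕ) (v : M) : De i (E i v) = De i v := by
  induction v using Finsupp.induction_linear with
  | zero => simp
  | add a b ha hb => simp only [map_add, ha, hb]
  | single σ c => simp [del_act]
theorem E_succ_In (i : ℕ) (v : M) : E (i + 1) (In i v) = In (i + 1) v := by
  induction v using Finsupp.induction_linear with
  | zero => simp
  | add a b ha hb => simp only [map_add, ha, hb]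
  | single σ c => simp [act_succ_ins]
theorem E_In_succ (i : ℕ) (v : M) : E i (In (i + 1) v) = In i v := by
  induction v using Finsupp.induction_linear with
  | zero => simp
  | add a b ha hb => simp only [map_add, ha, hb]
  | single σ c => simp [act_ins_succ]
theorem De_E_succ (i : ℕ) (v : M) : De i (E (i + 1) v) = De (i + 1) v := by
  induction v using Finsupp.induction_linear with
  | zero => simp
  | add a b ha hb => simp only [map_add, ha, hb]
  | single σ c => simp [del_act_succ]
theorem De_succ_E (i : ℕ) (v : M) : De (i + 1) (E i v) = De i v := by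
  induction v using Finsupp.induction_linear with
  | zero => simp
  | add a b ha hb => simp only [map_add, ha, hb]
  | single σ c => simp [del_succ_act]
theorem E_In_lt {i j : ℕ} (h : j + 2 ≤ i) (v : M) : E j (In i v) = In i (E j v) := by
  induction v using Finsupp.induction_linear with
  | zero => simp
  | add a b ha hb => simp only [map_add, ha, hb]
  | single σ c => simp [act_ins_lt h]
theorem E_In_gt {i j : ℕ} (h : i ≤ j) (v : M) : E (j + 2) (In i v) = In i (E j v) := by
  induction v using Finsupp.induction_linear with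
  | zero => simp
  | add a b ha hb => simp only [map_add, ha, hb]
  | single σ c => simp [act_ins_gt h]
theorem De_E_lt {i j : ℕ} (h : j + 2 ≤ i) (v : M) : De i (E j v) = E j (De i v) := by
  induction v using Finsupp.induction_linear with
  | zero => simp
  | add a b ha hb => simp only [map_add, ha, hb]
  | single σ c => simp [del_act_lt h]
theorem De_E_gt {i j : ℕ} (h : i ≤ j) (v : M) : De i (E (j + 2) v) = E j (De i v) := by
  induction v using Finsupp.induction_linear with
  | zero => simp
  | add a b ha hb => simp only [map_add, ha, hb]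
  | single σ c => simp [del_act_gt h]

theorem Rt_In_lt {i j : ℕ} (h : j + 2 ≤ i) (u : ℝ) (v : M) : Rt j u (In i v) = In i (Rt j u v) := by
  simp only [Rt_apply, map_add, map_smul, E_In_lt h]
theorem Rt_In_gt {i j : ℕ} (h : i ≤ j) (u : ℝ) (v : M) : Rt (j + 2) u (In i v) = In i (Rt j u v) := by
  simp only [Rt_apply, map_add, map_smul, E_In_gt h]
theorem De_Rt_lt {i j : ℕ} (h : j + 2 ≤ i) (u : ℝ) (v : M) : De i (Rt j u v) = Rt j u (De i v) := by
  simp only [Rt_apply, map_add, map_smul, De_E_lt h]
theorem De_Rt_gt {i j : ℕ} (h : i ≤ j) (u : ℝ) (v : M) : De i (Rt (j + 2) u v) = Rt j u (De i v) := by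
  simp only [Rt_apply, map_add, map_smul, De_E_gt h]
theorem De_zero_In (i : ℕ) (v : M) : De 0 (In (i + 2) v) = In i (De 0 v) := by
  induction v using Finsupp.induction_linear with
  | zero => simp
  | add a b ha hb => simp only [map_add, ha, hb]
  | single σ c => simp [del_zero_ins]

/-- an arc slides through a line -/
theorem slide (i : ℕ) (u : ℝ) (v : M) :
    Rt i u (Rt (i + 1) (u + π / 3) (In i v)) = (s u * s (-u)) • In (i + 1) v := by
  have h := s_zero_sub u
  simp only [Rt_apply, map_add, map_smul, smul_add, smul_smul, E_succ_In, E_In_succ, E_In,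
    s_neg_sub, sin_add_pi_third]
  match_scalars
  · linear_combination (Real.sin u) * h
  · ring

theorem s_neg_add_pi_div_six (x : ℝ) : s (-(x + π / 6)) = Real.sin (-x + π / 6) := by
  unfold s
  congr 1
  ring

/-- reflection at the left boundary -/
theorem reflect_left (x : ℝ) (v : M) :
    De 0 (Rt 1 (x + π / 6) (Rt 0 (x + π / 6) v)) = De 0 (Rt 1 (-x + π / 6) (Rt 0 (-x + π / 6) v)) := by
  have h1 : ∀ w : M, De 0 (E 1 w) = De 1 w := fun w => De_E_succ 0 w
  have h2 : ∀ w : M, De 1 (E 0 w) = De 0 w := fun w => De_succ_E 0 w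
  simp only [Rt_apply, map_add, map_smul, smul_add, smul_smul, De_E, h1, h2,
    s_neg_add_pi_div_six, neg_neg]
  module

theorem E_wall {n k : ℕ} (h : n ≤ k) {v : M} (hv : v ∈ Sup (W n)) : E (2 * k + 1) v = v := by
  unfold Sup at hv
  rw [Finsupp.mem_supported] at hv
  have : E (2 * k + 1) v = v.sum fun σ c => E (2 * k + 1) (Finsupp.single σ c) := by
    conv_lhs => rw [← Finsupp.sum_single v]
    rw [Finsupp.sum, map_sum]
    rfl
  rw [this]
  conv_rhs => rw [← Finsupp.sum_single v]
  refine Finsupp.sum_congr fun σ hσ => ?_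
  rw [E_single, act_wall h (hv hσ)]

theorem E_wall2 {n : ℕ} {v : M} (hv : v ∈ Sup (W n)) : E (2 * n + 1) (E (2 * n) v) = v := by
  unfold Sup at hv
  rw [Finsupp.mem_supported] at hv
  have : E (2 * n + 1) (E (2 * n) v)
      = v.sum fun σ c => E (2 * n + 1) (E (2 * n) (Finsupp.single σ c)) := by
    conv_lhs => rw [← Finsupp.sum_single v]
    rw [Finsupp.sum, map_sum, map_sum]
    rfl
  rw [this]
  conv_rhs => rw [← Finsupp.sum_single v]
  refine Finsupp.sum_congr fun σ hσ => ?_
  rw [E_single, E_single, act_wall2 (hv hσ)]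

/-- reflection at the right boundary (wall) -/
theorem reflect_right (n : ℕ) (x : ℝ) {v : M} (hv : v ∈ Sup (W n)) :
    Rt (2 * n + 1) (x + π / 6) (Rt (2 * n) (x + π / 6) v) =
      Rt (2 * n + 1) (-x + π / 6) (Rt (2 * n) (-x + π / 6) v) := by
  simp only [Rt_apply, map_add, map_smul, smul_add, smul_smul, E_wall le_rfl hv, E_wall2 hv,
    s_neg_add_pi_div_six, neg_neg]
  module

theorem lmap_Sup {A B : Set St} {f : St → St} (h : ∀ σ ∈ A, f σ ∈ B) {v : M} (hv : v ∈ Sup A) :
    Finsupp.lmapDomain ℝ ℝ f v ∈ Sup B :=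
  Finsupp.supported_comap_lmapDomain ℝ ℝ f B (Finsupp.supported_mono (fun σ hσ => h σ hσ) hv)

theorem E_Sup {n i : ℕ} (h : i < 2 * n ∨ i % 2 = 1) {v : M} (hv : v ∈ Sup (W n)) : E i v ∈ Sup (W n) :=
  lmap_Sup (fun _ hσ => act_W h hσ) hv
theorem Rt_Sup {n i : ℕ} (h : i < 2 * n ∨ i % 2 = 1) (u : ℝ) {v : M} (hv : v ∈ Sup (W n)) : Rt i u v ∈ Sup (W n) := by
  rw [Rt_apply]
  exact add_mem (Submodule.smul_mem _ _ hv) (Submodule.smul_mem _ _ (E_Sup h hv))
theorem Sup_mono {n m : ℕ} (h : n ≤ m) : Sup (W n) ≤ Sup (W m) :=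
  Finsupp.supported_mono (W_mono h)
theorem De_Sup {n i : ℕ} (h : i ≤ 2 * n + 1) {v : M} (hv : v ∈ Sup (W (n + 1))) : De i v ∈ Sup (W n) :=
  lmap_Sup (fun _ hσ => del_W h hσ) hv
theorem In_Sup {n i : ℕ} (h : i ≤ 2 * n) {v : M} (hv : v ∈ Sup (W n)) : In i v ∈ Sup (W (n + 1)) :=
  lmap_Sup (fun _ hσ => ins_W h hσ) hv
theorem E_NC (i : ℕ) {v : M} (hv : v ∈ Sup NC) : E i v ∈ Sup NC :=
  lmap_Sup (fun _ hσ => act_NC i hσ) hv
theorem Rt_NC (i : ℕ) (u : ℝ) {v : M} (hv : v ∈ Sup NC) : Rt i u v ∈ Sup NC := by
  rw [Rt_apply]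
  exact add_mem (Submodule.smul_mem _ _ hv) (Submodule.smul_mem _ _ (E_NC i hv))
theorem De_NC (i : ℕ) {v : M} (hv : v ∈ Sup NC) : De i v ∈ Sup NC :=
  lmap_Sup (fun _ hσ => del_NC i hσ) hv
end IP
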