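import Pool.Agent.Lead.IP.BasicA
/-! MODULE BasicB: the sets `W n`, finiteness, the state `bot n`. -/
namespace IP
open Finset

theorem bb_detach_iff (k : ℕ) (σ : St) (x y : ℕ) :
    (detach k σ) x y ↔ (x = y ∨ (x ≠ k ∧ y ≠ k ∧ σ x y)) := Iff.rfl

theorem bb_join_iff (j k : ℕ) (σ : St) (x y : ℕ) :
    (join j k σ) x y ↔ (σ x y ∨ (σ x j ∧ σ k y) ∨ (σ x k ∧ σ j y)) := Iff.rfl

theorem bb_insS_iff (k : ℕ) (σ : St) (x y : ℕ) :
    (insS k σ) x y ↔ (x = y ∨ (x ≠ k ∧ y ≠ k ∧ σ (unskip k x) (unskip k y))) := Iff.rfl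

theorem bb_act_even (k : ℕ) (σ : St) : act (2 * k) σ = detach k σ := by
  unfold act
  rw [if_pos (by omega)]
  congr 1
  omega

theorem bb_act_odd (k : ℕ) (σ : St) : act (2 * k + 1) σ = join k (k + 1) σ := by
  unfold act
  rw [if_neg (by omega)]
  congr 1 <;> omega

theorem bb_ins_even (k : ℕ) (σ : St) : ins (2 * k) σ = insS k σ := by
  unfold ins
  rw [if_pos (by omega)]
  congr 1
  omega

theorem bb_ins_odd (k : ℕ) (σ : St) : ins (2 * k + 1) σ = Setoid.comap (coll k) σ := by
  unfold ins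
  rw [if_neg (by omega)]
  congr 2
  omega

theorem bb_del_even (k : ℕ) (σ : St) : del (2 * k) σ = Setoid.comap (skip k) σ := by
  unfold del
  rw [if_pos (by omega)]
  congr 2
  omega

theorem bb_del_odd (k : ℕ) (σ : St) :
    del (2 * k + 1) σ = Setoid.comap (skip (k + 1)) (join k (k + 1) σ) := by
  unfold del
  rw [if_neg (by omega)]
  have h : (2 * k + 1) / 2 = k := by omega
  rw [h]

theorem W_mono {n m : ℕ} (h : n ≤ m) : W n ⊆ W m :=
  fun _ hσ i j hi hj => hσ i j (h.trans hi) (h.trans hj)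

/-- `detach` needs `k < n`, `join` is always fine -/
theorem act_W {n i : ℕ} (h : i < 2 * n ∨ i % 2 = 1) {σ : St} (hσ : σ ∈ W n) : act i σ ∈ W n := by
  rcases Nat.even_or_odd' i with ⟨k, rfl | rfl⟩
  · rw [bb_act_even]
    intro x y hx hy
    rw [bb_detach_iff]
    exact Or.inr ⟨by omega, by omega, hσ x y hx hy⟩
  · rw [bb_act_odd]
    intro x y hx hy
    rw [bb_join_iff]
    exact Or.inl (hσ x y hx hy)

theorem act_wall {n k : ℕ} (h : n ≤ k) {σ : St} (hσ : σ ∈ W n) : act (2 * k + 1) σ = σ := by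
  rw [bb_act_odd]
  have hk : σ k (k + 1) := hσ k (k + 1) h (by omega)
  ext x y
  rw [bb_join_iff]
  constructor
  · rintro (h1 | ⟨h1, h2⟩ | ⟨h1, h2⟩)
    · exact h1
    · exact σ.trans h1 (σ.trans hk h2)
    · exact σ.trans h1 (σ.trans (σ.symm hk) h2)
  · exact fun h1 => Or.inl h1

/-- detach the first wall site and join it again -/
theorem act_wall2 {n : ℕ} {σ : St} (hσ : σ ∈ W n) : act (2 * n + 1) (act (2 * n) σ) = σ := by
  rw [bb_act_odd, bb_act_even]
  have hk : σ n (n + 1) := hσ n (n + 1) le_rfl (by omega)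
  ext x y
  rw [bb_join_iff]
  simp only [bb_detach_iff]
  constructor
  · rintro (h1 | ⟨h1, h2⟩ | ⟨h1, h2⟩)
    · rcases h1 with rfl | h1
      · exact σ.refl _
      · exact h1.2.2
    · rcases h1 with rfl | h1
      · rcases h2 with rfl | h2
        · exact hk
        · exact σ.trans hk h2.2.2
      · exact absurd rfl h1.2.1
    · rcases h2 with rfl | h2
      · rcases h1 with rfl | h1
        · exact σ.symm hk
        · exact σ.trans h1.2.2 (σ.symm hk)
      · exact absurd rfl h2.1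
  · intro h1
    by_cases hx : x = n
    · subst hx
      by_cases hy : y = x
      · subst hy
        exact Or.inl (Or.inl rfl)
      · exact Or.inr (Or.inl ⟨Or.inl rfl, Or.inr ⟨by omega, hy, σ.trans (σ.symm hk) h1⟩⟩)
    · by_cases hy : y = n
      · subst hy
        exact Or.inr (Or.inr ⟨Or.inr ⟨hx, by omega, σ.trans h1 hk⟩, Or.inl rfl⟩)
      · exact Or.inl (Or.inr ⟨hx, hy, h1⟩)

theorem ins_W {n i : ℕ} (h : i ≤ 2 * n) {σ : St} (hσ : σ ∈ W n) : ins i σ ∈ W (n + 1) := by
  rcases Nat.even_or_odd' i with ⟨k, rfl | rfl⟩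
  · rw [bb_ins_even]
    intro x y hx hy
    rw [bb_insS_iff]
    refine Or.inr ⟨by omega, by omega, hσ _ _ ?_ ?_⟩
    · unfold unskip; rw [if_neg (by omega)]; omega
    · unfold unskip; rw [if_neg (by omega)]; omega
  · rw [bb_ins_odd]
    intro x y hx hy
    rw [Setoid.comap_rel]
    refine hσ _ _ ?_ ?_
    · unfold coll; rw [if_neg (by omega)]; omega
    · unfold coll; rw [if_neg (by omega)]; omega

theorem del_W {n i : ℕ} (h : i ≤ 2 * n + 1) {σ : St} (hσ : σ ∈ W (n + 1)) : del i σ ∈ W n := by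
  rcases Nat.even_or_odd' i with ⟨k, rfl | rfl⟩
  · rw [bb_del_even]
    intro x y hx hy
    rw [Setoid.comap_rel]
    refine hσ _ _ ?_ ?_
    · unfold skip; rw [if_neg (by omega)]; omega
    · unfold skip; rw [if_neg (by omega)]; omega
  · rw [bb_del_odd]
    intro x y hx hy
    rw [Setoid.comap_rel]
    have key : ∀ z, n ≤ z → (join k (k + 1) σ) (skip (k + 1) z) (n + 1) := by
      intro z hz
      rw [bb_join_iff]
      unfold skip
      split_ifs with hc
      · have h1 : z = k := by omega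
        have h2 : k = n := by omega
        subst h1
        subst h2
        exact Or.inr (Or.inl ⟨σ.refl _, σ.refl _⟩)
      · exact Or.inl (hσ _ _ (by omega) le_rfl)
    exact (join k (k + 1) σ).trans (key x hx) ((join k (k + 1) σ).symm (key y hy))

theorem bb_W_min {n : ℕ} {σ : St} (hσ : σ ∈ W n) (x y : ℕ) :
    σ x y ↔ σ (min x n) (min y n) := by
  have key : ∀ z, σ z (min z n) := by
    intro z
    rcases le_total z n with h | h
    · rw [min_eq_left h]
    · rw [min_eq_right h]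
      exact hσ z n h le_rfl
  constructor
  · intro h
    exact σ.trans (σ.symm (key x)) (σ.trans h (key y))
  · intro h
    exact σ.trans (key x) (σ.trans h (σ.symm (key y)))

theorem W_finite (n : ℕ) : (W n).Finite := by
  refine Set.Finite.of_injOn (f := fun (σ : St) (i j : Fin (n + 1)) => σ (i : ℕ) (j : ℕ))
    (t := Set.univ) (fun _ _ => Set.mem_univ _) ?_ Set.finite_univ
  intro σ hσ τ hτ h
  ext x y
  rw [bb_W_min hσ x y, bb_W_min hτ x y]
  have h1 := congrFun (congrFun h ⟨min x n, by omega⟩) ⟨min y n, by omega⟩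
  simpa using h1

/-- smallest element of `W n`: all sites `< n` are singletons -/
def bot (n : ℕ) : St where
  r i j := i = j ∨ (n ≤ i ∧ n ≤ j)
  iseqv := by
    refine ⟨fun x => Or.inl rfl, ?_, ?_⟩
    · rintro x y (rfl | h)
      · exact Or.inl rfl
      · exact Or.inr ⟨h.2, h.1⟩
    · rintro x y z (rfl | h) (rfl | h')
      · exact Or.inl rfl
      · exact Or.inr h'
      · exact Or.inr h
      · exact Or.inr ⟨h.1, h'.2⟩

theorem bb_bot_iff (n x y : ℕ) : (bot n) x y ↔ (x = y ∨ (n ≤ x ∧ n ≤ y)) := Iff.rfl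

theorem bot_W (n : ℕ) : bot n ∈ W n := fun _ _ h1 h2 => Or.inr ⟨h1, h2⟩

theorem bot_NC (n : ℕ) : bot n ∈ NC := by
  intro a b c d hab hbc hcd h1 _
  rw [bb_bot_iff] at h1 ⊢
  rcases h1 with h1 | h1
  · omega
  · exact Or.inr ⟨h1.1, by omega⟩

theorem bb_foldr_iff (σ : St) (L : List ℕ) (x y : ℕ) :
    (L.foldr (fun k τ => act (2 * k) τ) σ) x y ↔ (x = y ∨ (x ∉ L ∧ y ∉ L ∧ σ x y)) := by
  induction L with
  | nil =>
    simp only [List.not_mem_nil, not_false_eq_true, true_and]
    constructor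
    · exact fun h => Or.inr h
    · rintro (rfl | h)
      · exact σ.refl _
      · exact h
  | cons k L ih =>
    rw [List.foldr_cons, bb_act_even, bb_detach_iff, ih]
    simp only [List.mem_cons, not_or]
    tauto

/-- detaching the sites `0, ..., n` of a state of `W n` gives `bot (n+1)`; used in `Doeblin`:
`rowState` applies `act 0, act 2, ..., act (2n)` -/
theorem detach_all (n : ℕ) {σ : St} (hσ : σ ∈ W n) (L : List ℕ)
    (hL : ∀ k, k ∈ L ↔ k ≤ n) : L.foldr (fun k τ => act (2 * k) τ) σ = bot (n + 1) := by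
  ext x y
  rw [bb_foldr_iff, bb_bot_iff, hL, hL]
  constructor
  · rintro (h | ⟨h1, h2, _⟩)
    · exact Or.inl h
    · exact Or.inr ⟨by omega, by omega⟩
  · rintro (h | ⟨h1, h2⟩)
    · exact Or.inl h
    · exact Or.inr ⟨by omega, by omega, hσ x y (by omega) (by omega)⟩

theorem del_bot (n : ℕ) : del 0 (bot (n + 1)) = bot n := by
  have h : del 0 (bot (n + 1)) = Setoid.comap (skip 0) (bot (n + 1)) := bb_del_even 0 _
  rw [h]
  ext x y
  rw [Setoid.comap_rel, bb_bot_iff, bb_bot_iff]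
  unfold skip
  simp only [Nat.not_lt_zero, if_false]
  omega

end IP
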