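import Pool.Agent.Lead.IP.Recur
import Pool.Agent.Lead.IP.DetB
/-! MODULE Zform: the total mass `Z n` is the symplectic character `Dt / Dl`.
Induction on `n`, interpolation in the variable `b 0` for generic `b 1, ..., b (2n+2)`: both sides of the
formula for `n+1` are trigonometric polynomials of degree `6n+8` in `b 0`, and they agree for
`b 0 = ± b j ± π/3` (`4 (2n+2)` values modulo `π`; `Z_rec` with `i = 0`, symmetry `Z_sw`, evenness `Z_ng`, `chi_rec`)
and for `b 0 = 0` (both vanish), `8n + 9 > 6n + 8`.  Then `Sep.eq_zero_of_mul` (or density).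
Factor: `s (x - c) * s (-x - c) = (cos 2x - cos (2c - 2π/3)) / 2`. -/
namespace IP
open Finset Real

/-- the difference of the two sides -/
noncomputable def zf_FF (n : ℕ) (b : ℕ → ℝ) : ℝ :=
  4 ^ (n ^ 2) * Z n b * Dl (2 * n + 1) b - Dt (2 * n + 1) b

theorem zf_FF_sw {n i : ℕ} (h : i + 1 ≤ 2 * n) (b : ℕ → ℝ) : zf_FF n (sw i b) = - zf_FF n b := by
  unfold zf_FF
  rw [Z_sw h, Dl_sw (by omega), Dt_sw (by omega)]
  ring

theorem zf_FF_ng {n i : ℕ} (h : i ≤ 2 * n) (b : ℕ → ℝ) : zf_FF n (ng i b) = - zf_FF n b := by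
  unfold zf_FF
  rw [Z_ng h, Dl_ng (by omega), Dt_ng (by omega)]
  ring

theorem zf_FF_zero {n : ℕ} {b : ℕ → ℝ} (h : b 0 = 0) : zf_FF n b = 0 := by
  have h1 : ng 0 b = b := by
    unfold ng
    rw [h, neg_zero]
    conv_rhs => rw [← Function.update_eq_self 0 b, h]
  have h2 := zf_FF_ng (n := n) (i := 0) (by omega) b
  rw [h1] at h2
  linarith

theorem zf_FF_Sep (n : ℕ) : Sep (2 * (n + 1) + 1) (6 * n + 8) (zf_FF (n + 1)) := by
  have h1 := ((Z_Sep (n + 1)).smul (4 ^ ((n + 1) ^ 2))).mul (Dl_Sep (2 * (n + 1) + 1))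
  have h2 := Dt_Sep (2 * (n + 1) + 1)
  have e1 : 2 * (n + 1) + 2 * (2 * (n + 1) + 1) = 6 * n + 8 := by ring
  have e2 : 2 * mu (2 * (n + 1) + 1 - 1) = 6 * n + 8 := by unfold mu; omega
  rw [e1] at h1
  rw [e2] at h2
  exact h1.sub h2

/-- genericity of the coordinates `1, ..., 2n+2` -/
def zf_Gn (n : ℕ) (b : ℕ → ℝ) : Prop :=
  (∀ i, 1 ≤ i → i ≤ 2 * n + 2 → Real.sin (2 * b i) ≠ 0) ∧
  ∀ i j, 1 ≤ i → i ≤ 2 * n + 2 → 1 ≤ j → j ≤ 2 * n + 2 → i ≠ j →
    Real.sin (b i - b j) ≠ 0 ∧ Real.sin (b i + b j) ≠ 0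

theorem zf_Gn_congr {n : ℕ} {b b' : ℕ → ℝ} (h : ∀ j, 1 ≤ j → b j = b' j) (hb : zf_Gn n b) : zf_Gn n b' := by
  constructor
  · intro i h1 h2
    rw [← h i h1]
    exact hb.1 i h1 h2
  · intro i j h1 h2 h3 h4 h5
    rw [← h i h1, ← h j h3]
    exact hb.2 i j h1 h2 h3 h4 h5

theorem zf_swap_range {j N i : ℕ} (hj : 1 ≤ j) (hj2 : j + 1 ≤ N) (h1 : 1 ≤ i) (h2 : i ≤ N) :
    1 ≤ Equiv.swap j (j + 1) i ∧ Equiv.swap j (j + 1) i ≤ N := by
  by_cases h : i = j
  · rw [h, Equiv.swap_apply_left]; omega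
  · by_cases h' : i = j + 1
    · rw [h', Equiv.swap_apply_right]; omega
    · rw [Equiv.swap_apply_of_ne_of_ne h h']; omega

theorem zf_Gn_sw {n j : ℕ} (hj : 1 ≤ j) (hj2 : j + 1 ≤ 2 * n + 2) {b : ℕ → ℝ} (hb : zf_Gn n b) :
    zf_Gn n (sw j b) := by
  constructor
  · intro i h1 h2
    unfold sw
    exact hb.1 _ (zf_swap_range hj hj2 h1 h2).1 (zf_swap_range hj hj2 h1 h2).2
  · intro i k h1 h2 h3 h4 h5
    unfold sw
    exact hb.2 _ _ (zf_swap_range hj hj2 h1 h2).1 (zf_swap_range hj hj2 h1 h2).2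
      (zf_swap_range hj hj2 h3 h4).1 (zf_swap_range hj hj2 h3 h4).2
      (fun h => h5 ((Equiv.swap j (j + 1)).injective h))

theorem zf_Gn_ng {n j : ℕ} {b : ℕ → ℝ} (hb : zf_Gn n b) : zf_Gn n (ng j b) := by
  have key : ∀ i, ng j b i = b i ∨ ng j b i = -b i := by
    intro i
    unfold ng
    by_cases h : i = j
    · subst h; right; rw [Function.update_self]
    · left; rw [Function.update_of_ne h]
  constructor
  · intro i h1 h2
    rcases key i with h | h
    · rw [h]; exact hb.1 i h1 h2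
    · rw [h, mul_neg, Real.sin_neg]
      exact neg_ne_zero.mpr (hb.1 i h1 h2)
  · intro i k h1 h2 h3 h4 h5
    obtain ⟨ha, hs⟩ := hb.2 i k h1 h2 h3 h4 h5
    rcases key i with h | h <;> rcases key k with h' | h' <;> rw [h, h']
    · exact ⟨ha, hs⟩
    · refine ⟨?_, ?_⟩
      · rwa [sub_neg_eq_add]
      · rwa [← sub_eq_add_neg]
    · refine ⟨?_, ?_⟩
      · rw [show -b i - b k = -(b i + b k) by ring, Real.sin_neg]
        exact neg_ne_zero.mpr hs
      · rw [show -b i + b k = -(b i - b k) by ring, Real.sin_neg]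
        exact neg_ne_zero.mpr ha
    · refine ⟨?_, ?_⟩
      · rw [show -b i - -b k = -(b i - b k) by ring, Real.sin_neg]
        exact neg_ne_zero.mpr ha
      · rw [show -b i + -b k = -(b i + b k) by ring, Real.sin_neg]
        exact neg_ne_zero.mpr hs

theorem zf_s_mul_s (x c : ℝ) : 4 * (s (x - c) * s (-x - c)) =
    2 * (Real.cos (2 * x) - Real.cos (2 * c - 2 * π / 3)) := by
  have key : ∀ A B : ℝ, 4 * (Real.sin A * Real.sin B) =
      2 * (Real.cos (A - B) - Real.cos (A + B)) := by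
    intro A B
    rw [Real.cos_sub, Real.cos_add]
    ring
  unfold s
  rw [key]
  have h1 : π / 3 + (x - c) - (π / 3 + (-x - c)) = 2 * x := by ring
  have h2 : π / 3 + (x - c) + (π / 3 + (-x - c)) = -(2 * c - 2 * π / 3) := by ring
  rw [h1, h2, Real.cos_neg]

theorem zf_K_zero (n : ℕ) (b : ℕ → ℝ) : 4 ^ (2 * n + 1) * K (n + 1) 0 b =
    ∏ i ∈ Ico 2 (2 * n + 1 + 2), 2 * (Real.cos (2 * b i) - Real.cos (2 * b 0 - 2 * π / 3)) := by
  unfold K
  have hs : (range (2 * (n + 1) + 1)).filter (fun j => j ≠ 0 ∧ j ≠ 0 + 1) =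
      Ico 2 (2 * n + 1 + 2) := by
    ext j
    simp only [mem_filter, mem_range, mem_Ico]
    omega
  rw [hs]
  have hc : (4 : ℝ) ^ (2 * n + 1) = ∏ _i ∈ Ico 2 (2 * n + 1 + 2), (4 : ℝ) := by
    rw [prod_const, Nat.card_Ico]
    congr 1
  rw [hc, ← prod_mul_distrib]
  exact prod_congr rfl fun j _ => zf_s_mul_s (b j) (b 0)

theorem zf_FF_pair01 {n : ℕ} (ih : ∀ b, zf_FF n b = 0) {b : ℕ → ℝ} (hg : zf_Gn n b)
    (hb : b 1 = b 0 + π / 3) : zf_FF (n + 1) b = 0 := by
  have hZ := Z_rec (n := n) (i := 0) (by omega) b hb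
  have hI := ih (rem 0 b)
  have hK := zf_K_zero n b
  have hC := chi_rec (2 * n + 1) b hb
  rw [← hK] at hC
  have hne : Dl (2 * n + 1) (rem 0 b) ≠ 0 := by
    rw [Dl_ne_zero_iff]
    constructor
    · intro i hi
      have : rem 0 b i = b (i + 2) := by simp [rem]
      rw [this]
      exact hg.1 (i + 2) (by omega) (by omega)
    · intro i j hi hj hij
      have h1 : rem 0 b i = b (i + 2) := by simp [rem]
      have h2 : rem 0 b j = b (j + 2) := by simp [rem]
      rw [h1, h2]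
      exact hg.2 (i + 2) (j + 2) (by omega) (by omega) (by omega) (by omega) (by omega)
  unfold zf_FF at hI ⊢
  have e : 2 * n + 1 + 2 = 2 * (n + 1) + 1 := by ring
  rw [e] at hC
  have e2 : (4 : ℝ) ^ ((n + 1) ^ 2) = 4 ^ (n ^ 2) * 4 ^ (2 * n + 1) := by
    rw [← pow_add]
    congr 1
    ring
  have hprod : (4 ^ ((n + 1) ^ 2) * Z (n + 1) b * Dl (2 * (n + 1) + 1) b - Dt (2 * (n + 1) + 1) b) *
      Dl (2 * n + 1) (rem 0 b) = 0 := by
    rw [e2, hZ]
    linear_combination (4 ^ (2 * n + 1) * K (n + 1) 0 b * Dl (2 * (n + 1) + 1) b) * hI - hC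
  rcases mul_eq_zero.mp hprod with h | h
  · exact h
  · exact absurd h hne

theorem zf_FF_pair {n : ℕ} (ih : ∀ b, zf_FF n b = 0) (j : ℕ) (h1 : 1 ≤ j) (h2 : j ≤ 2 * n + 2) :
    ∀ b : ℕ → ℝ, zf_Gn n b → b j = b 0 + π / 3 → zf_FF (n + 1) b = 0 := by
  induction j, h1 using Nat.le_induction with
  | base => exact fun b hg hb => zf_FF_pair01 ih hg hb
  | succ j hj IH =>
    intro b hg hb
    have h3 := IH (by omega) (sw j b) (zf_Gn_sw hj h2 hg) (by
      unfold sw
      rw [Equiv.swap_apply_left, Equiv.swap_apply_of_ne_of_ne (by omega) (by omega)]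
      exact hb)
    rw [zf_FF_sw (by omega)] at h3
    linarith

theorem zf_ng_self (i : ℕ) (b : ℕ → ℝ) : ng i b i = -b i := by
  unfold ng; rw [Function.update_self]
theorem zf_ng_ne {i j : ℕ} (h : j ≠ i) (b : ℕ → ℝ) : ng i b j = b j := by
  unfold ng; rw [Function.update_of_ne h]

theorem zf_FF_node {n : ℕ} (ih : ∀ b, zf_FF n b = 0) {j : ℕ} (h1 : 1 ≤ j) (h2 : j ≤ 2 * n + 2)
    {b : ℕ → ℝ} (hg : zf_Gn n b) (p q : Bool)
    (hb : b 0 = (if p then π / 3 else -(π / 3)) + (if q then b j else -b j)) :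
    zf_FF (n + 1) b = 0 := by
  have hj0 : j ≠ 0 := by omega
  have h0j : (0 : ℕ) ≠ j := by omega
  cases p <;> cases q <;> simp only [if_true, if_false, Bool.false_eq_true] at hb
  · -- b 0 = -π/3 - b j
    have h := zf_FF_pair ih j h1 h2 (ng j b) (zf_Gn_ng hg) (by
      rw [zf_ng_self, zf_ng_ne h0j, hb]; ring)
    rw [zf_FF_ng (by omega)] at h
    linarith
  · -- b 0 = -π/3 + b j
    exact zf_FF_pair ih j h1 h2 b hg (by rw [hb]; ring)
  · -- b 0 = π/3 - b j
    have h := zf_FF_pair ih j h1 h2 (ng 0 b) (zf_Gn_ng hg) (by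
      rw [zf_ng_self, zf_ng_ne hj0, hb]; ring)
    rw [zf_FF_ng (by omega)] at h
    linarith
  · -- b 0 = π/3 + b j
    have h := zf_FF_pair ih j h1 h2 (ng 0 (ng j b)) (zf_Gn_ng (zf_Gn_ng hg)) (by
      rw [zf_ng_self, zf_ng_ne hj0, zf_ng_self, zf_ng_ne h0j, hb]; ring)
    rw [zf_FF_ng (by omega), zf_FF_ng (by omega)] at h
    linarith

theorem zf_sin_ne_of_lt {x : ℝ} (h : x ≠ 0) (h1 : -π < x) (h2 : x < π) : Real.sin x ≠ 0 := by
  rw [Ne, Real.sin_eq_zero_iff_of_lt_of_lt h1 h2]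
  exact h

/-- the induction step on a set of generic points -/
theorem zf_FF_generic {n : ℕ} (ih : ∀ b, zf_FF n b = 0) {b : ℕ → ℝ}
    (hpos : ∀ j, j ≤ 2 * n + 2 → 0 < b j) (hlt : ∀ j, j ≤ 2 * n + 2 → b j < π / 12)
    (hinj : ∀ i j, i ≤ 2 * n + 2 → j ≤ 2 * n + 2 → b i = b j → i = j) : zf_FF (n + 1) b = 0 := by
  have hpi := Real.pi_pos
  have hg : zf_Gn n b := by
    constructor
    · intro i h1 h2
      exact zf_sin_ne_of_lt (by linarith [hpos i h2]) (by linarith [hpos i h2]) (by linarith [hlt i h2])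
    · intro i j h1 h2 h3 h4 h5
      constructor
      · refine zf_sin_ne_of_lt (fun h => h5 (hinj i j h2 h4 (by linarith))) ?_ ?_
        · linarith [hpos i h2, hlt j h4]
        · linarith [hpos j h4, hlt i h2]
      · exact zf_sin_ne_of_lt (by linarith [hpos i h2, hpos j h4]) (by linarith [hpos i h2, hpos j h4])
          (by linarith [hlt i h2, hlt j h4])
  -- the nodes
  let f : ℕ × Bool × Bool → ℝ := fun z =>
    (if z.2.1 then π / 3 else -(π / 3)) + (if z.2.2 then b (z.1 + 1) else -b (z.1 + 1))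
  let S : Finset (ℕ × Bool × Bool) := range (2 * n + 2) ×ˢ (univ : Finset (Bool × Bool))
  have hfI : Set.InjOn f S := by
    rintro ⟨i, p, q⟩ hi ⟨j, p', q'⟩ hj h
    have hi' : i < 2 * n + 2 := by
      have := (Finset.mem_product.mp (Finset.mem_coe.mp hi)).1
      exact mem_range.mp this
    have hj' : j < 2 * n + 2 := by
      have := (Finset.mem_product.mp (Finset.mem_coe.mp hj)).1
      exact mem_range.mp this
    have a1 := hpos (i + 1) (by omega)
    have a2 := hlt (i + 1) (by omega)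
    have a3 := hpos (j + 1) (by omega)
    have a4 := hlt (j + 1) (by omega)
    have a5 := hinj (i + 1) (j + 1) (by omega) (by omega)
    simp only [f] at h
    cases p <;> cases q <;> cases p' <;> cases q' <;>
      simp only [if_true, if_false, Bool.false_eq_true] at h <;>
      first
        | (exfalso; linarith)
        | (have : i + 1 = j + 1 := a5 (by linarith)
           have : i = j := by omega
           rw [this])
  let t : Finset ℝ := insert 0 (S.image f)
  have hfb : ∀ z ∈ S, f z ≠ 0 ∧ -(π / 2) < f z ∧ f z < π / 2 := by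
    rintro ⟨i, p, q⟩ hi
    have hi' : i < 2 * n + 2 := mem_range.mp (Finset.mem_product.mp hi).1
    have a1 := hpos (i + 1) (by omega)
    have a2 := hlt (i + 1) (by omega)
    simp only [f]
    cases p <;> cases q <;> simp only [if_true, if_false, Bool.false_eq_true] <;>
      refine ⟨?_, ?_, ?_⟩ <;> linarith
  have htb : ∀ x ∈ t, -(π / 2) < x ∧ x < π / 2 := by
    intro x hx
    rcases mem_insert.mp hx with h | h
    · subst h; constructor <;> linarith
    · obtain ⟨z, hz, rfl⟩ := mem_image.mp h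
      exact (hfb z hz).2
  have hcard : 6 * n + 8 < t.card := by
    have h0 : (0 : ℝ) ∉ S.image f := by
      intro h
      obtain ⟨z, hz, hz0⟩ := mem_image.mp h
      exact (hfb z hz).1 hz0
    rw [card_insert_of_notMem h0, card_image_of_injOn hfI, card_product, card_range]
    have : (univ : Finset (Bool × Bool)).card = 4 := by decide
    rw [this]
    omega
  have hTP : TP (6 * n + 8) (fun x => zf_FF (n + 1) (Function.update b 0 x)) :=
    (zf_FF_Sep n).1 b 0 (by omega)
  have hall := hTP.eq_zero t hcard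
    (by
      intro x hx y hy hxy
      have h1 := htb x hx
      have h2 := htb y hy
      exact zf_sin_ne_of_lt (sub_ne_zero.mpr hxy) (by linarith) (by linarith))
    (by
      intro x hx
      rcases mem_insert.mp hx with h | h
      · subst h
        exact zf_FF_zero (by rw [Function.update_self])
      · obtain ⟨⟨i, p, q⟩, hz, rfl⟩ := mem_image.mp h
        have hi' : i < 2 * n + 2 := mem_range.mp (Finset.mem_product.mp hz).1
        refine zf_FF_node ih (j := i + 1) (by omega) (by omega) ?_ p q ?_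
        · refine zf_Gn_congr (b := b) ?_ hg
          intro k hk
          rw [Function.update_of_ne (by omega)]
        · rw [Function.update_self, Function.update_of_ne (by omega)])
  have := hall (b 0)
  rwa [Function.update_eq_self] at this

theorem zf_FF_all (n : ℕ) : ∀ b, zf_FF n b = 0 := by
  induction n with
  | zero =>
    intro b
    unfold zf_FF Z Dl Dt mu
    rw [V_zero, tot_single]
    simp
  | succ n ih =>
    set L : ℝ := 2 * n + 4 with hL
    have hLpos : 0 < L := by positivity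
    have hpi := Real.pi_pos
    set δ : ℝ := π / 12 / L with hδ
    have hδpos : 0 < δ := by positivity
    have hδL : L * δ = π / 12 := by rw [hδ]; field_simp
    refine (zf_FF_Sep n).eq_zero_box (fun j => ((j : ℝ) + 1) * δ) (half_pos hδpos) ?_
    intro b hb
    have hup : ∀ j : ℕ, b j < ((j : ℝ) + 1) * δ + δ / 2 := fun j => by
      have := (abs_lt.mp (hb j)).2; linarith
    have hdn : ∀ j : ℕ, ((j : ℝ) + 1) * δ - δ / 2 < b j := fun j => by
      have := (abs_lt.mp (hb j)).1; linarith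
    have hmono : ∀ i j : ℕ, i < j → b i < b j := by
      intro i j hij
      have h1 : (i : ℝ) + 1 ≤ j := by exact_mod_cast hij
      have h2 : ((i : ℝ) + 1) * δ ≤ (j : ℝ) * δ := mul_le_mul_of_nonneg_right h1 hδpos.le
      have := hup i
      have := hdn j
      linarith [add_mul (j : ℝ) 1 δ]
    refine zf_FF_generic ih ?_ ?_ ?_
    · intro j _
      have h1 := hdn j
      have h2 : (0 : ℝ) ≤ (j : ℝ) * δ := by positivity
      linarith [add_mul (j : ℝ) 1 δ]
    · intro j hj
      have h1 := hup j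
      have h2 : (j : ℝ) + 2 ≤ L := by
        rw [hL]
        have : (j : ℝ) ≤ 2 * n + 2 := by exact_mod_cast hj
        linarith
      have h3 : ((j : ℝ) + 2) * δ ≤ L * δ := mul_le_mul_of_nonneg_right h2 hδpos.le
      rw [hδL] at h3
      linarith [add_mul (j : ℝ) 1 δ, add_mul (j : ℝ) 2 δ]
    · intro i j _ _ hij
      rcases lt_trichotomy i j with h | h | h
      · exact absurd hij (hmono i j h).ne
      · exact h
      · exact absurd hij (hmono j i h).ne'

theorem Z_form (n : ℕ) (b : ℕ → ℝ) : 4 ^ (n ^ 2) * Z n b * Dl (2 * n + 1) b = Dt (2 * n + 1) b := by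
  have := zf_FF_all n b
  unfold zf_FF at this
  linarith
end IP
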