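import Mathlib

/-!
Integrable percolation (IP), definitions.

Sites are natural numbers; a state is a partition of the sites.  With `n` columns all sites
`≥ n` are the wall (one block).  The generators `act i` are the Temperley-Lieb generators (loop
weight one): `act (2k)` detaches site `k`, `act (2k+1)` joins the sites `k` and `k+1`.
-/

namespace IP
open Finset

abbrev St := Setoid ℕ

/-- site `k` becomes a singleton -/
def detach (k : ℕ) (σ : St) : St where
  r x y := x = y ∨ (x ≠ k ∧ y ≠ k ∧ σ x y)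
  iseqv := by
    refine ⟨fun x => Or.inl rfl, ?_, ?_⟩
    · rintro x y (rfl | ⟨h1, h2, h3⟩)
      · exact Or.inl rfl
      · exact Or.inr ⟨h2, h1, σ.symm h3⟩
    · rintro x y z (rfl | ⟨h1, h2, h3⟩) (rfl | ⟨h4, h5, h6⟩)
      · exact Or.inl rfl
      · exact Or.inr ⟨h4, h5, h6⟩
      · exact Or.inr ⟨h1, h2, h3⟩
      · exact Or.inr ⟨h1, h5, σ.trans h3 h6⟩

/-- the blocks of `j` and `k` are joined -/
def join (j k : ℕ) (σ : St) : St where
  r x y := σ x y ∨ (σ x j ∧ σ k y) ∨ (σ x k ∧ σ j y)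
  iseqv := by
    refine ⟨fun x => Or.inl (σ.refl x), ?_, ?_⟩
    · rintro x y (h | ⟨h1, h2⟩ | ⟨h1, h2⟩)
      · exact Or.inl (σ.symm h)
      · exact Or.inr (Or.inr ⟨σ.symm h2, σ.symm h1⟩)
      · exact Or.inr (Or.inl ⟨σ.symm h2, σ.symm h1⟩)
    · rintro x y z (h | ⟨h1, h2⟩ | ⟨h1, h2⟩) (h' | ⟨h3, h4⟩ | ⟨h3, h4⟩)
      · exact Or.inl (σ.trans h h')
      · exact Or.inr (Or.inl ⟨σ.trans h h3, h4⟩)
      · exact Or.inr (Or.inr ⟨σ.trans h h3, h4⟩)
      · exact Or.inr (Or.inl ⟨h1, σ.trans h2 h'⟩)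
      · exact Or.inr (Or.inl ⟨h1, h4⟩)
      · exact Or.inl (σ.trans h1 h4)
      · exact Or.inr (Or.inr ⟨h1, σ.trans h2 h'⟩)
      · exact Or.inl (σ.trans h1 h4)
      · exact Or.inr (Or.inr ⟨h1, h4⟩)

/-- Temperley-Lieb generator number `i` -/
def act (i : ℕ) (σ : St) : St :=
  if i % 2 = 0 then detach (i / 2) σ else join (i / 2) (i / 2 + 1) σ

/-- skip site `k` -/
def skip (k j : ℕ) : ℕ := if j < k then j else j + 1
/-- collapse the sites `k`, `k+1` -/
def coll (k j : ℕ) : ℕ := if j ≤ k then j else j - 1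
/-- left inverse of `skip k` -/
def unskip (k j : ℕ) : ℕ := if j < k then j else j - 1

/-- insert a new singleton at position `k` -/
def insS (k : ℕ) (σ : St) : St where
  r x y := x = y ∨ (x ≠ k ∧ y ≠ k ∧ σ (unskip k x) (unskip k y))
  iseqv := by
    refine ⟨fun x => Or.inl rfl, ?_, ?_⟩
    · rintro x y (rfl | ⟨h1, h2, h3⟩)
      · exact Or.inl rfl
      · exact Or.inr ⟨h2, h1, σ.symm h3⟩
    · rintro x y z (rfl | ⟨h1, h2, h3⟩) (rfl | ⟨h4, h5, h6⟩)
      · exact Or.inl rfl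
      · exact Or.inr ⟨h4, h5, h6⟩
      · exact Or.inr ⟨h1, h2, h3⟩
      · exact Or.inr ⟨h1, h5, σ.trans h3 h6⟩

/-- insertion of an arc at position `i` (two new strands `i`, `i+1` joined by an arc) -/
def ins (i : ℕ) (σ : St) : St :=
  if i % 2 = 0 then insS (i / 2) σ else Setoid.comap (coll (i / 2)) σ

/-- closing the strands `i`, `i+1` by an arc -/
def del (i : ℕ) (σ : St) : St :=
  if i % 2 = 0 then Setoid.comap (skip (i / 2)) σ
  else Setoid.comap (skip (i / 2 + 1)) (join (i / 2) (i / 2 + 1) σ)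

/-- all sites `≥ n` belong to the wall -/
def W (n : ℕ) : Set St := {σ | ∀ i j, n ≤ i → n ≤ j → σ i j}

/-- noncrossing partitions -/
def NC : Set St := {σ | ∀ a b c d : ℕ, a < b → b < c → c < d → σ a c → σ b d → σ a b}

/-- the most nested partition with `n` columns: `i` and `n-i` are joined -/
def top (n : ℕ) : St where
  r i j := i = j ∨ min i n + min j n = n ∨ (n ≤ i ∧ n ≤ j)
  iseqv := by
    refine ⟨fun x => Or.inl rfl, ?_, ?_⟩
    · rintro x y (rfl | h | h)
      · exact Or.inl rfl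
      · exact Or.inr (Or.inl (by omega))
      · exact Or.inr (Or.inr ⟨h.2, h.1⟩)
    · rintro x y z (rfl | h | h) (rfl | h' | h')
      · exact Or.inl rfl
      · exact Or.inr (Or.inl h')
      · exact Or.inr (Or.inr h')
      · exact Or.inr (Or.inl h)
      · by_cases hx : n ≤ x ∧ n ≤ z
        · exact Or.inr (Or.inr hx)
        · left; omega
      · right; left; omega
      · exact Or.inr (Or.inr h)
      · right; left; omega
      · exact Or.inr (Or.inr ⟨h.1, h'.2⟩)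

noncomputable section

/-- vectors: formal linear combinations of states -/
abbrev M := St →₀ ℝ

/-- total mass -/
def tot : M →ₗ[ℝ] ℝ := Finsupp.lsum ℝ (fun _ => LinearMap.id)

def E (i : ℕ) : M →ₗ[ℝ] M := Finsupp.lmapDomain ℝ ℝ (act i)
def In (i : ℕ) : M →ₗ[ℝ] M := Finsupp.lmapDomain ℝ ℝ (ins i)
def De (i : ℕ) : M →ₗ[ℝ] M := Finsupp.lmapDomain ℝ ℝ (del i)

/-- vectors supported in a set of states -/
def Sup (A : Set St) : Submodule ℝ M := Finsupp.supported ℝ ℝ A

/-- `s x = sin (π/3 + x)` -/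
def s (x : ℝ) : ℝ := Real.sin (Real.pi / 3 + x)

/-- R-matrix (not normalised), `tot (Rt i u v) = s u * tot v` -/
def Rt (i : ℕ) (u : ℝ) : M →ₗ[ℝ] M := s (-u) • LinearMap.id + Real.sin u • E i

/-- exchange of the coordinates `i`, `i+1` -/
def sw (i : ℕ) (b : ℕ → ℝ) : ℕ → ℝ := fun j => b (Equiv.swap i (i + 1) j)
/-- change of sign of the coordinate `i` -/
def ng (i : ℕ) (b : ℕ → ℝ) : ℕ → ℝ := Function.update b i (-b i)
/-- remove the coordinates `i`, `i+1` -/
def rem (i : ℕ) (b : ℕ → ℝ) : ℕ → ℝ := fun j => if j < i then b j else b (j + 2)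

/-- `Rt off (b 0 + π/6) ∘ Rt (off+1) (b 1 + π/6) ∘ ... ∘ Rt (off+k-1) (b (k-1) + π/6)` -/
def row (off : ℕ) (b : ℕ → ℝ) : ℕ → M →ₗ[ℝ] M
  | 0 => LinearMap.id
  | k + 1 => row off b k ∘ₗ Rt (off + k) (b k + Real.pi / 6)

/-- double row transfer matrix (not normalised) with `2n+1` strands -/
def Tt (n : ℕ) (b : ℕ → ℝ) : M →ₗ[ℝ] M :=
  De 0 ∘ₗ row 1 b (2 * n + 1) ∘ₗ row 0 b (2 * n + 1)

/-- normalisation of `Tt` -/
def nrm (n : ℕ) (b : ℕ → ℝ) : ℝ := ∏ j ∈ range (2 * n + 1), s (b j + Real.pi / 6) ^ 2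

/-- stochastic transfer matrix -/
def T (n : ℕ) (b : ℕ → ℝ) : M →ₗ[ℝ] M := (nrm n b)⁻¹ • Tt n b

/-- the domain where all weights are positive -/
def Cube : Set (ℕ → ℝ) := {b | ∀ j, |b j| < Real.pi / 6}

/-- `f_0`: the entry of the (polynomial) stationary vector at the top state -/
def f0 (n : ℕ) (b : ℕ → ℝ) : ℝ :=
  (∏ j ∈ range (n + 1), ∏ i ∈ range j, s (b i - b j) * s (-b i - b j)) *
  ∏ j ∈ Ico (n + 1) (2 * n + 1), ∏ i ∈ Ico (n + 1) j, s (b i - b j) * s (b i + b j)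

/-- factor in the recursion -/
def K (n i : ℕ) (b : ℕ → ℝ) : ℝ :=
  ∏ j ∈ (range (2 * n + 1)).filter (fun j => j ≠ i ∧ j ≠ i + 1), s (b j - b i) * s (-b j - b i)

/-- trigonometric polynomials with frequencies `-m, -m+2, ..., m` -/
def TP (m : ℕ) (F : ℝ → ℝ) : Prop :=
  ∃ P : Polynomial ℂ, P.natDegree ≤ m ∧
    ∀ x : ℝ, (F x : ℂ) = Complex.exp (-(m * x * Complex.I)) * P.eval (Complex.exp (2 * x * Complex.I))

/-- separately trigonometric polynomials of degree `m` in the coordinates `< L`, not depending on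
the other coordinates -/
def Sep (L m : ℕ) (F : (ℕ → ℝ) → ℝ) : Prop :=
  (∀ b j, j < L → TP m (fun x => F (Function.update b j x))) ∧
  ∀ b b', (∀ j < L, b j = b' j) → F b = F b'

/-- the hull form: `1` if in the glued configuration site 0 is connected to the wall -/
def hull (n : ℕ) (v w : M) : ℝ :=
  open Classical in v.sum fun σ x => w.sum fun τ y => if (σ ⊔ τ) 0 n then x * y else 0

/-- the exponents `1, 2, 4, 5, 7, 8, ...` (numbers not divisible by 3) -/
def mu (j : ℕ) : ℕ := 3 * (j / 2) + j % 2 + 1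

/-- the determinant `det (sin (2 μ_j b_i))` of size `m` -/
def Dt (m : ℕ) (b : ℕ → ℝ) : ℝ :=
  Matrix.det (Matrix.of fun i j : Fin m => Real.sin (2 * mu j * b i))

/-- the symplectic Weyl denominator -/
def Dl (m : ℕ) (b : ℕ → ℝ) : ℝ :=
  Matrix.det (Matrix.of fun i j : Fin m => Real.sin (2 * ((j : ℕ) + 1 : ℕ) * b i))

end
end IP
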