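import Pool.Agent.Lead.IP.Defs
/-! MODULE BasicA: identities between the maps `act`, `ins`, `del` on partitions. -/
namespace IP
open Finset

/-! ### the elementary operations -/

theorem detach_apply (k : ℕ) (σ : St) (x y : ℕ) :
    detach k σ x y ↔ x = y ∨ (x ≠ k ∧ y ≠ k ∧ σ x y) := Iff.rfl

theorem join_apply (j k : ℕ) (σ : St) (x y : ℕ) :
    join j k σ x y ↔ σ x y ∨ (σ x j ∧ σ k y) ∨ (σ x k ∧ σ j y) := Iff.rfl

theorem comap_apply (f : ℕ → ℕ) (σ : St) (x y : ℕ) :
    Setoid.comap f σ x y ↔ σ (f x) (f y) := Iff.rfl

theorem comap_comap (f g : ℕ → ℕ) (σ : St) :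
    Setoid.comap f (Setoid.comap g σ) = Setoid.comap (fun x => g (f x)) σ := rfl

theorem join_le_iff (a b : ℕ) (σ τ : St) : join a b σ ≤ τ ↔ σ ≤ τ ∧ τ a b := by
  constructor
  · intro h
    refine ⟨fun {x y} hxy => h (Or.inl hxy), h (Or.inr (Or.inl ⟨σ.refl _, σ.refl _⟩))⟩
  · rintro ⟨h1, h2⟩ x y (h | ⟨h, h'⟩ | ⟨h, h'⟩)
    · exact h1 h
    · exact τ.trans (h1 h) (τ.trans h2 (h1 h'))
    · exact τ.trans (h1 h) (τ.trans (τ.symm h2) (h1 h'))

theorem le_join (a b : ℕ) (σ : St) : σ ≤ join a b σ := ((join_le_iff a b σ _).mp le_rfl).1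

theorem join_rel (a b : ℕ) (σ : St) : join a b σ a b := ((join_le_iff a b σ _).mp le_rfl).2

theorem join_of_rel {a b : ℕ} {σ : St} (h : σ a b) : join a b σ = σ :=
  le_antisymm ((join_le_iff a b σ σ).mpr ⟨le_rfl, h⟩) (le_join a b σ)

theorem join_comm (a b : ℕ) (σ : St) : join a b σ = join b a σ := by
  apply le_antisymm
  · rw [join_le_iff]
    exact ⟨le_join b a σ, (join b a σ).symm (join_rel b a σ)⟩
  · rw [join_le_iff]
    exact ⟨le_join a b σ, (join a b σ).symm (join_rel a b σ)⟩

theorem join_join_comm (a b c d : ℕ) (σ : St) :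
    join a b (join c d σ) = join c d (join a b σ) := by
  apply le_antisymm
  · rw [join_le_iff, join_le_iff]
    refine ⟨⟨(le_join a b σ).trans (le_join c d _), join_rel c d _⟩, ?_⟩
    exact le_join c d _ (join_rel a b σ)
  · rw [join_le_iff, join_le_iff]
    refine ⟨⟨(le_join c d σ).trans (le_join a b _), join_rel a b _⟩, ?_⟩
    exact le_join a b _ (join_rel c d σ)

theorem join_congr_left {a b : ℕ} (c : ℕ) {τ : St} (h : τ a b) : join a c τ = join b c τ := by
  apply le_antisymm
  · rw [join_le_iff]
    exact ⟨le_join b c τ, (join b c τ).trans (le_join b c τ h) (join_rel b c τ)⟩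
  · rw [join_le_iff]
    exact ⟨le_join a c τ, (join a c τ).trans (le_join a c τ (τ.symm h)) (join_rel a c τ)⟩

theorem detach_detach_self (a : ℕ) (σ : St) : detach a (detach a σ) = detach a σ := by
  apply Setoid.ext
  intro x y
  rw [detach_apply, detach_apply]
  tauto

theorem detach_comm (a b : ℕ) (σ : St) : detach a (detach b σ) = detach b (detach a σ) := by
  apply Setoid.ext
  intro x y
  rw [detach_apply, detach_apply, detach_apply, detach_apply]
  tauto

/-- a general criterion for the equality of detached partitions -/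
theorem detach_congr {a : ℕ} {σ τ : St}
    (h : ∀ x y, x ≠ a → y ≠ a → x ≠ y → (σ x y ↔ τ x y)) : detach a σ = detach a τ := by
  apply Setoid.ext
  intro x y
  rw [detach_apply, detach_apply]
  by_cases hxy : x = y
  · exact ⟨fun _ => Or.inl hxy, fun _ => Or.inl hxy⟩
  · constructor
    · rintro (h0 | ⟨h1, h2, h3⟩)
      · exact Or.inl h0
      · exact Or.inr ⟨h1, h2, (h x y h1 h2 hxy).mp h3⟩
    · rintro (h0 | ⟨h1, h2, h3⟩)
      · exact Or.inl h0
      · exact Or.inr ⟨h1, h2, (h x y h1 h2 hxy).mpr h3⟩

theorem detach_comap_congr {a : ℕ} {f g : ℕ → ℕ} (σ : St) (h : ∀ x, x ≠ a → f x = g x) :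
    detach a (Setoid.comap f σ) = detach a (Setoid.comap g σ) := by
  apply detach_congr
  intro x y hx hy _
  rw [comap_apply f, comap_apply g, h x hx, h y hy]

theorem detach_join {a b c : ℕ} (σ : St) (hb : a ≠ b) (hc : a ≠ c) :
    detach a (join b c σ) = join b c (detach a σ) := by
  apply Setoid.ext
  intro x y
  rw [detach_apply, join_apply, join_apply, detach_apply, detach_apply, detach_apply,
    detach_apply, detach_apply]
  constructor
  · rintro (h | ⟨hx, hy, h | ⟨h1, h2⟩ | ⟨h1, h2⟩⟩)
    · exact Or.inl (Or.inl h)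
    · exact Or.inl (Or.inr ⟨hx, hy, h⟩)
    · exact Or.inr (Or.inl ⟨Or.inr ⟨hx, hb.symm, h1⟩, Or.inr ⟨hc.symm, hy, h2⟩⟩)
    · exact Or.inr (Or.inr ⟨Or.inr ⟨hx, hc.symm, h1⟩, Or.inr ⟨hb.symm, hy, h2⟩⟩)
  · rintro ((h | ⟨hx, hy, h⟩) | ⟨h1, h2⟩ | ⟨h1, h2⟩)
    · exact Or.inl h
    · exact Or.inr ⟨hx, hy, Or.inl h⟩
    · have hx : x ≠ a := by
        rcases h1 with rfl | h1
        · exact hb.symm
        · exact h1.1
      have hy : y ≠ a := by
        rcases h2 with rfl | h2
        · exact hc.symm
        · exact h2.2.1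
      have e1 : σ x b := by
        rcases h1 with rfl | h1
        · exact σ.refl _
        · exact h1.2.2
      have e2 : σ c y := by
        rcases h2 with rfl | h2
        · exact σ.refl _
        · exact h2.2.2
      exact Or.inr ⟨hx, hy, Or.inr (Or.inl ⟨e1, e2⟩)⟩
    · have hx : x ≠ a := by
        rcases h1 with rfl | h1
        · exact hc.symm
        · exact h1.1
      have hy : y ≠ a := by
        rcases h2 with rfl | h2
        · exact hb.symm
        · exact h2.2.1
      have e1 : σ x c := by
        rcases h1 with rfl | h1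
        · exact σ.refl _
        · exact h1.2.2
      have e2 : σ b y := by
        rcases h2 with rfl | h2
        · exact σ.refl _
        · exact h2.2.2
      exact Or.inr ⟨hx, hy, Or.inr (Or.inr ⟨e1, e2⟩)⟩

theorem join_comap (a b : ℕ) (f : ℕ → ℕ) (σ : St) :
    join a b (Setoid.comap f σ) = Setoid.comap f (join (f a) (f b) σ) := by
  apply Setoid.ext
  intro x y
  exact Iff.rfl

theorem detach_comap {a a' : ℕ} {f : ℕ → ℕ} (σ : St) (h : ∀ x, f x = a' ↔ x = a) :
    detach a (Setoid.comap f σ) = Setoid.comap f (detach a' σ) := by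
  apply Setoid.ext
  intro x y
  rw [detach_apply, comap_apply f σ, comap_apply f, detach_apply]
  constructor
  · rintro (rfl | ⟨h1, h2, h3⟩)
    · exact Or.inl rfl
    · exact Or.inr ⟨fun e => h1 ((h x).mp e), fun e => h2 ((h y).mp e), h3⟩
  · rintro (h0 | ⟨h1, h2, h3⟩)
    · by_cases hx : x = a
      · left
        have h4 : f y = a' := by rw [← h0]; exact (h x).mpr hx
        rw [hx, (h y).mp h4]
      · right
        refine ⟨hx, fun hy => hx ?_, ?_⟩
        · exact (h x).mp (h0.trans ((h y).mpr hy))
        · rw [h0]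
    · exact Or.inr ⟨fun e => h1 ((h x).mpr e), fun e => h2 ((h y).mpr e), h3⟩

theorem detach_detach_comap {a a' b : ℕ} {f : ℕ → ℕ} (σ : St)
    (h : ∀ x, x ≠ b → (f x = a' ↔ x = a)) :
    detach b (detach a (Setoid.comap f σ)) = detach b (Setoid.comap f (detach a' σ)) := by
  apply detach_congr
  intro x y hx hy hxy
  rw [detach_apply, comap_apply f σ, comap_apply f, detach_apply]
  constructor
  · rintro (h0 | ⟨h1, h2, h3⟩)
    · exact absurd h0 hxy
    · exact Or.inr ⟨fun e => h1 ((h x hx).mp e), fun e => h2 ((h y hy).mp e), h3⟩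
  · rintro (h0 | ⟨h1, h2, h3⟩)
    · right
      refine ⟨fun e => hxy ?_, fun e => hxy ?_, ?_⟩
      · have h4 : f y = a' := by rw [← h0]; exact (h x hx).mpr e
        rw [e, (h y hy).mp h4]
      · have h4 : f x = a' := by rw [h0]; exact (h y hy).mpr e
        rw [e, (h x hx).mp h4]
      · rw [h0]
    · exact Or.inr ⟨fun e => h1 ((h x hx).mpr e), fun e => h2 ((h y hy).mpr e), h3⟩

theorem comap_detach {a : ℕ} {f : ℕ → ℕ} (σ : St) (h : ∀ x, f x ≠ a) :
    Setoid.comap f (detach a σ) = Setoid.comap f σ := by
  apply Setoid.ext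
  intro x y
  rw [comap_apply f (detach a σ), comap_apply f σ, detach_apply]
  constructor
  · rintro (h0 | h0)
    · rw [h0]
    · exact h0.2.2
  · intro h0
    exact Or.inr ⟨h x, h y, h0⟩

theorem comap_congr {f g : ℕ → ℕ} {τ : St} (h : ∀ x, τ (f x) (g x)) :
    Setoid.comap f τ = Setoid.comap g τ := by
  apply Setoid.ext
  intro x y
  rw [comap_apply f τ, comap_apply g τ]
  constructor
  · intro h0
    exact τ.trans (τ.symm (h x)) (τ.trans h0 (h y))
  · intro h0
    exact τ.trans (h x) (τ.trans h0 (τ.symm (h y)))

theorem comap_congr' {f g : ℕ → ℕ} (τ : St) (h : ∀ x, f x = g x) :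
    Setoid.comap f τ = Setoid.comap g τ :=
  comap_congr fun x => by rw [h x]

theorem comap_self {g : ℕ → ℕ} {τ : St} (h : ∀ x, τ (g x) x) : Setoid.comap g τ = τ :=
  comap_congr (g := fun x => x) h

/-- joining a detached site `a` with `b` -/
theorem join_detach {a b : ℕ} (hab : a ≠ b) (τ : St) :
    join a b (detach a τ) = Setoid.comap (fun x => if x = a then b else x) τ := by
  apply Setoid.ext
  intro x y
  rw [join_apply, detach_apply, detach_apply, detach_apply, detach_apply, detach_apply,
    comap_apply (fun x => if x = a then b else x) τ]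
  by_cases hx : x = a <;> by_cases hy : y = a
  · simp [hx, hy]
  · rw [if_pos hx, if_neg hy]
    constructor
    · rintro ((h | h) | ⟨h1, h2⟩ | ⟨h1, h2⟩)
      · exact absurd (h.symm.trans hx) hy
      · exact absurd hx h.1
      · rcases h2 with rfl | h2
        · exact τ.refl _
        · exact h2.2.2
      · rcases h2 with h2 | h2
        · exact absurd h2.symm hy
        · exact absurd rfl h2.1
    · intro h
      exact Or.inr (Or.inl ⟨Or.inl hx, Or.inr ⟨hab.symm, hy, h⟩⟩)
  · rw [if_neg hx, if_pos hy]
    constructor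
    · rintro ((h | h) | ⟨h1, h2⟩ | ⟨h1, h2⟩)
      · exact absurd (h.trans hy) hx
      · exact absurd hy h.2.1
      · rcases h1 with h1 | h1
        · exact absurd h1 hx
        · exact absurd rfl h1.2.1
      · rcases h1 with rfl | h1
        · exact τ.refl _
        · exact h1.2.2
    · intro h
      exact Or.inr (Or.inr ⟨Or.inr ⟨hx, hab.symm, h⟩, Or.inl hy.symm⟩)
  · rw [if_neg hx, if_neg hy]
    constructor
    · rintro ((h | h) | ⟨h1, h2⟩ | ⟨h1, h2⟩)
      · rw [h]
      · exact h.2.2
      · rcases h1 with h1 | h1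
        · exact absurd h1 hx
        · exact absurd rfl h1.2.1
      · rcases h2 with h2 | h2
        · exact absurd h2.symm hy
        · exact absurd rfl h2.1
    · intro h
      exact Or.inl (Or.inr ⟨hx, hy, h⟩)

theorem detach_join_detach {a b : ℕ} (hab : a ≠ b) (σ : St) :
    detach a (join a b (detach a σ)) = detach a σ := by
  rw [join_detach hab]
  apply detach_congr
  intro x y hx hy _
  rw [comap_apply (fun x => if x = a then b else x) σ, if_neg hx, if_neg hy]

theorem join_detach_join {a b : ℕ} (hab : a ≠ b) (σ : St) :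
    join a b (detach a (join a b σ)) = join a b σ := by
  rw [join_detach hab]
  apply comap_self
  intro x
  by_cases hx : x = a
  · rw [if_pos hx, hx]
    exact (join a b σ).symm (join_rel a b σ)
  · rw [if_neg hx]

/-! ### the maps `act`, `ins`, `del` -/

theorem parity (i : ℕ) : ∃ k, i = 2 * k ∨ i = 2 * k + 1 := ⟨i / 2, by omega⟩

theorem act_even (k : ℕ) (σ : St) : act (2 * k) σ = detach k σ := by
  unfold act
  rw [if_pos (by omega), Nat.mul_div_cancel_left k (by norm_num)]
theorem act_odd (k : ℕ) (σ : St) : act (2 * k + 1) σ = join k (k + 1) σ := by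
  unfold act
  rw [if_neg (by omega), show (2 * k + 1) / 2 = k by omega]

theorem ins_even (k : ℕ) (σ : St) :
    ins (2 * k) σ = detach k (Setoid.comap (unskip k) σ) := by
  unfold ins
  rw [if_pos (by omega), Nat.mul_div_cancel_left k (by norm_num)]
  rfl
theorem ins_odd (k : ℕ) (σ : St) : ins (2 * k + 1) σ = Setoid.comap (unskip (k + 1)) σ := by
  unfold ins
  rw [if_neg (by omega), show (2 * k + 1) / 2 = k by omega]
  apply comap_congr'
  intro x
  unfold coll unskip
  by_cases h : x ≤ k
  · rw [if_pos h, if_pos (by omega)]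
  · rw [if_neg h, if_neg (by omega)]
theorem del_even (k : ℕ) (σ : St) : del (2 * k) σ = Setoid.comap (skip k) σ := by
  unfold del
  rw [if_pos (by omega), Nat.mul_div_cancel_left k (by norm_num)]
theorem del_odd (k : ℕ) (σ : St) :
    del (2 * k + 1) σ = Setoid.comap (skip (k + 1)) (join k (k + 1) σ) := by
  unfold del
  rw [if_neg (by omega), show (2 * k + 1) / 2 = k by omega]

theorem even_add_two (k : ℕ) : 2 * k + 2 = 2 * (k + 1) := by ring
theorem odd_add_one (k : ℕ) : 2 * k + 1 + 1 = 2 * (k + 1) := by ring
theorem odd_add_two (k : ℕ) : 2 * k + 1 + 2 = 2 * (k + 1) + 1 := by ring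

theorem act_act (i : ℕ) (σ : St) : act i (act i σ) = act i σ := by
  obtain ⟨k, rfl | rfl⟩ := parity i
  · rw [act_even, act_even, detach_detach_self]
  · rw [act_odd, act_odd]
    exact join_of_rel (join_rel _ _ _)
theorem act_braid (i : ℕ) (σ : St) : act i (act (i + 1) (act i σ)) = act i σ := by
  obtain ⟨k, rfl | rfl⟩ := parity i
  · rw [act_even, act_odd, act_even]
    exact detach_join_detach (by omega) σ
  · rw [odd_add_one, act_odd, act_even, act_odd, join_comm k (k + 1), join_comm k (k + 1)]
    exact join_detach_join (by omega) σ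
theorem act_braid' (i : ℕ) (σ : St) : act (i + 1) (act i (act (i + 1) σ)) = act (i + 1) σ := by
  obtain ⟨k, rfl | rfl⟩ := parity i
  · rw [act_even, act_odd, act_odd]
    exact join_detach_join (by omega) σ
  · rw [odd_add_one, act_odd, act_even, act_even, join_comm k (k + 1)]
    exact detach_join_detach (by omega) σ
theorem act_comm {i j : ℕ} (h : i + 2 ≤ j) (σ : St) : act i (act j σ) = act j (act i σ) := by
  obtain ⟨k, rfl | rfl⟩ := parity i <;> obtain ⟨l, rfl | rfl⟩ := parity j
  · simp only [act_even]
    exact detach_comm _ _ _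
  · simp only [act_even, act_odd]
    exact detach_join _ (by omega) (by omega)
  · simp only [act_even, act_odd]
    exact (detach_join _ (by omega) (by omega)).symm
  · simp only [act_odd]
    exact join_join_comm _ _ _ _ _

theorem skip_ne (k x : ℕ) : skip k x ≠ k := by
  unfold skip
  split_ifs <;> omega
theorem unskip_skip (k x : ℕ) : unskip k (skip k x) = x := by
  unfold skip unskip
  split_ifs <;> omega
theorem skip_unskip {k x : ℕ} (h : x ≠ k) : skip k (unskip k x) = x := by
  unfold skip unskip
  split_ifs <;> omega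

theorem del_ins (i : ℕ) (σ : St) : del i (ins i σ) = σ := by
  obtain ⟨k, rfl | rfl⟩ := parity i
  · rw [del_even, ins_even, comap_detach _ (skip_ne k), comap_comap]
    apply comap_self
    intro x
    rw [unskip_skip]
  · rw [del_odd, ins_odd, join_comap k (k + 1) (unskip (k + 1)) σ, comap_comap]
    have h1 : unskip (k + 1) k = k := by unfold unskip; rw [if_pos (by omega)]
    have h2 : unskip (k + 1) (k + 1) = k := by unfold unskip; rw [if_neg (by omega)]; omega
    rw [h1, h2, join_of_rel (σ.refl _)]
    apply comap_self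
    intro x
    rw [unskip_skip]
theorem ins_del (i : ℕ) (σ : St) : ins i (del i σ) = act i σ := by
  obtain ⟨k, rfl | rfl⟩ := parity i
  · rw [ins_even, del_even, act_even, comap_comap]
    apply detach_congr
    intro x y hx hy _
    rw [comap_apply (fun x => skip k (unskip k x)) σ, skip_unskip hx, skip_unskip hy]
  · rw [ins_odd, del_odd, act_odd, comap_comap]
    apply comap_self
    intro x
    by_cases hx : x = k + 1
    · rw [hx]
      have h1 : skip (k + 1) (unskip (k + 1) (k + 1)) = k := by
        unfold skip unskip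
        split_ifs <;> omega
      rw [h1]
      exact join_rel _ _ _
    · rw [skip_unskip hx]
theorem act_ins (i : ℕ) (σ : St) : act i (ins i σ) = ins i σ := by
  rw [← ins_del, del_ins]
theorem del_act (i : ℕ) (σ : St) : del i (act i σ) = del i σ := by
  rw [← ins_del, del_ins]
theorem act_succ_ins (i : ℕ) (σ : St) : act (i + 1) (ins i σ) = ins (i + 1) σ := by
  obtain ⟨k, rfl | rfl⟩ := parity i
  · rw [act_odd, ins_even, ins_odd, join_detach (by omega), comap_comap]
    apply comap_congr'
    intro x
    unfold unskip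
    split_ifs <;> omega
  · rw [odd_add_one, act_even, ins_odd, ins_even]
theorem act_ins_succ (i : ℕ) (σ : St) : act i (ins (i + 1) σ) = ins i σ := by
  obtain ⟨k, rfl | rfl⟩ := parity i
  · rw [act_even, ins_odd, ins_even]
    apply detach_comap_congr
    intro x hx
    unfold unskip
    split_ifs <;> omega
  · rw [odd_add_one, act_odd, ins_even, ins_odd, join_comm, join_detach (by omega), comap_comap]
    apply comap_congr'
    intro x
    unfold unskip
    split_ifs <;> omega
theorem del_act_succ (i : ℕ) (σ : St) : del i (act (i + 1) σ) = del (i + 1) σ := by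
  obtain ⟨k, rfl | rfl⟩ := parity i
  · rw [del_even, act_odd, del_odd]
    apply comap_congr
    intro x
    by_cases hx : x = k
    · have h1 : skip k x = k + 1 := by unfold skip; rw [if_neg (by omega)]; omega
      have h2 : skip (k + 1) x = k := by unfold skip; rw [if_pos (by omega)]; omega
      rw [h1, h2]
      exact (join k (k + 1) σ).symm (join_rel _ _ _)
    · have h1 : skip k x = skip (k + 1) x := by
        unfold skip
        split_ifs <;> omega
      rw [h1]
  · rw [odd_add_one, del_odd, act_even, del_even, join_comm, join_detach (by omega), comap_comap]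
    apply comap_congr'
    intro x
    rw [if_neg (skip_ne (k + 1) x)]
theorem del_succ_act (i : ℕ) (σ : St) : del (i + 1) (act i σ) = del i σ := by
  obtain ⟨k, rfl | rfl⟩ := parity i
  · rw [del_odd, act_even, del_even, join_detach (by omega), comap_comap]
    apply comap_congr'
    intro x
    unfold skip
    split_ifs <;> omega
  · rw [odd_add_one, del_odd, act_odd, del_even]
theorem act_ins_lt {i j : ℕ} (h : j + 2 ≤ i) (σ : St) : act j (ins i σ) = ins i (act j σ) := by
  obtain ⟨b, rfl | rfl⟩ := parity i <;> obtain ⟨a, rfl | rfl⟩ := parity j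
  · rw [act_even, act_even, ins_even, ins_even, detach_comm]
    apply detach_detach_comap
    intro x hx
    unfold unskip
    split_ifs <;> omega
  · rw [act_odd, act_odd, ins_even, ins_even, ← detach_join _ (by omega) (by omega),
      join_comap a (a + 1) (unskip b) σ]
    have h1 : unskip b a = a := by unfold unskip; rw [if_pos (by omega)]
    have h2 : unskip b (a + 1) = a + 1 := by unfold unskip; rw [if_pos (by omega)]
    rw [h1, h2]
  · rw [act_even, act_even, ins_odd, ins_odd]
    apply detach_comap
    intro x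
    unfold unskip
    split_ifs <;> omega
  · rw [act_odd, act_odd, ins_odd, ins_odd, join_comap a (a + 1) (unskip (b + 1)) σ]
    have h1 : unskip (b + 1) a = a := by unfold unskip; rw [if_pos (by omega)]
    have h2 : unskip (b + 1) (a + 1) = a + 1 := by unfold unskip; rw [if_pos (by omega)]
    rw [h1, h2]
theorem act_ins_gt {i j : ℕ} (h : i ≤ j) (σ : St) : act (j + 2) (ins i σ) = ins i (act j σ) := by
  obtain ⟨b, rfl | rfl⟩ := parity i <;> obtain ⟨a, rfl | rfl⟩ := parity j
  · rw [even_add_two, act_even, act_even, ins_even, ins_even, detach_comm]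
    apply detach_detach_comap
    intro x hx
    unfold unskip
    split_ifs <;> omega
  · rw [odd_add_two, act_odd, act_odd, ins_even, ins_even, ← detach_join _ (by omega) (by omega),
      join_comap (a + 1) (a + 1 + 1) (unskip b) σ]
    have h1 : unskip b (a + 1) = a := by unfold unskip; rw [if_neg (by omega)]; omega
    have h2 : unskip b (a + 1 + 1) = a + 1 := by unfold unskip; rw [if_neg (by omega)]; omega
    rw [h1, h2]
  · rw [even_add_two, act_even, act_even, ins_odd, ins_odd]
    apply detach_comap
    intro x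
    unfold unskip
    split_ifs <;> omega
  · rw [odd_add_two, act_odd, act_odd, ins_odd, ins_odd,
      join_comap (a + 1) (a + 1 + 1) (unskip (b + 1)) σ]
    have h1 : unskip (b + 1) (a + 1) = a := by unfold unskip; rw [if_neg (by omega)]; omega
    have h2 : unskip (b + 1) (a + 1 + 1) = a + 1 := by unfold unskip; rw [if_neg (by omega)]; omega
    rw [h1, h2]
theorem del_act_lt {i j : ℕ} (h : j + 2 ≤ i) (σ : St) : del i (act j σ) = act j (del i σ) := by
  obtain ⟨b, rfl | rfl⟩ := parity i <;> obtain ⟨a, rfl | rfl⟩ := parity j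
  · rw [act_even, act_even, del_even, del_even]
    symm
    apply detach_comap
    intro x
    unfold skip
    split_ifs <;> omega
  · rw [act_odd, act_odd, del_even, del_even, join_comap a (a + 1) (skip b) σ]
    have h1 : skip b a = a := by unfold skip; rw [if_pos (by omega)]
    have h2 : skip b (a + 1) = a + 1 := by unfold skip; rw [if_pos (by omega)]
    rw [h1, h2]
  · rw [act_even, act_even, del_odd, del_odd, ← detach_join _ (by omega) (by omega)]
    symm
    apply detach_comap
    intro x
    unfold skip
    split_ifs <;> omega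
  · rw [act_odd, act_odd, del_odd, del_odd, join_comap a (a + 1) (skip (b + 1)),
      join_join_comm]
    have h1 : skip (b + 1) a = a := by unfold skip; rw [if_pos (by omega)]
    have h2 : skip (b + 1) (a + 1) = a + 1 := by unfold skip; rw [if_pos (by omega)]
    rw [h1, h2]
theorem del_act_gt {i j : ℕ} (h : i ≤ j) (σ : St) : del i (act (j + 2) σ) = act j (del i σ) := by
  obtain ⟨b, rfl | rfl⟩ := parity i <;> obtain ⟨a, rfl | rfl⟩ := parity j
  · rw [even_add_two, act_even, act_even, del_even, del_even]
    symm
    apply detach_comap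
    intro x
    unfold skip
    split_ifs <;> omega
  · rw [odd_add_two, act_odd, act_odd, del_even, del_even, join_comap a (a + 1) (skip b) σ]
    have h1 : skip b a = a + 1 := by unfold skip; rw [if_neg (by omega)]
    have h2 : skip b (a + 1) = a + 1 + 1 := by unfold skip; rw [if_neg (by omega)]
    rw [h1, h2]
  · rw [even_add_two, act_even, act_even, del_odd, del_odd, ← detach_join _ (by omega) (by omega)]
    symm
    apply detach_comap
    intro x
    unfold skip
    split_ifs <;> omega
  · rw [odd_add_two, act_odd, act_odd, del_odd, del_odd, join_comap a (a + 1) (skip (b + 1)),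
      join_join_comm]
    have h2 : skip (b + 1) (a + 1) = a + 1 + 1 := by unfold skip; rw [if_neg (by omega)]
    rw [h2]
    by_cases hab : a = b
    · have h1 : skip (b + 1) a = b := by unfold skip; rw [if_pos (by omega)]; exact hab
      rw [h1, hab]
      congr 1
      exact (join_congr_left _ (join_rel b (b + 1) σ)).symm
    · have h1 : skip (b + 1) a = a + 1 := by unfold skip; rw [if_neg (by omega)]
      rw [h1]
theorem del_zero_ins (i : ℕ) (σ : St) : del 0 (ins (i + 2) σ) = ins i (del 0 σ) := by
  have hz : ∀ τ : St, del 0 τ = Setoid.comap (skip 0) τ := fun τ => del_even 0 τ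
  rw [hz, hz]
  obtain ⟨b, rfl | rfl⟩ := parity i
  · rw [even_add_two, ins_even, ins_even, comap_comap]
    rw [← detach_comap (a := b) (a' := b + 1) (f := skip 0), comap_comap]
    · apply detach_comap_congr
      intro x hx
      unfold skip unskip
      split_ifs <;> omega
    · intro x
      unfold skip
      split_ifs <;> omega
  · rw [odd_add_two, ins_odd, ins_odd, comap_comap, comap_comap]
    apply comap_congr'
    intro x
    unfold skip unskip
    split_ifs <;> omega
end IP
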