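import Mathlib
/-! MODULE Asymp: asymptotics of the exact strip probability `R n` (exponent `-1/3`). -/
namespace IP
open Finset Real Filter Topology

/-- the value of the strip probability -/
noncomputable def Rr (n : ℕ) : ℝ :=
  3 * (3 * n + 2) / (2 * (3 * n + 1) * (4 * n + 3)) *
    ((∏ j ∈ range (2 * n + 1), (3 * (j : ℝ) + 1)) / ∏ j ∈ range (2 * n), (3 * (j : ℝ) + 2))

theorem Rr_pos (n : ℕ) : 0 < Rr n := by
  unfold Rr
  have h1 : 0 < ∏ j ∈ range (2 * n + 1), (3 * (j : ℝ) + 1) := prod_pos fun j _ => by positivity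
  have h2 : 0 < ∏ j ∈ range (2 * n), (3 * (j : ℝ) + 2) := prod_pos fun j _ => by positivity
  positivity

theorem prod_one (N : ℕ) : ∏ j ∈ range (N + 1), (3 * (j : ℝ) + 1) =
    3 ^ (N + 1) * ∏ j ∈ range (N + 1), (1 / 3 + (j : ℝ)) := by
  rw [← card_range (N + 1), ← prod_const, card_range, ← prod_mul_distrib]
  exact prod_congr rfl fun j _ => by ring

theorem prod_two (N : ℕ) : ∏ j ∈ range (N + 1), (3 * (j : ℝ) + 2) =
    3 ^ (N + 1) * ∏ j ∈ range (N + 1), (2 / 3 + (j : ℝ)) := by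
  rw [← card_range (N + 1), ← prod_const, card_range, ← prod_mul_distrib]
  exact prod_congr rfl fun j _ => by ring

theorem ratio_eq (N : ℕ) (hN : 1 ≤ N) :
    (∏ j ∈ range (N + 1), (3 * (j : ℝ) + 1)) / ∏ j ∈ range N, (3 * (j : ℝ) + 2) =
      (3 * N + 2) * (N : ℝ) ^ (-(1 / 3) : ℝ) * (GammaSeq (2 / 3) N / GammaSeq (1 / 3) N) := by
  have hN' : (0 : ℝ) < N := by exact_mod_cast hN
  have e : ∏ j ∈ range N, (3 * (j : ℝ) + 2) = (∏ j ∈ range (N + 1), (3 * (j : ℝ) + 2)) / (3 * N + 2) := by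
    rw [prod_range_succ, mul_div_assoc, div_self (by positivity), mul_one]
  have h1 : 0 < ∏ j ∈ range (N + 1), (1 / 3 + (j : ℝ)) := prod_pos fun j _ => by positivity
  have h2 : 0 < ∏ j ∈ range (N + 1), (2 / 3 + (j : ℝ)) := prod_pos fun j _ => by positivity
  have hf : (0 : ℝ) < N.factorial := by exact_mod_cast N.factorial_pos
  have hp1 : (0 : ℝ) < (N : ℝ) ^ (1 / 3 : ℝ) := rpow_pos_of_pos hN' _
  have hp2 : (0 : ℝ) < (N : ℝ) ^ (2 / 3 : ℝ) := rpow_pos_of_pos hN' _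
  have hr : (N : ℝ) ^ (-(1 / 3) : ℝ) * (N : ℝ) ^ (2 / 3 : ℝ) = (N : ℝ) ^ (1 / 3 : ℝ) := by
    rw [← rpow_add hN']
    norm_num
  rw [e, prod_one, prod_two]
  unfold GammaSeq
  have h3 : (3 : ℝ) ^ (N + 1) ≠ 0 := by positivity
  have h4 : (3 * (N : ℝ) + 2) ≠ 0 := by positivity
  rw [← hr]
  field_simp

theorem Rr_eq (n : ℕ) (hn : 1 ≤ n) : (n : ℝ) ^ (1 / 3 : ℝ) * Rr n =
    3 * (3 * n + 2) * (6 * n + 2) / (2 * (3 * n + 1) * (4 * n + 3)) * (2 : ℝ) ^ (-(1 / 3) : ℝ) *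
      (GammaSeq (2 / 3) (2 * n) / GammaSeq (1 / 3) (2 * n)) := by
  have hn' : (0 : ℝ) < n := by exact_mod_cast hn
  unfold Rr
  rw [ratio_eq (2 * n) (by omega)]
  have e : ((2 * n : ℕ) : ℝ) ^ (-(1 / 3) : ℝ) = (2 : ℝ) ^ (-(1 / 3) : ℝ) * (n : ℝ) ^ (-(1 / 3) : ℝ) := by
    rw [← mul_rpow (by norm_num) hn'.le]
    push_cast
    rfl
  have e2 : (n : ℝ) ^ (1 / 3 : ℝ) * (n : ℝ) ^ (-(1 / 3) : ℝ) = 1 := by
    rw [← rpow_add hn']
    norm_num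
  rw [e]
  push_cast
  calc _ = ((n : ℝ) ^ (1 / 3 : ℝ) * (n : ℝ) ^ (-(1 / 3) : ℝ)) *
      (3 * (3 * n + 2) * (6 * n + 2) / (2 * (3 * n + 1) * (4 * n + 3)) * (2 : ℝ) ^ (-(1 / 3) : ℝ) *
      (GammaSeq (2 / 3) (2 * n) / GammaSeq (1 / 3) (2 * n))) := by ring
    _ = _ := by rw [e2, one_mul]

/-- the constant -/
noncomputable def Rc : ℝ := 9 / 4 * (2 : ℝ) ^ (-(1 / 3) : ℝ) * (Gamma (2 / 3) / Gamma (1 / 3))

theorem Rc_pos : 0 < Rc := by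
  unfold Rc
  have h1 : 0 < Gamma (2 / 3) := Gamma_pos_of_pos (by norm_num)
  have h2 : 0 < Gamma (1 / 3) := Gamma_pos_of_pos (by norm_num)
  positivity

theorem rat_tendsto : Tendsto (fun n : ℕ => 3 * (3 * (n : ℝ) + 2) * (6 * n + 2) /
    (2 * (3 * n + 1) * (4 * n + 3))) atTop (𝓝 (9 / 4)) := by
  have h0 : Tendsto (fun n : ℕ => ((n : ℝ))⁻¹) atTop (𝓝 0) := tendsto_inv_atTop_nhds_zero_nat
  have h : Tendsto (fun n : ℕ => 3 * (3 + 2 * ((n : ℝ))⁻¹) * (6 + 2 * ((n : ℝ))⁻¹) /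
      (2 * (3 + ((n : ℝ))⁻¹) * (4 + 3 * ((n : ℝ))⁻¹))) atTop
      (𝓝 (3 * (3 + 2 * 0) * (6 + 2 * 0) / (2 * (3 + 0) * (4 + 3 * 0)))) := by
    refine Tendsto.div ?_ ?_ (by norm_num)
    · exact ((h0.const_mul 2).const_add 3).const_mul 3 |>.mul ((h0.const_mul 2).const_add 6)
    · exact ((h0.const_add 3).const_mul 2).mul ((h0.const_mul 3).const_add 4)
  have e : (3 * (3 + 2 * 0) * (6 + 2 * 0) / (2 * (3 + 0) * (4 + 3 * 0)) : ℝ) = 9 / 4 := by norm_num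
  rw [e] at h
  refine h.congr' ?_
  filter_upwards [eventually_ge_atTop 1] with n hn
  have hn' : (0 : ℝ) < n := by exact_mod_cast hn
  field_simp

/-- `R n ~ Rc n^(-1/3)` -/
theorem Rr_tendsto : Tendsto (fun n : ℕ => (n : ℝ) ^ (1 / 3 : ℝ) * Rr n) atTop (𝓝 Rc) := by
  have h2 : Tendsto (fun n : ℕ => 2 * n) atTop atTop := tendsto_id.const_mul_atTop' (by norm_num)
  have hG1 := (GammaSeq_tendsto_Gamma (2 / 3)).comp h2
  have hG2 := (GammaSeq_tendsto_Gamma (1 / 3)).comp h2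
  have hne : Gamma (1 / 3) ≠ 0 := (Gamma_pos_of_pos (by norm_num)).ne'
  have h := (rat_tendsto.mul_const ((2 : ℝ) ^ (-(1 / 3) : ℝ))).mul (hG1.div hG2 hne)
  refine h.congr' ?_
  filter_upwards [eventually_ge_atTop 1] with n hn
  rw [Rr_eq n hn]
  rfl

/-- two-sided bounds -/
theorem Rr_bounds : ∃ c C : ℝ, 0 < c ∧ 0 < C ∧ ∀ n : ℕ, 1 ≤ n →
    c * (n : ℝ) ^ (-(1 / 3) : ℝ) ≤ Rr n ∧ Rr n ≤ C * (n : ℝ) ^ (-(1 / 3) : ℝ) := by
  -- a sequence of positive numbers with a positive limit is bounded above and below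
  have hpos : ∀ n : ℕ, 1 ≤ n → 0 < (n : ℝ) ^ (1 / 3 : ℝ) * Rr n := fun n hn =>
    mul_pos (rpow_pos_of_pos (by exact_mod_cast hn) _) (Rr_pos n)
  have hev : ∀ᶠ n : ℕ in atTop, Rc / 2 < (n : ℝ) ^ (1 / 3 : ℝ) * Rr n ∧
      (n : ℝ) ^ (1 / 3 : ℝ) * Rr n < 2 * Rc := by
    have := Rc_pos
    exact (Rr_tendsto.eventually (lt_mem_nhds (by linarith))).and
      (Rr_tendsto.eventually (gt_mem_nhds (by linarith)))
  obtain ⟨N, hN⟩ := eventually_atTop.1 hev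
  -- minimum and maximum over the finite initial part
  have hfin : ∃ c C : ℝ, 0 < c ∧ 0 < C ∧ ∀ n : ℕ, 1 ≤ n → n < N →
      c ≤ (n : ℝ) ^ (1 / 3 : ℝ) * Rr n ∧ (n : ℝ) ^ (1 / 3 : ℝ) * Rr n ≤ C := by
    clear hN
    induction N with
    | zero => exact ⟨1, 1, one_pos, one_pos, fun n _ h => absurd h (Nat.not_lt_zero n)⟩
    | succ N ih =>
      obtain ⟨c, C, hc, hC, h⟩ := ih
      by_cases hN0 : 1 ≤ N
      · refine ⟨min c ((N : ℝ) ^ (1 / 3 : ℝ) * Rr N), max C ((N : ℝ) ^ (1 / 3 : ℝ) * Rr N),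
          lt_min hc (hpos N hN0), lt_max_of_lt_left hC, ?_⟩
        intro n hn hnN
        rcases Nat.lt_succ_iff_lt_or_eq.1 hnN with h1 | rfl
        · obtain ⟨h2, h3⟩ := h n hn h1
          exact ⟨(min_le_left _ _).trans h2, h3.trans (le_max_left _ _)⟩
        · exact ⟨min_le_right _ _, le_max_right _ _⟩
      · exact ⟨1, 1, one_pos, one_pos, fun n hn hnN => absurd hn (by omega)⟩
  obtain ⟨c, C, hc, hC, h⟩ := hfin
  have hR := Rc_pos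
  refine ⟨min c (Rc / 2), max C (2 * Rc), lt_min hc (by linarith), lt_max_of_lt_left hC, ?_⟩
  intro n hn
  have hn' : (0 : ℝ) < n := by exact_mod_cast hn
  have hb : min c (Rc / 2) ≤ (n : ℝ) ^ (1 / 3 : ℝ) * Rr n ∧
      (n : ℝ) ^ (1 / 3 : ℝ) * Rr n ≤ max C (2 * Rc) := by
    by_cases hnN : n < N
    · obtain ⟨h1, h2⟩ := h n hn hnN
      exact ⟨(min_le_left _ _).trans h1, h2.trans (le_max_left _ _)⟩
    · obtain ⟨h1, h2⟩ := hN n (not_lt.1 hnN)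
      exact ⟨(min_le_right _ _).trans h1.le, h2.le.trans (le_max_right _ _)⟩
  have hp : (0 : ℝ) < (n : ℝ) ^ (-(1 / 3) : ℝ) := rpow_pos_of_pos hn' _
  have e2 : (n : ℝ) ^ (-(1 / 3) : ℝ) * (n : ℝ) ^ (1 / 3 : ℝ) = 1 := by
    rw [← rpow_add hn']
    norm_num
  have e3 : Rr n = (n : ℝ) ^ (-(1 / 3) : ℝ) * ((n : ℝ) ^ (1 / 3 : ℝ) * Rr n) := by
    rw [← mul_assoc, e2, one_mul]
  constructor
  · rw [e3, mul_comm (min c (Rc / 2))]
    exact mul_le_mul_of_nonneg_left hb.1 hp.le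
  · rw [e3, mul_comm (max C (2 * Rc))]
    exact mul_le_mul_of_nonneg_left hb.2 hp.le

end IP
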