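import Pool.Agent.Lead.IP.BasicA
/-! MODULE BasicC: noncrossing partitions and the top state. -/
namespace IP
open Finset

theorem bc_detach_iff (k : ℕ) (σ : St) (x y : ℕ) :
    (detach k σ) x y ↔ (x = y ∨ (x ≠ k ∧ y ≠ k ∧ σ x y)) := Iff.rfl

theorem bc_join_iff (j k : ℕ) (σ : St) (x y : ℕ) :
    (join j k σ) x y ↔ (σ x y ∨ (σ x j ∧ σ k y) ∨ (σ x k ∧ σ j y)) := Iff.rfl

theorem bc_insS_iff (k : ℕ) (σ : St) (x y : ℕ) :
    (insS k σ) x y ↔ (x = y ∨ (x ≠ k ∧ y ≠ k ∧ σ (unskip k x) (unskip k y))) := Iff.rfl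

theorem bc_top_iff (n x y : ℕ) :
    (top n) x y ↔ (x = y ∨ min x n + min y n = n ∨ (n ≤ x ∧ n ≤ y)) := Iff.rfl

theorem bc_NC_between {σ : St} (h : σ ∈ NC) {p q x y : ℕ} (hpx : p < x) (hxq : x < q)
    (hpq : σ p q) (hn : ¬ σ p x) (hxy : σ x y) : p < y ∧ y < q := by
  constructor
  · by_contra hc
    rcases Nat.lt_or_ge y p with h1 | h1
    · have := h y p x q h1 hpx hxq (σ.symm hxy) hpq
      exact hn (σ.trans (σ.symm this) (σ.symm hxy))
    · have : y = p := by omega
      subst this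
      exact hn (σ.symm hxy)
  · by_contra hc
    rcases Nat.lt_or_ge q y with h1 | h1
    · exact hn (h p x q y hpx hxq h1 hpq hxy)
    · have : y = q := by omega
      subst this
      exact hn (σ.trans hpq (σ.symm hxy))

theorem bc_NC_between_join {σ : St} (h : σ ∈ NC) {k p q x y : ℕ} (hpx : p < x) (hxq : x < q)
    (hpq : σ p q) (h1 : ¬ σ p k) (h2 : ¬ σ p (k + 1)) (hx : σ x k ∨ σ x (k + 1))
    (hy : σ y k ∨ σ y (k + 1)) : p < y ∧ y < q := by
  have hk : (p < k ∧ k < q) ∧ (p < k + 1 ∧ k + 1 < q) := by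
    rcases hx with hx | hx
    · have h3 := bc_NC_between h hpx hxq hpq (fun h' => h1 (σ.trans h' hx)) hx
      refine ⟨h3, by omega, ?_⟩
      by_contra hc
      have : k + 1 = q := by omega
      exact h2 (this ▸ hpq)
    · have h3 := bc_NC_between h hpx hxq hpq (fun h' => h2 (σ.trans h' hx)) hx
      refine ⟨⟨?_, by omega⟩, h3⟩
      by_contra hc
      have : p = k := by omega
      subst this
      exact h1 (σ.refl p)
  rcases hy with hy | hy
  · exact bc_NC_between h hk.1.1 hk.1.2 hpq h1 (σ.symm hy)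
  · exact bc_NC_between h hk.2.1 hk.2.2 hpq h2 (σ.symm hy)

theorem bc_detach_NC (k : ℕ) {σ : St} (hσ : σ ∈ NC) : detach k σ ∈ NC := by
  intro a b c d hab hbc hcd h1 h2
  rw [bc_detach_iff] at h1 h2 ⊢
  rcases h1 with h1 | ⟨h1, h1', h1''⟩
  · omega
  rcases h2 with h2 | ⟨h2, h2', h2''⟩
  · omega
  exact Or.inr ⟨h1, h2, hσ a b c d hab hbc hcd h1'' h2''⟩

theorem bc_join_NC (k : ℕ) {σ : St} (hσ : σ ∈ NC) : join k (k + 1) σ ∈ NC := by
  intro a b c d hab hbc hcd h1 h2
  by_cases ha : σ a k ∨ σ a (k + 1)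
  · by_cases hb : σ b k ∨ σ b (k + 1)
    · rw [bc_join_iff]
      rcases ha with ha | ha <;> rcases hb with hb | hb
      · exact Or.inl (σ.trans ha (σ.symm hb))
      · exact Or.inr (Or.inl ⟨ha, σ.symm hb⟩)
      · exact Or.inr (Or.inr ⟨ha, σ.symm hb⟩)
      · exact Or.inl (σ.trans ha (σ.symm hb))
    · exfalso
      have hc : σ c k ∨ σ c (k + 1) := by
        rw [bc_join_iff] at h1
        rcases h1 with h1 | ⟨h1, h1'⟩ | ⟨h1, h1'⟩
        · rcases ha with ha | ha
          · exact Or.inl (σ.trans (σ.symm h1) ha)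
          · exact Or.inr (σ.trans (σ.symm h1) ha)
        · exact Or.inr (σ.symm h1')
        · exact Or.inl (σ.symm h1')
      have hbd : σ b d := by
        rw [bc_join_iff] at h2
        rcases h2 with h2 | ⟨h2, h2'⟩ | ⟨h2, h2'⟩
        · exact h2
        · exact absurd (Or.inl h2) hb
        · exact absurd (Or.inr h2) hb
      have := bc_NC_between_join hσ hbc hcd hbd (fun h => hb (Or.inl h)) (fun h => hb (Or.inr h)) hc ha
      omega
  · have hac : σ a c := by
      rw [bc_join_iff] at h1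
      rcases h1 with h1 | ⟨h1, h1'⟩ | ⟨h1, h1'⟩
      · exact h1
      · exact absurd (Or.inl h1) ha
      · exact absurd (Or.inr h1) ha
    by_cases hb : σ b k ∨ σ b (k + 1)
    · exfalso
      have hd : σ d k ∨ σ d (k + 1) := by
        rw [bc_join_iff] at h2
        rcases h2 with h2 | ⟨h2, h2'⟩ | ⟨h2, h2'⟩
        · rcases hb with hb | hb
          · exact Or.inl (σ.trans (σ.symm h2) hb)
          · exact Or.inr (σ.trans (σ.symm h2) hb)
        · exact Or.inr (σ.symm h2')
        · exact Or.inl (σ.symm h2')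
      have := bc_NC_between_join hσ hab hbc hac (fun h => ha (Or.inl h)) (fun h => ha (Or.inr h)) hb hd
      omega
    · have hbd : σ b d := by
        rw [bc_join_iff] at h2
        rcases h2 with h2 | ⟨h2, h2'⟩ | ⟨h2, h2'⟩
        · exact h2
        · exact absurd (Or.inl h2) hb
        · exact absurd (Or.inr h2) hb
      exact Or.inl (hσ a b c d hab hbc hcd hac hbd)

theorem act_NC (i : ℕ) {σ : St} (hσ : σ ∈ NC) : act i σ ∈ NC := by
  unfold act
  split_ifs
  · exact bc_detach_NC _ hσ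
  · exact bc_join_NC _ hσ

theorem bc_skip_lt {k x y : ℕ} (h : x < y) : skip k x < skip k y := by
  unfold skip
  split_ifs <;> omega

theorem bc_comap_skip_NC (k : ℕ) {σ : St} (hσ : σ ∈ NC) : Setoid.comap (skip k) σ ∈ NC := by
  intro a b c d hab hbc hcd h1 h2
  exact hσ _ _ _ _ (bc_skip_lt hab) (bc_skip_lt hbc) (bc_skip_lt hcd) h1 h2

theorem del_NC (i : ℕ) {σ : St} (hσ : σ ∈ NC) : del i σ ∈ NC := by
  unfold del
  split_ifs
  · exact bc_comap_skip_NC _ hσ
  · exact bc_comap_skip_NC _ (bc_join_NC _ hσ)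

theorem ins_NC (i : ℕ) {σ : St} (hσ : σ ∈ NC) : ins i σ ∈ NC := by
  unfold ins
  split_ifs
  · intro a b c d hab hbc hcd h1 h2
    rw [bc_insS_iff] at h1 h2 ⊢
    rcases h1 with h1 | ⟨h1, h1', h1''⟩
    · omega
    rcases h2 with h2 | ⟨h2, h2', h2''⟩
    · omega
    refine Or.inr ⟨h1, h2, hσ _ _ _ _ ?_ ?_ ?_ h1'' h2''⟩
    · unfold unskip; split_ifs <;> omega
    · unfold unskip; split_ifs <;> omega
    · unfold unskip; split_ifs <;> omega
  · intro a b c d hab hbc hcd h1 h2
    have h1' : σ (coll (i / 2) a) (coll (i / 2) c) := h1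
    have h2' : σ (coll (i / 2) b) (coll (i / 2) d) := h2
    show σ (coll (i / 2) a) (coll (i / 2) b)
    have e1 : coll (i / 2) a ≤ coll (i / 2) b := by unfold coll; split_ifs <;> omega
    have e2 : coll (i / 2) b ≤ coll (i / 2) c := by unfold coll; split_ifs <;> omega
    have e3 : coll (i / 2) c ≤ coll (i / 2) d := by unfold coll; split_ifs <;> omega
    rcases Nat.eq_or_lt_of_le e1 with e1 | e1
    · rw [e1]
    rcases Nat.eq_or_lt_of_le e2 with e2 | e2
    · rw [e2]; exact h1'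
    rcases Nat.eq_or_lt_of_le e3 with e3 | e3
    · rw [← e3] at h2'
      exact σ.trans h1' (σ.symm h2')
    exact hσ _ _ _ _ e1 e2 e3 h1' h2'

theorem top_NC (n : ℕ) : top n ∈ NC := by
  intro a b c d hab hbc hcd h1 h2
  rw [bc_top_iff] at h1 h2 ⊢
  omega

theorem top_W (n : ℕ) : top n ∈ W n := fun _ _ h1 h2 => Or.inr (Or.inr ⟨h1, h2⟩)

/-- the generators different from `n` never produce the top state -/
theorem act_ne_top {n i : ℕ} (hi : i < 2 * n) (hin : i ≠ n) (σ : St) : act i σ ≠ top n := by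
  intro h
  unfold act at h
  split_ifs at h with h0
  · have h1 : (top n) (i / 2) (n - i / 2) := by
      rw [bc_top_iff]; omega
    rw [← h, bc_detach_iff] at h1
    omega
  · have h1 : (join (i / 2) (i / 2 + 1) σ) (i / 2) (i / 2 + 1) := by
      rw [bc_join_iff]
      exact Or.inr (Or.inl ⟨σ.refl _, σ.refl _⟩)
    rw [h, bc_top_iff] at h1
    omega

/-- inserting the innermost arc -/
theorem ins_top (n : ℕ) : ins (n + 1) (top n) = top (n + 1) := by
  unfold ins
  split_ifs with h0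
  · ext x y
    rw [bc_insS_iff, bc_top_iff, bc_top_iff]
    unfold unskip
    split_ifs <;> omega
  · ext x y
    rw [Setoid.comap_rel, bc_top_iff, bc_top_iff]
    unfold coll
    split_ifs <;> omega

theorem ins_eq_top {n : ℕ} {σ : St} (h : ins (n + 1) σ = top (n + 1)) : σ = top n := by
  rw [← del_ins (n + 1) σ, h, ← ins_top n, del_ins]

theorem W_zero {σ : St} (h : σ ∈ W 0) : σ = top 0 := by
  ext x y
  constructor
  · intro _
    exact Or.inr (Or.inr ⟨Nat.zero_le _, Nat.zero_le _⟩)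
  · intro _
    exact h x y (Nat.zero_le _) (Nat.zero_le _)
end IP
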