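import Pool.Agent.Lead.IP.ChainA
/-! MODULE ChainB: the Lagrange form of the coefficients (a product formula, no induction).
Indeed `C = (-4)^(n+1) * s 0 * sin (2 a_0) * ∏_{i<j≤n} s (a_i - a_j) * s (-a_i - a_j)`. -/
namespace IP
open Finset Real

/-- `h x = 2 cos (2π/3 + 2x)`; `h x - h y = -4 s(-x-y) sin(x-y)` -/
noncomputable def hh (x : ℝ) : ℝ := 2 * Real.cos (2 * π / 3 + 2 * x)

theorem hh_sub (x y : ℝ) : hh x - hh y = -4 * (s (-x - y) * Real.sin (x - y)) := by
  have h1 : s (-x - y) = Real.sin (2 * π / 3 + x + y) := by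
    unfold s
    rw [← Real.sin_pi_sub]
    congr 1; ring
  rw [h1]
  unfold hh
  rw [← mul_sub, Real.cos_sub_cos,
    show (2 * π / 3 + 2 * x + (2 * π / 3 + 2 * y)) / 2 = 2 * π / 3 + x + y by ring,
    show (2 * π / 3 + 2 * x - (2 * π / 3 + 2 * y)) / 2 = x - y by ring]
  ring

/-- a product over the first `n + 1` coordinates, with the coordinate `j` split off -/
theorem prod_mv (f : ℝ → ℝ) (a : ℕ → ℝ) (j : ℕ) : ∀ n, j ≤ n →
    (∏ i ∈ range n, f (mv n j a i)) * f (a j) = ∏ i ∈ range (n + 1), f (a i) := by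
  intro n hn
  induction n, hn using Nat.le_induction with
  | base =>
    rw [prod_range_succ]
    congr 1
    apply prod_congr rfl
    intro i hi
    simp only [mem_range] at hi
    simp [mv, hi]
  | succ n hn ih =>
    rw [prod_range_succ (fun i => f (a i)), ← ih, prod_range_succ]
    have h1 : ∀ i ∈ range n, f (mv (n + 1) j a i) = f (mv n j a i) := by
      intro i hi
      simp only [mem_range] at hi
      simp only [mv, hi, if_true, show i < n + 1 by omega]
    have h2 : mv (n + 1) j a n = a (n + 1) := by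
      simp only [mv, show ¬ n < j by omega, if_false, show n < n + 1 by omega, if_true]
    rw [prod_congr rfl h1, h2]
    ring

theorem fL_succ (m : ℕ) (a : ℕ → ℝ) :
    fL (m + 1) a = fL m a * ∏ i ∈ range m, s (a i - a m) * s (-a i - a m) := by
  unfold fL
  rw [prod_range_succ]

theorem fL_congr (m : ℕ) {a b : ℕ → ℝ} (h : ∀ i < m, a i = b i) : fL m a = fL m b := by
  unfold fL
  apply prod_congr rfl
  intro j hj
  simp only [mem_range] at hj
  apply prod_congr rfl
  intro i hi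
  simp only [mem_range] at hi
  rw [h j hj, h i (by omega)]

/-- the product over the pairs, with the coordinate `j` split off -/
theorem fL_split (a : ℕ → ℝ) (j : ℕ) : ∀ n, j ≤ n →
    fL (n + 1) a = fL n (mv n j a) * (∏ k ∈ range j, s (a k - a j) * s (-a k - a j)) *
      ∏ k ∈ Ioc j n, s (a j - a k) * s (-a j - a k) := by
  intro n hn
  induction n, hn using Nat.le_induction with
  | base =>
    rw [fL_succ, Ioc_self, prod_empty, mul_one]
    congr 1
    apply fL_congr
    intro i hi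
    simp [mv, hi]
  | succ n hn ih =>
    rw [fL_succ, ih, fL_succ n (mv (n + 1) j a), prod_Ioc_succ_top (by omega)]
    have h1 : fL n (mv (n + 1) j a) = fL n (mv n j a) := by
      apply fL_congr
      intro i hi
      simp only [mv, hi, if_true, show i < n + 1 by omega]
    have h2 : mv (n + 1) j a n = a (n + 1) := by
      simp only [mv, show ¬ n < j by omega, if_false, show n < n + 1 by omega, if_true]
    have h3 := prod_mv (fun x => s (x - a (n + 1)) * s (-x - a (n + 1))) a j n hn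
    have h4 : (∏ i ∈ range n, s (mv (n + 1) j a i - mv (n + 1) j a n) *
        s (-mv (n + 1) j a i - mv (n + 1) j a n)) =
        ∏ i ∈ range n, s (mv n j a i - a (n + 1)) * s (-mv n j a i - a (n + 1)) := by
      apply prod_congr rfl
      intro i hi
      simp only [mem_range] at hi
      rw [h2]
      simp only [mv, hi, if_true, show i < n + 1 by omega]
    rw [h1, h4, ← h3]
    ring

theorem Ioc_zero_eq (n : ℕ) : Ioc 0 n = Icc 1 n := by
  ext x; simp only [mem_Ioc, mem_Icc]; omega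

/-- the common value -/
noncomputable def KC (n : ℕ) (a : ℕ → ℝ) : ℝ :=
  (-4) ^ (n + 1) * s 0 * Real.sin (2 * a 0) * fL (n + 1) a

theorem s_zero : s 0 = Real.sqrt 3 / 2 := by
  unfold s; rw [add_zero, Real.sin_pi_div_three]

theorem K0_lagrange (n : ℕ) (a : ℕ → ℝ)
    (hg : ∀ k ∈ Icc 1 n, Real.sin (a 0 - a k) ≠ 0) :
    K0 n a * ((hh (a 0) - hh (-a 0)) * ∏ k ∈ Icc 1 n, (hh (a 0) - hh (a k))) = KC n a := by
  have h1 : (∏ k ∈ Icc 1 n, s (a 0 - a k) / Real.sin (a 0 - a k)) *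
      ∏ k ∈ Icc 1 n, (hh (a 0) - hh (a k)) =
      (-4) ^ n * ∏ k ∈ Icc 1 n, s (a 0 - a k) * s (-a 0 - a k) := by
    rw [← prod_mul_distrib]
    have : (-4 : ℝ) ^ n = ∏ k ∈ Icc 1 n, (-4 : ℝ) := by simp
    rw [this, ← prod_mul_distrib]
    apply prod_congr rfl
    intro k hk
    rw [hh_sub]
    have := hg k hk
    field_simp
  have h2 := fL_split a 0 n (Nat.zero_le n)
  rw [range_zero, prod_empty, mul_one, Ioc_zero_eq] at h2
  unfold K0 KC
  rw [h2, hh_sub, show -a 0 - -a 0 = 0 by ring, show a 0 - -a 0 = 2 * a 0 by ring]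
  calc (∏ k ∈ Icc 1 n, s (a 0 - a k) / Real.sin (a 0 - a k)) * fL n (mv n 0 a) *
      (-4 * (s 0 * Real.sin (2 * a 0)) * ∏ k ∈ Icc 1 n, (hh (a 0) - hh (a k)))
      = ((∏ k ∈ Icc 1 n, s (a 0 - a k) / Real.sin (a 0 - a k)) *
      ∏ k ∈ Icc 1 n, (hh (a 0) - hh (a k))) * fL n (mv n 0 a) *
      (-4 * (s 0 * Real.sin (2 * a 0))) := by ring
    _ = _ := by rw [h1]; ring

theorem Kj_lagrange (n : ℕ) (a : ℕ → ℝ) (j : ℕ) (hj : j ∈ Icc 1 n)
    (hg : ∀ k ∈ (Icc 1 n).erase j, Real.sin (a j - a k) ≠ 0)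
    (h1 : Real.sin (a j - a 0) ≠ 0) (h2 : Real.sin (a j + a 0) ≠ 0) :
    Kj n j a * ((hh (a j) - hh (a 0)) * (hh (a j) - hh (-a 0)) *
        ∏ k ∈ (Icc 1 n).erase j, (hh (a j) - hh (a k))) = KC n a := by
  obtain ⟨hj1, hj2⟩ := mem_Icc.1 hj
  have hU : (Icc 1 n).erase j = Ico 1 j ∪ Ioc j n := by
    ext x; simp only [mem_erase, mem_Icc, mem_union, mem_Ico, mem_Ioc]; omega
  have hdis : Disjoint (Ico 1 j) (Ioc j n) := by
    rw [disjoint_left]; intro x; simp only [mem_Ico, mem_Ioc]; omega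
  have hcard : ((Icc 1 n).erase j).card + 1 = n := by
    rw [card_erase_of_mem hj]; simp; omega
  have h3 : ∏ k ∈ (Icc 1 n).erase j, (hh (a j) - hh (a k)) =
      (-4) ^ (n - 1) * (∏ k ∈ (Icc 1 n).erase j, s (-a j - a k)) *
        ∏ k ∈ (Icc 1 n).erase j, Real.sin (a j - a k) := by
    have : (-4 : ℝ) ^ (n - 1) = ∏ k ∈ (Icc 1 n).erase j, (-4 : ℝ) := by
      rw [prod_const]; congr 1; omega
    rw [this, ← prod_mul_distrib, ← prod_mul_distrib]
    apply prod_congr rfl
    intro k _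
    rw [hh_sub]; ring
  have h4 : (∏ k ∈ (Icc 1 n).erase j, s (-a j - a k)) =
      (∏ k ∈ Ico 1 j, s (-a k - a j)) * ∏ k ∈ Ioc j n, s (-a j - a k) := by
    rw [hU, prod_union hdis]
    congr 1
    apply prod_congr rfl
    intro k _
    congr 1; ring
  have h5 : (∏ k ∈ (Icc 1 n).erase j, Real.sin (a j - a k)) ≠ 0 := prod_ne_zero_iff.2 hg
  have h6 : (∏ k ∈ range j, s (a k - a j) * s (-a k - a j)) =
      s (a 0 - a j) * s (-a 0 - a j) * ((∏ k ∈ Ico 1 j, s (a k - a j)) *
        ∏ k ∈ Ico 1 j, s (-a k - a j)) := by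
    rw [← prod_mul_distrib, range_eq_Ico, prod_eq_prod_Ico_succ_bot (by omega)]
  have h7 : (∏ k ∈ Ioc j n, s (a j - a k) * s (-a j - a k)) =
      (∏ k ∈ Ioc j n, s (a j - a k)) * ∏ k ∈ Ioc j n, s (-a j - a k) := prod_mul_distrib
  have hpow : (-4 : ℝ) ^ (n + 1) = (-4) ^ (n - 1) * 16 := by
    obtain ⟨m, rfl⟩ : ∃ m, n = m + 1 := ⟨n - 1, by omega⟩
    rw [Nat.add_sub_cancel]; ring
  unfold KC
  rw [fL_split a j n hj2, h6, h7, hpow, s_zero, h3, h4, hh_sub, hh_sub,
    show a j - -a 0 = a j + a 0 by ring]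
  unfold Kj
  rw [show -a j - -a 0 = a 0 - a j by ring, show -a j - a 0 = -a 0 - a j by ring]
  field_simp
  ring

/-- the coefficients are proportional to the weights of the divided difference at the points
`a 0, -a 0, a 1, ..., a n` (in the variable `hh`) -/
theorem K_lagrange (n : ℕ) (hn : 1 ≤ n) (a : ℕ → ℝ)
    (hg : ∀ i j, i ≤ n → j ≤ n → i ≠ j → Real.sin (a i - a j) ≠ 0 ∧ Real.sin (a i + a j) ≠ 0)
    (h0 : Real.sin (2 * a 0) ≠ 0) :
    ∃ C : ℝ, K0 n a * ((hh (a 0) - hh (-a 0)) * ∏ k ∈ Icc 1 n, (hh (a 0) - hh (a k))) = C ∧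
      -K0 n (ng 0 a) * ((hh (-a 0) - hh (a 0)) * ∏ k ∈ Icc 1 n, (hh (-a 0) - hh (a k))) = C ∧
      ∀ j ∈ Icc 1 n, Kj n j a * ((hh (a j) - hh (a 0)) * (hh (a j) - hh (-a 0)) *
        ∏ k ∈ (Icc 1 n).erase j, (hh (a j) - hh (a k))) = C ∧
      ((∀ i j, i ≤ n → j ≤ n → i < j → s (a i - a j) ≠ 0 ∧ s (-a i - a j) ≠ 0 ∧ s (a i + a j) ≠ 0 ∧
        s (-(a i) + a j) ≠ 0) → C ≠ 0) := by
  refine ⟨KC n a, ?_, ?_, ?_⟩
  · apply K0_lagrange
    intro k hk
    obtain ⟨hk1, hk2⟩ := mem_Icc.1 hk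
    exact (hg 0 k (by omega) hk2 (by omega)).1
  · have h1 := K0_lagrange n (ng 0 a) (by
      intro k hk
      obtain ⟨hk1, hk2⟩ := mem_Icc.1 hk
      have h2 := (hg 0 k (by omega) hk2 (by omega)).2
      have h3 : ng 0 a 0 = -a 0 := by simp [ng]
      have h4 : ng 0 a k = a k := by
        unfold ng; rw [Function.update_of_ne (by omega)]
      rw [h3, h4, show -a 0 - a k = -(a 0 + a k) by ring, Real.sin_neg]
      exact neg_ne_zero.2 h2)
    have h3 : ng 0 a 0 = -a 0 := by simp [ng]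
    have h4 : ∀ k ∈ Icc 1 n, ng 0 a k = a k := by
      intro k hk
      obtain ⟨hk1, hk2⟩ := mem_Icc.1 hk
      unfold ng; rw [Function.update_of_ne (by omega)]
    have h5 : (∏ k ∈ Icc 1 n, (hh (-a 0) - hh (ng 0 a k))) =
        ∏ k ∈ Icc 1 n, (hh (-a 0) - hh (a k)) := by
      apply prod_congr rfl
      intro k hk
      rw [h4 k hk]
    rw [h3, h5, neg_neg] at h1
    have h6 : KC n (ng 0 a) = -KC n a := by
      unfold KC
      rw [h3, show 2 * -a 0 = -(2 * a 0) by ring, Real.sin_neg]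
      have h7 : fL (n + 1) (ng 0 a) = fL (n + 1) a := by
        have e1 := fL_split a 0 n (Nat.zero_le n)
        have e2 := fL_split (ng 0 a) 0 n (Nat.zero_le n)
        rw [range_zero, prod_empty, mul_one, Ioc_zero_eq] at e1 e2
        rw [e1, e2]
        congr 1
        · apply fL_congr
          intro i hi
          simp only [mv, show ¬ i < 0 by omega, if_false, hi, if_true]
          exact h4 (i + 1) (mem_Icc.2 ⟨by omega, by omega⟩)
        · apply prod_congr rfl
          intro k hk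
          rw [h4 k hk, h3, neg_neg]
          ring
      rw [h7]; ring
    rw [h6] at h1
    rw [neg_mul, h1, neg_neg]
  · intro j hj
    obtain ⟨hj1, hj2⟩ := mem_Icc.1 hj
    constructor
    · apply Kj_lagrange n a j hj
      · intro k hk
        obtain ⟨hk1, hk2⟩ := mem_erase.1 hk
        obtain ⟨hk3, hk4⟩ := mem_Icc.1 hk2
        exact (hg j k hj2 hk4 (fun h => hk1 h.symm)).1
      · exact (hg j 0 hj2 (by omega) (by omega)).1
      · exact (hg j 0 hj2 (by omega) (by omega)).2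
    · intro hs
      unfold KC
      have e1 : s 0 ≠ 0 := by rw [s_zero]; positivity
      have e2 : fL (n + 1) a ≠ 0 := by
        unfold fL
        rw [prod_ne_zero_iff]
        intro l hl
        rw [prod_ne_zero_iff]
        intro i hi
        simp only [mem_range] at hl hi
        obtain ⟨q1, q2, -, -⟩ := hs i l (by omega) (by omega) hi
        exact mul_ne_zero q1 q2
      have e3 : ((-4 : ℝ)) ^ (n + 1) ≠ 0 := pow_ne_zero _ (by norm_num)
      exact mul_ne_zero (mul_ne_zero (mul_ne_zero e3 e1) h0) e2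
end IP
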