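import Pool.Agent.Lead.IP.Defs
/-! MODULE ChainA: pure algebra of the divided difference operators `tt`.
Proof: `chain n F a` (with `F = fL n * Γ`) is `Σ_j B_j Γ(mv n j a)`, where
`B_0 = ∏_{k≥1} κ(a_0-a_k) fL n (mv n 0 a)`, `B_1 = κ(a_1-a_0) ∏_{k≥2} κ(a_1-a_k) fL n (mv n 1 a)`, `κ x = s x / sin x`,
`B_j = (√3/2) s(a_1-a_0) fL n (mv n j a) ∏_{2≤k<j} s(a_k-a_j) ∏_{k>j} s(a_j-a_k) / ∏_{k≠j} sin(a_j-a_k)` for `j ≥ 2`
(induction on the length of the chain; the first strands are spectators: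
`fL` factors as (spectator) x (cross factors, which are symmetric) x (rest)); then
`κ(x) - κ(y) = (√3/2) sin(y-x)/(sin x sin y)` and
`s(a_1-a_0) sin(a_j+a_0) - s(a_1+a_0) sin(a_j-a_0) = s(a_1-a_j) sin(2a_0)`. -/
namespace IP
open Finset Real

noncomputable def tt (i : ℕ) (F : (ℕ → ℝ) → ℝ) : (ℕ → ℝ) → ℝ := fun a =>
  (s (a i - a (i + 1)) * F (sw i a) - s (-(a i - a (i + 1))) * F a) / Real.sin (a i - a (i + 1))

/-- `chain k F = tt 0 (tt 1 (... (tt (k-1) F)))` -/
noncomputable def chain : ℕ → ((ℕ → ℝ) → ℝ) → (ℕ → ℝ) → ℝ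
  | 0, F => F
  | k + 1, F => chain k (tt k F)

noncomputable def fL (m : ℕ) (a : ℕ → ℝ) : ℝ :=
  ∏ j ∈ range m, ∏ i ∈ range j, s (a i - a j) * s (-a i - a j)

/-- move the coordinate `j ≤ n` to the place `n` -/
def mv (n j : ℕ) (a : ℕ → ℝ) : ℕ → ℝ :=
  fun i => if i < j then a i else if i < n then a (i + 1) else if i = n then a j else a i

noncomputable def K0 (n : ℕ) (a : ℕ → ℝ) : ℝ :=
  (∏ k ∈ Icc 1 n, s (a 0 - a k) / Real.sin (a 0 - a k)) * fL n (mv n 0 a)

noncomputable def Kj (n j : ℕ) (a : ℕ → ℝ) : ℝ :=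
  Real.sqrt 3 / 2 * Real.sin (2 * a 0) * fL n (mv n j a) * (∏ k ∈ Ico 1 j, s (a k - a j)) *
    (∏ k ∈ Ioc j n, s (a j - a k)) /
    (Real.sin (a j - a 0) * Real.sin (a j + a 0) * ∏ k ∈ (Icc 1 n).erase j, Real.sin (a j - a k))

/-! ### trigonometric identities -/

theorem cA_s_id (a b c j : ℝ) :
    s (c - a) * Real.sin (j - b) - s (c - b) * Real.sin (j - a) =
      s (c - j) * Real.sin (a - b) := by
  unfold s
  have e1 := Real.two_mul_sin_mul_sin (π / 3 + (c - a)) (j - b)
  have e2 := Real.two_mul_sin_mul_sin (π / 3 + (c - b)) (j - a)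
  have e3 := Real.two_mul_sin_mul_sin (π / 3 + (c - j)) (a - b)
  have f1 : π / 3 + (c - a) - (j - b) = π / 3 + (c - j) - (a - b) := by ring
  have f2 : π / 3 + (c - b) - (j - a) = π / 3 + (c - j) + (a - b) := by ring
  have f3 : π / 3 + (c - a) + (j - b) = π / 3 + (c - b) + (j - a) := by ring
  rw [f1, f3] at e1
  rw [f2] at e2
  linarith

theorem cA_kap_sub (x y : ℝ) (hx : Real.sin x ≠ 0) (hy : Real.sin y ≠ 0) :
    s x / Real.sin x - s y / Real.sin y =
      Real.sqrt 3 / 2 * Real.sin (y - x) / (Real.sin x * Real.sin y) := by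
  unfold s
  rw [div_sub_div _ _ hx hy]
  congr 1
  rw [Real.sin_add, Real.sin_add, Real.sin_sub, Real.sin_pi_div_three, Real.cos_pi_div_three]
  ring

/-! ### moving coordinates -/

theorem cA_sw_apply (i : ℕ) (a : ℕ → ℝ) (x : ℕ) :
    sw i a x = if x = i then a (i + 1) else if x = i + 1 then a i else a x := by
  unfold sw
  rw [Equiv.swap_apply_def]
  split_ifs <;> rfl

theorem cA_mv_self (n : ℕ) (a : ℕ → ℝ) : mv n n a = a := by
  funext i
  unfold mv
  split_ifs with h1 h2
  · rfl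
  · rw [h2]
  · rfl

theorem cA_mv_succ (n j : ℕ) (h : j ≤ n) (a : ℕ → ℝ) : mv (n + 1) j a = sw n (mv n j a) := by
  funext i
  rw [cA_sw_apply]
  unfold mv
  by_cases h1 : i < j
  · simp [h1, show ¬ i = n by omega, show ¬ i = n + 1 by omega]
  · by_cases h2 : i < n
    · simp [h1, h2, show ¬ i = n by omega, show ¬ i = n + 1 by omega, show i < n + 1 by omega]
    · by_cases h3 : i = n
      · subst h3
        simp [h1]
      · by_cases h4 : i = n + 1
        · subst h4
          simp [show ¬ n + 1 < j by omega, show ¬ n < j by omega]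
        · simp [h1, h3, h4, h2, show ¬ i < n + 1 by omega]

theorem cA_mv_mem (Dom : Set (ℕ → ℝ)) (hD1 : ∀ i, ∀ a ∈ Dom, sw i a ∈ Dom) (n j : ℕ) (h : j ≤ n)
    (a : ℕ → ℝ) (ha : a ∈ Dom) : mv n j a ∈ Dom := by
  induction n, h using Nat.le_induction with
  | base => rw [cA_mv_self]; exact ha
  | succ n hn ih => rw [cA_mv_succ n j hn]; exact hD1 n _ ih

theorem cA_mv_sw_eq (n k : ℕ) (h : k + 1 ≤ n) (a : ℕ → ℝ) : mv n (k + 1) (sw k a) = mv n k a := by
  funext i
  unfold mv
  simp only [cA_sw_apply]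
  by_cases h1 : i < k
  · simp [h1, show i < k + 1 by omega, show ¬ i = k by omega, show ¬ i = k + 1 by omega]
  · by_cases h2 : i = k
    · subst h2
      simp [show i < n by omega]
    · by_cases h3 : i < n
      · simp [h1, h3, show ¬ i < k + 1 by omega, show ¬ i + 1 = k by omega, h2]
      · by_cases h4 : i = n
        · subst h4
          simp [h1, show ¬ i < k + 1 by omega]
        · simp [h1, h3, h4, show ¬ i < k + 1 by omega, h2, show ¬ i = k + 1 by omega]

theorem cA_mv_sw (n k j : ℕ) (h : k + 1 < j) (a : ℕ → ℝ) :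
    mv n j (sw k a) = sw k (mv n j a) := by
  funext i
  rw [cA_sw_apply]
  unfold mv
  simp only [cA_sw_apply]
  by_cases h1 : i = k
  · subst h1
    simp [show i < j by omega, show i + 1 < j by omega]
  · by_cases h2 : i = k + 1
    · subst h2
      simp [show k + 1 < j by omega, show k < j by omega]
    · simp only [h1, h2, if_false]
      by_cases h3 : i < j
      · simp [h3]
      · simp only [h3, if_false, show ¬ i + 1 = k by omega, show ¬ i + 1 = k + 1 by omega,
          show ¬ j = k by omega, show ¬ j = k + 1 by omega]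

theorem cA_mv_ng (n j : ℕ) (h : 1 ≤ j) (a : ℕ → ℝ) :
    mv n j (ng 0 a) = ng 0 (mv n j a) := by
  funext i
  unfold mv ng
  simp only [Function.update_apply]
  by_cases h1 : i = 0
  · subst h1
    simp [show 0 < j by omega]
  · simp only [h1, if_false, show ¬ i + 1 = 0 by omega, show ¬ j = 0 by omega]

/-! ### the product `fL` -/

theorem cA_fL_succ (m : ℕ) (a : ℕ → ℝ) :
    fL (m + 1) a = fL m a * ∏ i ∈ range m, s (a i - a m) * s (-a i - a m) := by
  unfold fL
  rw [prod_range_succ]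

theorem cA_prod_sw (f : ℝ → ℝ) (a : ℕ → ℝ) (k m : ℕ) (h : k + 1 < m) :
    ∏ i ∈ range m, f (sw k a i) = ∏ i ∈ range m, f (a i) := by
  unfold sw
  apply Finset.prod_equiv (Equiv.swap k (k + 1))
  · intro i
    simp only [mem_range, Equiv.swap_apply_def]
    split_ifs <;> omega
  · intro i _
    rfl

theorem cA_fL_congr (m : ℕ) {a b : ℕ → ℝ} (h : ∀ i < m, a i = b i) : fL m a = fL m b := by
  unfold fL
  apply prod_congr rfl
  intro j hj
  simp only [mem_range] at hj
  apply prod_congr rfl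
  intro i hi
  simp only [mem_range] at hi
  rw [h j hj, h i (by omega)]

theorem cA_fL_sw (n k : ℕ) (h : k + 2 ≤ n) (b : ℕ → ℝ) :
    s (b k - b (k + 1)) * fL n (sw k b) = s (b (k + 1) - b k) * fL n b := by
  induction n, h using Nat.le_induction with
  | base =>
    have e1 : ∀ c : ℕ → ℝ, fL (k + 2) c = fL k c *
        (∏ i ∈ range k, s (c i - c k) * s (-c i - c k)) *
        ((∏ i ∈ range k, s (c i - c (k + 1)) * s (-c i - c (k + 1))) *
          (s (c k - c (k + 1)) * s (-c k - c (k + 1)))) := by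
      intro c
      rw [show k + 2 = (k + 1) + 1 by ring, cA_fL_succ, cA_fL_succ, prod_range_succ]
    have hk : sw k b k = b (k + 1) := by rw [cA_sw_apply]; simp
    have hk1 : sw k b (k + 1) = b k := by rw [cA_sw_apply]; simp
    have hlt : ∀ i < k, sw k b i = b i := by
      intro i hi
      rw [cA_sw_apply]
      simp [show ¬ i = k by omega, show ¬ i = k + 1 by omega]
    have p : ∀ y : ℝ, (∏ i ∈ range k, s (sw k b i - y) * s (-sw k b i - y)) =
        ∏ i ∈ range k, s (b i - y) * s (-b i - y) := by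
      intro y
      apply prod_congr rfl
      intro i hi
      rw [hlt i (mem_range.1 hi)]
    rw [e1 (sw k b), e1 b, hk, hk1, p, p, cA_fL_congr k hlt,
      show -b (k + 1) - b k = -b k - b (k + 1) by ring]
    ring
  | succ n hn ih =>
    rw [cA_fL_succ, cA_fL_succ]
    have h1 : sw k b n = b n := by
      rw [cA_sw_apply]
      simp [show ¬ n = k by omega, show ¬ n = k + 1 by omega]
    rw [h1, cA_prod_sw (fun x => s (x - b n) * s (-x - b n)) b k n (by omega), ← mul_assoc, ih,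
      mul_assoc]

theorem cA_fL_ng (n : ℕ) (b : ℕ → ℝ) : fL n (ng 0 b) = fL n b := by
  unfold fL
  apply prod_congr rfl
  intro j _
  apply prod_congr rfl
  intro i hi
  simp only [mem_range] at hi
  have hj : ng 0 b j = b j := by unfold ng; rw [Function.update_of_ne (by omega)]
  rw [hj]
  by_cases h : i = 0
  · subst h
    have h0 : ng 0 b 0 = -b 0 := by simp [ng]
    rw [h0, neg_neg]; ring
  · have hi : ng 0 b i = b i := by unfold ng; rw [Function.update_of_ne h]
    rw [hi]

/-! ### the coefficients -/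

noncomputable def cAth (k j : ℕ) (a : ℕ → ℝ) : ℝ :=
  if j = k then 1 else if j = k + 1 then s (a j - a k) / Real.sin (a j - a k) else
    Real.sqrt 3 / 2 * s (a (k + 1) - a k) * (∏ l ∈ Ico (k + 2) j, s (a l - a j)) /
      ∏ l ∈ Ico k j, Real.sin (a j - a l)

noncomputable def cAB (n k j : ℕ) (a : ℕ → ℝ) : ℝ :=
  cAth k j a * (∏ l ∈ Ioc j n, s (a j - a l) / Real.sin (a j - a l)) * fL n (mv n j a)

def cAGen (k n : ℕ) (a : ℕ → ℝ) : Prop :=
  ∀ i j, k ≤ i → k ≤ j → i ≤ n → j ≤ n → i ≠ j → Real.sin (a i - a j) ≠ 0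

theorem cA_th_rec (k j : ℕ) (hj : k + 1 < j) (a : ℕ → ℝ)
    (hg : ∀ i, k ≤ i → i < j → Real.sin (a j - a i) ≠ 0) (h0 : Real.sin (a k - a (k + 1)) ≠ 0) :
    s (a (k + 1) - a k) * (cAth (k + 1) j (sw k a) - cAth (k + 1) j a) /
      Real.sin (a k - a (k + 1)) = cAth k j a := by
  have swj : sw k a j = a j := by
    rw [cA_sw_apply]; simp [show ¬ j = k by omega, show ¬ j = k + 1 by omega]
  have swk1 : sw k a (k + 1) = a k := by rw [cA_sw_apply]; simp
  have gk := hg k le_rfl (by omega)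
  have gk1 := hg (k + 1) (by omega) (by omega)
  by_cases h2 : j = k + 2
  · subst h2
    have e1 : cAth (k + 1) (k + 2) (sw k a) = s (a (k + 2) - a k) / Real.sin (a (k + 2) - a k) := by
      unfold cAth
      simp only [show ¬ k + 2 = k + 1 by omega, if_false, show k + 2 = k + 1 + 1 by rfl, if_true]
      rw [show sw k a (k + 1 + 1) = a (k + 2) from swj, swk1]
    have e2 : cAth (k + 1) (k + 2) a =
        s (a (k + 2) - a (k + 1)) / Real.sin (a (k + 2) - a (k + 1)) := by
      unfold cAth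
      simp only [show ¬ k + 2 = k + 1 by omega, if_false, show k + 2 = k + 1 + 1 by rfl, if_true]
    have e3 : cAth k (k + 2) a = Real.sqrt 3 / 2 * s (a (k + 1) - a k) /
        (Real.sin (a (k + 2) - a k) * Real.sin (a (k + 2) - a (k + 1))) := by
      unfold cAth
      simp only [show ¬ k + 2 = k by omega, show ¬ k + 2 = k + 1 by omega, if_false, Ico_self,
        prod_empty, mul_one]
      congr 1
      rw [prod_Ico_succ_top (by omega), prod_Ico_succ_top (by omega), Ico_self, prod_empty, one_mul]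
    rw [e1, e2, e3, cA_kap_sub _ _ gk gk1,
      show a (k + 2) - a (k + 1) - (a (k + 2) - a k) = a k - a (k + 1) by ring]
    field_simp
  · have h3 : k + 2 < j := by omega
    have swl : ∀ l, k + 2 ≤ l → sw k a l = a l := by
      intro l hl
      rw [cA_sw_apply]; simp [show ¬ l = k by omega, show ¬ l = k + 1 by omega]
    have gj : ∏ l ∈ Ico (k + 2) j, Real.sin (a j - a l) ≠ 0 := by
      rw [prod_ne_zero_iff]
      intro l hl
      rw [mem_Ico] at hl
      exact hg l (by omega) hl.2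
    have e1 : cAth (k + 1) j (sw k a) = Real.sqrt 3 / 2 * s (a (k + 2) - a k) *
        (∏ l ∈ Ico (k + 3) j, s (a l - a j)) /
          (Real.sin (a j - a k) * ∏ l ∈ Ico (k + 2) j, Real.sin (a j - a l)) := by
      unfold cAth
      simp only [show ¬ j = k + 1 by omega, show ¬ j = k + 1 + 1 by omega, if_false]
      rw [prod_eq_prod_Ico_succ_bot (show k + 1 < j by omega), swj, swk1, swl (k + 1 + 1) (by omega)]
      congr 1
      · congr 1
        apply prod_congr rfl
        intro l hl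
        rw [mem_Ico] at hl
        rw [swl l (by omega)]
      · congr 1
        apply prod_congr rfl
        intro l hl
        rw [mem_Ico] at hl
        rw [swl l (by omega)]
    have e2 : cAth (k + 1) j a = Real.sqrt 3 / 2 * s (a (k + 2) - a (k + 1)) *
        (∏ l ∈ Ico (k + 3) j, s (a l - a j)) /
          (Real.sin (a j - a (k + 1)) * ∏ l ∈ Ico (k + 2) j, Real.sin (a j - a l)) := by
      unfold cAth
      simp only [show ¬ j = k + 1 by omega, show ¬ j = k + 1 + 1 by omega, if_false]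
      rw [prod_eq_prod_Ico_succ_bot (show k + 1 < j by omega)]
    have e3 : cAth k j a = Real.sqrt 3 / 2 * s (a (k + 1) - a k) *
        (s (a (k + 2) - a j) * ∏ l ∈ Ico (k + 3) j, s (a l - a j)) /
          (Real.sin (a j - a k) * (Real.sin (a j - a (k + 1)) *
            ∏ l ∈ Ico (k + 2) j, Real.sin (a j - a l))) := by
      unfold cAth
      simp only [show ¬ j = k by omega, show ¬ j = k + 1 by omega, if_false]
      rw [prod_eq_prod_Ico_succ_bot (show k < j by omega),
        prod_eq_prod_Ico_succ_bot (show k + 1 < j by omega),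
        prod_eq_prod_Ico_succ_bot (show k + 2 < j by omega) (fun l => s (a l - a j))]
    have key := cA_s_id (a k) (a (k + 1)) (a (k + 2)) (a j)
    rw [e1, e2, e3]
    generalize (∏ l ∈ Ico (k + 3) j, s (a l - a j)) = P3 at *
    generalize (∏ l ∈ Ico (k + 2) j, Real.sin (a j - a l)) = Q at *
    generalize Real.sqrt 3 / 2 = r at *
    rw [div_eq_div_iff h0 (mul_ne_zero gk (mul_ne_zero gk1 gj))]
    field_simp
    linear_combination (r * P3 * s (a (k + 1) - a k)) * key

theorem cA_sum_split (k n : ℕ) (h : k ≤ n) (f : ℕ → ℝ) :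
    ∑ j ∈ Icc k n, f j = f k + ∑ j ∈ Icc (k + 1) n, f j := by
  rw [show Icc (k + 1) n = Ioc k n from by ext x; simp only [mem_Icc, mem_Ioc]; omega,
    add_sum_Ioc_eq_sum_Icc h]

theorem cA_step (n k : ℕ) (hk : k + 1 ≤ n) (Dom : Set (ℕ → ℝ))
    (hD1 : ∀ i, ∀ a ∈ Dom, sw i a ∈ Dom) (Γ G : (ℕ → ℝ) → ℝ)
    (h1 : ∀ i, i + 1 < n → ∀ a ∈ Dom, Γ (sw i a) = Γ a)
    (hG : ∀ a ∈ Dom, cAGen (k + 1) n a →
      G a = ∑ j ∈ Icc (k + 1) n, cAB n (k + 1) j a * Γ (mv n j a))
    (a : ℕ → ℝ) (ha : a ∈ Dom) (hg : cAGen k n a) :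
    tt k G a = ∑ j ∈ Icc k n, cAB n k j a * Γ (mv n j a) := by
  have hg1 : cAGen (k + 1) n a := fun i j hi hj hin hjn hij =>
    hg i j (by omega) (by omega) hin hjn hij
  have swk1 : sw k a (k + 1) = a k := by rw [cA_sw_apply]; simp
  have swl : ∀ l, k + 2 ≤ l → sw k a l = a l := by
    intro l hl
    rw [cA_sw_apply]; simp [show ¬ l = k by omega, show ¬ l = k + 1 by omega]
  have hg2 : cAGen (k + 1) n (sw k a) := by
    intro i j hi hj hin hjn hij
    by_cases h3 : i = k + 1
    · subst h3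
      rw [swk1, swl j (by omega)]
      exact hg k j (by omega) (by omega) (by omega) hjn (by omega)
    · rw [swl i (by omega)]
      by_cases h4 : j = k + 1
      · subst h4
        rw [swk1]
        exact hg i k (by omega) (by omega) hin (by omega) (by omega)
      · rw [swl j (by omega)]
        exact hg i j (by omega) (by omega) hin hjn hij
  have h0 : Real.sin (a k - a (k + 1)) ≠ 0 :=
    hg k (k + 1) le_rfl (by omega) (by omega) hk (by omega)
  unfold tt
  rw [hG a ha hg1, hG (sw k a) (hD1 k a ha) hg2, cA_sum_split (k + 1) n hk,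
    cA_sum_split (k + 1) n hk, cA_sum_split k n (by omega) (fun j => cAB n k j a * Γ (mv n j a)),
    cA_sum_split (k + 1) n hk (fun j => cAB n k j a * Γ (mv n j a)), cA_mv_sw_eq n k hk]
  -- the three kinds of coefficients
  have L1 : s (a k - a (k + 1)) / Real.sin (a k - a (k + 1)) * cAB n (k + 1) (k + 1) (sw k a) =
      cAB n k k a := by
    unfold cAB
    rw [cA_mv_sw_eq n k hk, swk1]
    have t1 : cAth (k + 1) (k + 1) (sw k a) = 1 := by unfold cAth; simp
    have t2 : cAth k k a = 1 := by unfold cAth; simp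
    have t3 : (∏ l ∈ Ioc k n, s (a k - a l) / Real.sin (a k - a l)) =
        s (a k - a (k + 1)) / Real.sin (a k - a (k + 1)) *
          ∏ l ∈ Ioc (k + 1) n, s (a k - a l) / Real.sin (a k - a l) := by
      rw [show Ioc k n = insert (k + 1) (Ioc (k + 1) n) from by
        ext x; simp only [mem_Ioc, mem_insert]; omega, prod_insert (by simp)]
    have t4 : (∏ l ∈ Ioc (k + 1) n, s (a k - sw k a l) / Real.sin (a k - sw k a l)) =
        ∏ l ∈ Ioc (k + 1) n, s (a k - a l) / Real.sin (a k - a l) := by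
      apply prod_congr rfl
      intro l hl
      rw [mem_Ioc] at hl
      rw [swl l (by omega)]
    rw [t1, t2, t3, t4]
    ring
  have L2 : -(s (-(a k - a (k + 1))) / Real.sin (a k - a (k + 1)) * cAB n (k + 1) (k + 1) a) =
      cAB n k (k + 1) a := by
    unfold cAB
    have t1 : cAth (k + 1) (k + 1) a = 1 := by unfold cAth; simp
    have t2 : cAth k (k + 1) a = s (a (k + 1) - a k) / Real.sin (a (k + 1) - a k) := by
      unfold cAth; simp
    rw [t1, t2, neg_sub, show a (k + 1) - a k = -(a k - a (k + 1)) by ring, Real.sin_neg, div_neg]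
    ring
  have L3 : ∀ j ∈ Icc (k + 1 + 1) n,
      (s (a k - a (k + 1)) * (cAB n (k + 1) j (sw k a) * Γ (mv n j (sw k a))) -
        s (-(a k - a (k + 1))) * (cAB n (k + 1) j a * Γ (mv n j a))) /
          Real.sin (a k - a (k + 1)) = cAB n k j a * Γ (mv n j a) := by
    intro j hj
    rw [mem_Icc] at hj
    have hm := cA_mv_sw n k j (by omega) a
    have hmem := cA_mv_mem Dom hD1 n j hj.2 a ha
    rw [hm, h1 k (by omega) _ hmem]
    have mk : mv n j a k = a k := by unfold mv; simp [show k < j by omega]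
    have mk1 : mv n j a (k + 1) = a (k + 1) := by unfold mv; simp [show k + 1 < j by omega]
    have hf := cA_fL_sw n k (by omega) (mv n j a)
    rw [mk, mk1] at hf
    have hrec := cA_th_rec k j (by omega) a
      (fun i hi hij => hg j i (by omega) hi hj.2 (by omega) (by omega)) h0
    unfold cAB
    rw [hm, swl j (by omega)]
    have t4 : (∏ l ∈ Ioc j n, s (a j - sw k a l) / Real.sin (a j - sw k a l)) =
        ∏ l ∈ Ioc j n, s (a j - a l) / Real.sin (a j - a l) := by
      apply prod_congr rfl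
      intro l hl
      rw [mem_Ioc] at hl
      rw [swl l (by omega)]
    rw [t4, neg_sub, ← hrec]
    field_simp
    linear_combination (cAth (k + 1) j (sw k a) *
      (∏ l ∈ Ioc j n, s (a j - a l) / Real.sin (a j - a l)) * Γ (mv n j a)) * hf
  rw [← sum_congr rfl L3, ← L1, ← L2, ← sum_div, sum_sub_distrib, ← mul_sum, ← mul_sum]
  field_simp
  ring

theorem cA_chain (n : ℕ) (Dom : Set (ℕ → ℝ))
    (hD1 : ∀ i, ∀ a ∈ Dom, sw i a ∈ Dom) (Γ : (ℕ → ℝ) → ℝ)
    (h1 : ∀ i, i + 1 < n → ∀ a ∈ Dom, Γ (sw i a) = Γ a) (k : ℕ) (hk : k ≤ n) :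
    ∀ G : (ℕ → ℝ) → ℝ, (∀ a ∈ Dom, cAGen k n a →
      G a = ∑ j ∈ Icc k n, cAB n k j a * Γ (mv n j a)) →
    ∀ a ∈ Dom, cAGen 0 n a →
      chain k G a = ∑ j ∈ Icc 0 n, cAB n 0 j a * Γ (mv n j a) := by
  induction k with
  | zero => intro G hG a ha hg; exact hG a ha hg
  | succ k ih =>
    intro G hG a ha hg
    show chain k (tt k G) a = _
    exact ih (by omega) (tt k G) (fun a ha hg => cA_step n k hk Dom hD1 Γ G h1 hG a ha hg) a ha hg

theorem cA_chain_eq (n : ℕ) (Dom : Set (ℕ → ℝ))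
    (hD1 : ∀ i, ∀ a ∈ Dom, sw i a ∈ Dom) (Γ : (ℕ → ℝ) → ℝ)
    (h1 : ∀ i, i + 1 < n → ∀ a ∈ Dom, Γ (sw i a) = Γ a) (a : ℕ → ℝ) (ha : a ∈ Dom)
    (hg : cAGen 0 n a) :
    chain n (fun a => fL n a * Γ a) a = ∑ j ∈ Icc 0 n, cAB n 0 j a * Γ (mv n j a) := by
  apply cA_chain n Dom hD1 Γ h1 n le_rfl _ _ a ha hg
  intro a _ _
  rw [Icc_self, sum_singleton]
  unfold cAB
  rw [cA_mv_self, Ioc_self, prod_empty]
  unfold cAth
  simp

theorem chain_diff (n : ℕ) (hn : 1 ≤ n) (Dom : Set (ℕ → ℝ)) (hD1 : ∀ i, ∀ a ∈ Dom, sw i a ∈ Dom)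
    (hD2 : ∀ i, ∀ a ∈ Dom, ng i a ∈ Dom) (Γ : (ℕ → ℝ) → ℝ)
    (h1 : ∀ i, i + 1 < n → ∀ a ∈ Dom, Γ (sw i a) = Γ a) (h2 : ∀ j < n, ∀ a ∈ Dom, Γ (ng j a) = Γ a)
    (a : ℕ → ℝ) (ha : a ∈ Dom)
    (hg : ∀ i j, i ≤ n → j ≤ n → i ≠ j → Real.sin (a i - a j) ≠ 0 ∧ Real.sin (a i + a j) ≠ 0) :
    chain n (fun a => fL n a * Γ a) a - chain n (fun a => fL n a * Γ a) (ng 0 a) =
      K0 n a * Γ (mv n 0 a) - K0 n (ng 0 a) * Γ (mv n 0 (ng 0 a)) +
        ∑ j ∈ Icc 1 n, Kj n j a * Γ (mv n j a) := by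
  have n0 : ng 0 a 0 = -a 0 := by simp [ng]
  have nl : ∀ l, 1 ≤ l → ng 0 a l = a l := by
    intro l hl; unfold ng; rw [Function.update_of_ne (by omega)]
  have hg1 : cAGen 0 n a := fun i j _ _ hi hj hij => (hg i j hi hj hij).1
  have hg2 : cAGen 0 n (ng 0 a) := by
    intro i j _ _ hi hj hij
    by_cases h3 : i = 0
    · subst h3
      rw [n0, nl j (by omega), show -a 0 - a j = -(a 0 + a j) by ring, Real.sin_neg]
      exact neg_ne_zero.2 (hg 0 j hi hj hij).2
    · rw [nl i (by omega)]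
      by_cases h4 : j = 0
      · subst h4
        rw [n0, sub_neg_eq_add]
        exact (hg i 0 hi hj hij).2
      · rw [nl j (by omega)]
        exact (hg i j hi hj hij).1
  rw [cA_chain_eq n Dom hD1 Γ h1 a ha hg1, cA_chain_eq n Dom hD1 Γ h1 (ng 0 a) (hD2 0 a ha) hg2,
    cA_sum_split 0 n (by omega), cA_sum_split 0 n (by omega)]
  have B0 : ∀ b : ℕ → ℝ, cAB n 0 0 b = K0 n b := by
    intro b
    unfold cAB K0
    rw [show Ioc 0 n = Icc 1 n from by ext x; simp only [mem_Icc, mem_Ioc]; omega]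
    unfold cAth
    simp
  have L : ∀ j ∈ Icc (0 + 1) n, cAB n 0 j a * Γ (mv n j a) -
      cAB n 0 j (ng 0 a) * Γ (mv n j (ng 0 a)) = Kj n j a * Γ (mv n j a) := by
    intro j hj
    rw [mem_Icc] at hj
    have hmem := cA_mv_mem Dom hD1 n j hj.2 a ha
    rw [cA_mv_ng n j (by omega), h2 0 (by omega) _ hmem, ← sub_mul]
    congr 1
    unfold cAB Kj
    rw [cA_mv_ng n j (by omega), cA_fL_ng, nl j (by omega)]
    have t4 : (∏ l ∈ Ioc j n, s (a j - ng 0 a l) / Real.sin (a j - ng 0 a l)) =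
        ∏ l ∈ Ioc j n, s (a j - a l) / Real.sin (a j - a l) := by
      apply prod_congr rfl
      intro l hl
      rw [mem_Ioc] at hl
      rw [nl l (by omega)]
    have g0 := (hg j 0 hj.2 (by omega) (by omega)).1
    have g0' := (hg j 0 hj.2 (by omega) (by omega)).2
    have gA : (∏ l ∈ Ioc j n, Real.sin (a j - a l)) ≠ 0 := by
      rw [prod_ne_zero_iff]
      intro l hl
      rw [mem_Ioc] at hl
      exact (hg j l hj.2 hl.2 (by omega)).1
    have gB : (∏ l ∈ Ico 1 j, Real.sin (a j - a l)) ≠ 0 := by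
      rw [prod_ne_zero_iff]
      intro l hl
      rw [mem_Ico] at hl
      exact (hg j l hj.2 (by omega) (by omega)).1
    have hE : (∏ k ∈ (Icc 1 n).erase j, Real.sin (a j - a k)) =
        (∏ l ∈ Ico 1 j, Real.sin (a j - a l)) * ∏ l ∈ Ioc j n, Real.sin (a j - a l) := by
      rw [show (Icc 1 n).erase j = Ico 1 j ∪ Ioc j n from by
        ext x; simp only [mem_erase, mem_Icc, mem_union, mem_Ico, mem_Ioc]; omega, prod_union]
      rw [disjoint_left]; intro x; simp only [mem_Ico, mem_Ioc]; omega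
    have hth : cAth 0 j a - cAth 0 j (ng 0 a) = Real.sqrt 3 / 2 * Real.sin (2 * a 0) *
        (∏ l ∈ Ico 1 j, s (a l - a j)) /
          (Real.sin (a j - a 0) * Real.sin (a j + a 0) * ∏ l ∈ Ico 1 j, Real.sin (a j - a l)) := by
      by_cases hj1 : j = 1
      · subst hj1
        unfold cAth
        simp only [show ¬ (1 : ℕ) = 0 by omega, if_false, zero_add, if_true, Ico_self, prod_empty,
          mul_one]
        rw [n0, nl 1 le_rfl, sub_neg_eq_add, cA_kap_sub _ _ g0 g0',
          show a 1 + a 0 - (a 1 - a 0) = 2 * a 0 by ring]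
      · unfold cAth
        simp only [show ¬ j = 0 by omega, show ¬ j = 0 + 1 by omega, if_false, zero_add]
        rw [n0, nl 1 le_rfl, nl j (by omega), sub_neg_eq_add,
          prod_eq_prod_Ico_succ_bot (show 0 < j by omega) (fun l => Real.sin (a j - a l)),
          prod_eq_prod_Ico_succ_bot (show 0 < j by omega) (fun l => Real.sin (a j - ng 0 a l)),
          prod_eq_prod_Ico_succ_bot (show 1 < j by omega) (fun l => s (a l - a j)), n0,
          sub_neg_eq_add, zero_add]
        have u1 : (∏ l ∈ Ico 2 j, s (ng 0 a l - a j)) = ∏ l ∈ Ico 2 j, s (a l - a j) := by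
          apply prod_congr rfl
          intro l hl
          rw [mem_Ico] at hl
          rw [nl l (by omega)]
        have u2 : (∏ l ∈ Ico 1 j, Real.sin (a j - ng 0 a l)) =
            ∏ l ∈ Ico 1 j, Real.sin (a j - a l) := by
          apply prod_congr rfl
          intro l hl
          rw [mem_Ico] at hl
          rw [nl l (by omega)]
        rw [u1, u2]
        have key := cA_s_id (a 0) (-a 0) (a 1) (a j)
        rw [sub_neg_eq_add, sub_neg_eq_add, sub_neg_eq_add,
          show a 0 + a 0 = 2 * a 0 by ring] at key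
        generalize Real.sqrt 3 / 2 = r at *
        generalize (∏ l ∈ Ico (1 + 1) j, s (a l - a j)) = P at *
        generalize Real.sin (2 * a 0) = S2 at *
        field_simp
        linear_combination (r * P) * key
    rw [t4, hE, ← sub_mul, ← sub_mul, hth, prod_div_distrib]
    field_simp
  have hs : (∑ j ∈ Icc (0 + 1) n, cAB n 0 j a * Γ (mv n j a)) -
      ∑ j ∈ Icc (0 + 1) n, cAB n 0 j (ng 0 a) * Γ (mv n j (ng 0 a)) =
      ∑ j ∈ Icc 1 n, Kj n j a * Γ (mv n j a) := by
    rw [← sum_sub_distrib]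
    exact sum_congr rfl L
  rw [B0, B0, ← hs]
  ring
end IP
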