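import Pool.Agent.Lead.IP.Exch
/-! MODULE Cyclic: all coordinates of noncrossing states are generated from the top coordinate.

Every state is coded by the word `cycWd σ` (the Dyck path of the link pattern: letter `2x` says that
`x` is the smallest element of its block, letter `2x+1` that `x` is not the largest one).  A
generator either performs an increasing move (`CycInc`), which increases the cycCode in the
lexicographic order and has a unique preimage of this kind, or it does not increase the cycCode. -/
namespace IP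
open Finset

/-- letters of the word of a state -/
def cycWd (σ : St) (j : ℕ) : Prop :=
  if j % 2 = 0 then ∀ y < j / 2, ¬ σ y (j / 2) else ∃ y, j / 2 < y ∧ σ (j / 2) y

theorem cyc_wd_even (σ : St) (x : ℕ) : cycWd σ (2 * x) ↔ ∀ y < x, ¬ σ y x := by
  have h1 : (2 * x) % 2 = 0 := by omega
  have h2 : 2 * x / 2 = x := by omega
  unfold cycWd
  rw [if_pos h1, h2]

theorem cyc_wd_odd (σ : St) (x : ℕ) : cycWd σ (2 * x + 1) ↔ ∃ y, x < y ∧ σ x y := by
  have h1 : (2 * x + 1) % 2 ≠ 0 := by omega
  have h2 : (2 * x + 1) / 2 = x := by omega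
  unfold cycWd
  rw [if_neg h1, h2]

theorem cyc_detach_iff (k : ℕ) (σ : St) (x y : ℕ) :
    (detach k σ) x y ↔ x = y ∨ (x ≠ k ∧ y ≠ k ∧ σ x y) := Iff.rfl

theorem cyc_join_iff (j k : ℕ) (σ : St) (x y : ℕ) :
    (join j k σ) x y ↔ σ x y ∨ (σ x j ∧ σ k y) ∨ (σ x k ∧ σ j y) := Iff.rfl

/-- lexicographic comparison of the words -/
def cycLT (n : ℕ) (τ σ : St) : Prop :=
  ∃ J ≤ 2 * n + 1, (∀ j < J, cycWd τ j → cycWd σ j) ∧ ∃ j < J, cycWd σ j ∧ ¬ cycWd τ j

open Classical in
/-- the cycCode of a state -/
noncomputable def cycCode (n : ℕ) (σ : St) : Lex (Fin (2 * n + 1) → Bool) :=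
  toLex (fun j => decide (cycWd σ j))

theorem cyc_code_lt {n : ℕ} {τ σ : St} (h : cycLT n τ σ) : cycCode n τ < cycCode n σ := by
  classical
  obtain ⟨J, hJ, h1, j, hj, h2, h3⟩ := h
  have hex : ∃ j, j < J ∧ ¬ (cycWd τ j ↔ cycWd σ j) := ⟨j, hj, fun h => h3 (h.mpr h2)⟩
  have hmin : ∀ m, m < Nat.find hex → ¬ (m < J ∧ ¬ (cycWd τ m ↔ cycWd σ m)) :=
    fun m hm => Nat.find_min hex hm
  obtain ⟨h4, h5⟩ := Nat.find_spec hex
  set i := Nat.find hex with hi
  have h6 : ¬ cycWd τ i ∧ cycWd σ i := by
    by_cases ht : cycWd τ i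
    · exact absurd ⟨fun _ => h1 i h4 ht, fun _ => ht⟩ h5
    · refine ⟨ht, ?_⟩
      by_contra hs
      exact h5 ⟨fun h => absurd h ht, fun h => absurd h hs⟩
  refine ⟨⟨i, lt_of_lt_of_le h4 hJ⟩, ?_, ?_⟩
  · intro k hk
    have hk' : (k : ℕ) < i := hk
    have h7 := hmin k hk'
    have h8 : (cycWd τ k ↔ cycWd σ k) := by
      by_contra hc
      exact h7 ⟨hk'.trans h4, hc⟩
    show decide (cycWd τ k) = decide (cycWd σ k)
    simp only [h8]
  · show decide (cycWd τ i) < decide (cycWd σ i)
    rw [decide_eq_false h6.1, decide_eq_true h6.2]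
    decide

/-- increasing moves -/
def CycInc (n : ℕ) (σ : St) (i : ℕ) : Prop :=
  (∃ k, k < n ∧ i = 2 * k ∧ (∃ a, a < k ∧ σ a k) ∧ (∃ b, k < b ∧ σ k b)) ∨
  (∃ k, k < n ∧ i = 2 * k + 1 ∧ (∀ y, k < y → ¬ σ k y) ∧ (∀ y, y ≤ k → ¬ σ y (k + 1)))

theorem cyc_Inc_lt {n i : ℕ} {σ : St} (h : CycInc n σ i) : cycLT n σ (act i σ) := by
  rcases h with ⟨k, hk, rfl, ⟨a, ha, hak⟩, ⟨b, hb, hkb⟩⟩ | ⟨k, hk, rfl, h1, h2⟩
  · rw [act_even]
    refine ⟨2 * k + 1, by omega, ?_, 2 * k, by omega, ?_, ?_⟩
    · intro j hj hw
      rcases Nat.even_or_odd' j with ⟨x, rfl | rfl⟩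
      · rw [cyc_wd_even] at hw ⊢
        intro y hy
        rw [cyc_detach_iff]
        rintro (h | ⟨h3, h4, h5⟩)
        · omega
        · exact hw y hy h5
      · rw [cyc_wd_odd] at hw ⊢
        have hx : x < k := by omega
        obtain ⟨y, hy, hxy⟩ := hw
        by_cases hyk : y = k
        · subst hyk
          refine ⟨b, by omega, ?_⟩
          rw [cyc_detach_iff]
          exact Or.inr ⟨by omega, by omega, σ.trans hxy hkb⟩
        · refine ⟨y, hy, ?_⟩
          rw [cyc_detach_iff]
          exact Or.inr ⟨by omega, hyk, hxy⟩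
    · rw [cyc_wd_even]
      intro y hy
      rw [cyc_detach_iff]
      rintro (h | ⟨h3, h4, h5⟩)
      · omega
      · exact h4 rfl
    · rw [cyc_wd_even]
      intro h
      exact h a ha hak
  · rw [act_odd]
    refine ⟨2 * k + 2, by omega, ?_, 2 * k + 1, by omega, ?_, ?_⟩
    · intro j hj hw
      rcases Nat.even_or_odd' j with ⟨x, rfl | rfl⟩
      · rw [cyc_wd_even] at hw ⊢
        intro y hy
        rw [cyc_join_iff]
        rintro (h | ⟨h3, h4⟩ | ⟨h3, h4⟩)
        · exact hw y hy h
        · exact h2 x (by omega) (σ.symm h4)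
        · exact h2 y (by omega) h3
      · rw [cyc_wd_odd] at hw ⊢
        obtain ⟨y, hy, hxy⟩ := hw
        exact ⟨y, hy, Or.inl hxy⟩
    · rw [cyc_wd_odd]
      exact ⟨k + 1, by omega, Or.inr (Or.inl ⟨σ.refl _, σ.refl _⟩)⟩
    · rw [cyc_wd_odd]
      rintro ⟨y, hy, hky⟩
      exact h1 y hy hky

theorem cyc_not_Inc {n i : ℕ} {σ : St} (hi : i < 2 * n) (hN : σ ∈ NC) (h : ¬ CycInc n σ i) :
    act i σ = σ ∨ cycLT n (act i σ) σ := by
  classical
  rcases Nat.even_or_odd' i with ⟨k, rfl | rfl⟩
  · have hk : k < n := by omega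
    rw [act_even]
    by_cases ha : ∃ a, a < k ∧ σ a k
    · have hb : ∀ b, k < b → ¬ σ k b := by
        intro b hb hkb
        exact h (Or.inl ⟨k, hk, rfl, ha, ⟨b, hb, hkb⟩⟩)
      right
      -- the largest `a`
      obtain ⟨a, ⟨ha1, ha2⟩, hmax⟩ : ∃ a, (a < k ∧ σ a k) ∧ ∀ a', a' < k ∧ σ a' k → a' ≤ a := by
        obtain ⟨a0, ha0⟩ := ha
        refine ⟨Nat.findGreatest (fun a => a < k ∧ σ a k) k, ?_, ?_⟩
        · exact Nat.findGreatest_spec (P := fun a => a < k ∧ σ a k) ha0.1.le ha0
        · intro a' ha'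
          exact Nat.le_findGreatest ha'.1.le ha'
      refine ⟨2 * k, by omega, ?_, 2 * a + 1, by omega, ?_, ?_⟩
      · intro j hj hw
        rcases Nat.even_or_odd' j with ⟨x, rfl | rfl⟩
        · rw [cyc_wd_even] at hw ⊢
          intro y hy hyx
          exact hw y hy (Or.inr ⟨by omega, by omega, hyx⟩)
        · rw [cyc_wd_odd] at hw ⊢
          obtain ⟨y, hy, hxy⟩ := hw
          rw [cyc_detach_iff] at hxy
          rcases hxy with hxy | ⟨_, _, hxy⟩
          · omega
          · exact ⟨y, hy, hxy⟩
      · rw [cyc_wd_odd]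
        exact ⟨k, ha1, ha2⟩
      · rw [cyc_wd_odd]
        rintro ⟨y, hy, hay⟩
        rw [cyc_detach_iff] at hay
        rcases hay with hay | ⟨h3, h4, hay⟩
        · omega
        · rcases lt_or_gt_of_ne h4 with h5 | h5
          · have := hmax y ⟨h5, σ.trans (σ.symm hay) ha2⟩
            omega
          · exact hb y h5 (σ.trans (σ.symm ha2) hay)
    · push Not at ha
      by_cases hb : ∃ b, k < b ∧ σ k b
      · right
        refine ⟨2 * k + 2, by omega, ?_, 2 * k + 1, by omega, ?_, ?_⟩
        · intro j hj hw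
          rcases Nat.even_or_odd' j with ⟨x, rfl | rfl⟩
          · rw [cyc_wd_even] at hw ⊢
            intro y hy hyx
            by_cases hx : x = k
            · subst hx
              exact ha y hy hyx
            · exact hw y hy (Or.inr ⟨by omega, hx, hyx⟩)
          · rw [cyc_wd_odd] at hw ⊢
            obtain ⟨y, hy, hxy⟩ := hw
            rw [cyc_detach_iff] at hxy
            rcases hxy with hxy | ⟨_, _, hxy⟩
            · omega
            · exact ⟨y, hy, hxy⟩
        · rw [cyc_wd_odd]
          exact hb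
        · rw [cyc_wd_odd]
          rintro ⟨y, hy, hay⟩
          rw [cyc_detach_iff] at hay
          rcases hay with hay | ⟨h3, h4, hay⟩
          · omega
          · exact h3 rfl
      · push Not at hb
        left
        ext x y
        show (detach k σ) x y ↔ σ x y
        rw [cyc_detach_iff]
        constructor
        · rintro (rfl | ⟨_, _, h3⟩)
          · exact σ.refl _
          · exact h3
        · intro h3
          by_cases hxy : x = y
          · exact Or.inl hxy
          · refine Or.inr ⟨?_, ?_, h3⟩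
            · rintro rfl
              rcases lt_or_gt_of_ne hxy with h5 | h5
              · exact hb y h5 h3
              · exact ha y h5 (σ.symm h3)
            · rintro rfl
              rcases lt_or_gt_of_ne hxy with h5 | h5
              · exact ha x h5 h3
              · exact hb x h5 (σ.symm h3)
  · have hk : k < n := by omega
    rw [act_odd]
    by_cases hs : σ k (k + 1)
    · left
      ext x y
      show (join k (k + 1) σ) x y ↔ σ x y
      rw [cyc_join_iff]
      constructor
      · rintro (h3 | ⟨h3, h4⟩ | ⟨h3, h4⟩)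
        · exact h3
        · exact σ.trans h3 (σ.trans hs h4)
        · exact σ.trans h3 (σ.trans (σ.symm hs) h4)
      · intro h3
        exact Or.inl h3
    · right
      by_cases hy : ∃ y, k < y ∧ σ k y
      · obtain ⟨y0, hy0, hky0⟩ := hy
        have hy1 : k + 1 < y0 := by
          rcases Nat.lt_or_ge (k + 1) y0 with h3 | h3
          · exact h3
          · have : y0 = k + 1 := by omega
            subst this
            exact absurd hky0 hs
        -- no element `≤ k` is related to `k+1`
        have hz : ∀ z, z ≤ k → ¬ σ z (k + 1) := by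
          intro z hz hzk
          rcases Nat.lt_or_ge z k with h3 | h3
          · have := hN z k (k + 1) y0 h3 (by omega) hy1 hzk hky0
            exact hs (σ.trans (σ.symm this) hzk)
          · have : z = k := by omega
            subst this
            exact hs hzk
        refine ⟨2 * k + 3, by omega, ?_, 2 * (k + 1), by omega, ?_, ?_⟩
        · intro j hj hw
          rcases Nat.even_or_odd' j with ⟨x, rfl | rfl⟩
          · rw [cyc_wd_even] at hw ⊢
            intro y hy hyx
            exact hw y hy (Or.inl hyx)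
          · rw [cyc_wd_odd] at hw ⊢
            obtain ⟨y, hy, hxy⟩ := hw
            rw [cyc_join_iff] at hxy
            rcases hxy with hxy | ⟨h3, h4⟩ | ⟨h3, h4⟩
            · exact ⟨y, hy, hxy⟩
            · exact ⟨y0, by omega, σ.trans h3 hky0⟩
            · exact absurd h3 (hz x (by omega))
        · rw [cyc_wd_even]
          intro y hy
          exact hz y (by omega)
        · rw [cyc_wd_even]
          intro h3
          exact h3 k (by omega) (Or.inr (Or.inl ⟨σ.refl _, σ.refl _⟩))
      · push Not at hy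
        -- `k` is the largest element of its block
        have hz : ∃ z, z ≤ k ∧ σ z (k + 1) := by
          by_contra hc
          push Not at hc
          exact h (Or.inr ⟨k, hk, rfl, hy, hc⟩)
        obtain ⟨z, hz1, hz2⟩ := hz
        have hzk : z < k := by
          rcases Nat.lt_or_ge z k with h3 | h3
          · exact h3
          · have : z = k := by omega
            subst this
            exact absurd hz2 hs
        -- the smallest element of the block of `k`
        have hex : ∃ p, σ p k := ⟨k, σ.refl _⟩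
        obtain ⟨p, hp1, hp2⟩ : ∃ p, σ p k ∧ ∀ p', p' < p → ¬ σ p' k :=
          ⟨Nat.find hex, Nat.find_spec hex, fun p' hp' => Nat.find_min hex hp'⟩
        have hpk : p ≤ k := by
          by_contra hc
          exact hp2 k (by omega) (σ.refl _)
        have hzp : z < p := by
          rcases Nat.lt_trichotomy z p with h3 | h3 | h3
          · exact h3
          · subst h3
            exact absurd (σ.trans (σ.symm hp1) hz2) hs
          · exfalso
            have := hN p z k (k + 1) h3 hzk (by omega) hp1 hz2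
            exact hs (σ.trans (σ.symm hp1) (σ.trans this hz2))
        refine ⟨2 * k + 1, by omega, ?_, 2 * p, by omega, ?_, ?_⟩
        · intro j hj hw
          rcases Nat.even_or_odd' j with ⟨x, rfl | rfl⟩
          · rw [cyc_wd_even] at hw ⊢
            intro y hy hyx
            exact hw y hy (Or.inl hyx)
          · rw [cyc_wd_odd] at hw ⊢
            obtain ⟨y, hy', hxy⟩ := hw
            rw [cyc_join_iff] at hxy
            rcases hxy with hxy | ⟨h3, h4⟩ | ⟨h3, h4⟩
            · exact ⟨y, hy', hxy⟩
            · exact ⟨k, by omega, h3⟩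
            · exact ⟨k + 1, by omega, h3⟩
        · rw [cyc_wd_even]
          intro y hy' hyp
          exact hp2 y hy' (σ.trans hyp hp1)
        · rw [cyc_wd_even]
          intro h3
          exact h3 z hzp (Or.inr (Or.inr ⟨hz2, σ.symm hp1⟩))

/-- the preimage with an increasing move is unique -/
theorem cyc_Inc_unique {n i : ℕ} {σ τ : St} (hσ : σ ∈ NC) (hτ : τ ∈ NC) (h1 : CycInc n σ i)
    (h2 : CycInc n τ i) (h : act i σ = act i τ) : σ = τ := by
  rcases h1 with ⟨k, hk, rfl, ⟨a, ha, hak⟩, ⟨b, hb, hkb⟩⟩ | ⟨k, hk, rfl, h3, h4⟩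
  · rcases h2 with ⟨k', hk', hkk, ⟨a', ha', hak'⟩, ⟨b', hb', hkb'⟩⟩ | ⟨k', hk', hkk, _, _⟩
    · have : k' = k := by omega
      subst this
      rw [act_even, act_even] at h
      have key : ∀ x y, x ≠ k' → y ≠ k' → (σ x y ↔ τ x y) := by
        intro x y hx hy
        have h5 : (detach k' σ) x y ↔ (detach k' τ) x y := by rw [h]
        rw [cyc_detach_iff, cyc_detach_iff] at h5
        constructor
        · intro h6
          rcases h5.mp (Or.inr ⟨hx, hy, h6⟩) with h7 | h7
          · rw [h7]
          · exact h7.2.2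
        · intro h6
          rcases h5.mpr (Or.inr ⟨hx, hy, h6⟩) with h7 | h7
          · rw [h7]
          · exact h7.2.2
      have hab : σ a b := σ.trans hak hkb
      have hab' : τ a' b' := τ.trans hak' hkb'
      have hab2 : τ a b := (key a b (by omega) (by omega)).mp hab
      have hab2' : σ a' b' := (key a' b' (by omega) (by omega)).mpr hab'
      have haa : σ a a' := by
        rcases Nat.lt_trichotomy a a' with h5 | h5 | h5
        · -- a < a' < k < b'
          exact hσ a a' k' b' h5 ha' hb' hak hab2'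
        · rw [h5]
        · -- a' < a < k < b
          have := hτ a' a k' b h5 ha hb hak' hab2
          exact σ.symm ((key a' a (by omega) (by omega)).mpr this)
      have hk1 : ∀ x, x ≠ k' → (σ k' x ↔ τ k' x) := by
        intro x hx
        have h5 : σ k' x ↔ σ a x :=
          ⟨fun h6 => σ.trans hak h6, fun h6 => σ.trans (σ.symm hak) h6⟩
        have h6 : τ k' x ↔ τ a x := by
          have h7 : τ a a' := (key a a' (by omega) (by omega)).mp haa
          have h8 : τ a k' := τ.trans h7 hak'
          exact ⟨fun h6 => τ.trans h8 h6, fun h6 => τ.trans (τ.symm h8) h6⟩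
        rw [h5, h6]
        exact key a x (by omega) hx
      ext x y
      show σ x y ↔ τ x y
      by_cases hx : x = k'
      · subst hx
        by_cases hy : y = x
        · subst hy
          exact ⟨fun _ => τ.refl _, fun _ => σ.refl _⟩
        · exact hk1 y hy
      · by_cases hy : y = k'
        · subst hy
          exact ⟨fun h => τ.symm ((hk1 x hx).mp (σ.symm h)),
            fun h => σ.symm ((hk1 x hx).mpr (τ.symm h))⟩
        · exact key x y hx hy
    · omega
  · rcases h2 with ⟨k', hk', hkk, _, _⟩ | ⟨k', hk', hkk, h3', h4'⟩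
    · omega
    · have : k' = k := by omega
      subst this
      rw [act_odd, act_odd] at h
      -- `σ` is determined by its image
      have key : ∀ ρ : St, (∀ y, k' < y → ¬ ρ k' y) → (∀ y, y ≤ k' → ¬ ρ y (k' + 1)) →
          ∀ x y, (ρ x y ↔ (join k' (k' + 1) ρ) x y ∧
            ((join k' (k' + 1) ρ) x k' → (x ≤ k' ↔ y ≤ k'))) := by
        intro ρ hρ1 hρ2 x y
        have hL : ∀ z, ρ z k' → z ≤ k' := by
          intro z hz
          by_contra hc
          exact hρ1 z (by omega) (ρ.symm hz)
        have hR : ∀ z, ρ z (k' + 1) → k' < z := by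
          intro z hz
          by_contra hc
          exact hρ2 z (by omega) hz
        constructor
        · intro h5
          refine ⟨Or.inl h5, ?_⟩
          rintro (h6 | ⟨h6, h7⟩ | ⟨h6, h7⟩)
          · have h8 := hL x h6
            have h9 := hL y (ρ.trans (ρ.symm h5) h6)
            exact ⟨fun _ => h9, fun _ => h8⟩
          · exact absurd (ρ.symm h7) (hρ2 k' le_rfl)
          · have h8 := hR x h6
            have h9 := hR y (ρ.trans (ρ.symm h5) h6)
            constructor <;> intro <;> omega
        · rintro ⟨h5 | ⟨h5, h6⟩ | ⟨h5, h6⟩, h7⟩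
          · exact h5
          · exfalso
            have h8 := hL x h5
            have h9 := hR y (ρ.symm h6)
            have h10 := (h7 (Or.inl h5)).mp h8
            omega
          · exfalso
            have h8 := hR x h5
            have h9 := hL y (ρ.symm h6)
            have h10 := (h7 (Or.inr (Or.inr ⟨h5, ρ.refl _⟩))).mpr h9
            omega
      ext x y
      show σ x y ↔ τ x y
      rw [key σ h3 h4 x y, key τ h3' h4' x y, h]

/-- a state without increasing moves is the top state -/
theorem cyc_eq_top {n : ℕ} {σ : St} (hW : σ ∈ W n) (hN : σ ∈ NC) (h : ∀ i, ¬ CycInc n σ i) :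
    σ = top n := by
  classical
  have P : ∀ x, 2 * x ≤ n → σ x (n - x) ∧ ∀ y, σ x y → y = x ∨ min y n = n - x := by
    intro x
    induction x using Nat.strong_induction_on with
    | _ x ih =>
    intro hx
    have F : ∀ y z, x ≤ y → y ≤ n - x → σ y z → (x ≤ z ∧ z ≤ n - x) ∨ (n ≤ z ∧ x = 0) := by
      intro y z hy1 hy2 hyz
      rcases Nat.lt_or_ge z x with hz | hz
      · exfalso
        rcases (ih z hz (by omega)).2 y (σ.symm hyz) with h1 | h1 <;> omega
      · rcases Nat.lt_or_ge (n - x) z with hz2 | hz2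
        · rcases Nat.eq_zero_or_pos x with hx0 | hx0
          · right
            exact ⟨by omega, hx0⟩
          · exfalso
            have hx1 : n - min z n < x := by omega
            have h1 := ih (n - min z n) hx1 (by omega)
            have h2 : n - (n - min z n) = min z n := by omega
            rw [h2] at h1
            have h3 : σ (min z n) z := by
              rcases Nat.lt_or_ge z n with h4 | h4
              · rw [min_eq_left h4.le]
              · rw [min_eq_right h4]; exact hW n z le_rfl h4
            have h4 : σ (n - min z n) y := σ.trans h1.1 (σ.trans h3 (σ.symm hyz))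
            rcases h1.2 y h4 with h5 | h5 <;> omega
        · exact Or.inl ⟨hz, hz2⟩
    by_cases hpq : σ x (n - x)
    · refine ⟨hpq, ?_⟩
      intro y hy
      rcases F x y le_rfl (by omega) hy with h1 | h1
      · by_contra hc
        push Not at hc
        have h2 : y ≠ n - x := by
          intro h3
          apply hc.2
          omega
        refine h (2 * y) (Or.inl ⟨y, by omega, rfl, ⟨x, by omega, hy⟩, ⟨n - x, by omega, ?_⟩⟩)
        exact σ.trans (σ.symm hy) hpq
      · right
        omega
    · exfalso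
      -- the largest element of the block of `x` in the interval
      obtain ⟨m, ⟨hm1, hm2⟩, hmax⟩ : ∃ m, (m ≤ n - x ∧ σ x m) ∧
          ∀ m', m' ≤ n - x → σ x m' → m' ≤ m := by
        refine ⟨Nat.findGreatest (fun m => m ≤ n - x ∧ σ x m) (n - x), ?_, ?_⟩
        · exact Nat.findGreatest_spec (P := fun m => m ≤ n - x ∧ σ x m) (m := x) (by omega)
            ⟨by omega, σ.refl _⟩
        · intro m' h1 h2
          exact Nat.le_findGreatest h1 ⟨h1, h2⟩
      have hxm : x ≤ m := hmax x (by omega) (σ.refl _)
      have hmq : m < n - x := by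
        rcases Nat.lt_or_ge m (n - x) with h1 | h1
        · exact h1
        · have : m = n - x := by omega
          rw [this] at hm2
          exact absurd hm2 hpq
      refine h (2 * m + 1) (Or.inr ⟨m, by omega, rfl, ?_, ?_⟩)
      · intro y hy hmy
        have hxy : σ x y := σ.trans hm2 hmy
        rcases F x y le_rfl (by omega) hxy with h1 | h1
        · have := hmax y h1.2 hxy
          omega
        · apply hpq
          have h2 : n - x = n := by omega
          rw [h2]
          exact σ.trans hxy (hW y n h1.1 le_rfl)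
      · intro y hy hym
        have hn1 : ¬ σ x (m + 1) := by
          intro h1
          have := hmax (m + 1) (by omega) h1
          omega
        have h1 : x ≤ y := by
          rcases F (m + 1) y (by omega) (by omega) (σ.symm hym) with h1 | h1
          · exact h1.1
          · omega
        rcases Nat.lt_or_ge x y with h2 | h2
        · rcases Nat.lt_or_ge y m with h3 | h3
          · have h4 := hN x y m (m + 1) h2 h3 (by omega) hm2 hym
            exact hn1 (σ.trans h4 hym)
          · have : y = m := by omega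
            subst this
            exact hn1 (σ.trans hm2 hym)
        · have : y = x := by omega
          subst this
          exact hn1 hym
  have hmin : ∀ z, σ (min z n) z := by
    intro z
    rcases Nat.lt_or_ge z n with h4 | h4
    · rw [min_eq_left h4.le]
    · rw [min_eq_right h4]; exact hW n z le_rfl h4
  have Q : ∀ x, x ≤ n → σ x (n - x) ∧ ∀ y, y ≤ n → σ x y → y = x ∨ y = n - x := by
    intro x hx
    rcases Nat.lt_or_ge n (2 * x) with h1 | h1
    · have h2 := P (n - x) (by omega)
      have h3 : n - (n - x) = x := by omega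
      rw [h3] at h2
      refine ⟨σ.symm h2.1, ?_⟩
      intro y hy hxy
      have := h2.2 y (σ.trans h2.1 hxy)
      omega
    · have h2 := P x h1
      refine ⟨h2.1, ?_⟩
      intro y hy hxy
      have := h2.2 y hxy
      omega
  ext x y
  show σ x y ↔ (x = y ∨ min x n + min y n = n ∨ (n ≤ x ∧ n ≤ y))
  constructor
  · intro hxy
    have h1 : σ (min x n) (min y n) := σ.trans (hmin x) (σ.trans hxy (σ.symm (hmin y)))
    have h2 := (Q (min x n) (by omega)).2 (min y n) (by omega) h1
    omega
  · rintro (rfl | h1 | h1)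
    · exact σ.refl _
    · have h2 := (Q (min x n) (by omega)).1
      have h3 : n - min x n = min y n := by omega
      rw [h3] at h2
      exact σ.trans (σ.symm (hmin x)) (σ.trans h2 (hmin y))
    · exact hW x y h1.1 h1.2

theorem cyc_Gen_zero (n : ℕ) : Gen n (0 : M →ₗ[ℝ] ℝ) := by
  have := Gen.smul (n := n) 0 _ Gen.top
  rwa [zero_smul] at this

theorem cyc_Gen_neg {n : ℕ} {l : M →ₗ[ℝ] ℝ} (h : Gen n l) : Gen n (-l) := by
  have h1 := Gen.smul (n := n) (-1) _ h
  have h2 : (-1 : ℝ) • l = -l := by
    ext
    simp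
  rwa [h2] at h1

theorem cyc_Gen_sum {n : ℕ} {ι : Type*} (t : Finset ι) (f : ι → M →ₗ[ℝ] ℝ)
    (h : ∀ i ∈ t, Gen n (f i)) : Gen n (∑ i ∈ t, f i) := by
  classical
  induction t using Finset.induction_on with
  | empty => rw [Finset.sum_empty]; exact cyc_Gen_zero n
  | insert a t ha ih =>
    rw [Finset.sum_insert ha]
    exact Gen.add _ _ (h a (Finset.mem_insert_self _ _))
      (ih fun i hi => h i (Finset.mem_insert_of_mem hi))

theorem cyclic (n : ℕ) (σ : St) (h1 : σ ∈ W n) (h2 : σ ∈ NC) :
    ∃ l : M →ₗ[ℝ] ℝ, Gen n l ∧ ∀ v : M, v ∈ Sup (W n) → v ∈ Sup NC → l v = v σ := by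
  classical
  have hwf : WellFounded (fun a b : Lex (Fin (2 * n + 1) → Bool) => b < a) := wellFounded_gt
  suffices H : ∀ c : Lex (Fin (2 * n + 1) → Bool), ∀ σ : St, cycCode n σ = c → σ ∈ W n → σ ∈ NC →
      ∃ l : M →ₗ[ℝ] ℝ, Gen n l ∧ ∀ v : M, v ∈ Sup (W n) → v ∈ Sup NC → l v = v σ from
    H _ σ rfl h1 h2
  intro c
  induction c using hwf.induction with
  | _ c ih =>
  intro σ hc hW hN
  by_cases hi : ∃ i, CycInc n σ i
  · obtain ⟨i, hi⟩ := hi
    have hi2 : i < 2 * n := by
      rcases hi with ⟨k, hk, rfl, _⟩ | ⟨k, hk, rfl, _⟩ <;> omega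
    have hαW : act i σ ∈ W n := act_W (Or.inl hi2) hW
    have hαN : act i σ ∈ NC := act_NC i hN
    have hlt : cycCode n σ < cycCode n (act i σ) := cyc_code_lt (cyc_Inc_lt hi)
    obtain ⟨lα, hlα1, hlα2⟩ := ih _ (hc ▸ hlt) (act i σ) rfl hαW hαN
    -- the other preimages
    have hfin : {τ : St | τ ∈ W n ∧ τ ∈ NC ∧ act i τ = act i σ ∧ τ ≠ σ}.Finite :=
      (W_finite n).subset (fun τ hτ => hτ.1)
    have hpre : ∀ τ : St, (τ ∈ W n ∧ τ ∈ NC ∧ act i τ = act i σ ∧ τ ≠ σ) →
        ∃ l : M →ₗ[ℝ] ℝ, Gen n l ∧ ∀ v : M, v ∈ Sup (W n) → v ∈ Sup NC → l v = v τ := by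
      rintro τ ⟨hτ1, hτ2, hτ3, hτ4⟩
      have hnI : ¬ CycInc n τ i := fun hI => hτ4 (cyc_Inc_unique hτ2 hN hI hi hτ3)
      have hle : cycCode n (act i σ) ≤ cycCode n τ := by
        rcases cyc_not_Inc hi2 hτ2 hnI with h3 | h3
        · rw [← hτ3, h3]
        · rw [← hτ3]
          exact (cyc_code_lt h3).le
      exact ih _ (hc ▸ (hlt.trans_le hle)) τ rfl hτ1 hτ2
    let L : St → M →ₗ[ℝ] ℝ := fun τ =>
      if hτ : τ ∈ W n ∧ τ ∈ NC ∧ act i τ = act i σ ∧ τ ≠ σ then (hpre τ hτ).choose else 0
    have hL1 : ∀ τ ∈ hfin.toFinset, Gen n (L τ) := by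
      intro τ hτ
      rw [Set.Finite.mem_toFinset] at hτ
      have hτ' : τ ∈ W n ∧ τ ∈ NC ∧ act i τ = act i σ ∧ τ ≠ σ := hτ
      show Gen n (if hτ : τ ∈ W n ∧ τ ∈ NC ∧ act i τ = act i σ ∧ τ ≠ σ then
        (hpre τ hτ).choose else 0)
      rw [dif_pos hτ']
      exact (hpre τ hτ').choose_spec.1
    have hL2 : ∀ τ ∈ hfin.toFinset, ∀ v : M, v ∈ Sup (W n) → v ∈ Sup NC → L τ v = v τ := by
      intro τ hτ
      rw [Set.Finite.mem_toFinset] at hτ
      have hτ' : τ ∈ W n ∧ τ ∈ NC ∧ act i τ = act i σ ∧ τ ≠ σ := hτ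
      show ∀ v : M, v ∈ Sup (W n) → v ∈ Sup NC →
        (if hτ : τ ∈ W n ∧ τ ∈ NC ∧ act i τ = act i σ ∧ τ ≠ σ then
        (hpre τ hτ).choose else 0) v = v τ
      rw [dif_pos hτ']
      exact (hpre τ hτ').choose_spec.2
    refine ⟨lα ∘ₗ E i + -∑ τ ∈ hfin.toFinset, L τ,
      Gen.add _ _ (Gen.act i hi2 _ hlα1) (cyc_Gen_neg (cyc_Gen_sum _ _ hL1)), ?_⟩
    intro v hv1 hv2
    have hsingle : ∀ τ : St, τ ∈ W n → τ ∈ NC → ∀ a : ℝ,
        (lα ∘ₗ E i + -∑ τ ∈ hfin.toFinset, L τ) (Finsupp.single τ a) =
          (Finsupp.single τ a : M) σ := by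
      intro τ hτ1 hτ2 a
      have hs1 : (Finsupp.single τ a : M) ∈ Sup (W n) := Finsupp.single_mem_supported ℝ a hτ1
      have hs2 : (Finsupp.single τ a : M) ∈ Sup NC := Finsupp.single_mem_supported ℝ a hτ2
      have hE : E i (Finsupp.single τ a) = Finsupp.single (act i τ) a :=
        Finsupp.mapDomain_single
      rw [LinearMap.add_apply, LinearMap.neg_apply, LinearMap.comp_apply, hE,
        hlα2 _ (Finsupp.single_mem_supported ℝ a (act_W (Or.inl hi2) hτ1))
          (Finsupp.single_mem_supported ℝ a (act_NC i hτ2)), LinearMap.sum_apply,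
        Finset.sum_congr rfl (fun ρ hρ => hL2 ρ hρ _ hs1 hs2)]
      simp only [Finsupp.single_apply]
      rw [Finset.sum_ite_eq]
      by_cases hτσ : τ = σ
      · have hn : τ ∉ hfin.toFinset := by
          rw [Set.Finite.mem_toFinset]
          exact fun hh => hh.2.2.2 hτσ
        rw [if_neg hn, if_pos hτσ, if_pos (by rw [hτσ])]
        simp
      · rw [if_neg hτσ]
        by_cases hact : act i τ = act i σ
        · have hn : τ ∈ hfin.toFinset := by
            rw [Set.Finite.mem_toFinset]
            exact ⟨hτ1, hτ2, hact, hτσ⟩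
          rw [if_pos hn, if_pos hact]
          simp
        · have hn : τ ∉ hfin.toFinset := by
            rw [Set.Finite.mem_toFinset]
            exact fun hh => hact hh.2.2.1
          rw [if_neg hn, if_neg hact]
          simp
    conv_lhs => rw [← Finsupp.sum_single v]
    rw [Finsupp.sum, map_sum]
    rw [Finset.sum_congr rfl (fun τ hτ => hsingle τ (hv1 hτ) (hv2 hτ) (v τ))]
    rw [← Finsupp.finsetSum_apply]
    have := Finsupp.sum_single v
    rw [Finsupp.sum] at this
    rw [this]
  · push Not at hi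
    have := cyc_eq_top hW hN hi
    subst this
    exact ⟨Finsupp.lapply (top n), Gen.top, fun v _ _ => rfl⟩

end IP
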