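import Pool.Agent.Lead.IP.TrigC
/-! MODULE DetA: the determinants `Dt`, `Dl` (product formula, principal specialisation, symmetry).
`sin ((j+1) θ) = sin θ * U_j (cos θ)`, `U_j` (Chebyshev, second kind) has leading coefficient `2^j`, so
`det [sin ((j+1) θ_i)] = ∏ sin θ_i ∏_{i<j} 2 (cos θ_j - cos θ_i)` (`Matrix.det_eval_matrixOfPolynomials_eq_det_vandermonde`
or similar).  For `b i = ε (i+1)` the matrix of `Dt` is the transpose of such a matrix with `θ_j = 2 μ_j ε`.
(Proofs from helper24's `IPDet`, `IPZform`, completed by helper35.) -/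
namespace IP
open Finset Real Filter Topology

section
open Polynomial

/-- rescaled Chebyshev polynomials of the second kind -/
noncomputable def dA_Sp : ℕ → ℝ[X]
  | 0 => 1
  | 1 => X
  | n + 2 => X * dA_Sp (n + 1) - dA_Sp n

theorem dA_Sp_deg : ∀ n, (dA_Sp n).Monic ∧ (dA_Sp n).natDegree = n ∧
    (dA_Sp (n + 1)).Monic ∧ (dA_Sp (n + 1)).natDegree = n + 1
  | 0 => by
    refine ⟨monic_one, natDegree_one, ?_, ?_⟩
    · exact monic_X
    · exact natDegree_X
  | n + 1 => by
    obtain ⟨h1, h2, h3, h4⟩ := dA_Sp_deg n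
    have hd : (dA_Sp n).degree < (X * dA_Sp (n + 1)).degree := by
      rw [degree_mul, degree_X, degree_eq_natDegree h1.ne_zero, degree_eq_natDegree h3.ne_zero,
        h2, h4]
      norm_cast
      omega
    have hm : (X * dA_Sp (n + 1)).Monic := monic_X.mul h3
    refine ⟨h3, h4, ?_, ?_⟩
    · show (X * dA_Sp (n + 1) - dA_Sp n).Monic
      exact hm.sub_of_left hd
    · show (X * dA_Sp (n + 1) - dA_Sp n).natDegree = n + 1 + 1
      rw [natDegree_sub_eq_left_of_natDegree_lt, natDegree_X_mul h3.ne_zero, h4]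
      exact (natDegree_lt_natDegree h1.ne_zero hd)

theorem dA_sin_Sp (b : ℝ) : ∀ n : ℕ, Real.sin (2 * ((n : ℝ) + 1) * b) =
      Real.sin (2 * b) * (dA_Sp n).eval (2 * Real.cos (2 * b)) ∧
      Real.sin (2 * ((n : ℝ) + 2) * b) =
      Real.sin (2 * b) * (dA_Sp (n + 1)).eval (2 * Real.cos (2 * b))
  | 0 => by
    constructor
    · simp [dA_Sp]
    · simp only [dA_Sp, Nat.cast_zero, zero_add, eval_X]
      rw [show (2 : ℝ) * 2 * b = 2 * (2 * b) by ring, Real.sin_two_mul]
      ring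
  | n + 1 => by
    obtain ⟨h1, h2⟩ := dA_sin_Sp b n
    constructor
    · rw [← h2]
      congr 1
      push_cast
      ring
    · show _ = Real.sin (2 * b) * (X * dA_Sp (n + 1) - dA_Sp n).eval (2 * Real.cos (2 * b))
      rw [eval_sub, eval_mul, eval_X, mul_sub, mul_left_comm, ← h2, ← h1]
      have h3 : 2 * (((n + 1 : ℕ) : ℝ) + 2) * b = 2 * ((n : ℝ) + 2) * b + 2 * b := by
        push_cast; ring
      have h4 : 2 * ((n : ℝ) + 1) * b = 2 * ((n : ℝ) + 2) * b - 2 * b := by ring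
      rw [h3, h4, Real.sin_add, Real.sin_sub]
      ring

theorem dA_prod_Ioi (n : ℕ) (f : ℕ → ℕ → ℝ) :
    ∏ i : Fin n, ∏ j ∈ Ioi i, f i j = ∏ j ∈ range n, ∏ i ∈ range j, f i j := by
  have h1 : ∀ i : Fin n, ∏ j ∈ Ioi i, f i j = ∏ j : Fin n, if (i : ℕ) < j then f i j else 1 := by
    intro i
    rw [← prod_filter]
    apply prod_congr _ (fun _ _ => rfl)
    ext j
    simp only [mem_Ioi, mem_filter, mem_univ, true_and, Fin.lt_def]
  rw [prod_congr rfl (fun i _ => h1 i), Finset.prod_comm,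
    Fin.prod_univ_eq_prod_range (fun j => ∏ i : Fin n, if (i : ℕ) < j then f i j else 1)]
  apply prod_congr rfl
  intro j hj
  simp only [mem_range] at hj
  rw [Fin.prod_univ_eq_prod_range (fun i => if i < j then f i j else 1), ← prod_filter]
  apply prod_congr _ (fun _ _ => rfl)
  ext i
  simp only [mem_filter, mem_range]
  omega

end

theorem det_sin (m : ℕ) (θ : ℕ → ℝ) :
    Matrix.det (Matrix.of fun i j : Fin m => Real.sin (((j : ℕ) + 1 : ℕ) * θ i)) =
      (∏ i ∈ range m, Real.sin (θ i)) * ∏ j ∈ range m, ∏ i ∈ range j, (2 * (Real.cos (θ j) - Real.cos (θ i))) := by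
  have h1 : (Matrix.of fun i j : Fin m => Real.sin (((j : ℕ) + 1 : ℕ) * θ i)) =
      Matrix.diagonal (fun i : Fin m => Real.sin (θ i)) *
        Matrix.of (fun i j : Fin m => (dA_Sp j).eval (2 * Real.cos (θ i))) := by
    ext i j
    have h := (dA_sin_Sp (θ i / 2) j).1
    rw [Matrix.diagonal_mul, Matrix.of_apply, Matrix.of_apply]
    rw [show 2 * (θ (i : ℕ) / 2) = θ i by ring] at h
    rw [← h]
    congr 1
    push_cast
    ring
  rw [h1, Matrix.det_mul, Matrix.det_diagonal,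
    ← Matrix.det_eval_matrixOfPolynomials_eq_det_vandermonde (fun i : Fin m => 2 * Real.cos (θ i))
      (fun j : Fin m => dA_Sp j) (fun j => (dA_Sp_deg j).2.1) (fun j => (dA_Sp_deg j).1),
    Matrix.det_vandermonde, dA_prod_Ioi m (fun i j => 2 * Real.cos (θ j) - 2 * Real.cos (θ i)),
    Fin.prod_univ_eq_prod_range (fun i => Real.sin (θ i))]
  congr 1
  apply prod_congr rfl
  intro j _
  apply prod_congr rfl
  intro i _
  ring

theorem Dl_eq (m : ℕ) (b : ℕ → ℝ) : Dl m b = (∏ i ∈ range m, Real.sin (2 * b i)) *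
    ∏ j ∈ range m, ∏ i ∈ range j, (2 * (Real.cos (2 * b j) - Real.cos (2 * b i))) := by
  rw [← det_sin m (fun i => 2 * b i)]
  unfold Dl
  congr 1
  ext i j
  simp only [Matrix.of_apply]
  congr 1
  push_cast
  ring

theorem Dt_spec (m : ℕ) (ε : ℝ) : Dt m (fun i => ε * (i + 1)) = (∏ i ∈ range m, Real.sin (2 * mu i * ε)) *
    ∏ j ∈ range m, ∏ i ∈ range j, (2 * (Real.cos (2 * mu j * ε) - Real.cos (2 * mu i * ε))) := by
  rw [← det_sin m (fun i => 2 * mu i * ε), ← Matrix.det_transpose]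
  unfold Dt
  congr 1
  ext i j
  simp only [Matrix.of_apply, Matrix.transpose_apply]
  congr 1
  push_cast
  ring

/-! ### general alternants -/

/-- the alternant of the functions `f` -/
noncomputable def dA_alt (f : ℕ → ℝ → ℝ) (m : ℕ) (b : ℕ → ℝ) : ℝ :=
  Matrix.det (Matrix.of fun i j : Fin m => f j (b i))

theorem Dt_eq_dA_alt (m : ℕ) (b : ℕ → ℝ) : Dt m b = dA_alt (fun j x => Real.sin (2 * mu j * x)) m b := rfl
theorem Dl_eq_dA_alt (m : ℕ) (b : ℕ → ℝ) :
    Dl m b = dA_alt (fun j x => Real.sin (2 * (j + 1 : ℕ) * x)) m b := rfl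

theorem dA_alt_perm (f : ℕ → ℝ → ℝ) (m : ℕ) (e : Equiv.Perm (Fin m)) {b b' : ℕ → ℝ}
    (h : ∀ i : Fin m, b' i = b (e i)) : dA_alt f m b' = (Equiv.Perm.sign e : ℤ) * dA_alt f m b := by
  have h1 : (Matrix.of fun k j : Fin m => f j (b' k)) =
      (Matrix.of fun k j : Fin m => f j (b k)).submatrix e id := by
    ext k j
    simp only [Matrix.of_apply, Matrix.submatrix_apply, id]
    rw [h k]
  unfold dA_alt
  rw [h1, Matrix.det_permute]

theorem dA_alt_sw (f : ℕ → ℝ → ℝ) {m i : ℕ} (h : i + 1 < m) (b : ℕ → ℝ) :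
    dA_alt f m (sw i b) = - dA_alt f m b := by
  rw [dA_alt_perm f m (Equiv.swap (⟨i, by omega⟩ : Fin m) ⟨i + 1, h⟩) (b := b)]
  · rw [Equiv.Perm.sign_swap (by
      intro hc
      have := congrArg Fin.val hc
      simp at this)]
    simp
  · intro k
    unfold sw
    congr 1
    rcases eq_or_ne (k : ℕ) i with hk | hk
    · have h2 : k = ⟨i, by omega⟩ := Fin.ext hk
      rw [h2]
      simp
    · rcases eq_or_ne (k : ℕ) (i + 1) with hk' | hk'
      · have h2 : k = ⟨i + 1, h⟩ := Fin.ext hk'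
        rw [h2]
        simp
      · rw [Equiv.swap_apply_of_ne_of_ne hk hk', Equiv.swap_apply_of_ne_of_ne]
        · exact fun hc => hk (congrArg Fin.val hc)
        · exact fun hc => hk' (congrArg Fin.val hc)

theorem dA_alt_ng (f : ℕ → ℝ → ℝ) (hf : ∀ j x, f j (-x) = - f j x) {m i : ℕ} (h : i < m) (b : ℕ → ℝ) :
    dA_alt f m (ng i b) = - dA_alt f m b := by
  have h1 : (Matrix.of fun k j : Fin m => f j (ng i b k)) =
      Matrix.of fun k j : Fin m => (if (k : ℕ) = i then -1 else 1 : ℝ) *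
        (fun k j : Fin m => f j (b k)) k j := by
    ext k j
    simp only [Matrix.of_apply]
    unfold ng
    split_ifs with hk
    · subst hk
      rw [Function.update_self, hf]
      ring
    · rw [Function.update_of_ne hk]
      ring
  have h3 := Matrix.det_mul_column (fun k : Fin m => (if (k : ℕ) = i then -1 else 1 : ℝ))
    (Matrix.of fun k j : Fin m => f j (b k))
  unfold dA_alt
  rw [h1]
  refine h3.trans ?_
  have h2 : ∏ k : Fin m, (if (k : ℕ) = i then -1 else 1 : ℝ) = -1 := by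
    rw [Fin.prod_univ_eq_prod_range (fun k => if k = i then (-1 : ℝ) else 1) m,
      prod_ite_eq' (range m) i (fun _ => (-1 : ℝ))]
    simp [h]
  rw [h2]
  ring

theorem dA_alt_congr (f : ℕ → ℝ → ℝ) (m : ℕ) {b b' : ℕ → ℝ} (h : ∀ j < m, b j = b' j) :
    dA_alt f m b = dA_alt f m b' := by
  unfold dA_alt
  congr 1
  ext k j
  simp only [Matrix.of_apply]
  rw [h k k.2]

theorem Dt_sw {m i : ℕ} (h : i + 1 < m) (b : ℕ → ℝ) : Dt m (sw i b) = - Dt m b := by
  rw [Dt_eq_dA_alt, Dt_eq_dA_alt, dA_alt_sw _ h b]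
theorem Dl_sw {m i : ℕ} (h : i + 1 < m) (b : ℕ → ℝ) : Dl m (sw i b) = - Dl m b := by
  rw [Dl_eq_dA_alt, Dl_eq_dA_alt, dA_alt_sw _ h b]
theorem Dt_ng {m i : ℕ} (h : i < m) (b : ℕ → ℝ) : Dt m (ng i b) = - Dt m b := by
  rw [Dt_eq_dA_alt, Dt_eq_dA_alt, dA_alt_ng _ (fun j x => by rw [mul_neg, Real.sin_neg]) h b]
theorem Dl_ng {m i : ℕ} (h : i < m) (b : ℕ → ℝ) : Dl m (ng i b) = - Dl m b := by
  rw [Dl_eq_dA_alt, Dl_eq_dA_alt, dA_alt_ng _ (fun j x => by rw [mul_neg, Real.sin_neg]) h b]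
theorem Dt_congr {m : ℕ} {b b' : ℕ → ℝ} (h : ∀ j < m, b j = b' j) : Dt m b = Dt m b' := by
  rw [Dt_eq_dA_alt, Dt_eq_dA_alt, dA_alt_congr _ m h]
theorem Dl_congr {m : ℕ} {b b' : ℕ → ℝ} (h : ∀ j < m, b j = b' j) : Dl m b = Dl m b' := by
  rw [Dl_eq_dA_alt, Dl_eq_dA_alt, dA_alt_congr _ m h]

theorem Dt_perm (m : ℕ) (e : Equiv.Perm (Fin m)) {b b' : ℕ → ℝ} (h : ∀ i : Fin m, b' i = b (e i)) :
    Dt m b' = (Equiv.Perm.sign e : ℤ) * Dt m b :=
  dA_alt_perm (fun j x => Real.sin (2 * mu j * x)) m e h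
theorem Dl_perm (m : ℕ) (e : Equiv.Perm (Fin m)) {b b' : ℕ → ℝ} (h : ∀ i : Fin m, b' i = b (e i)) :
    Dl m b' = (Equiv.Perm.sign e : ℤ) * Dl m b :=
  dA_alt_perm (fun j x => Real.sin (2 * (j + 1 : ℕ) * x)) m e h

theorem dA_cos_sub (x y : ℝ) : 2 * (Real.cos (2 * x) - Real.cos (2 * y)) =
    -4 * (Real.sin (x - y) * Real.sin (x + y)) := by
  rw [Real.cos_sub_cos, show (2 * x + 2 * y) / 2 = x + y by ring, show (2 * x - 2 * y) / 2 = x - y by ring]
  ring

/-- general genericity: `Dl m b ≠ 0` -/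
theorem Dl_ne_zero_iff (m : ℕ) (b : ℕ → ℝ) : Dl m b ≠ 0 ↔
    (∀ i < m, Real.sin (2 * b i) ≠ 0) ∧
      ∀ i j, i < m → j < m → i ≠ j → Real.sin (b i - b j) ≠ 0 ∧ Real.sin (b i + b j) ≠ 0 := by
  rw [Dl_eq]
  simp only [mul_ne_zero_iff, prod_ne_zero_iff, mem_range]
  constructor
  · rintro ⟨h1, h2⟩
    refine ⟨h1, fun i j hi hj hij => ?_⟩
    have key : ∀ i j, i < m → j < i → Real.sin (b i - b j) ≠ 0 ∧ Real.sin (b i + b j) ≠ 0 := by
      intro i j hi hji
      have h := h2 i hi j hji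
      have h3 : 2 * (Real.cos (2 * b i) - Real.cos (2 * b j)) ≠ 0 := mul_ne_zero h.1 h.2
      rw [dA_cos_sub] at h3
      have h4 := (mul_ne_zero_iff.1 h3).2
      exact mul_ne_zero_iff.1 h4
    rcases lt_or_gt_of_ne hij with h | h
    · have h3 := key j i hj h
      refine ⟨?_, ?_⟩
      · rw [show b i - b j = -(b j - b i) by ring, Real.sin_neg]
        exact neg_ne_zero.2 h3.1
      · rw [add_comm]; exact h3.2
    · exact key i j hi h
  · rintro ⟨h1, h2⟩
    refine ⟨h1, fun j hj i hi => ?_⟩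
    have h3 := h2 j i hj (by omega) (by omega)
    have h4 : 2 * (Real.cos (2 * b j) - Real.cos (2 * b i)) ≠ 0 := by
      rw [dA_cos_sub]
      exact mul_ne_zero (by norm_num) (mul_ne_zero h3.1 h3.2)
    exact mul_ne_zero_iff.1 h4

/-! ### degrees -/

theorem dA_Sep_det (L m : ℕ) (g : ℕ → ℝ → ℝ) (hg : ∀ k < L, TP m (g k)) :
    Sep L m (fun b => Matrix.det (Matrix.of fun i j : Fin L => g j (b i))) := by
  constructor
  · intro b j hj
    have h : ∀ x, Matrix.det (Matrix.of fun i k : Fin L => g k (Function.update b j x i)) =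
        ∑ σ : Equiv.Perm (Fin L), ((Equiv.Perm.sign σ : ℤ) : ℝ) *
          ∏ i : Fin L, g i (Function.update b j x (σ i)) := by
      intro x
      rw [Matrix.det_apply']
      rfl
    simp only [h]
    apply TP.sum
    intro σ _
    apply TP.smul
    have h2 : TP (∑ i : Fin L, if ((σ i : Fin L) : ℕ) = j then m else 0)
        (fun x => ∏ i : Fin L, g i (Function.update b j x (σ i))) := by
      apply TP.prod
      intro i _
      by_cases hi : ((σ i : Fin L) : ℕ) = j
      · rw [if_pos hi]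
        have : (fun x => g i (Function.update b j x (σ i))) = g i := by
          funext x; rw [hi, Function.update_self]
        rw [this]
        exact hg i i.2
      · rw [if_neg hi]
        have : (fun x => g i (Function.update b j x (σ i))) = fun _ => g i (b (σ i)) := by
          funext x; rw [Function.update_of_ne hi]
        rw [this]
        exact TP.const _
    have h3 : (∑ i : Fin L, if ((σ i : Fin L) : ℕ) = j then m else 0) = m := by
      rw [sum_eq_single (σ⁻¹ ⟨j, hj⟩)]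
      · simp
      · intro i _ hi
        rw [if_neg]
        intro h4
        apply hi
        rw [Equiv.Perm.eq_inv_iff_eq]
        exact Fin.ext h4
      · intro h'; exact absurd (mem_univ _) h'
    rw [h3] at h2
    exact h2
  · intro b b' h
    have : (Matrix.of fun i j : Fin L => g j (b i)) = Matrix.of fun i j : Fin L => g j (b' i) := by
      ext i j
      simp only [Matrix.of_apply]
      rw [h i i.2]
    simp only [this]

theorem dA_TP_sin (k : ℕ) : TP (2 * k) (fun x => Real.sin (2 * (k : ℝ) * x)) := by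
  have h := TP.sin_mul (2 * k)
  have h2 : (fun x => Real.sin (((2 * k : ℕ) : ℝ) * x)) = fun x => Real.sin (2 * (k : ℝ) * x) := by
    funext x; push_cast; rfl
  rwa [h2] at h

/-- expansion along a row: trigonometric polynomials of degrees `2 μ_(m-1)` and `2 m` -/
theorem Dt_Sep (m : ℕ) : Sep m (2 * mu (m - 1)) (Dt m) := by
  apply dA_Sep_det m (2 * mu (m - 1)) (fun j x => Real.sin (2 * mu j * x))
  intro k hk
  have h := (dA_TP_sin (mu k)).mono (mu (m - 1) - mu k)
  have h2 : mu k ≤ mu (m - 1) := by unfold mu; omega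
  rwa [show 2 * mu k + 2 * (mu (m - 1) - mu k) = 2 * mu (m - 1) by omega] at h

theorem Dl_Sep (m : ℕ) : Sep m (2 * m) (Dl m) := by
  apply dA_Sep_det m (2 * m) (fun j x => Real.sin (2 * ((j : ℕ) + 1 : ℕ) * x))
  intro k hk
  have h := (dA_TP_sin (k + 1)).mono (m - (k + 1))
  rwa [show 2 * (k + 1) + 2 * (m - (k + 1)) = 2 * m by omega] at h
end IP
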