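import Pool.Agent.Lead.IP.DoeblinA
/-! MODULE DoeblinB: the stationary vector is continuous on the cube.
Idea: with `w = P n b' - P n b` one has `w = T n b w + (T n b' - T n b) (P n b')`, hence by the
contraction `nm_T` the norm of `w` is at most `(dl n b)⁻¹ ∑ nm ((T n b' - T n b) τ)`, and the
coefficients of `T n b` are continuous in `b`. -/
namespace IP
open Finset Real Filter Topology

theorem continuous_row (off : ℕ) (F : (ℕ → ℝ) → M →ₗ[ℝ] M)
    (hF : ∀ v σ, Continuous (fun b => F b v σ)) (k : ℕ) :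
    ∀ v σ, Continuous (fun b => F b (row off b k v) σ) := by
  induction k with
  | zero => intro v σ; simpa [row] using hF v σ
  | succ k ih =>
    intro v σ
    have h : (fun b => F b (row off b (k + 1) v) σ) = fun b : ℕ → ℝ =>
        s (-(b k + π / 6)) * F b (row off b k v) σ +
          Real.sin (b k + π / 6) * F b (row off b k (E (off + k) v)) σ := by
      funext b
      simp only [row, LinearMap.comp_apply, Rt, LinearMap.add_apply, LinearMap.smul_apply,
        LinearMap.id_apply, map_add, map_smul, Finsupp.add_apply, Finsupp.smul_apply, smul_eq_mul]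
    rw [h]
    have hb : Continuous (fun b : ℕ → ℝ => b k + π / 6) := (continuous_apply k).add_const _
    have h1 : Continuous (fun b : ℕ → ℝ => s (-(b k + π / 6))) := by
      unfold s
      exact Real.continuous_sin.comp (continuous_const.add hb.neg)
    have h2 : Continuous (fun b : ℕ → ℝ => Real.sin (b k + π / 6)) := Real.continuous_sin.comp hb
    exact (h1.mul (ih v σ)).add (h2.mul (ih _ σ))

theorem continuous_Tt (n : ℕ) (v : M) (σ : St) : Continuous (fun b => Tt n b v σ) := by
  have h1 : ∀ v σ, Continuous (fun b : ℕ → ℝ => (De 0 ∘ₗ row 1 b (2 * n + 1)) v σ) := by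
    intro v σ
    exact continuous_row 1 (fun _ => De 0) (fun v σ => continuous_const) (2 * n + 1) v σ
  exact continuous_row 0 (fun b => De 0 ∘ₗ row 1 b (2 * n + 1)) h1 (2 * n + 1) v σ

theorem continuous_nrm (n : ℕ) : Continuous (nrm n) := by
  unfold nrm
  refine continuous_finsetProd _ fun j _ => ?_
  have hb : Continuous (fun b : ℕ → ℝ => b j + π / 6) := (continuous_apply j).add_const _
  have h1 : Continuous (fun b : ℕ → ℝ => s (b j + π / 6)) := by
    unfold s
    exact Real.continuous_sin.comp (continuous_const.add hb)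
  exact h1.pow 2

theorem continuousAt_T (n : ℕ) {b : ℕ → ℝ} (hb : b ∈ Cube) (v : M) (σ : St) :
    ContinuousAt (fun b => T n b v σ) b := by
  have h : (fun b => T n b v σ) = fun b => (nrm n b)⁻¹ * Tt n b v σ := by
    funext b
    simp only [T, LinearMap.smul_apply, Finsupp.smul_apply, smul_eq_mul]
  rw [h]
  exact ((continuous_nrm n).continuousAt.inv₀ (nrm_pos n hb).ne').mul
    (continuous_Tt n v σ).continuousAt

theorem P_le_one (n : ℕ) {b : ℕ → ℝ} (hb : b ∈ Cube) (τ : St) : P n b τ ≤ 1 := by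
  by_cases h : τ ∈ W n
  · have h1 := tot_eq (P_Sup n b)
    rw [tot_P n hb] at h1
    rw [h1]
    exact Finset.single_le_sum (f := fun τ => P n b τ) (fun σ _ => P_nonneg n b σ) (mem_WF.mpr h)
  · rw [Sup_zero (P_Sup n b) h]; exact zero_le_one

theorem nm_add_le (n : ℕ) (v w : M) : nm n (v + w) ≤ nm n v + nm n w := by
  unfold nm
  rw [← Finset.sum_add_distrib]
  exact Finset.sum_le_sum fun σ _ => by rw [Finsupp.add_apply]; exact abs_add_le _ _

/-- perturbation bound -/
theorem P_sub_le (n : ℕ) {b b' : ℕ → ℝ} (hb : b ∈ Cube) (hb' : b' ∈ Cube) (σ : St) :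
    |P n b' σ - P n b σ| ≤ (dl n b)⁻¹ *
      ∑ τ ∈ WF n, ∑ ρ ∈ WF n, |T n b' (Finsupp.single τ 1) ρ - T n b (Finsupp.single τ 1) ρ| := by
  set w : M := P n b' - P n b with hw
  have hwS : w ∈ Sup (W n) := Submodule.sub_mem _ (P_Sup n b') (P_Sup n b)
  have hw0 : tot w = 0 := by rw [hw, map_sub, tot_P n hb, tot_P n hb', sub_self]
  set e : M := T n b' (P n b') - T n b (P n b') with he
  have h1 : w = T n b w + e := by
    rw [hw, he, map_sub, T_P n hb, T_P n hb']
    abel
  have h2 : nm n w ≤ (1 - dl n b) * nm n w + nm n e := by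
    calc nm n w = nm n (T n b w + e) := by rw [← h1]
      _ ≤ nm n (T n b w) + nm n e := nm_add_le n _ _
      _ ≤ _ := by linarith [nm_T n hb hwS hw0]
  have h3 : nm n e ≤ ∑ τ ∈ WF n, ∑ ρ ∈ WF n,
      |T n b' (Finsupp.single τ 1) ρ - T n b (Finsupp.single τ 1) ρ| := by
    have h4 : ∀ ρ, e ρ = ∑ τ ∈ WF n, P n b' τ *
        (T n b' (Finsupp.single τ 1) ρ - T n b (Finsupp.single τ 1) ρ) := by
      intro ρ
      have h5 : e = ∑ τ ∈ WF n, P n b' τ •
          (T n b' (Finsupp.single τ 1) - T n b (Finsupp.single τ 1)) := by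
        rw [he]
        conv_lhs => rw [expand (P_Sup n b')]
        rw [map_sum, map_sum, ← Finset.sum_sub_distrib]
        refine Finset.sum_congr rfl fun τ _ => ?_
        rw [map_smul, map_smul, smul_sub]
      rw [h5, Finsupp.finsetSum_apply]
      refine Finset.sum_congr rfl fun τ _ => ?_
      rw [Finsupp.smul_apply, Finsupp.sub_apply, smul_eq_mul]
    unfold nm
    rw [Finset.sum_comm]
    refine Finset.sum_le_sum fun ρ _ => ?_
    rw [h4]
    refine (Finset.abs_sum_le_sum_abs _ _).trans (Finset.sum_le_sum fun τ _ => ?_)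
    rw [abs_mul, abs_of_nonneg (P_nonneg n b' τ)]
    exact mul_le_of_le_one_left (abs_nonneg _) (P_le_one n hb' τ)
  have h6 : dl n b * nm n w ≤ ∑ τ ∈ WF n, ∑ ρ ∈ WF n,
      |T n b' (Finsupp.single τ 1) ρ - T n b (Finsupp.single τ 1) ρ| := by linarith
  have h7 : |P n b' σ - P n b σ| ≤ nm n w := by
    have := abs_le_nm hwS σ
    rwa [hw, Finsupp.sub_apply, ← hw] at this
  refine h7.trans ?_
  have hd := dl_pos n hb
  rw [inv_mul_eq_div, le_div_iff₀ hd]
  linarith

/-- continuity in the parameters -/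
theorem P_continuousOn (n : ℕ) (σ : St) : ContinuousOn (fun b => P n b σ) Cube := by
  intro b hb
  have h1 : Tendsto (fun b' : ℕ → ℝ => (dl n b)⁻¹ *
      ∑ τ ∈ WF n, ∑ ρ ∈ WF n, |T n b' (Finsupp.single τ 1) ρ - T n b (Finsupp.single τ 1) ρ|)
      (𝓝 b) (𝓝 0) := by
    have h2 : ContinuousAt (fun b' : ℕ → ℝ => (dl n b)⁻¹ *
      ∑ τ ∈ WF n, ∑ ρ ∈ WF n, |T n b' (Finsupp.single τ 1) ρ - T n b (Finsupp.single τ 1) ρ|) b := by
      refine ContinuousAt.mul continuousAt_const ?_
      refine tendsto_finsetSum _ fun τ _ => tendsto_finsetSum _ fun ρ _ => ?_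
      exact ((continuousAt_T n hb (Finsupp.single τ 1) ρ).sub continuousAt_const).abs
    have h3 := h2.tendsto
    simpa using h3
  refine tendsto_iff_norm_sub_tendsto_zero.mpr ?_
  refine squeeze_zero' (Eventually.of_forall fun _ => norm_nonneg _) ?_
    (h1.mono_left nhdsWithin_le_nhds)
  filter_upwards [self_mem_nhdsWithin] with b' hb'
  rw [Real.norm_eq_abs]
  exact P_sub_le n hb hb' σ
end IP
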