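import Pool.Agent.Lead.IP.Transfer
/-! MODULE DoeblinA: the stationary vector on the cube.
On the cube all `sin (b j + π/6)`, `s (-(b j + π/6))` are positive, so `T n b` is a stochastic
operator on `Sup (W n)`; choosing `E` in all even factors and the identity in all other factors
of `row 0` (and the identity in `row 1`) sends every state of `W n` to `bot n`, with probability
bounded below: Doeblin's condition in one step. -/
namespace IP
open Finset Real Filter Topology

theorem T_Sup (n : ℕ) (b : ℕ → ℝ) {v : M} (hv : v ∈ Sup (W n)) : T n b v ∈ Sup (W n) :=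
  Submodule.smul_mem _ _ (Tt_Sup n b hv)

theorem cos_pos_cube {b : ℕ → ℝ} (hb : b ∈ Cube) (j : ℕ) : 0 < s (b j + π / 6) := by
  have h := hb j
  rw [abs_lt] at h
  unfold s
  have : π / 3 + (b j + π / 6) = b j + π / 2 := by ring
  rw [this, Real.sin_add_pi_div_two]
  exact Real.cos_pos_of_mem_Ioo ⟨by linarith [Real.pi_pos], by linarith [Real.pi_pos]⟩

theorem sin_pos_cube {b : ℕ → ℝ} (hb : b ∈ Cube) (j : ℕ) : 0 < Real.sin (b j + π / 6) := by
  have h := hb j
  rw [abs_lt] at h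
  exact Real.sin_pos_of_pos_of_lt_pi (by linarith) (by linarith [Real.pi_pos])

theorem s_neg_pos_cube {b : ℕ → ℝ} (hb : b ∈ Cube) (j : ℕ) : 0 < s (-(b j + π / 6)) := by
  have h := hb j
  rw [abs_lt] at h
  unfold s
  exact Real.sin_pos_of_pos_of_lt_pi (by linarith) (by linarith [Real.pi_pos])

theorem nrm_pos (n : ℕ) {b : ℕ → ℝ} (hb : b ∈ Cube) : 0 < nrm n b :=
  Finset.prod_pos fun j _ => pow_pos (cos_pos_cube hb j) 2

theorem tot_T (n : ℕ) {b : ℕ → ℝ} (hb : b ∈ Cube) (v : M) : tot (T n b v) = tot v := by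
  have h := (nrm_pos n hb).ne'
  simp only [T, LinearMap.smul_apply, map_smul, tot_Tt, smul_eq_mul]
  rw [← mul_assoc, inv_mul_cancel₀ h, one_mul]

/-! ### nonnegative vectors -/

/-- nonnegative vectors -/
def Nng (v : M) : Prop := ∀ σ, 0 ≤ v σ

theorem Nng.add {v w : M} (hv : Nng v) (hw : Nng w) : Nng (v + w) := fun σ => by
  simpa using add_nonneg (hv σ) (hw σ)

theorem Nng.smul {c : ℝ} (hc : 0 ≤ c) {v : M} (hv : Nng v) : Nng (c • v) := fun σ => by
  simpa using mul_nonneg hc (hv σ)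

theorem NN_zero : Nng 0 := fun σ => by simp

theorem NN_single (σ : St) {c : ℝ} (hc : 0 ≤ c) : Nng (Finsupp.single σ c) := fun τ => by
  classical
  rw [Finsupp.single_apply]
  split_ifs
  · exact hc
  · exact le_rfl

theorem NN_map (f : St → St) {v : M} (hv : Nng v) : Nng (Finsupp.lmapDomain ℝ ℝ f v) := fun σ => by
  classical
  rw [Finsupp.lmapDomain_apply, Finsupp.mapDomain, Finsupp.sum_apply]
  refine Finset.sum_nonneg fun τ _ => ?_
  change 0 ≤ (Finsupp.single (f τ) (v τ)) σ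
  exact NN_single _ (hv τ) σ

theorem NN_Rt (i : ℕ) {u : ℝ} (h1 : 0 ≤ s (-u)) (h2 : 0 ≤ Real.sin u) {v : M} (hv : Nng v) :
    Nng (Rt i u v) := by
  have : Rt i u v = s (-u) • v + Real.sin u • E i v := by simp [Rt]
  rw [this]
  exact (hv.smul h1).add ((NN_map _ hv).smul h2)

theorem NN_row (off : ℕ) {b : ℕ → ℝ} (hb : b ∈ Cube) (k : ℕ) : ∀ {v : M}, Nng v → Nng (row off b k v) := by
  induction k with
  | zero => intro v hv; simpa [row] using hv
  | succ k ih =>
    intro v hv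
    simp only [row, LinearMap.comp_apply]
    exact ih (NN_Rt _ (s_neg_pos_cube hb k).le (sin_pos_cube hb k).le hv)

theorem NN_Tt (n : ℕ) {b : ℕ → ℝ} (hb : b ∈ Cube) {v : M} (hv : Nng v) : Nng (Tt n b v) := by
  simp only [Tt, LinearMap.comp_apply]
  exact NN_map _ (NN_row 1 hb _ (NN_row 0 hb _ hv))

theorem NN_T (n : ℕ) {b : ℕ → ℝ} (hb : b ∈ Cube) {v : M} (hv : Nng v) : Nng (T n b v) := by
  simp only [T, LinearMap.smul_apply]
  exact (NN_Tt n hb hv).smul (inv_nonneg.mpr (nrm_pos n hb).le)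

/-! ### the Doeblin path -/

/-- state reached by `E` in the even factors, identity in the odd factors of `row 0` -/
def gst : ℕ → St → St
  | 0, σ => σ
  | k + 1, σ => gst k (if k % 2 = 0 then act k σ else σ)

/-- weight of this choice -/
noncomputable def gwt (b : ℕ → ℝ) : ℕ → ℝ
  | 0 => 1
  | k + 1 => gwt b k * (if k % 2 = 0 then Real.sin (b k + π / 6) else s (-(b k + π / 6)))

theorem gwt_pos {b : ℕ → ℝ} (hb : b ∈ Cube) (k : ℕ) : 0 < gwt b k := by
  induction k with
  | zero => simp [gwt]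
  | succ k ih =>
    simp only [gwt]
    refine mul_pos ih ?_
    split_ifs
    · exact sin_pos_cube hb k
    · exact s_neg_pos_cube hb k

theorem row0_ge {b : ℕ → ℝ} (hb : b ∈ Cube) (k : ℕ) : ∀ (σ : St) (c : ℝ), 0 ≤ c →
    Nng (row 0 b k (Finsupp.single σ c) - Finsupp.single (gst k σ) (gwt b k * c)) := by
  induction k with
  | zero => intro σ c _; simpa [row, gst, gwt] using NN_zero
  | succ k ih =>
    intro σ c hc
    simp only [row, LinearMap.comp_apply, gst, gwt, Nat.zero_add]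
    have hR : Rt k (b k + π / 6) (Finsupp.single σ c) =
        Finsupp.single σ (s (-(b k + π / 6)) * c) +
          Finsupp.single (act k σ) (Real.sin (b k + π / 6) * c) := by
      simp only [Rt, LinearMap.add_apply, LinearMap.smul_apply, LinearMap.id_apply, E_single,
        Finsupp.smul_single, smul_eq_mul]
    rw [hR, map_add]
    have h1 : 0 ≤ s (-(b k + π / 6)) * c := mul_nonneg (s_neg_pos_cube hb k).le hc
    have h2 : 0 ≤ Real.sin (b k + π / 6) * c := mul_nonneg (sin_pos_cube hb k).le hc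
    split_ifs with hk
    · have := (ih (act k σ) _ h2).add (NN_row 0 hb k (NN_single σ h1))
      convert this using 1
      rw [← mul_assoc]
      abel
    · have := (ih σ _ h1).add (NN_row 0 hb k (NN_single (act k σ) h2))
      convert this using 1
      rw [← mul_assoc]
      abel

/-- weight of the identity in `row` -/
noncomputable def iwt (b : ℕ → ℝ) : ℕ → ℝ
  | 0 => 1
  | k + 1 => iwt b k * s (-(b k + π / 6))

theorem iwt_pos {b : ℕ → ℝ} (hb : b ∈ Cube) (k : ℕ) : 0 < iwt b k := by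
  induction k with
  | zero => simp [iwt]
  | succ k ih => exact mul_pos ih (s_neg_pos_cube hb k)

theorem row_ge (off : ℕ) {b : ℕ → ℝ} (hb : b ∈ Cube) (k : ℕ) : ∀ {v : M}, Nng v →
    Nng (row off b k v - iwt b k • v) := by
  induction k with
  | zero => intro v _; simpa [row, iwt] using NN_zero
  | succ k ih =>
    intro v hv
    simp only [row, LinearMap.comp_apply, iwt]
    have h1 : Nng (row off b k (Rt (off + k) (b k + π / 6) v) -
        iwt b k • Rt (off + k) (b k + π / 6) v) :=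
      ih (NN_Rt _ (s_neg_pos_cube hb k).le (sin_pos_cube hb k).le hv)
    have h2 : Nng (iwt b k • (Real.sin (b k + π / 6) • E (off + k) v)) :=
      ((NN_map _ hv).smul (sin_pos_cube hb k).le).smul (iwt_pos hb k).le
    convert h1.add h2 using 1
    simp only [Rt, LinearMap.add_apply, LinearMap.smul_apply, LinearMap.id_apply]
    rw [smul_add, ← mul_smul]
    abel

theorem gst_odd (m : ℕ) : ∀ σ : St,
    gst (2 * m + 1) σ = (List.range (m + 1)).foldr (fun k τ => act (2 * k) τ) σ := by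
  induction m with
  | zero => intro σ; simp [gst]
  | succ m ih =>
    intro σ
    have h1 : gst (2 * (m + 1) + 1) σ = gst (2 * m + 1) (act (2 * (m + 1)) σ) := by
      have e1 : 2 * (m + 1) + 1 = (2 * m + 1) + 1 + 1 := by ring
      rw [e1]
      simp only [gst]
      have e2 : (2 * m + 1 + 1) % 2 = 0 := by omega
      have e3 : (2 * m + 1) % 2 ≠ 0 := by omega
      rw [if_pos e2, if_neg e3]
      rfl
    rw [h1, ih, List.range_succ (n := m + 1), List.foldr_append]
    rfl

theorem gst_bot (n : ℕ) {σ : St} (hσ : σ ∈ W n) : gst (2 * n + 1) σ = bot (n + 1) := by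
  rw [gst_odd]
  exact detach_all n hσ _ fun k => by rw [List.mem_range]; omega

/-- Doeblin's constant -/
noncomputable def dl (n : ℕ) (b : ℕ → ℝ) : ℝ :=
  (nrm n b)⁻¹ * (iwt b (2 * n + 1) * gwt b (2 * n + 1))

theorem dl_pos (n : ℕ) {b : ℕ → ℝ} (hb : b ∈ Cube) : 0 < dl n b :=
  mul_pos (inv_pos.mpr (nrm_pos n hb)) (mul_pos (iwt_pos hb _) (gwt_pos hb _))

theorem T_ge (n : ℕ) {b : ℕ → ℝ} (hb : b ∈ Cube) {σ : St} (hσ : σ ∈ W n) :
    Nng (T n b (Finsupp.single σ 1) - Finsupp.single (bot n) (dl n b)) := by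
  have h0 := row0_ge hb (2 * n + 1) σ 1 zero_le_one
  rw [gst_bot n hσ, mul_one] at h0
  have h1 := NN_row 1 hb (2 * n + 1) h0
  have h2 := row_ge 1 hb (2 * n + 1) (NN_single (bot (n + 1)) (gwt_pos hb (2 * n + 1)).le)
  have h3 := NN_map (del 0) (h1.add h2)
  have h4 := h3.smul (inv_nonneg.mpr (nrm_pos n hb).le)
  convert h4 using 1
  have e : Finsupp.lmapDomain ℝ ℝ (del 0) = De 0 := rfl
  rw [e]
  simp only [T, Tt, LinearMap.smul_apply, LinearMap.comp_apply, map_sub, map_add,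
    De_single, del_bot, Finsupp.smul_single, smul_eq_mul, dl]
  rw [sub_add_sub_cancel, smul_sub, Finsupp.smul_single, smul_eq_mul]

/-! ### expansion in the finite set `W n` -/

/-- the finite set of states -/
noncomputable def WF (n : ℕ) : Finset St := (W_finite n).toFinset

theorem mem_WF {n : ℕ} {σ : St} : σ ∈ WF n ↔ σ ∈ W n := by simp [WF]

theorem expand {n : ℕ} {v : M} (hv : v ∈ Sup (W n)) :
    v = ∑ τ ∈ WF n, v τ • (Finsupp.single τ (1 : ℝ) : M) := by
  classical
  ext σ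
  rw [Finsupp.finsetSum_apply]
  simp only [Finsupp.smul_apply, Finsupp.single_apply, smul_eq_mul, mul_ite, mul_one, mul_zero]
  rw [Finset.sum_ite_eq']
  split_ifs with h
  · rfl
  · have : σ ∉ W n := fun h' => h (mem_WF.mpr h')
    by_contra hne
    exact this (hv (by simpa using hne))

theorem Sup_zero {A : Set St} {v : M} (hv : v ∈ Sup A) {σ : St} (h : σ ∉ A) : v σ = 0 := by
  by_contra hne
  exact h (hv (by simpa using hne))

theorem tot_eq {n : ℕ} {v : M} (hv : v ∈ Sup (W n)) : tot v = ∑ τ ∈ WF n, v τ := by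
  conv_lhs => rw [expand hv]
  rw [map_sum]
  refine Finset.sum_congr rfl fun τ _ => ?_
  rw [map_smul, tot_single, smul_eq_mul, mul_one]

/-- l1 norm on `Sup (W n)` -/
noncomputable def nm (n : ℕ) (v : M) : ℝ := ∑ τ ∈ WF n, |v τ|

theorem nm_nonneg (n : ℕ) (v : M) : 0 ≤ nm n v := Finset.sum_nonneg fun _ _ => abs_nonneg _

theorem abs_le_nm {n : ℕ} {v : M} (hv : v ∈ Sup (W n)) (σ : St) : |v σ| ≤ nm n v := by
  by_cases h : σ ∈ W n
  · exact Finset.single_le_sum (f := fun τ => |v τ|) (fun _ _ => abs_nonneg _) (mem_WF.mpr h)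
  · rw [Sup_zero hv h, abs_zero]; exact nm_nonneg n v

theorem single_Sup {A : Set St} {σ : St} (h : σ ∈ A) (c : ℝ) : Finsupp.single σ c ∈ Sup A :=
  Finsupp.single_mem_supported ℝ c h

/-- the contraction -/
theorem nm_T (n : ℕ) {b : ℕ → ℝ} (hb : b ∈ Cube) {v : M} (hv : v ∈ Sup (W n)) (h0 : tot v = 0) :
    nm n (T n b v) ≤ (1 - dl n b) * nm n v := by
  classical
  set q : St → M := fun τ => T n b (Finsupp.single τ 1) - Finsupp.single (bot n) (dl n b) with hq
  have hqS : ∀ τ ∈ WF n, q τ ∈ Sup (W n) := fun τ hτ =>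
    Submodule.sub_mem _ (T_Sup n b (single_Sup (mem_WF.mp hτ) 1)) (single_Sup (bot_W n) _)
  have hqt : ∀ τ ∈ WF n, ∑ σ ∈ WF n, q τ σ = 1 - dl n b := by
    intro τ hτ
    rw [← tot_eq (hqS τ hτ)]
    simp only [hq, map_sub, tot_T n hb, tot_single]
  have hTv : T n b v = ∑ τ ∈ WF n, v τ • q τ := by
    have h1 : T n b v = ∑ τ ∈ WF n, v τ • T n b (Finsupp.single τ 1) := by
      conv_lhs => rw [expand hv]
      rw [map_sum]
      exact Finset.sum_congr rfl fun τ _ => map_smul _ _ _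
    have h2 : ∑ τ ∈ WF n, v τ • q τ = ∑ τ ∈ WF n, v τ • T n b (Finsupp.single τ 1) -
        (∑ τ ∈ WF n, v τ) • Finsupp.single (bot n) (dl n b) := by
      rw [Finset.sum_smul, ← Finset.sum_sub_distrib]
      exact Finset.sum_congr rfl fun τ _ => smul_sub _ _ _
    rw [h1, h2, ← tot_eq hv, h0, zero_smul, sub_zero]
  rw [nm, nm, hTv]
  calc ∑ σ ∈ WF n, |(∑ τ ∈ WF n, v τ • q τ) σ|
      ≤ ∑ σ ∈ WF n, ∑ τ ∈ WF n, |v τ| * q τ σ := by
        refine Finset.sum_le_sum fun σ _ => ?_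
        rw [Finsupp.finsetSum_apply]
        refine (Finset.abs_sum_le_sum_abs _ _).trans (Finset.sum_le_sum fun τ hτ => ?_)
        rw [Finsupp.smul_apply, smul_eq_mul, abs_mul, abs_of_nonneg (T_ge n hb (mem_WF.mp hτ) σ)]
    _ = ∑ τ ∈ WF n, |v τ| * (1 - dl n b) := by
        rw [Finset.sum_comm]
        refine Finset.sum_congr rfl fun τ hτ => ?_
        rw [← Finset.mul_sum, hqt τ hτ]
    _ = (1 - dl n b) * ∑ τ ∈ WF n, |v τ| := by
        rw [← Finset.sum_mul, mul_comm]

theorem dl_lt (n : ℕ) {b : ℕ → ℝ} (hb : b ∈ Cube) : dl n b ≤ 1 := by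
  classical
  have h := T_ge n hb (bot_W n)
  have h1 : tot (T n b (Finsupp.single (bot n) 1) - Finsupp.single (bot n) (dl n b)) =
      1 - dl n b := by
    simp only [map_sub, tot_T n hb, tot_single]
  have h2 : (T n b (Finsupp.single (bot n) 1) - Finsupp.single (bot n) (dl n b)) ∈ Sup (W n) :=
    Submodule.sub_mem _ (T_Sup n b (single_Sup (bot_W n) 1)) (single_Sup (bot_W n) _)
  rw [tot_eq h2] at h1
  have h3 := Finset.sum_nonneg (s := WF n) fun τ _ => h τ
  linarith

theorem pow_T_Sup (n : ℕ) (b : ℕ → ℝ) {v : M} (hv : v ∈ Sup (W n)) (N : ℕ) :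
    ((T n b) ^ N) v ∈ Sup (W n) := by
  induction N with
  | zero => simpa using hv
  | succ N ih => rw [pow_succ', Module.End.mul_apply]; exact T_Sup n b ih

theorem tot_pow_T (n : ℕ) {b : ℕ → ℝ} (hb : b ∈ Cube) (v : M) (N : ℕ) :
    tot (((T n b) ^ N) v) = tot v := by
  induction N with
  | zero => simp
  | succ N ih => rw [pow_succ', Module.End.mul_apply, tot_T n hb, ih]

theorem nm_pow_T (n : ℕ) {b : ℕ → ℝ} (hb : b ∈ Cube) {v : M} (hv : v ∈ Sup (W n))
    (h0 : tot v = 0) (N : ℕ) : nm n (((T n b) ^ N) v) ≤ (1 - dl n b) ^ N * nm n v := by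
  induction N with
  | zero => simp
  | succ N ih =>
    rw [pow_succ', Module.End.mul_apply]
    refine (nm_T n hb (pow_T_Sup n b hv N) (by rw [tot_pow_T n hb, h0])).trans ?_
    rw [pow_succ', mul_assoc]
    exact mul_le_mul_of_nonneg_left ih (by linarith [dl_lt n hb])

theorem tendsto_zero (n : ℕ) {b : ℕ → ℝ} (hb : b ∈ Cube) {v : M} (hv : v ∈ Sup (W n))
    (h0 : tot v = 0) (σ : St) : Tendsto (fun N : ℕ => ((T n b) ^ N) v σ) atTop (𝓝 0) := by
  have h1 : Tendsto (fun N : ℕ => (1 - dl n b) ^ N * nm n v) atTop (𝓝 0) := by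
    have := (tendsto_pow_atTop_nhds_zero_of_lt_one (r := 1 - dl n b)
      (by linarith [dl_lt n hb]) (by linarith [dl_pos n hb])).mul_const (nm n v)
    simpa using this
  refine squeeze_zero_norm (fun N => ?_) h1
  rw [Real.norm_eq_abs]
  exact (abs_le_nm (pow_T_Sup n b hv N) σ).trans (nm_pow_T n hb hv h0 N)

theorem fixed_zero (n : ℕ) {b : ℕ → ℝ} (hb : b ∈ Cube) {v : M} (hv : v ∈ Sup (W n))
    (h0 : tot v = 0) (h : T n b v = v) : v = 0 := by
  have hp : ∀ N : ℕ, ((T n b) ^ N) v = v := by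
    intro N
    induction N with
    | zero => simp
    | succ N ih => rw [pow_succ', Module.End.mul_apply, ih, h]
  ext σ
  have h1 := tendsto_zero n hb hv h0 σ
  simp only [hp] at h1
  exact tendsto_nhds_unique tendsto_const_nhds h1

theorem exists_fixed (n : ℕ) {b : ℕ → ℝ} (hb : b ∈ Cube) :
    ∃ v : M, v ∈ Sup (W n) ∧ T n b v = v ∧ tot v = 1 := by
  classical
  have : Finite (W n) := (W_finite n).to_subtype
  have : Module.Finite ℝ (Sup (W n)) :=
    Module.Finite.equiv (Finsupp.supportedEquivFinsupp (R := ℝ) (M := ℝ) (W n)).symm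
  let A : Sup (W n) →ₗ[ℝ] Sup (W n) :=
    ((T n b) - LinearMap.id).restrict (p := Sup (W n)) (q := Sup (W n))
      (fun v hv => Submodule.sub_mem _ (T_Sup n b hv) hv)
  have hns : ¬ Function.Surjective A := by
    intro hs
    obtain ⟨w, hw⟩ := hs ⟨Finsupp.single (bot n) 1, single_Sup (bot_W n) 1⟩
    have h1 : (A w : M) = Finsupp.single (bot n) 1 := by rw [hw]
    have h2 : tot (A w : M) = 0 := by
      change tot (T n b (w : M) - (w : M)) = 0
      rw [map_sub, tot_T n hb, sub_self]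
    rw [h1, tot_single] at h2
    exact one_ne_zero h2
  have hni : ¬ Function.Injective A := by
    intro h
    have h2 : Function.Surjective A := by
      have h3 := @LinearMap.surjective_of_injective ℝ (Sup (W n)) _ _ _ _ A h
      exact h3
    exact hns h2
  have hex : ∃ w, A w = 0 ∧ w ≠ 0 := by
    by_contra hcon
    push Not at hcon
    apply hni
    intro x y hxy
    have h0 : A (x - y) = 0 := by
      apply Subtype.ext
      have h5 : (A x : M) = (A y : M) := by rw [hxy]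
      have h6 : T n b (x : M) - (x : M) = T n b (y : M) - (y : M) := h5
      change T n b ((x : M) - (y : M)) - ((x : M) - (y : M)) = 0
      rw [map_sub, sub_sub_sub_comm, h6, sub_self]
    exact sub_eq_zero.mp (hcon _ h0)
  obtain ⟨w, hw, hw0⟩ := hex
  have hfix : T n b (w : M) = w := by
    have h1 : (A w : M) = 0 := by rw [hw]; rfl
    have h2 : T n b (w : M) - (w : M) = 0 := h1
    exact sub_eq_zero.mp h2
  have ht : tot (w : M) ≠ 0 := fun h0 => hw0 (Subtype.ext (fixed_zero n hb w.2 h0 hfix))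
  refine ⟨(tot (w : M))⁻¹ • (w : M), Submodule.smul_mem _ _ w.2, ?_, ?_⟩
  · rw [map_smul, hfix]
  · rw [map_smul, smul_eq_mul, inv_mul_cancel₀ ht]

theorem pow_T_NC (n : ℕ) (b : ℕ → ℝ) {v : M} (hv : v ∈ Sup NC) (N : ℕ) :
    ((T n b) ^ N) v ∈ Sup NC := by
  induction N with
  | zero => simpa using hv
  | succ N ih =>
    rw [pow_succ', Module.End.mul_apply]
    exact Submodule.smul_mem _ _ (Tt_NC n b ih)

theorem pow_T_NN (n : ℕ) {b : ℕ → ℝ} (hb : b ∈ Cube) {v : M} (hv : Nng v) (N : ℕ) :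
    Nng (((T n b) ^ N) v) := by
  induction N with
  | zero => simpa using hv
  | succ N ih => rw [pow_succ', Module.End.mul_apply]; exact NN_T n hb ih

/-- existence, uniqueness and convergence -/
theorem stat_exists (n : ℕ) {b : ℕ → ℝ} (hb : b ∈ Cube) :
    ∃ p : M, p ∈ Sup (W n) ∧ p ∈ Sup NC ∧ (∀ σ, 0 ≤ p σ) ∧ tot p = 1 ∧ T n b p = p ∧
      (∀ v ∈ Sup (W n), T n b v = v → v = tot v • p) ∧
      (∀ v ∈ Sup (W n), ∀ σ, Tendsto (fun N : ℕ => ((T n b) ^ N) v σ) atTop (𝓝 (tot v * p σ))) := by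
  obtain ⟨p, hpS, hpf, hpt⟩ := exists_fixed n hb
  have hp : ∀ N : ℕ, ((T n b) ^ N) p = p := by
    intro N
    induction N with
    | zero => simp
    | succ N ih => rw [pow_succ', Module.End.mul_apply, ih, hpf]
  have hconv : ∀ v ∈ Sup (W n), ∀ σ,
      Tendsto (fun N : ℕ => ((T n b) ^ N) v σ) atTop (𝓝 (tot v * p σ)) := by
    intro v hv σ
    have hw : v - tot v • p ∈ Sup (W n) := Submodule.sub_mem _ hv (Submodule.smul_mem _ _ hpS)
    have hw0 : tot (v - tot v • p) = 0 := by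
      rw [map_sub, map_smul, hpt, smul_eq_mul, mul_one, sub_self]
    have h1 := (tendsto_zero n hb hw hw0 σ).add_const (tot v * p σ)
    rw [zero_add] at h1
    refine h1.congr fun N => ?_
    rw [map_sub, map_smul, hp, Finsupp.sub_apply, Finsupp.smul_apply, smul_eq_mul]
    ring
  have hbot := fun σ => hconv (Finsupp.single (bot n) 1) (single_Sup (bot_W n) 1) σ
  simp only [tot_single, one_mul] at hbot
  refine ⟨p, hpS, ?_, ?_, hpt, hpf, ?_, hconv⟩
  · intro σ hσ
    by_contra hn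
    have h1 : ∀ N : ℕ, ((T n b) ^ N) (Finsupp.single (bot n) 1) σ = 0 := fun N =>
      Sup_zero (pow_T_NC n b (single_Sup (bot_NC n) 1) N) hn
    have h2 := hbot σ
    simp only [h1] at h2
    have h3 : p σ = 0 := (tendsto_nhds_unique tendsto_const_nhds h2).symm
    rw [Finset.mem_coe, Finsupp.mem_support_iff] at hσ
    exact hσ h3
  · intro σ
    exact ge_of_tendsto' (hbot σ) fun N => pow_T_NN n hb (NN_single _ zero_le_one) N σ
  · intro v hv hvf
    have hw : v - tot v • p ∈ Sup (W n) := Submodule.sub_mem _ hv (Submodule.smul_mem _ _ hpS)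
    have hw0 : tot (v - tot v • p) = 0 := by
      rw [map_sub, map_smul, hpt, smul_eq_mul, mul_one, sub_self]
    have := fixed_zero n hb hw hw0 (by rw [map_sub, map_smul, hvf, hpf])
    exact sub_eq_zero.mp this

open Classical in
/-- the stationary vector -/
noncomputable def P (n : ℕ) (b : ℕ → ℝ) : M :=
  if hb : b ∈ Cube then (stat_exists n hb).choose else 0

theorem P_spec (n : ℕ) {b : ℕ → ℝ} (hb : b ∈ Cube) :
    P n b ∈ Sup (W n) ∧ P n b ∈ Sup NC ∧ (∀ σ, 0 ≤ P n b σ) ∧ tot (P n b) = 1 ∧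
      T n b (P n b) = P n b ∧
      (∀ v ∈ Sup (W n), T n b v = v → v = tot v • P n b) ∧
      (∀ v ∈ Sup (W n), ∀ σ,
        Tendsto (fun N : ℕ => ((T n b) ^ N) v σ) atTop (𝓝 (tot v * P n b σ))) := by
  have : P n b = (stat_exists n hb).choose := by simp only [P, dif_pos hb]
  rw [this]
  exact (stat_exists n hb).choose_spec

theorem P_Sup (n : ℕ) (b : ℕ → ℝ) : P n b ∈ Sup (W n) := by
  by_cases hb : b ∈ Cube
  · exact (P_spec n hb).1
  · simp only [P, dif_neg hb]; exact Submodule.zero_mem _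

theorem P_NC (n : ℕ) (b : ℕ → ℝ) : P n b ∈ Sup NC := by
  by_cases hb : b ∈ Cube
  · exact (P_spec n hb).2.1
  · simp only [P, dif_neg hb]; exact Submodule.zero_mem _

theorem P_nonneg (n : ℕ) (b : ℕ → ℝ) (σ : St) : 0 ≤ P n b σ := by
  by_cases hb : b ∈ Cube
  · exact (P_spec n hb).2.2.1 σ
  · simp only [P, dif_neg hb]; exact le_rfl

theorem tot_P (n : ℕ) {b : ℕ → ℝ} (hb : b ∈ Cube) : tot (P n b) = 1 := (P_spec n hb).2.2.2.1

theorem T_P (n : ℕ) {b : ℕ → ℝ} (hb : b ∈ Cube) : T n b (P n b) = P n b := (P_spec n hb).2.2.2.2.1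

theorem T_eq_iff (n : ℕ) {b : ℕ → ℝ} (hb : b ∈ Cube) (v w : M) :
    T n b v = w ↔ Tt n b v = nrm n b • w := by
  have h := (nrm_pos n hb).ne'
  simp only [T, LinearMap.smul_apply]
  constructor
  · rintro rfl
    rw [smul_smul, mul_inv_cancel₀ h, one_smul]
  · intro h1
    rw [h1, smul_smul, inv_mul_cancel₀ h, one_smul]

theorem Tt_P (n : ℕ) {b : ℕ → ℝ} (hb : b ∈ Cube) : Tt n b (P n b) = nrm n b • P n b :=
  (T_eq_iff n hb _ _).mp (T_P n hb)

theorem P_unique (n : ℕ) {b : ℕ → ℝ} (hb : b ∈ Cube) {v : M} (hv : v ∈ Sup (W n))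
    (h : Tt n b v = nrm n b • v) : v = tot v • P n b :=
  (P_spec n hb).2.2.2.2.2.1 v hv ((T_eq_iff n hb _ _).mpr h)

theorem P_tendsto (n : ℕ) {b : ℕ → ℝ} (hb : b ∈ Cube) {v : M} (hv : v ∈ Sup (W n)) (σ : St) :
    Tendsto (fun N : ℕ => ((T n b) ^ N) v σ) atTop (𝓝 (tot v * P n b σ)) :=
  (P_spec n hb).2.2.2.2.2.2 v hv σ

theorem P_congr (n : ℕ) {b b' : ℕ → ℝ} (hb : b ∈ Cube) (hb' : b' ∈ Cube)
    (h : ∀ j < 2 * n + 1, b j = b' j) : P n b = P n b' := by
  have h1 : Tt n b' (P n b) = nrm n b' • P n b := by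
    rw [← Tt_congr n h, ← nrm_congr n h]
    exact Tt_P n hb
  have h2 := P_unique n hb' (P_Sup n b) h1
  rw [tot_P n hb, one_smul] at h2
  exact h2
end IP
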