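import Pool.Agent.Lead.IP.Exch
import Pool.Agent.Lead.IP.Chain
/-! MODULE Erel: the linear relations between the values of `phi`.
Put `a j = -b (2n-j)` for `j ≤ n` (mirror image); then the functional
`(coordinate top) ∘ E n ∘ E (n+1) ∘ ... ∘ E (2n-1)` applied to `P n b` is `chain n (fL n * Γ) a`
with `Γ = gg * phi` (up to `fL (n) (b)`-type constants coming from the left group) and it is
invariant under `ng (2n)`, by `P_ngR`.  Then use `chain_diff`, `K_lagrange` and the Lagrange identity
`Σ_p Q(p)/∏_{p'≠p}(p-p') = 0` for polynomials `Q` of degree `≤ n` at `n+2` points. -/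
namespace IP
open Finset Real

noncomputable def eta (x : ℝ) : ℝ := 2 * Real.cos (2 * π / 3 - 2 * x)
noncomputable def gg (n : ℕ) (b : ℕ → ℝ) (x : ℝ) : ℝ := ∏ k ∈ range n, (2 * Real.cos (2 * b k) - eta x)
/-- genericity -/
def Gnr (n : ℕ) (b : ℕ → ℝ) : Prop :=
  (∀ i j, i ≤ 2 * n → j ≤ 2 * n → i ≠ j → b i ≠ b j ∧ b i ≠ -b j) ∧ ∀ i ≤ 2 * n, b i ≠ 0

/-- exchange of the coordinates `n` and `j` -/
def pt (n j : ℕ) (b : ℕ → ℝ) : ℕ → ℝ := fun i => b (Equiv.swap n j i)

theorem er_comp_Cube {c : ℕ → ℝ} (hc : c ∈ Cube) (f : ℕ → ℕ) : (fun l => c (f l)) ∈ Cube :=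
  fun _ => hc _

/-- transpositions of the coordinates `n+1, ..., 2n` -/
theorem er_phi_swap {n : ℕ} : ∀ (d : ℕ) {i : ℕ} {c : ℕ → ℝ}, n < i → i + d ≤ 2 * n → c ∈ Cube →
    phi n (fun l => c (Equiv.swap i (i + d) l)) = phi n c := by
  intro d
  induction d with
  | zero =>
    intro i c _ _ _
    congr 1
    funext l
    rw [add_zero, Equiv.swap_self]
    rfl
  | succ d ih =>
    intro i c hi hd hc
    rcases Nat.eq_zero_or_pos d with rfl | hd0
    · exact phi_sw_ne (i := i) (by omega) (by omega) hc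
    · have h1 : Equiv.swap i (i + (d + 1)) =
          Equiv.swap (i + d) (i + d + 1) * Equiv.swap i (i + d) * Equiv.swap (i + d) (i + d + 1) := by
        rw [Equiv.swap_mul_swap_mul_swap (by omega) (by omega), Equiv.swap_comm]
        rfl
      have h2 : (fun l => c (Equiv.swap i (i + (d + 1)) l)) =
          sw (i + d) (fun l => (sw (i + d) c) (Equiv.swap i (i + d) l)) := by
        funext l
        rw [h1]
        rfl
      rw [h2, phi_sw_ne (by omega) (by omega) (er_comp_Cube (sw_Cube _ hc) _),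
        ih hi (by omega) (sw_Cube _ hc), phi_sw_ne (by omega) (by omega) hc]

/-- permutations of the coordinates `n+1, ..., 2n` -/
theorem er_phi_perm {n : ℕ} : ∀ (m : ℕ), m ≤ n → ∀ (τ : Equiv.Perm ℕ) {c : ℕ → ℝ}, c ∈ Cube →
    (∀ l, l ≤ n → τ l = l) → (∀ l, n + m < l → τ l = l) →
    phi n (fun l => c (τ l)) = phi n c := by
  intro m
  induction m with
  | zero =>
    intro _ τ c _ h1 h2
    congr 1
    funext l
    rcases Nat.lt_or_ge n l with h | h
    · rw [h2 l (by omega)]
    · rw [h1 l h]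
  | succ m ih =>
    intro hm τ c hc h1 h2
    have hj1 : n < τ (n + m + 1) := by
      by_contra hcon
      have h3 := h1 (τ (n + m + 1)) (by omega)
      have h4 := τ.injective h3
      omega
    have hj2 : τ (n + m + 1) ≤ n + m + 1 := by
      by_contra hcon
      have h3 := h2 (τ (n + m + 1)) (by omega)
      have h4 := τ.injective h3
      omega
    obtain ⟨j, hj⟩ : ∃ j, j = τ (n + m + 1) := ⟨_, rfl⟩
    rw [← hj] at hj1 hj2
    have h3 : (fun l => c (τ l)) = fun l => (fun l => c (Equiv.swap j (n + m + 1) l))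
        ((τ.trans (Equiv.swap j (n + m + 1))) l) := by
      funext l
      simp only [Equiv.trans_apply, Equiv.swap_apply_self]
    rw [h3, ih (by omega) (τ.trans (Equiv.swap j (n + m + 1))) (er_comp_Cube hc _)]
    · obtain ⟨d, hd⟩ : ∃ d, n + m + 1 = j + d := ⟨n + m + 1 - j, by omega⟩
      rw [hd]
      exact er_phi_swap d hj1 (by omega) hc
    · intro l hl
      rw [Equiv.trans_apply, h1 l hl, Equiv.swap_apply_of_ne_of_ne (by omega) (by omega)]
    · intro l hl
      rw [Equiv.trans_apply]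
      by_cases h4 : l = n + m + 1
      · subst h4
        rw [← hj, Equiv.swap_apply_left]
      · rw [h2 l (by omega), Equiv.swap_apply_of_ne_of_ne (by omega) h4]

/-- the first `n` coordinates of `b`, followed by `-a n, ..., -a 0` -/
def er_mir (n : ℕ) (b a : ℕ → ℝ) : ℕ → ℝ :=
  fun i => if i < n then b i else if i ≤ 2 * n then -a (2 * n - i) else b i

theorem er_mir_Cube (n : ℕ) {b a : ℕ → ℝ} (hb : b ∈ Cube) (ha : a ∈ Cube) :
    er_mir n b a ∈ Cube := by
  intro j
  unfold er_mir
  split_ifs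
  · exact hb j
  · rw [abs_neg]
    exact ha _
  · exact hb j

theorem er_mir_sw {n m k : ℕ} (h : k + m + 1 = n) (b a : ℕ → ℝ) :
    er_mir n b (sw k a) = sw (n + m) (er_mir n b a) := by
  funext l
  show (if l < n then b l else if l ≤ 2 * n then -a (Equiv.swap k (k + 1) (2 * n - l)) else b l) =
    er_mir n b a (Equiv.swap (n + m) (n + m + 1) l)
  by_cases h1 : l = n + m
  · subst h1
    rw [Equiv.swap_apply_left, show 2 * n - (n + m) = k + 1 by omega, Equiv.swap_apply_right]
    unfold er_mir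
    rw [if_neg (by omega), if_pos (by omega), if_neg (by omega), if_pos (by omega),
      show 2 * n - (n + m + 1) = k by omega]
  · by_cases h2 : l = n + m + 1
    · subst h2
      rw [Equiv.swap_apply_right, show 2 * n - (n + m + 1) = k by omega, Equiv.swap_apply_left]
      unfold er_mir
      rw [if_neg (by omega), if_pos (by omega), if_neg (by omega), if_pos (by omega),
        show 2 * n - (n + m) = k + 1 by omega]
    · rw [Equiv.swap_apply_of_ne_of_ne h1 h2]
      unfold er_mir
      split_ifs with h3 h4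
      · rfl
      · rw [Equiv.swap_apply_of_ne_of_ne (by omega) (by omega)]
      · rfl

theorem er_mir_ng {n j : ℕ} (hj : j ≤ n) (b a : ℕ → ℝ) :
    er_mir n b (ng j a) = ng (2 * n - j) (er_mir n b a) := by
  funext l
  by_cases h1 : l = 2 * n - j
  · subst h1
    unfold ng er_mir
    rw [Function.update_self]
    rw [if_neg (by omega), if_pos (by omega), if_neg (by omega), if_pos (by omega),
      show 2 * n - (2 * n - j) = j by omega, Function.update_self]
  · unfold ng
    rw [Function.update_of_ne h1]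
    unfold er_mir
    split_ifs with h3 h4
    · rfl
    · rw [Function.update_of_ne (by omega)]
    · rfl

/-- the functionals `top ∘ E n ∘ ... ∘ E (n+k-1)` -/
noncomputable def er_L (n : ℕ) : ℕ → (M →ₗ[ℝ] ℝ)
  | 0 => Finsupp.lapply (top n)
  | k + 1 => er_L n k ∘ₗ E (n + k)

/-- the values of the functionals at the mirror image -/
noncomputable def er_G (n : ℕ) (b : ℕ → ℝ) (m : ℕ) (a : ℕ → ℝ) : ℝ := er_L n m (P n (er_mir n b a))

/-- generic points for the chain -/
def er_D (n : ℕ) : Set (ℕ → ℝ) :=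
  {a | a ∈ Cube ∧ ∀ i j, i ≤ n → j ≤ n → i ≠ j → a i ≠ a j}

theorem er_D_sw {n k : ℕ} (hk : k < n) {a : ℕ → ℝ} (ha : a ∈ er_D n) : sw k a ∈ er_D n := by
  refine ⟨sw_Cube k ha.1, fun i j hi hj hij => ?_⟩
  have h1 : ∀ i, i ≤ n → Equiv.swap k (k + 1) i ≤ n := by
    intro i hi
    by_cases h2 : i = k
    · subst h2
      rw [Equiv.swap_apply_left]
      omega
    · by_cases h3 : i = k + 1
      · subst h3
        rw [Equiv.swap_apply_right]
        omega
      · rw [Equiv.swap_apply_of_ne_of_ne h2 h3]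
        exact hi
  exact ha.2 _ _ (h1 i hi) (h1 j hj) fun h => hij ((Equiv.swap k (k + 1)).injective h)

theorem er_sin_ne {x y : ℝ} (hx : |x| < π / 6) (hy : |y| < π / 6) (h : x ≠ y) :
    Real.sin (x - y) ≠ 0 := by
  have h1 := abs_lt.1 hx
  have h2 := abs_lt.1 hy
  have h3 := Real.pi_pos
  intro h4
  have h5 := (Real.sin_eq_zero_iff_of_lt_of_lt (x := x - y) (by linarith) (by linarith)).1 h4
  exact h (by linarith)

theorem er_tt {n m k : ℕ} (h : k + m + 1 = n) {b : ℕ → ℝ} (hb : b ∈ Cube) {a : ℕ → ℝ}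
    (ha : a ∈ er_D n) : tt k (er_G n b m) a = er_G n b (m + 1) a := by
  have h1 := E_P (n := n) (i := n + m) (by omega) (er_mir_Cube n hb ha.1) (er_L n m)
  rw [← er_mir_sw h] at h1
  have h2 : er_mir n b a (n + m) - er_mir n b a (n + m + 1) = a k - a (k + 1) := by
    unfold er_mir
    rw [if_neg (by omega), if_pos (by omega), if_neg (by omega), if_pos (by omega),
      show 2 * n - (n + m) = k + 1 by omega, show 2 * n - (n + m + 1) = k by omega]
    ring
  rw [h2] at h1
  have h3 := er_sin_ne (ha.1 k) (ha.1 (k + 1)) (ha.2 k (k + 1) (by omega) (by omega) (by omega))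
  unfold tt
  rw [div_eq_iff h3]
  have h4 : er_G n b (m + 1) a = er_L n m (E (n + m) (P n (er_mir n b a))) := rfl
  rw [h4, mul_comm _ (Real.sin (a k - a (k + 1))), h1]
  rfl

theorem er_chain_congr {D : Set (ℕ → ℝ)} : ∀ (k : ℕ), (∀ i < k, ∀ a ∈ D, sw i a ∈ D) →
    ∀ (F G : (ℕ → ℝ) → ℝ), (∀ a ∈ D, F a = G a) → ∀ a ∈ D, chain k F a = chain k G a := by
  intro k
  induction k with
  | zero => exact fun _ F G h a ha => h a ha
  | succ k ih =>
    intro hD F G h a ha
    refine ih (fun i hi => hD i (by omega)) (tt k F) (tt k G) (fun c hc => ?_) a ha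
    unfold tt
    rw [h c hc, h _ (hD k (by omega) c hc)]

theorem er_chain {n : ℕ} {b : ℕ → ℝ} (hb : b ∈ Cube) : ∀ (k m : ℕ), k + m = n →
    ∀ a ∈ er_D n, chain k (er_G n b m) a = er_G n b n a := by
  intro k
  induction k with
  | zero =>
    intro m hm a _
    rw [show m = n by omega]
    rfl
  | succ k ih =>
    intro m hm a ha
    have h1 : chain (k + 1) (er_G n b m) a = chain k (tt k (er_G n b m)) a := rfl
    rw [h1, er_chain_congr k (D := er_D n) (fun i hi c hc => er_D_sw (by omega) hc)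
      (tt k (er_G n b m)) (er_G n b (m + 1)) (fun c hc => er_tt (by omega) hb hc) a ha]
    exact ih (m + 1) (by omega) a ha

/-- the left part of `f0` -/
noncomputable def er_c (n : ℕ) (b : ℕ → ℝ) : ℝ :=
  (∏ j ∈ range n, ∏ i ∈ range j, s (b i - b j) * s (-b i - b j)) * (1 / 4) ^ n

theorem er_c_ne (n : ℕ) {b : ℕ → ℝ} (hb : b ∈ Cube) : er_c n b ≠ 0 := by
  unfold er_c
  refine mul_ne_zero ?_ (by positivity)
  exact prod_ne_zero_iff.2 fun j _ => prod_ne_zero_iff.2 fun i _ =>
    mul_ne_zero (s_sub_pos hb i j).ne' (s_neg_add_pos hb i j).ne'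

theorem er_ss (x y : ℝ) : s (y - x) * s (-y - x) = 1 / 4 * (2 * Real.cos (2 * y) - eta x) := by
  have h1 : Real.cos (2 * y) = Real.cos ((π / 3 + (y - x)) - (π / 3 + (-y - x))) := by
    congr 1; ring
  have h2 : Real.cos (2 * π / 3 - 2 * x) = Real.cos ((π / 3 + (y - x)) + (π / 3 + (-y - x))) := by
    congr 1; ring
  unfold s eta
  rw [h1, h2, Real.cos_sub (π / 3 + (y - x)), Real.cos_add (π / 3 + (y - x))]
  ring

theorem er_f0 (n : ℕ) (b a : ℕ → ℝ) :
    f0 n (er_mir n b a) = fL n a * (er_c n b * gg n b (-a n)) := by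
  have hl : ∀ i < n, er_mir n b a i = b i := fun i hi => by
    unfold er_mir
    rw [if_pos hi]
  have hr : ∀ i, n ≤ i → i ≤ 2 * n → er_mir n b a i = -a (2 * n - i) := fun i h1 h2 => by
    unfold er_mir
    rw [if_neg (by omega), if_pos h2]
  have h1 : (∏ j ∈ range n, ∏ i ∈ range j, s (er_mir n b a i - er_mir n b a j) *
      s (-er_mir n b a i - er_mir n b a j)) =
      ∏ j ∈ range n, ∏ i ∈ range j, s (b i - b j) * s (-b i - b j) := by
    refine prod_congr rfl fun j hj => prod_congr rfl fun i hi => ?_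
    rw [mem_range] at hi hj
    rw [hl i (by omega), hl j hj]
  have h2 : (∏ i ∈ range n, s (er_mir n b a i - er_mir n b a n) *
      s (-er_mir n b a i - er_mir n b a n)) = (1 / 4) ^ n * gg n b (-a n) := by
    unfold gg
    have h3 : ((1 : ℝ) / 4) ^ n = ∏ _i ∈ range n, (1 / 4 : ℝ) := by simp
    rw [h3, ← prod_mul_distrib]
    refine prod_congr rfl fun i hi => ?_
    rw [mem_range] at hi
    rw [hl i hi, hr n le_rfl (by omega), show 2 * n - n = n by omega, er_ss]
  have h3 : (∏ j ∈ Ico (n + 1) (2 * n + 1), ∏ i ∈ Ico (n + 1) j,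
      s (er_mir n b a i - er_mir n b a j) * s (er_mir n b a i + er_mir n b a j)) = fL n a := by
    unfold fL
    rw [prod_sigma', prod_sigma']
    refine prod_nbij' (fun x => ⟨2 * n - x.2, 2 * n - x.1⟩) (fun x => ⟨2 * n - x.2, 2 * n - x.1⟩)
      ?_ ?_ ?_ ?_ ?_
    · rintro ⟨j, i⟩ h
      simp only [mem_sigma, mem_Ico, mem_range] at h ⊢
      omega
    · rintro ⟨j, i⟩ h
      simp only [mem_sigma, mem_Ico, mem_range] at h ⊢
      omega
    · rintro ⟨j, i⟩ h
      simp only [mem_sigma, mem_Ico] at h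
      simp only [Sigma.mk.injEq, heq_eq_eq]
      omega
    · rintro ⟨j, i⟩ h
      simp only [mem_sigma, mem_range] at h
      simp only [Sigma.mk.injEq, heq_eq_eq]
      omega
    · rintro ⟨j, i⟩ h
      simp only [mem_sigma, mem_Ico] at h
      show s (er_mir n b a i - er_mir n b a j) * s (er_mir n b a i + er_mir n b a j) =
        s (a (2 * n - j) - a (2 * n - i)) * s (-a (2 * n - j) - a (2 * n - i))
      rw [hr i (by omega) (by omega), hr j (by omega) (by omega)]
      congr 2 <;> ring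
  unfold f0
  rw [prod_range_succ, h1, h2, h3]
  unfold er_c
  ring

/-- the function at the end of the chain -/
noncomputable def er_Γ (n : ℕ) (b a : ℕ → ℝ) : ℝ :=
  er_c n b * gg n b (-a n) * phi n (er_mir n b a)

theorem er_G_zero (n : ℕ) {b : ℕ → ℝ} (hb : b ∈ Cube) {a : ℕ → ℝ} (ha : a ∈ Cube) :
    er_G n b 0 a = fL n a * er_Γ n b a := by
  have h1 : er_G n b 0 a = P n (er_mir n b a) (top n) := rfl
  rw [h1, P_top n (er_mir_Cube n hb ha), er_f0]
  unfold er_Γ
  ring

theorem er_Γ_sw {n i : ℕ} (hi : i + 1 < n) {b : ℕ → ℝ} (hb : b ∈ Cube) {a : ℕ → ℝ}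
    (ha : a ∈ Cube) : er_Γ n b (sw i a) = er_Γ n b a := by
  have h1 : sw i a n = a n := by
    show a (Equiv.swap i (i + 1) n) = a n
    rw [Equiv.swap_apply_of_ne_of_ne (by omega) (by omega)]
  unfold er_Γ
  rw [h1, er_mir_sw (show i + (n - i - 1) + 1 = n by omega),
    phi_sw_ne (by omega) (by omega) (er_mir_Cube n hb ha)]

theorem er_Γ_ng {n j : ℕ} (hj : j < n) {b : ℕ → ℝ} (hb : b ∈ Cube) {a : ℕ → ℝ}
    (ha : a ∈ Cube) : er_Γ n b (ng j a) = er_Γ n b a := by
  have h1 : ng j a n = a n := by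
    unfold ng
    rw [Function.update_of_ne (by omega)]
  unfold er_Γ
  rw [h1, er_mir_ng hj.le, phi_ng (by omega) (er_mir_Cube n hb ha)]

theorem er_D_ng {n : ℕ} {a : ℕ → ℝ} (ha : a ∈ er_D n) (hz : ∀ j, j ≤ n → j ≠ 0 → a 0 ≠ -a j) :
    ng 0 a ∈ er_D n := by
  refine ⟨ng_Cube 0 ha.1, fun i j hi hj hij => ?_⟩
  unfold ng
  by_cases h1 : i = 0
  · subst h1
    rw [Function.update_self, Function.update_of_ne (Ne.symm hij)]
    intro h
    exact hz j hj (Ne.symm hij) (by linarith)
  · rw [Function.update_of_ne h1]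
    by_cases h2 : j = 0
    · subst h2
      rw [Function.update_self]
      intro h
      exact hz i hi h1 (by linarith)
    · rw [Function.update_of_ne h2]
      exact ha.2 i j hi hj hij

/-- the relation from the reflection symmetry -/
theorem er_rel {n : ℕ} (hn : 1 ≤ n) {b : ℕ → ℝ} (hb : b ∈ Cube) {a : ℕ → ℝ} (ha : a ∈ er_D n)
    (hz : ∀ i j, i ≤ n → j ≤ n → i ≠ j → a i ≠ -a j) :
    K0 n a * er_Γ n b (mv n 0 a) - K0 n (ng 0 a) * er_Γ n b (mv n 0 (ng 0 a)) +
        ∑ j ∈ Icc 1 n, Kj n j a * er_Γ n b (mv n j a) = 0 := by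
  have h1 := chain_diff n hn Cube (fun i a ha => sw_Cube i ha) (fun i a ha => ng_Cube i ha)
    (er_Γ n b) (fun i hi a ha => er_Γ_sw hi hb ha) (fun j hj a ha => er_Γ_ng hj hb ha) a ha.1
    (fun i j hi hj hij => ⟨er_sin_ne (ha.1 i) (ha.1 j) (ha.2 i j hi hj hij), by
      have h2 := er_sin_ne (x := a i) (y := -a j) (ha.1 i) (by rw [abs_neg]; exact ha.1 j)
        (hz i j hi hj hij)
      rwa [sub_neg_eq_add] at h2⟩)
  rw [← h1]
  have hD := er_D_ng ha fun j hj hj0 => hz 0 j (by omega) hj (Ne.symm hj0)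
  have h3 : ∀ c ∈ er_D n, chain n (fun a => fL n a * er_Γ n b a) c = er_G n b n c := by
    intro c hc
    rw [← er_chain hb n 0 (by omega) c hc]
    exact (er_chain_congr n (D := er_D n) (fun i hi c hc => er_D_sw hi hc) _ _
      (fun c hc => er_G_zero n hb hc.1) c hc).symm
  rw [h3 a ha, h3 _ hD]
  unfold er_G
  rw [er_mir_ng (Nat.zero_le n), Nat.sub_zero, P_ngR n (er_mir_Cube n hb ha.1), sub_self]

/-- the cyclic permutation comparing `mv` and `pt` -/
def er_cyc (n m : ℕ) (h : n + 1 ≤ m) : Equiv.Perm ℕ where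
  toFun l := if l = n + 1 then m else if n + 1 < l ∧ l ≤ m then l - 1 else l
  invFun l := if l = m then n + 1 else if n + 1 ≤ l ∧ l < m then l + 1 else l
  left_inv l := by
    show (if (if l = n + 1 then m else if n + 1 < l ∧ l ≤ m then l - 1 else l) = m then n + 1 else
      if n + 1 ≤ (if l = n + 1 then m else if n + 1 < l ∧ l ≤ m then l - 1 else l) ∧
        (if l = n + 1 then m else if n + 1 < l ∧ l ≤ m then l - 1 else l) < m then
        (if l = n + 1 then m else if n + 1 < l ∧ l ≤ m then l - 1 else l) + 1 else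
        (if l = n + 1 then m else if n + 1 < l ∧ l ≤ m then l - 1 else l)) = l
    split_ifs <;> omega
  right_inv l := by
    show (if (if l = m then n + 1 else if n + 1 ≤ l ∧ l < m then l + 1 else l) = n + 1 then m else
      if n + 1 < (if l = m then n + 1 else if n + 1 ≤ l ∧ l < m then l + 1 else l) ∧
        (if l = m then n + 1 else if n + 1 ≤ l ∧ l < m then l + 1 else l) ≤ m then
        (if l = m then n + 1 else if n + 1 ≤ l ∧ l < m then l + 1 else l) - 1 else
        (if l = m then n + 1 else if n + 1 ≤ l ∧ l < m then l + 1 else l)) = l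
    split_ifs <;> omega

theorem er_phi_mv {n j : ℕ} (hj : j ≤ n) {b : ℕ → ℝ} (hb : b ∈ Cube) :
    phi n (er_mir n b (mv n j fun i => -b (2 * n - i))) = phi n (pt n (2 * n - j) b) := by
  rcases Nat.lt_or_ge j n with h | h
  · have h1 : er_mir n b (mv n j fun i => -b (2 * n - i)) =
        fun l => pt n (2 * n - j) b (er_cyc n (2 * n - j) (by omega) l) := by
      funext l
      show er_mir n b (mv n j fun i => -b (2 * n - i)) l = b (Equiv.swap n (2 * n - j)
        (if l = n + 1 then 2 * n - j else if n + 1 < l ∧ l ≤ 2 * n - j then l - 1 else l))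
      unfold er_mir mv
      by_cases c1 : l < n
      · rw [if_pos c1, if_neg (by omega), if_neg (by omega),
          Equiv.swap_apply_of_ne_of_ne (by omega) (by omega)]
      · rw [if_neg c1]
        by_cases c2 : l ≤ 2 * n
        · rw [if_pos c2]
          by_cases c3 : 2 * n - l < j
          · rw [if_pos c3, if_neg (by omega), if_neg (by omega),
              Equiv.swap_apply_of_ne_of_ne (by omega) (by omega), neg_neg]
            congr 1; omega
          · rw [if_neg c3]
            by_cases c4 : 2 * n - l < n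
            · rw [if_pos c4, neg_neg]
              by_cases c5 : l = n + 1
              · rw [if_pos c5, Equiv.swap_apply_right]
                congr 1; omega
              · rw [if_neg c5, if_pos (by omega),
                  Equiv.swap_apply_of_ne_of_ne (by omega) (by omega)]
                congr 1; omega
            · rw [if_neg c4, if_pos (by omega), if_neg (by omega), if_neg (by omega), neg_neg,
                show l = n by omega, Equiv.swap_apply_left]
        · rw [if_neg c2, if_neg (by omega), if_neg (by omega),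
            Equiv.swap_apply_of_ne_of_ne (by omega) (by omega)]
    rw [h1]
    refine er_phi_perm n le_rfl _ (er_comp_Cube hb _) ?_ ?_
    · intro l hl
      show (if l = n + 1 then 2 * n - j else if n + 1 < l ∧ l ≤ 2 * n - j then l - 1 else l) = l
      rw [if_neg (by omega), if_neg (by omega)]
    · intro l hl
      show (if l = n + 1 then 2 * n - j else if n + 1 < l ∧ l ≤ 2 * n - j then l - 1 else l) = l
      rw [if_neg (by omega), if_neg (by omega)]
  · congr 1
    funext l
    rw [show 2 * n - j = n by omega]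
    unfold pt
    rw [Equiv.swap_self]
    show er_mir n b (mv n j fun i => -b (2 * n - i)) l = b l
    unfold er_mir mv
    by_cases c1 : l < n
    · rw [if_pos c1]
    · rw [if_neg c1]
      by_cases c2 : l ≤ 2 * n
      · rw [if_pos c2]
        by_cases c3 : 2 * n - l < j
        · rw [if_pos c3, neg_neg]
          congr 1; omega
        · rw [if_neg c3, if_neg (by omega), if_pos (by omega), neg_neg]
          congr 1; omega
      · rw [if_neg c2]

theorem er_Γ_mv {n j : ℕ} (hj : j ≤ n) {b : ℕ → ℝ} (hb : b ∈ Cube) :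
    er_Γ n b (mv n j fun i => -b (2 * n - i)) =
      er_c n b * (gg n b (b (2 * n - j)) * phi n (pt n (2 * n - j) b)) := by
  unfold er_Γ
  rw [er_phi_mv hj hb]
  have h1 : mv n j (fun i => -b (2 * n - i)) n = -b (2 * n - j) := by
    unfold mv
    rw [if_neg (by omega), if_neg (by omega), if_pos rfl]
  rw [h1, neg_neg]
  ring

theorem er_mv_ng {n : ℕ} (hn : n ≠ 0) (a : ℕ → ℝ) : mv n 0 (ng 0 a) = ng n (mv n 0 a) := by
  have e : ∀ (a : ℕ → ℝ) (l : ℕ), mv n 0 a l = if l < n then a (l + 1) else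
      if l = n then a 0 else a l := by
    intro a l
    unfold mv
    rw [if_neg (by omega)]
  funext l
  by_cases c2 : l = n
  · rw [c2, ng_self, e, e, if_neg (by omega), if_pos rfl, if_neg (by omega), if_pos rfl, ng_self]
  · rw [ng_of_ne c2, e, e]
    by_cases c1 : l < n
    · rw [if_pos c1, if_pos c1, ng_of_ne (by omega)]
    · rw [if_neg c1, if_neg c2, if_neg c1, if_neg c2, ng_of_ne (by omega)]

theorem er_Γ_mv_ng {n : ℕ} (hn : 1 ≤ n) {b : ℕ → ℝ} (hb : b ∈ Cube) :
    er_Γ n b (mv n 0 (ng 0 fun i => -b (2 * n - i))) =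
      er_c n b * (gg n b (-b (2 * n)) * phi n (pt n (2 * n) b)) := by
  have h1 := er_mv_ng (n := n) (Nat.one_le_iff_ne_zero.1 hn) fun i => -b (2 * n - i)
  have hmv : mv n 0 (fun i => -b (2 * n - i)) ∈ Cube := by
    intro l
    unfold mv
    split_ifs
    · rw [abs_neg]; exact hb _
    · rw [abs_neg]; exact hb _
    · rw [abs_neg]; exact hb _
    · rw [abs_neg]; exact hb _
  unfold er_Γ
  rw [h1, er_mir_ng le_rfl, phi_ng (by omega) (er_mir_Cube n hb hmv), er_phi_mv (Nat.zero_le n) hb]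
  have h2 : ng n (mv n 0 fun i => -b (2 * n - i)) n = b (2 * n) := by
    rw [ng_self]
    unfold mv
    rw [if_neg (by omega), if_neg (by omega), if_pos rfl, neg_neg, Nat.sub_zero]
  rw [h2, Nat.sub_zero]
  ring

theorem er_hh (x : ℝ) : hh (-x) = eta x := by
  unfold hh eta
  congr 2; ring

theorem er_eta_ne {x y : ℝ} (hx : |x| < π / 6) (hy : |y| < π / 6) (h : x ≠ y) : eta x ≠ eta y := by
  rw [← er_hh, ← er_hh]
  intro h1
  have h2 := hh_sub (-x) (-y)
  rw [h1, sub_self] at h2
  have h3 : s (- -x - -y) ≠ 0 := by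
    have h4 := abs_lt.1 hx
    have h5 := abs_lt.1 hy
    exact (s_pos_of_abs (abs_lt.2 ⟨by linarith [h4.1, h5.1], by linarith [h4.2, h5.2]⟩)).ne'
  have h4 : Real.sin (-x - -y) ≠ 0 :=
    er_sin_ne (by rw [abs_neg]; exact hx) (by rw [abs_neg]; exact hy) fun h6 => h (neg_injective h6)
  exact mul_ne_zero (by norm_num) (mul_ne_zero h3 h4) h2.symm

/-- the Lagrange identity -/
theorem er_lagrange (t : Finset ℕ) (v : ℕ → ℝ) (x : ℝ) (Q : Polynomial ℝ) (hQ : Q.natDegree < t.card)
    (hv : ∀ i ∈ t, ∀ j ∈ t, i ≠ j → v i ≠ v j) (hx : ∀ i ∈ t, v i ≠ x) :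
    ∑ i ∈ t, Q.eval (v i) / ((v i - x) * ∏ k ∈ t.erase i, (v i - v k)) +
      Q.eval x / ∏ k ∈ t, (x - v k) = 0 := by
  obtain ⟨N, hN⟩ := Infinite.exists_notMem_finset t
  have hne : ∀ i ∈ t, i ≠ N := fun i hi h => hN (h ▸ hi)
  have hcard : #(insert N t) = #t + 1 := card_insert_of_notMem hN
  have h1 := Lagrange.coeff_eq_sum (s := insert N t) (v := Function.update v N x) (P := Q) (by
      intro i hi j hj hij
      rw [mem_coe, mem_insert] at hi hj
      by_contra hne'
      rcases hi with rfl | hi <;> rcases hj with rfl | hj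
      · exact hne' rfl
      · rw [Function.update_self, Function.update_of_ne (hne j hj)] at hij
        exact hx j hj hij.symm
      · rw [Function.update_self, Function.update_of_ne (hne i hi)] at hij
        exact hx i hi hij
      · rw [Function.update_of_ne (hne i hi), Function.update_of_ne (hne j hj)] at hij
        exact hv i hi j hj hne' hij) (by
      rw [hcard]
      refine lt_of_le_of_lt Polynomial.degree_le_natDegree ?_
      exact_mod_cast Nat.lt_succ_of_lt hQ)
  rw [hcard, Nat.add_sub_cancel, Polynomial.coeff_eq_zero_of_natDegree_lt hQ, sum_insert hN,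
    erase_insert hN, Function.update_self] at h1
  rw [add_comm]
  rw [h1]
  congr 1
  · congr 1
    refine prod_congr rfl fun k hk => ?_
    rw [Function.update_of_ne (hne k hk)]
  · refine sum_congr rfl fun i hi => ?_
    have h2 : (insert N t).erase i = insert N (t.erase i) := by
      rw [erase_insert_of_ne (fun h => hne i hi h.symm)]
    rw [h2, prod_insert (fun h => hN (mem_of_mem_erase h)), Function.update_self,
      Function.update_of_ne (hne i hi)]
    congr 2
    refine prod_congr rfl fun k hk => ?_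
    rw [Function.update_of_ne (hne k (mem_of_mem_erase hk))]

theorem er_prod_reindex {n m : ℕ} (h1 : n ≤ m) (h2 : m ≤ 2 * n) (f : ℕ → ℝ) :
    ∏ k ∈ (Icc n (2 * n)).erase m, f k = ∏ k ∈ (range (n + 1)).erase (2 * n - m), f (2 * n - k) := by
  refine prod_nbij' (fun k => 2 * n - k) (fun k => 2 * n - k) ?_ ?_ ?_ ?_ ?_
  · intro k hk
    simp only [mem_erase, mem_Icc, mem_range] at hk ⊢
    omega
  · intro k hk
    simp only [mem_erase, mem_Icc, mem_range] at hk ⊢
    omega
  · intro k hk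
    simp only [mem_erase, mem_Icc] at hk
    omega
  · intro k hk
    simp only [mem_erase, mem_range] at hk
    omega
  · intro k hk
    simp only [mem_erase, mem_Icc] at hk
    rw [show 2 * n - (2 * n - k) = k by omega]

theorem er_sum_reindex (n : ℕ) (f : ℕ → ℝ) :
    ∑ k ∈ Icc n (2 * n), f k = f (2 * n) + ∑ j ∈ Icc 1 n, f (2 * n - j) := by
  have h1 : ∑ k ∈ Icc n (2 * n), f k = ∑ k ∈ range (n + 1), f (2 * n - k) := by
    refine sum_nbij' (fun k => 2 * n - k) (fun k => 2 * n - k) ?_ ?_ ?_ ?_ ?_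
    · intro k hk
      simp only [mem_Icc, mem_range] at hk ⊢
      omega
    · intro k hk
      simp only [mem_Icc, mem_range] at hk ⊢
      omega
    · intro k hk
      simp only [mem_Icc] at hk
      omega
    · intro k hk
      simp only [mem_range] at hk
      omega
    · intro k hk
      simp only [mem_Icc] at hk
      rw [show 2 * n - (2 * n - k) = k by omega]
  have h2 : range (n + 1) = insert 0 (Icc 1 n) := by
    ext k
    simp only [mem_range, mem_insert, mem_Icc]
    omega
  rw [h1, h2, sum_insert (by simp), Nat.sub_zero]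

/-- the relation with the coordinate `2n` -/
theorem er_last {n : ℕ} (hn : 1 ≤ n) {b : ℕ → ℝ} (hb : b ∈ Cube) (hg : Gnr n b) :
    ∑ j ∈ (Icc n (2 * n)).erase (2 * n),
      gg n b (b j) * (phi n (pt n j b) - phi n (pt n (2 * n) b)) /
      ((eta (b j) - eta (-b (2 * n))) * ∏ k ∈ (Icc n (2 * n)).erase j, (eta (b j) - eta (b k))) = 0 := by
  obtain ⟨a, ha⟩ : ∃ a : ℕ → ℝ, a = fun i => -b (2 * n - i) := ⟨_, rfl⟩
  have hai : ∀ i, a i = -b (2 * n - i) := fun i => by rw [ha]
  have hab : ∀ x y : ℝ, -x = -y → x = y := fun x y h => neg_injective h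
  have haC : a ∈ Cube := by
    intro i
    rw [hai, abs_neg]
    exact hb _
  have haD : a ∈ er_D n := by
    refine ⟨haC, fun i j hi hj hij h => ?_⟩
    rw [hai, hai] at h
    exact (hg.1 (2 * n - i) (2 * n - j) (by omega) (by omega) (by omega)).1 (hab _ _ h)
  have haz : ∀ i j, i ≤ n → j ≤ n → i ≠ j → a i ≠ -a j := by
    intro i j hi hj hij h
    rw [hai, hai] at h
    exact (hg.1 (2 * n - i) (2 * n - j) (by omega) (by omega) (by omega)).2 (hab _ _ h)
  have hsin : ∀ i j, i ≤ n → j ≤ n → i ≠ j →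
      Real.sin (a i - a j) ≠ 0 ∧ Real.sin (a i + a j) ≠ 0 := by
    intro i j hi hj hij
    refine ⟨er_sin_ne (haC i) (haC j) (haD.2 i j hi hj hij), ?_⟩
    have h2 := er_sin_ne (x := a i) (y := -a j) (haC i) (by rw [abs_neg]; exact haC j)
      (haz i j hi hj hij)
    rwa [sub_neg_eq_add] at h2
  have hs0 : Real.sin (2 * a 0) ≠ 0 := by
    have h2 := er_sin_ne (x := a 0) (y := -a 0) (haC 0) (by rw [abs_neg]; exact haC 0) (by
      intro h
      rw [hai, Nat.sub_zero] at h
      exact hg.2 (2 * n) le_rfl (by linarith))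
    rwa [sub_neg_eq_add, ← two_mul] at h2
  obtain ⟨C, hC0, hC1, hC2⟩ := K_lagrange n hn a hsin hs0
  have hCne : C ≠ 0 := by
    refine (hC2 1 (mem_Icc.2 ⟨le_rfl, hn⟩)).2 fun i j _ _ _ => ?_
    refine ⟨(s_sub_pos haC i j).ne', (s_neg_add_pos haC i j).ne', (s_add_pos haC i j).ne', ?_⟩
    rw [show -(a i) + a j = a j - a i by ring]
    exact (s_sub_pos haC j i).ne'
  have hha : ∀ i, hh (a i) = eta (b (2 * n - i)) := fun i => by rw [hai, er_hh]
  have hha0 : hh (-a 0) = eta (-b (2 * n)) := by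
    rw [er_hh, hai, Nat.sub_zero]
  -- the denominators
  obtain ⟨Dn, hDn⟩ : ∃ Dn : ℕ → ℝ, Dn = fun j => (eta (b j) - eta (-b (2 * n))) *
      ∏ k ∈ (Icc n (2 * n)).erase j, (eta (b j) - eta (b k)) := ⟨_, rfl⟩
  obtain ⟨Ds, hDs⟩ : ∃ Ds : ℝ, Ds = ∏ k ∈ Icc n (2 * n), (eta (-b (2 * n)) - eta (b k)) := ⟨_, rfl⟩
  have hsub : ∀ i j, i ≤ 2 * n → j ≤ 2 * n → i ≠ j → eta (b i) ≠ eta (b j) := fun i j hi hj hij =>
    er_eta_ne (hb i) (hb j) (hg.1 i j hi hj hij).1
  have hsub2 : ∀ i, i ≤ 2 * n → eta (b i) ≠ eta (-b (2 * n)) := by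
    intro i hi
    refine er_eta_ne (hb i) (by rw [abs_neg]; exact hb _) ?_
    by_cases h : i = 2 * n
    · intro h2
      rw [h] at h2
      exact hg.2 (2 * n) le_rfl (by linarith)
    · exact (hg.1 i (2 * n) hi le_rfl h).2
  have hDn0 : ∀ j, j ≤ 2 * n → Dn j ≠ 0 := by
    intro j hj
    rw [hDn]
    refine mul_ne_zero (sub_ne_zero.2 (hsub2 j hj)) (prod_ne_zero_iff.2 fun k hk => ?_)
    rw [mem_erase, mem_Icc] at hk
    exact sub_ne_zero.2 (hsub j k hj hk.2.2 (fun h => hk.1 h.symm))
  have hDs0 : Ds ≠ 0 := by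
    rw [hDs]
    refine prod_ne_zero_iff.2 fun k hk => ?_
    rw [mem_Icc] at hk
    exact sub_ne_zero.2 (hsub2 k hk.2).symm
  have hr0 : (range (n + 1)).erase 0 = Icc 1 n := by
    ext k
    simp only [mem_erase, mem_range, mem_Icc]
    omega
  have e0 : K0 n a = C / Dn (2 * n) := by
    rw [eq_div_iff (hDn0 _ le_rfl), ← hC0, hDn]
    show K0 n a * ((eta (b (2 * n)) - eta (-b (2 * n))) *
      ∏ k ∈ (Icc n (2 * n)).erase (2 * n), (eta (b (2 * n)) - eta (b k))) = _
    rw [er_prod_reindex (by omega) le_rfl, Nat.sub_self, hr0, hha0, hha 0, Nat.sub_zero]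
    congr 2
    exact prod_congr rfl fun k _ => by rw [hha]
  have e1 : -K0 n (ng 0 a) = C / Ds := by
    have h3 : Icc n (2 * n) = insert (2 * n) ((Icc n (2 * n)).erase (2 * n)) := by
      rw [insert_erase]
      rw [mem_Icc]
      omega
    rw [eq_div_iff hDs0, ← hC1, hDs, h3, prod_insert (notMem_erase _ _),
      er_prod_reindex (by omega) le_rfl, Nat.sub_self, hr0, hha0, hha 0, Nat.sub_zero]
    congr 2
    exact prod_congr rfl fun k _ => by rw [hha]
  have e2 : ∀ j ∈ Icc 1 n, Kj n j a = C / Dn (2 * n - j) := by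
    intro j hj
    have hj' := mem_Icc.1 hj
    rw [eq_div_iff (hDn0 _ (by omega)), ← (hC2 j hj).1, hDn]
    show Kj n j a * ((eta (b (2 * n - j)) - eta (-b (2 * n))) *
      ∏ k ∈ (Icc n (2 * n)).erase (2 * n - j), (eta (b (2 * n - j)) - eta (b k))) = _
    have h3 : (range (n + 1)).erase j = insert 0 ((Icc 1 n).erase j) := by
      ext k
      simp only [mem_erase, mem_range, mem_Icc, mem_insert]
      omega
    rw [er_prod_reindex (by omega) (by omega), show 2 * n - (2 * n - j) = j by omega, h3,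
      prod_insert (by simp), hha0, hha 0, hha j, Nat.sub_zero]
    have h4 : ∏ k ∈ (Icc 1 n).erase j, (eta (b (2 * n - j)) - hh (a k)) =
        ∏ k ∈ (Icc 1 n).erase j, (eta (b (2 * n - j)) - eta (b (2 * n - k))) :=
      prod_congr rfl fun k _ => by rw [hha]
    rw [h4]
    ring
  -- relation (A)
  have hrel := er_rel hn hb haD haz
  have hA : ∑ j ∈ Icc n (2 * n), gg n b (b j) * phi n (pt n j b) / Dn j +
      gg n b (-b (2 * n)) * phi n (pt n (2 * n) b) / Ds = 0 := by
    rw [er_sum_reindex]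
    have h3 := er_Γ_mv (n := n) (j := 0) (by omega) hb
    have h4 := er_Γ_mv_ng hn hb
    rw [← ha] at h3 h4
    rw [e0, h3, h4, Nat.sub_zero, sub_eq_add_neg, ← neg_mul, e1, sum_congr rfl (g := fun j =>
      (er_c n b * C) * (gg n b (b (2 * n - j)) * phi n (pt n (2 * n - j) b) / Dn (2 * n - j)))
      (fun j hj => by
        have h5 := er_Γ_mv (n := n) (j := j) (mem_Icc.1 hj).2 hb
        rw [← ha] at h5
        rw [e2 j hj, h5]
        ring), ← mul_sum] at hrel
    have h6 : er_c n b * C ≠ 0 := mul_ne_zero (er_c_ne n hb) hCne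
    refine (mul_eq_zero.1 (?_ : (er_c n b * C) * _ = 0)).resolve_left h6
    rw [← hrel]
    ring
  -- relation (B)
  have hB : ∑ j ∈ Icc n (2 * n), gg n b (b j) / Dn j + gg n b (-b (2 * n)) / Ds = 0 := by
    have hev : ∀ y : ℝ, (∏ k ∈ range n, (Polynomial.C (2 * Real.cos (2 * b k)) -
        Polynomial.X)).eval (eta y) = gg n b y := by
      intro y
      rw [Polynomial.eval_prod]
      unfold gg
      exact prod_congr rfl fun k _ => by simp
    have hdeg : (∏ k ∈ range n, (Polynomial.C (2 * Real.cos (2 * b k)) -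
        Polynomial.X)).natDegree < (Icc n (2 * n)).card := by
      have h3 : (Icc n (2 * n)).card = n + 1 := by
        rw [Nat.card_Icc]
        omega
      rw [h3]
      refine Nat.lt_succ_of_le ((Polynomial.natDegree_prod_le _ _).trans ?_)
      refine (sum_le_card_nsmul _ _ 1 fun k _ => ?_).trans (by simp)
      refine (Polynomial.natDegree_sub_le _ _).trans ?_
      rw [Polynomial.natDegree_C, Polynomial.natDegree_X]
      simp
    have h3 := er_lagrange (Icc n (2 * n)) (fun k => eta (b k)) (eta (-b (2 * n))) _ hdeg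
      (fun i hi j hj hij => hsub i j (mem_Icc.1 hi).2 (mem_Icc.1 hj).2 hij)
      (fun i hi => hsub2 i (mem_Icc.1 hi).2)
    rw [hev, ← hDs] at h3
    rw [← h3, hDn]
    congr 1
    exact sum_congr rfl fun j _ => by rw [hev]
  -- conclusion
  have h2n : 2 * n ∈ Icc n (2 * n) := by
    rw [mem_Icc]
    omega
  have hfin : ∑ j ∈ Icc n (2 * n),
      gg n b (b j) * (phi n (pt n j b) - phi n (pt n (2 * n) b)) / Dn j = 0 := by
    have h3 : ∀ j, gg n b (b j) * (phi n (pt n j b) - phi n (pt n (2 * n) b)) / Dn j =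
        gg n b (b j) * phi n (pt n j b) / Dn j -
          phi n (pt n (2 * n) b) * (gg n b (b j) / Dn j) := fun j => by ring
    rw [sum_congr rfl fun j _ => h3 j, sum_sub_distrib, ← mul_sum]
    linear_combination hA - phi n (pt n (2 * n) b) * hB
  rw [← add_sum_erase _ _ h2n, sub_self, mul_zero, zero_div, zero_add] at hfin
  rw [hDn] at hfin
  exact hfin

theorem er_sw_le {n i l : ℕ} (hi : i ≤ 2 * n) (hl : l ≤ 2 * n) :
    Equiv.swap i (2 * n) l ≤ 2 * n := by
  by_cases h1 : l = i
  · rw [h1, Equiv.swap_apply_left]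
  · by_cases h2 : l = 2 * n
    · rw [h2, Equiv.swap_apply_right]
      omega
    · rw [Equiv.swap_apply_of_ne_of_ne h1 h2]
      exact hl

theorem er_le_sw {n i l : ℕ} (hi : n ≤ i) (hl : n ≤ l) : n ≤ Equiv.swap i (2 * n) l := by
  by_cases h1 : l = i
  · rw [h1, Equiv.swap_apply_left]
    omega
  · by_cases h2 : l = 2 * n
    · rw [h2, Equiv.swap_apply_right]
      omega
    · rw [Equiv.swap_apply_of_ne_of_ne h1 h2]
      exact hl

theorem er_pt_swap {n i j : ℕ} (hi1 : n ≤ i) (hi2 : i ≤ 2 * n) (hj1 : n ≤ j) (hj2 : j ≤ 2 * n)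
    {b : ℕ → ℝ} (hb : b ∈ Cube) :
    phi n (pt n j fun l => b (Equiv.swap i (2 * n) l)) = phi n (pt n (Equiv.swap i (2 * n) j) b) := by
  obtain ⟨j', hj'⟩ : ∃ j', j' = Equiv.swap i (2 * n) j := ⟨_, rfl⟩
  have hb1 : n ≤ j' ∧ j' ≤ 2 * n := by
    rw [hj']
    exact ⟨er_le_sw hi1 hj1, er_sw_le hi2 hj2⟩
  rw [← hj']
  have h1 : pt n j (fun l => b (Equiv.swap i (2 * n) l)) = fun l => pt n j' b
      ((Equiv.swap n j' * Equiv.swap i (2 * n) * Equiv.swap n j) l) := by
    funext l
    show b (Equiv.swap i (2 * n) (Equiv.swap n j l)) =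
      b (Equiv.swap n j' (Equiv.swap n j' (Equiv.swap i (2 * n) (Equiv.swap n j l))))
    rw [Equiv.swap_apply_self]
  rw [h1]
  refine er_phi_perm n le_rfl _ (er_comp_Cube hb _) ?_ ?_
  · intro l hl
    show Equiv.swap n j' (Equiv.swap i (2 * n) (Equiv.swap n j l)) = l
    rcases Nat.lt_or_ge l n with h | h
    · rw [Equiv.swap_apply_of_ne_of_ne (a := n) (b := j) (by omega) (by omega),
        Equiv.swap_apply_of_ne_of_ne (a := i) (by omega) (by omega),
        Equiv.swap_apply_of_ne_of_ne (by omega) (by omega)]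
    · rw [show l = n by omega, Equiv.swap_apply_left, ← hj', Equiv.swap_apply_right]
  · intro l hl
    show Equiv.swap n j' (Equiv.swap i (2 * n) (Equiv.swap n j l)) = l
    rw [Equiv.swap_apply_of_ne_of_ne (a := n) (b := j) (by omega) (by omega),
        Equiv.swap_apply_of_ne_of_ne (a := i) (by omega) (by omega),
        Equiv.swap_apply_of_ne_of_ne (by omega) (by omega)]

theorem Erel (n : ℕ) (hn : 1 ≤ n) {b : ℕ → ℝ} (hb : b ∈ Cube) (hg : Gnr n b) (i : ℕ)
    (hi : i ∈ Icc n (2 * n)) :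
    ∑ j ∈ (Icc n (2 * n)).erase i, gg n b (b j) * (phi n (pt n j b) - phi n (pt n i b)) /
      ((eta (b j) - eta (-b i)) * ∏ k ∈ (Icc n (2 * n)).erase j, (eta (b j) - eta (b k))) = 0 := by
  rw [mem_Icc] at hi
  have hsw : ∀ l, l ≤ 2 * n → Equiv.swap i (2 * n) l ≤ 2 * n := fun l hl => er_sw_le hi.2 hl
  have hsw2 : ∀ l, n ≤ l → n ≤ Equiv.swap i (2 * n) l := fun l hl => er_le_sw hi.1 hl
  have hg' : Gnr n (fun l => b (Equiv.swap i (2 * n) l)) := by
    refine ⟨fun k l hk hl hkl => hg.1 _ _ (hsw k hk) (hsw l hl) fun h => hkl ?_, fun k hk =>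
      hg.2 _ (hsw k hk)⟩
    exact (Equiv.swap i (2 * n)).injective h
  have h1 := er_last hn (b := fun l => b (Equiv.swap i (2 * n) l)) (er_comp_Cube hb _) hg'
  have hgg : ∀ x, gg n (fun l => b (Equiv.swap i (2 * n) l)) x = gg n b x := by
    intro x
    unfold gg
    refine prod_congr rfl fun k hk => ?_
    rw [mem_range] at hk
    show 2 * Real.cos (2 * b (Equiv.swap i (2 * n) k)) - eta x = _
    rw [Equiv.swap_apply_of_ne_of_ne (by omega) (by omega)]
  rw [← h1]
  symm
  refine sum_nbij' (fun l => Equiv.swap i (2 * n) l) (fun l => Equiv.swap i (2 * n) l) ?_ ?_ ?_ ?_ ?_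
  · intro l hl
    rw [mem_erase, mem_Icc] at hl ⊢
    refine ⟨fun h => hl.1 ?_, hsw2 l hl.2.1, hsw l hl.2.2⟩
    have h2 := congrArg (Equiv.swap i (2 * n)) h
    rwa [Equiv.swap_apply_self, Equiv.swap_apply_left] at h2
  · intro l hl
    rw [mem_erase, mem_Icc] at hl ⊢
    refine ⟨fun h => hl.1 ?_, hsw2 l hl.2.1, hsw l hl.2.2⟩
    have h2 := congrArg (Equiv.swap i (2 * n)) h
    rwa [Equiv.swap_apply_self, Equiv.swap_apply_right] at h2
  · intro l _
    exact Equiv.swap_apply_self _ _ _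
  · intro l _
    exact Equiv.swap_apply_self _ _ _
  · intro l hl
    rw [mem_erase, mem_Icc] at hl
    show gg n (fun l => b (Equiv.swap i (2 * n) l)) (b (Equiv.swap i (2 * n) l)) *
      (phi n (pt n l fun l => b (Equiv.swap i (2 * n) l)) -
        phi n (pt n (2 * n) fun l => b (Equiv.swap i (2 * n) l))) /
      ((eta (b (Equiv.swap i (2 * n) l)) - eta (-b (Equiv.swap i (2 * n) (2 * n)))) *
        ∏ k ∈ (Icc n (2 * n)).erase l,
          (eta (b (Equiv.swap i (2 * n) l)) - eta (b (Equiv.swap i (2 * n) k)))) = _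
    rw [hgg, er_pt_swap hi.1 hi.2 hl.2.1 hl.2.2 hb, er_pt_swap hi.1 hi.2 (by omega) le_rfl hb,
      Equiv.swap_apply_right]
    have h3 : ∏ k ∈ (Icc n (2 * n)).erase l,
        (eta (b (Equiv.swap i (2 * n) l)) - eta (b (Equiv.swap i (2 * n) k))) =
        ∏ k ∈ (Icc n (2 * n)).erase (Equiv.swap i (2 * n) l),
        (eta (b (Equiv.swap i (2 * n) l)) - eta (b k)) := by
      refine prod_nbij' (fun k => Equiv.swap i (2 * n) k) (fun k => Equiv.swap i (2 * n) k)
        ?_ ?_ ?_ ?_ ?_
      · intro k hk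
        rw [mem_erase, mem_Icc] at hk ⊢
        refine ⟨fun h => hk.1 ((Equiv.swap i (2 * n)).injective h), hsw2 k hk.2.1, hsw k hk.2.2⟩
      · intro k hk
        rw [mem_erase, mem_Icc] at hk ⊢
        refine ⟨fun h => hk.1 ?_, hsw2 k hk.2.1, hsw k hk.2.2⟩
        have h2 := congrArg (Equiv.swap i (2 * n)) h
        rwa [Equiv.swap_apply_self] at h2
      · intro k _
        exact Equiv.swap_apply_self _ _ _
      · intro k _
        exact Equiv.swap_apply_self _ _ _
      · intro k _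
        rfl
    rw [h3]
end IP
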