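import Pool.Agent.Lead.IP.Doeblin
/-! MODULE Exch: exchange relations for the stationary vector and for its top entry. -/
namespace IP
open Finset Real

theorem sw_Cube {b : ℕ → ℝ} (i : ℕ) (hb : b ∈ Cube) : sw i b ∈ Cube := fun _ => hb _

theorem ng_Cube {b : ℕ → ℝ} (i : ℕ) (hb : b ∈ Cube) : ng i b ∈ Cube := by
  intro j
  unfold ng
  by_cases h : j = i
  · subst h
    rw [Function.update_self, abs_neg]
    exact hb j
  · rw [Function.update_of_ne h]
    exact hb j

theorem s_pos_of_abs {x : ℝ} (hx : |x| < π / 3) : 0 < s x := by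
  have h := abs_lt.1 hx
  exact Real.sin_pos_of_pos_of_lt_pi (by linarith [h.1]) (by linarith [h.2, Real.pi_pos])

theorem s_sub_pos {b : ℕ → ℝ} (hb : b ∈ Cube) (i j : ℕ) : 0 < s (b i - b j) := by
  have h1 := abs_lt.1 (hb i)
  have h2 := abs_lt.1 (hb j)
  exact s_pos_of_abs (abs_lt.2 ⟨by linarith [h1.1, h2.2], by linarith [h1.2, h2.1]⟩)

theorem s_add_pos {b : ℕ → ℝ} (hb : b ∈ Cube) (i j : ℕ) : 0 < s (b i + b j) := by
  have h1 := abs_lt.1 (hb i)
  have h2 := abs_lt.1 (hb j)
  exact s_pos_of_abs (abs_lt.2 ⟨by linarith [h1.1, h2.1], by linarith [h1.2, h2.2]⟩)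

theorem s_neg_add_pos {b : ℕ → ℝ} (hb : b ∈ Cube) (i j : ℕ) : 0 < s (-b i - b j) := by
  have h1 := abs_lt.1 (hb i)
  have h2 := abs_lt.1 (hb j)
  exact s_pos_of_abs (abs_lt.2 ⟨by linarith [h1.2, h2.2], by linarith [h1.1, h2.1]⟩)

theorem P_sw {n i : ℕ} (h : i + 1 ≤ 2 * n) {b : ℕ → ℝ} (hb : b ∈ Cube) :
    s (b i - b (i + 1)) • P n (sw i b) = Rt i (b i - b (i + 1)) (P n b) := by
  have h1 : Rt i (b i - b (i + 1)) (P n b) ∈ Sup (W n) :=
    Rt_Sup (Or.inl (by omega)) _ (P_Sup n b)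
  have h2 : Tt n (sw i b) (Rt i (b i - b (i + 1)) (P n b)) =
      nrm n (sw i b) • Rt i (b i - b (i + 1)) (P n b) := by
    rw [Tt_sw h, Tt_P n hb, map_smul, nrm_sw h]
  have h3 := P_unique n (sw_Cube i hb) h1 h2
  rw [tot_Rt, tot_P n hb, mul_one] at h3
  exact h3.symm

theorem P_ngL (n : ℕ) {b : ℕ → ℝ} (hb : b ∈ Cube) : P n (ng 0 b) = P n b := by
  have h2 : Tt n (ng 0 b) (P n b) = nrm n (ng 0 b) • P n b := by
    rw [Tt_ngL, Tt_P n hb, nrm_ng]
  have h3 := P_unique n (ng_Cube 0 hb) (P_Sup n b) h2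
  rw [tot_P n hb, one_smul] at h3
  exact h3.symm

theorem P_ngR (n : ℕ) {b : ℕ → ℝ} (hb : b ∈ Cube) : P n (ng (2 * n) b) = P n b := by
  have h2 : Tt n (ng (2 * n) b) (P n b) = nrm n (ng (2 * n) b) • P n b := by
    rw [Tt_ngR n b (P_Sup n b), Tt_P n hb, nrm_ng]
  have h3 := P_unique n (ng_Cube _ hb) (P_Sup n b) h2
  rw [tot_P n hb, one_smul] at h3
  exact h3.symm

theorem f0_pos (n : ℕ) {b : ℕ → ℝ} (hb : b ∈ Cube) : 0 < f0 n b := by
  unfold f0
  refine mul_pos ?_ ?_
  · exact prod_pos fun j _ => prod_pos fun i _ => mul_pos (s_sub_pos hb i j) (s_neg_add_pos hb i j)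
  · exact prod_pos fun j _ => prod_pos fun i _ => mul_pos (s_sub_pos hb i j) (s_add_pos hb i j)

/-- triangular double products -/
noncomputable def PP (g : ℝ → ℝ → ℝ) (m : ℕ) (b : ℕ → ℝ) : ℝ :=
  ∏ j ∈ range m, ∏ i ∈ range j, g (b i) (b j)

theorem PP_succ (g : ℝ → ℝ → ℝ) (m : ℕ) (b : ℕ → ℝ) :
    PP g (m + 1) b = PP g m b * ∏ i ∈ range m, g (b i) (b m) := by
  unfold PP
  rw [prod_range_succ]

theorem PP_congr (g : ℝ → ℝ → ℝ) (m : ℕ) {b b' : ℕ → ℝ} (h : ∀ j < m, b j = b' j) :
    PP g m b = PP g m b' := by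
  unfold PP
  refine prod_congr rfl fun j hj => prod_congr rfl fun i hi => ?_
  rw [mem_range] at hi hj
  rw [h i (by omega), h j hj]

theorem sw_ne {i j : ℕ} (h1 : j ≠ i) (h2 : j ≠ i + 1) (b : ℕ → ℝ) : sw i b j = b j := by
  unfold sw
  rw [Equiv.swap_apply_of_ne_of_ne h1 h2]

theorem PP_sw (g : ℝ → ℝ → ℝ) {m i : ℕ} (h : i + 1 < m) (b : ℕ → ℝ) {c c' : ℝ}
    (hc : c * g (b (i + 1)) (b i) = c' * g (b i) (b (i + 1))) :
    c * PP g m (sw i b) = c' * PP g m b := by
  induction m, h using Nat.le_induction with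
  | base =>
    rw [PP_succ, PP_succ, PP_succ, PP_succ, prod_range_succ, prod_range_succ, sw_left, sw_right]
    have h1 : PP g i (sw i b) = PP g i b :=
      PP_congr g i fun j hj => sw_ne (by omega) (by omega) b
    have h2 : ∀ y : ℝ, ∏ x ∈ range i, g (sw i b x) y = ∏ x ∈ range i, g (b x) y := fun y =>
      prod_congr rfl fun j hj => by
        rw [mem_range] at hj
        rw [sw_ne (by omega) (by omega) b]
    rw [h1, h2, h2]
    linear_combination (PP g i b * (∏ x ∈ range i, g (b x) (b i)) *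
      (∏ x ∈ range i, g (b x) (b (i + 1)))) * hc
  | succ m hm ih =>
    rw [PP_succ, PP_succ]
    have hm' : i + 1 < m := hm
    have h1 : sw i b m = b m := sw_ne (by omega) (by omega) b
    have h2 : ∏ x ∈ range m, g (sw i b x) (b m) = ∏ x ∈ range m, g (b x) (b m) := by
      unfold sw
      refine Equiv.Perm.prod_comp (Equiv.swap i (i + 1)) (range m) (fun x => g (b x) (b m)) ?_
      intro x hx
      rw [mem_coe, mem_range]
      by_contra hc
      exact hx (Equiv.swap_apply_of_ne_of_ne (by omega) (by omega))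
    rw [h1, h2]
    linear_combination (∏ x ∈ range m, g (b x) (b m)) * ih

/-- the two factors of `f0` -/
theorem f0_eq (n : ℕ) (b : ℕ → ℝ) :
    f0 n b = PP (fun x y => s (x - y) * s (-x - y)) (n + 1) b *
      PP (fun x y => s (x - y) * s (x + y)) n (fun k => b (n + 1 + k)) := by
  unfold f0 PP
  congr 1
  rw [prod_Ico_eq_prod_range, show 2 * n + 1 - (n + 1) = n by omega]
  refine prod_congr rfl fun j _ => ?_
  rw [prod_Ico_eq_prod_range, show n + 1 + j - (n + 1) = j by omega]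

theorem f0_sw {n i : ℕ} (h : i + 1 ≤ 2 * n) (hin : i ≠ n) (b : ℕ → ℝ) :
    s (b i - b (i + 1)) * f0 n (sw i b) = s (-(b i - b (i + 1))) * f0 n b := by
  rw [f0_eq, f0_eq]
  rcases Nat.lt_or_gt_of_ne hin with hi | hi
  · have e : (fun k => sw i b (n + 1 + k)) = fun k => b (n + 1 + k) := by
      funext k
      exact sw_ne (by omega) (by omega) b
    rw [e]
    have h2 := PP_sw (fun x y => s (x - y) * s (-x - y)) (m := n + 1) (i := i) (by omega) b
      (c := s (b i - b (i + 1))) (c' := s (-(b i - b (i + 1)))) (by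
        rw [show -b (i + 1) - b i = -b i - b (i + 1) by ring,
          show b (i + 1) - b i = -(b i - b (i + 1)) by ring]
        ring)
    rw [← mul_assoc, ← mul_assoc, h2]
  · obtain ⟨k, rfl⟩ : ∃ k, i = n + 1 + k := ⟨i - (n + 1), by omega⟩
    have e : (fun l => sw (n + 1 + k) b (n + 1 + l)) = sw k (fun l => b (n + 1 + l)) := by
      funext l
      by_cases h1 : l = k
      · subst h1
        rw [sw_left, sw_left]
        rfl
      · by_cases h2 : l = k + 1
        · subst h2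
          rw [sw_right]
          exact sw_right (n + 1 + k) b
        · rw [sw_ne (by omega) (by omega), sw_ne h1 h2]
    have e2 : PP (fun x y => s (x - y) * s (-x - y)) (n + 1) (sw (n + 1 + k) b) =
        PP (fun x y => s (x - y) * s (-x - y)) (n + 1) b :=
      PP_congr _ _ fun j hj => sw_ne (by omega) (by omega) b
    have h2 := PP_sw (fun x y => s (x - y) * s (x + y)) (m := n) (i := k) (by omega)
      (fun l => b (n + 1 + l))
      (c := s (b (n + 1 + k) - b (n + 1 + k + 1)))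
      (c' := s (-(b (n + 1 + k) - b (n + 1 + k + 1)))) (by
        rw [show n + 1 + (k + 1) = n + 1 + k + 1 by ring,
          show b (n + 1 + k + 1) + b (n + 1 + k) = b (n + 1 + k) + b (n + 1 + k + 1) by ring,
          show b (n + 1 + k + 1) - b (n + 1 + k) = -(b (n + 1 + k) - b (n + 1 + k + 1)) by ring]
        ring)
    rw [e, e2, mul_left_comm, h2, mul_left_comm]

theorem ng_of_ne {i j : ℕ} (h : j ≠ i) (b : ℕ → ℝ) : ng i b j = b j := Function.update_of_ne h _ _

theorem ng_self (i : ℕ) (b : ℕ → ℝ) : ng i b i = -b i := Function.update_self _ _ _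

theorem f0_ngL (n : ℕ) (b : ℕ → ℝ) : f0 n (ng 0 b) = f0 n b := by
  unfold f0
  congr 1
  · refine prod_congr rfl fun j hj => prod_congr rfl fun i hi => ?_
    rw [mem_range] at hi hj
    rw [ng_of_ne (show j ≠ 0 by omega)]
    by_cases h : i = 0
    · subst h
      rw [ng_self]
      rw [neg_neg, mul_comm]
    · rw [ng_of_ne h]
  · refine prod_congr rfl fun j hj => prod_congr rfl fun i hi => ?_
    rw [mem_Ico] at hi hj
    rw [ng_of_ne (show j ≠ 0 by omega), ng_of_ne (show i ≠ 0 by omega)]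

theorem f0_ngR (n : ℕ) (b : ℕ → ℝ) : f0 n (ng (2 * n) b) = f0 n b := by
  rcases Nat.eq_zero_or_pos n with rfl | hn
  · exact f0_ngL 0 b
  unfold f0
  congr 1
  · refine prod_congr rfl fun j hj => prod_congr rfl fun i hi => ?_
    rw [mem_range] at hi hj
    rw [ng_of_ne (show j ≠ 2 * n by omega), ng_of_ne (show i ≠ 2 * n by omega)]
  · refine prod_congr rfl fun j hj => prod_congr rfl fun i hi => ?_
    rw [mem_Ico] at hi hj
    rw [ng_of_ne (show i ≠ 2 * n by omega)]
    by_cases h : j = 2 * n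
    · subst h
      rw [ng_self, sub_neg_eq_add, ← sub_eq_add_neg, mul_comm]
    · rw [ng_of_ne h]

/-- the top entry divided by `f0` -/
noncomputable def phi (n : ℕ) (b : ℕ → ℝ) : ℝ := P n b (top n) / f0 n b

theorem P_top (n : ℕ) {b : ℕ → ℝ} (hb : b ∈ Cube) : P n b (top n) = f0 n b * phi n b := by
  unfold phi
  rw [mul_div_cancel₀ _ (f0_pos n hb).ne']

theorem E_apply_top {n i : ℕ} (hi : i < 2 * n) (hin : i ≠ n) (v : M) : E i v (top n) = 0 := by
  unfold E
  rw [Finsupp.lmapDomain_apply]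
  refine Finsupp.mapDomain_of_notMem_range _ _ ?_
  rintro ⟨σ, hσ⟩
  exact act_ne_top hi hin σ hσ

theorem phi_sw_ne {n i : ℕ} (h : i + 1 ≤ 2 * n) (hin : i ≠ n) {b : ℕ → ℝ} (hb : b ∈ Cube) :
    phi n (sw i b) = phi n b := by
  have h1 := congrArg (fun v : M => v (top n)) (P_sw h hb)
  simp only [Rt, LinearMap.add_apply, LinearMap.smul_apply, LinearMap.id_apply, Finsupp.add_apply,
    Finsupp.smul_apply, smul_eq_mul] at h1
  rw [E_apply_top (by omega) hin, mul_zero, add_zero] at h1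
  have h2 := f0_sw h hin b
  have h3 := f0_pos n hb
  have h4 := f0_pos n (sw_Cube i hb)
  have h5 := s_sub_pos hb i (i + 1)
  unfold phi
  rw [div_eq_div_iff h4.ne' h3.ne']
  have h6 : s (b i - b (i + 1)) * (P n (sw i b) (top n) * f0 n b) =
      s (b i - b (i + 1)) * (P n b (top n) * f0 n (sw i b)) := by
    linear_combination f0 n b * h1 - P n b (top n) * h2
  exact mul_left_cancel₀ h5.ne' h6

theorem phi_ngL (n : ℕ) {b : ℕ → ℝ} (hb : b ∈ Cube) : phi n (ng 0 b) = phi n b := by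
  unfold phi
  rw [P_ngL n hb, f0_ngL]

theorem phi_ngR (n : ℕ) {b : ℕ → ℝ} (hb : b ∈ Cube) : phi n (ng (2 * n) b) = phi n b := by
  unfold phi
  rw [P_ngR n hb, f0_ngR]

theorem ng_succ_eq (j : ℕ) (b : ℕ → ℝ) : ng (j + 1) b = sw j (ng j (sw j b)) := by
  funext l
  by_cases h1 : l = j
  · subst h1
    rw [sw_left, ng_of_ne (by omega), ng_of_ne (by omega), sw_right]
  · by_cases h2 : l = j + 1
    · subst h2
      rw [sw_right, ng_self, ng_self, sw_left]
    · rw [sw_ne h1 h2, ng_of_ne h2, ng_of_ne h1, sw_ne h1 h2]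

theorem ng_eq_succ (j : ℕ) (b : ℕ → ℝ) : ng j b = sw j (ng (j + 1) (sw j b)) := by
  funext l
  by_cases h1 : l = j
  · subst h1
    rw [sw_left, ng_self, ng_self, sw_right]
  · by_cases h2 : l = j + 1
    · subst h2
      rw [sw_right, ng_of_ne (by omega), ng_of_ne (by omega), sw_left]
    · rw [sw_ne h1 h2, ng_of_ne h2, ng_of_ne h1, sw_ne h1 h2]

/-- all sign changes -/
theorem phi_ng {n j : ℕ} (h : j ≤ 2 * n) {b : ℕ → ℝ} (hb : b ∈ Cube) : phi n (ng j b) = phi n b := by
  rcases Nat.lt_or_ge n j with hj | hj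
  · -- descending induction from `2 n`
    obtain ⟨k, hk⟩ : ∃ k, j + k = 2 * n := ⟨2 * n - j, by omega⟩
    induction k generalizing j b with
    | zero =>
      have : j = 2 * n := by omega
      subst this
      exact phi_ngR n hb
    | succ k ih =>
      rw [ng_eq_succ, phi_sw_ne (by omega) (by omega) (ng_Cube _ (sw_Cube _ hb)),
        ih (by omega) (sw_Cube j hb) (by omega) (by omega), phi_sw_ne (by omega) (by omega) hb]
  · clear h
    induction j generalizing b with
    | zero => exact phi_ngL n hb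
    | succ j ih =>
      rw [ng_succ_eq, phi_sw_ne (by omega) (by omega) (ng_Cube _ (sw_Cube _ hb)),
        ih (sw_Cube j hb) (by omega), phi_sw_ne (by omega) (by omega) hb]

theorem phi_congr (n : ℕ) {b b' : ℕ → ℝ} (hb : b ∈ Cube) (hb' : b' ∈ Cube)
    (h : ∀ j < 2 * n + 1, b j = b' j) : phi n b = phi n b' := by
  unfold phi
  rw [P_congr n hb hb' h, f0_eq, f0_eq, PP_congr _ (n + 1) (b := b) (b' := b') fun j hj =>
    h j (by omega), PP_congr _ n (b := fun k => b (n + 1 + k)) (b' := fun k => b' (n + 1 + k))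
    fun j hj => h _ (by omega)]

theorem s_continuous : Continuous s := by
  unfold s
  fun_prop

theorem f0_continuous (n : ℕ) : Continuous (f0 n) := by
  unfold f0
  refine Continuous.mul ?_ ?_
  · exact continuous_finsetProd _ fun j _ => continuous_finsetProd _ fun i _ =>
      (s_continuous.comp (by fun_prop)).mul (s_continuous.comp (by fun_prop))
  · exact continuous_finsetProd _ fun j _ => continuous_finsetProd _ fun i _ =>
      (s_continuous.comp (by fun_prop)).mul (s_continuous.comp (by fun_prop))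

theorem phi_continuousOn (n : ℕ) : ContinuousOn (phi n) Cube := by
  unfold phi
  exact (P_continuousOn n (top n)).div (f0_continuous n).continuousOn
    fun b hb => (f0_pos n hb).ne'

/-- linear functionals generated from the top coordinate -/
inductive Gen (n : ℕ) : (M →ₗ[ℝ] ℝ) → Prop
  | top : Gen n (Finsupp.lapply (top n))
  | act (i : ℕ) (hi : i < 2 * n) (l : M →ₗ[ℝ] ℝ) (h : Gen n l) : Gen n (l ∘ₗ E i)
  | add (l l' : M →ₗ[ℝ] ℝ) (h : Gen n l) (h' : Gen n l') : Gen n (l + l')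
  | smul (c : ℝ) (l : M →ₗ[ℝ] ℝ) (h : Gen n l) : Gen n (c • l)

/-- the divided difference operator -/
theorem E_P {n i : ℕ} (h : i + 1 ≤ 2 * n) {b : ℕ → ℝ} (hb : b ∈ Cube) (l : M →ₗ[ℝ] ℝ) :
    Real.sin (b i - b (i + 1)) * l (E i (P n b)) =
      s (b i - b (i + 1)) * l (P n (sw i b)) - s (-(b i - b (i + 1))) * l (P n b) := by
  have h1 := congrArg l (P_sw h hb)
  simp only [Rt, LinearMap.add_apply, LinearMap.smul_apply, LinearMap.id_apply, map_add, map_smul,
    smul_eq_mul] at h1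
  linarith
end IP
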