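import Pool.Agent.Lead.IP.PercA
import Pool.Agent.Lead.IP.HullA
import Pool.Agent.Helper47.Perc.Defs
/-! MODULE PercB: the transfer matrix `T n 0` and critical bond percolation in the diagonal strip.

Coordinates `u = x + y`, `w = x - y` (every lattice edge changes `u` and `w` by `±1`).  Strip: `0 ≤ u ≤ 2n+1`.
For odd `w` the sites at level `w` are `u = 2k+1`, `k = 0, ..., n` (`k = n` is the wall `u = 2n+1`); for even `w` they are
`u = 2k`, `k = 0, ..., n`.  All wall vertices are identified (wired).  For a configuration `ω` of the edges in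
levels `[a, w]` let `front w : St` be the partition of the sites of level `w` (index `k` for `u = 2k+1`, all indices
`≥ n` are the wall) induced by `ω`; it lies in `W n`, and it is `bot n` when there are no edges.
Passing from level `w` to level `w+2` (`w` odd):
`front (w+2) = del 0 (rowS 1 c1 (2n+1) (rowS 0 c0 (2n+1) (front w)))`, where (the edge number `i` of a layer joins the
coordinates `u = i` and `u = i+1`, `0 ≤ i ≤ 2n`)
* layer 0 (levels `w`, `w+1`), processed from `i = 2n` down to `i = 0`: `i = 2k` even: the new site `(2k, w+1)` takes the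
  index `k`; `act (2k) = detach k` is applied iff the edge `i` is closed; `i = 2k+1` odd: `act (2k+1) = join k (k+1)` is
  applied iff the edge `i` is open (it joins the old site `(2k+1, w)` with index `k` and the new one `(2k+2, w+1)` with index `k+1`);
* layer 1 (levels `w+1`, `w+2`), processed from `j = 2n` down to `0`, generator `act (j+1)`: `j = 2k` even: `join k (k+1)` iff
  the edge is open (site `(2k, w+1)` with index `k`, new site `(2k+1, w+2)` with index `k+1`); `j = 2k-1` odd: the new site
  `(2k-1, w+2)` takes the index `k`, `detach k` iff the edge is closed.  At the end the index 0 (site `(0, w+1)`) is forgotten.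
Hence the law of `front` after `N` double layers is `(T n 0)^N (single (bot n) 1)`.
The half `w ≥ 1` is the mirror image of the half `w ≤ 1` under `(x, y) ↦ (y+1, x-1)` (`w ↦ 2-w`, `u ↦ u`).  The two halves use
disjoint sets of edges and share only the vertices of level 1; `(1,0)` (index 0) is joined to the wall iff
`(σ ⊔ τ) 0 n` for the two partitions. -/
namespace IP
open Finset Real Filter Topology H47Perc

/-- `0 ≤ x + y ≤ 2n+1`, `a ≤ x - y ≤ b` -/
noncomputable def stripF (n : ℕ) (a b : ℤ) : Finset (ℤ × ℤ) :=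
  ((Finset.Icc (a - 2 * n - 2) (b + 2 * n + 2)) ×ˢ (Finset.Icc (-b - 2 * n - 2) (-a + 2 * n + 2))).filter
    (fun z => 0 ≤ z.1 + z.2 ∧ z.1 + z.2 ≤ 2 * n + 1 ∧ a ≤ z.1 - z.2 ∧ z.1 - z.2 ≤ b)

theorem mem_stripF {n : ℕ} {a b : ℤ} {z : ℤ × ℤ} : z ∈ stripF n a b ↔
    0 ≤ z.1 + z.2 ∧ z.1 + z.2 ≤ 2 * n + 1 ∧ a ≤ z.1 - z.2 ∧ z.1 - z.2 ≤ b := by sorry

/-- the vertex `(1,0)` is joined to the line `x + y = 2n+1` -/
def Hit (n : ℕ) (ω : Finset (Sym2 (ℤ × ℤ))) : Prop := ∃ z : ℤ × ℤ, z.1 + z.2 = 2 * n + 1 ∧ Joined ω (1, 0) z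

/-- exact formula in finite strips -/
theorem strip_exact (n N : ℕ) : perc half (stripF n (-2 * N - 1) (2 * N + 1)) (Hit n) =
    hull n (((T n (fun _ => 0)) ^ (N + 1)) (Finsupp.single (bot n) 1))
      (((T n (fun _ => 0)) ^ N) (Finsupp.single (bot n) 1)) := by sorry
end IP
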