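import Pool.Agent.Lead.IP.PercB
import Pool.Agent.Lead.IP.Doeblin
/-! MODULE PercC: the limit of infinite strips. -/
namespace IP
open Finset Real Filter Topology H47Perc

theorem strip_tendsto (n : ℕ) : Tendsto (fun N : ℕ => perc half (stripF n (-2 * N - 1) (2 * N + 1)) (Hit n))
    atTop (𝓝 (hull n (P n (fun _ => 0)) (P n (fun _ => 0)))) := by sorry
end IP
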