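import Pool.Agent.Lead.IP.Transfer
/-! MODULE PercA: the transfer matrix at `b = 0` as an average over bits. -/
namespace IP
open Finset Real

/-- apply the generators `act (off + i)`, `i ∈ c`, `i < k`, in decreasing order of `i` -/
noncomputable def rowS (off : ℕ) (c : Finset ℕ) : ℕ → St → St
  | 0, σ => σ
  | k + 1, σ => rowS off c k (if k ∈ c then act (off + k) σ else σ)

/-- a double layer -/
noncomputable def stepS (n : ℕ) (c c' : Finset ℕ) (σ : St) : St :=
  del 0 (rowS 1 c' (2 * n + 1) (rowS 0 c (2 * n + 1) σ))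

theorem T_zero_single (n : ℕ) (σ : St) : T n (fun _ => 0) (Finsupp.single σ 1) =
    ((1 / 2 : ℝ) ^ (4 * n + 2)) • ∑ c ∈ (range (2 * n + 1)).powerset, ∑ c' ∈ (range (2 * n + 1)).powerset,
      Finsupp.single (stepS n c c' σ) (1 : ℝ) := by sorry
end IP
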