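import Pool.Agent.Lead.IP.Erel
/-! MODULE Rank: `phi` is fully symmetric and even.
Fix `b n, ..., b (2n)` generic in the cube.  Unknowns `ψ_j = phi(pt j) - phi(pt n)`, `n < j ≤ 2n`;
rows `i = n+1..2n` of `Erel`.  The determinant of the `n x n` matrix is a polynomial in
`y_k = 2 cos (2 b k)`, `k < n` (every entry is linear in the numbers `gg(b j) = ∏_k (y_k - eta(b j))`).
At `y = (eta(b (n+1)), ..., eta(b (2n)))` all `gg(b j)`, `j > n`, vanish and the matrix is diagonal with
nonzero entries.  On the segment from the given `y` to this point the determinant is a polynomial in one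
variable `t` which does not vanish at `t = 1`, so it does not vanish for small `t > 0`.
Hence `phi(pt j b) = phi(pt n b)` for points arbitrarily close to `b`, and for `b` by continuity. -/
namespace IP
open Finset Real Filter Topology Matrix

theorem sw_continuous (i : ℕ) : Continuous (sw i) := by
  unfold sw
  exact continuous_pi fun j => continuous_apply _

theorem phi_sw_lim {n : ℕ} {b : ℕ → ℝ} (hb : b ∈ Cube) {c : ℝ → ℕ → ℝ}
    (hc : Tendsto c (𝓝[>] 0) (𝓝 b))
    (h : ∀ᶠ t in 𝓝[>] 0, c t ∈ Cube ∧ phi n (sw n (c t)) = phi n (c t)) :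
    phi n (sw n b) = phi n b := by
  have h1 : Tendsto c (𝓝[>] 0) (𝓝[Cube] b) :=
    tendsto_nhdsWithin_iff.2 ⟨hc, h.mono fun t ht => ht.1⟩
  have h2 : Tendsto (fun t => sw n (c t)) (𝓝[>] 0) (𝓝[Cube] (sw n b)) :=
    tendsto_nhdsWithin_iff.2
      ⟨((sw_continuous n).tendsto b).comp hc, h.mono fun t ht => sw_Cube n ht.1⟩
  have h3 := ((phi_continuousOn n) b hb).tendsto.comp h1
  have h4 := ((phi_continuousOn n) (sw n b) (sw_Cube n hb)).tendsto.comp h2
  exact tendsto_nhds_unique h4 (h3.congr' (h.mono fun t ht => ht.2.symm))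

theorem eta_inj {x y : ℝ} (hx : |x| < π / 6) (hy : |y| < π / 6) (h : eta x = eta y) : x = y := by
  have h1 := abs_lt.1 hx
  have h2 := abs_lt.1 hy
  unfold eta at h
  have h3 : Real.cos (2 * π / 3 - 2 * x) = Real.cos (2 * π / 3 - 2 * y) := by linarith
  have h4 := Real.injOn_cos (Set.mem_Icc.2 ⟨by linarith [h1.2], by linarith [h1.1, Real.pi_pos]⟩)
    (Set.mem_Icc.2 ⟨by linarith [h2.2], by linarith [h2.1, Real.pi_pos]⟩) h3
  linarith

theorem pt_self (n : ℕ) (b : ℕ → ℝ) : pt n n b = b := by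
  funext i
  simp [pt]

/-- the weights in `Erel`, depending on the coordinates `≥ n` only -/
noncomputable def wRk (n : ℕ) (b : ℕ → ℝ) (i l : ℕ) : ℝ :=
  ((eta (b l) - eta (-b i)) * ∏ k ∈ (Icc n (2 * n)).erase l, (eta (b l) - eta (b k)))⁻¹

/-- the linear system -/
noncomputable def ARk {R : Type*} [CommRing R] (n : ℕ) (w : ℕ → ℕ → R) (G : ℕ → R) :
    Matrix (Fin n) (Fin n) R :=
  (Matrix.of fun i j : Fin n => G (n + 1 + j) * w (n + 1 + i) (n + 1 + j)) -
    Matrix.diagonal fun i : Fin n => ∑ l ∈ Icc n (2 * n), G l * w (n + 1 + i) l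

theorem sum_Icc_split {R : Type*} [CommRing R] (n : ℕ) (F : ℕ → R) :
    ∑ l ∈ Icc n (2 * n), F l = F n + ∑ j : Fin n, F (n + 1 + j) := by
  rw [Fin.sum_univ_eq_sum_range (fun j => F (n + 1 + j)) n]
  have e : Icc n (2 * n) = Ico n (2 * n + 1) := by
    ext x
    simp only [mem_Icc, mem_Ico]
    omega
  rw [e, Finset.sum_eq_sum_Ico_succ_bot (by omega), Finset.sum_Ico_eq_sum_range,
    show 2 * n + 1 - (n + 1) = n by omega]

theorem rank_alg (n : ℕ) (w : ℕ → ℕ → ℝ) (G Φ : ℕ → ℝ) (hdet : (ARk n w G).det ≠ 0)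
    (hE : ∀ i ∈ Icc (n + 1) (2 * n),
      ∑ l ∈ (Icc n (2 * n)).erase i, G l * w i l * (Φ l - Φ i) = 0) :
    ∀ j < n, Φ (n + 1 + j) = Φ n := by
  have key : ARk n w G *ᵥ (fun i : Fin n => Φ (n + 1 + i) - Φ n) = 0 := by
    funext i
    have hi : n + 1 + (i : ℕ) ∈ Icc (n + 1) (2 * n) := by
      rw [mem_Icc]; have := i.2; omega
    have h1 := hE _ hi
    have hi' : n + 1 + (i : ℕ) ∈ Icc n (2 * n) := by
      rw [mem_Icc]; have := i.2; omega
    have h2 : ∑ l ∈ Icc n (2 * n), G l * w (n + 1 + i) l * (Φ l - Φ (n + 1 + i)) = 0 := by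
      rw [← Finset.add_sum_erase _ _ hi', h1]
      ring
    have h3 : ∑ l ∈ Icc n (2 * n), G l * w (n + 1 + i) l * (Φ l - Φ n) -
        (∑ l ∈ Icc n (2 * n), G l * w (n + 1 + i) l) * (Φ (n + 1 + i) - Φ n) = 0 := by
      rw [← h2, Finset.sum_mul, ← Finset.sum_sub_distrib]
      refine Finset.sum_congr rfl fun l _ => ?_
      ring
    rw [sum_Icc_split n (fun l => G l * w (n + 1 + i) l * (Φ l - Φ n))] at h3
    have h4 : (ARk n w G *ᵥ (fun i : Fin n => Φ (n + 1 + i) - Φ n)) i =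
        ∑ j : Fin n, G (n + 1 + j) * w (n + 1 + i) (n + 1 + j) * (Φ (n + 1 + j) - Φ n) -
        (∑ l ∈ Icc n (2 * n), G l * w (n + 1 + i) l) * (Φ (n + 1 + i) - Φ n) := by
      unfold ARk
      rw [Matrix.sub_mulVec, Pi.sub_apply, Matrix.mulVec_diagonal]
      rfl
    rw [h4, Pi.zero_apply]
    rw [← h3]
    ring
  have h := Matrix.eq_zero_of_mulVec_eq_zero hdet key
  intro j hj
  have := congrFun h ⟨j, hj⟩
  simp only [Pi.zero_apply] at this
  linarith

theorem det_one (n : ℕ) (w : ℕ → ℕ → ℝ) (G : ℕ → ℝ) (h0 : ∀ j < n, G (n + 1 + j) = 0)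
    (hn : G n ≠ 0) (hw : ∀ i < n, w (n + 1 + i) n ≠ 0) : (ARk n w G).det ≠ 0 := by
  have e : ARk n w G = Matrix.diagonal fun i : Fin n => -(G n * w (n + 1 + i) n) := by
    ext i j
    unfold ARk
    rw [Matrix.sub_apply, Matrix.of_apply, h0 j j.2, zero_mul, zero_sub, Matrix.diagonal_apply,
      Matrix.diagonal_apply]
    split_ifs
    · rw [sum_Icc_split n (fun l => G l * w (n + 1 + i) l),
        Finset.sum_eq_zero (fun l _ => by rw [h0 l l.2, zero_mul]), add_zero]
    · rw [neg_zero]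
  rw [e, Matrix.det_diagonal]
  exact Finset.prod_ne_zero_iff.2 fun i _ => neg_ne_zero.2 (mul_ne_zero hn (hw i i.2))

theorem poly_ev {p : Polynomial ℝ} (hp : p ≠ 0) : ∀ᶠ t in 𝓝[>] (0 : ℝ), p.eval t ≠ 0 := by
  have hfin : ({t : ℝ | p.IsRoot t} \ {0}).Finite :=
    (Polynomial.finite_setOfPred_isRoot hp).subset Set.sdiff_subset
  have hmem : ({t : ℝ | p.IsRoot t} \ {0})ᶜ ∈ 𝓝 (0 : ℝ) :=
    hfin.isClosed.isOpen_compl.mem_nhds (by simp)
  filter_upwards [nhdsWithin_le_nhds hmem, self_mem_nhdsWithin] with t ht ht0 h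
  exact ht ⟨h, fun h0 => (ne_of_gt (Set.mem_Ioi.1 ht0)) (Set.mem_singleton_iff.1 h0)⟩

theorem det_ev (n : ℕ) (w : ℕ → ℕ → ℝ) (y z h : ℕ → ℝ)
    (h1 : (ARk n w (fun l => ∏ k ∈ range n, (z k - h l))).det ≠ 0) :
    ∀ᶠ t in 𝓝[>] (0 : ℝ),
      (ARk n w (fun l => ∏ k ∈ range n, (y k + t * (z k - y k) - h l))).det ≠ 0 := by
  set p : Polynomial ℝ := (ARk n (fun i l => Polynomial.C (w i l)) (fun l => ∏ k ∈ range n,
    (Polynomial.C (y k) + Polynomial.X * Polynomial.C (z k - y k) - Polynomial.C (h l)))).det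
    with hpdef
  have hev : ∀ t : ℝ, p.eval t =
      (ARk n w (fun l => ∏ k ∈ range n, (y k + t * (z k - y k) - h l))).det := by
    intro t
    rw [hpdef, ← Polynomial.coe_evalRingHom, RingHom.map_det]
    congr 1
    ext i j
    simp only [ARk, RingHom.mapMatrix_apply, Matrix.map_apply, Matrix.sub_apply, Matrix.of_apply,
      Matrix.diagonal_apply, Polynomial.coe_evalRingHom, Polynomial.eval_sub, Polynomial.eval_mul,
      Polynomial.eval_prod, Polynomial.eval_add, Polynomial.eval_C, Polynomial.eval_X,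
      apply_ite (Polynomial.eval t), Polynomial.eval_finsetSum, Polynomial.eval_zero]
  have hp : p ≠ 0 := by
    intro h0
    apply h1
    have := hev 1
    rw [h0, Polynomial.eval_zero] at this
    rw [this]
    congr 2
    funext l
    refine Finset.prod_congr rfl fun k _ => ?_
    ring
  filter_upwards [poly_ev hp] with t ht
  rw [← hev]
  exact ht

/-- the path -/
noncomputable def pth (n : ℕ) (b z : ℕ → ℝ) (t : ℝ) : ℕ → ℝ := fun k =>
  if k < n then (if 0 ≤ b k then 1 else -1) *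
    (Real.arccos ((2 * Real.cos (2 * b k) + t * (z k - 2 * Real.cos (2 * b k))) / 2) / 2) else b k

theorem pth_continuous (n : ℕ) (b z : ℕ → ℝ) : Continuous (pth n b z) := by
  refine continuous_pi fun k => ?_
  unfold pth
  by_cases h : k < n
  · simp only [h, if_true]
    have : Continuous fun t : ℝ =>
        Real.arccos ((2 * Real.cos (2 * b k) + t * (z k - 2 * Real.cos (2 * b k))) / 2) :=
      Real.continuous_arccos.comp (by fun_prop)
    fun_prop
  · simp only [h, if_false]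
    exact continuous_const

theorem pth_zero (n : ℕ) {b : ℕ → ℝ} (hb : b ∈ Cube) (z : ℕ → ℝ) : pth n b z 0 = b := by
  funext k
  unfold pth
  split_ifs with h h0
  · have h1 := abs_lt.1 (hb k)
    rw [zero_mul, add_zero, mul_div_cancel_left₀ _ two_ne_zero,
      Real.arccos_cos (by linarith) (by linarith [Real.pi_pos])]
    ring
  · have h1 := abs_lt.1 (hb k)
    rw [zero_mul, add_zero, mul_div_cancel_left₀ _ two_ne_zero, ← Real.cos_neg,
      Real.arccos_cos (by linarith) (by linarith [Real.pi_pos])]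
    ring
  · rfl

theorem pth_ge {n k : ℕ} (h : n ≤ k) (b z : ℕ → ℝ) (t : ℝ) : pth n b z t k = b k := by
  unfold pth
  rw [if_neg (by omega)]

theorem pth_cos {n k : ℕ} (h : k < n) (b : ℕ → ℝ) {z : ℕ → ℝ} (hz : |z k| ≤ 2) {t : ℝ}
    (h0 : 0 ≤ t) (h1 : t ≤ 1) :
    2 * Real.cos (2 * pth n b z t k) =
      2 * Real.cos (2 * b k) + t * (z k - 2 * Real.cos (2 * b k)) := by
  unfold pth
  rw [if_pos h]
  set Y := 2 * Real.cos (2 * b k) + t * (z k - 2 * Real.cos (2 * b k)) with hY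
  have hz' := abs_le.1 hz
  have hc1 := Real.neg_one_le_cos (2 * b k)
  have hc2 := Real.cos_le_one (2 * b k)
  have hY1 : -1 ≤ Y / 2 := by
    have : Y = (1 - t) * (2 * Real.cos (2 * b k)) + t * z k := by rw [hY]; ring
    nlinarith [mul_nonneg h0 (by linarith : (0 : ℝ) ≤ z k + 2),
      mul_nonneg (by linarith : (0 : ℝ) ≤ 1 - t) (by linarith : (0 : ℝ) ≤ 2 * Real.cos (2 * b k) + 2)]
  have hY2 : Y / 2 ≤ 1 := by
    have : Y = (1 - t) * (2 * Real.cos (2 * b k)) + t * z k := by rw [hY]; ring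
    nlinarith [mul_nonneg h0 (by linarith : (0 : ℝ) ≤ 2 - z k),
      mul_nonneg (by linarith : (0 : ℝ) ≤ 1 - t) (by linarith : (0 : ℝ) ≤ 2 - 2 * Real.cos (2 * b k))]
  have hcos := Real.cos_arccos hY1 hY2
  split_ifs with h2
  · rw [show 2 * (1 * (Real.arccos (Y / 2) / 2)) = Real.arccos (Y / 2) by ring, hcos]
    ring
  · rw [show 2 * (-1 * (Real.arccos (Y / 2) / 2)) = -Real.arccos (Y / 2) by ring, Real.cos_neg,
      hcos]
    ring

/-- genericity is an open condition -/
theorem Gnr_ev {n : ℕ} {b : ℕ → ℝ} (hg : Gnr n b) {c : ℝ → ℕ → ℝ}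
    (hc : Tendsto c (𝓝[>] 0) (𝓝 b)) : ∀ᶠ t in 𝓝[>] 0, Gnr n (c t) := by
  have hk : ∀ k, Tendsto (fun t => c t k) (𝓝[>] 0) (𝓝 (b k)) := fun k => (tendsto_pi_nhds.1 hc) k
  have h1 : ∀ᶠ t in 𝓝[>] 0, ∀ p ∈ (range (2 * n + 1)) ×ˢ (range (2 * n + 1)), p.1 ≠ p.2 →
      c t p.1 ≠ c t p.2 ∧ c t p.1 ≠ -c t p.2 := by
    rw [Filter.eventually_all_finset]
    rintro ⟨i, j⟩ hp
    simp only [mem_product, mem_range] at hp
    by_cases hij : i = j
    · exact Eventually.of_forall fun t h => absurd hij h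
    · obtain ⟨h2, h3⟩ := hg.1 i j (by omega) (by omega) hij
      have h4 := ((hk i).sub (hk j)).eventually_ne (sub_ne_zero.2 h2)
      have h5 := ((hk i).add (hk j)).eventually_ne
        (fun h => h3 (eq_neg_of_add_eq_zero_left h))
      filter_upwards [h4, h5] with t h6 h7 _
      exact ⟨fun h => h6 (sub_eq_zero.2 h), fun h => h7 (by rw [h]; ring)⟩
  have h2 : ∀ᶠ t in 𝓝[>] 0, ∀ i ∈ range (2 * n + 1), c t i ≠ 0 := by
    rw [Filter.eventually_all_finset]
    intro i hi
    exact (hk i).eventually_ne (hg.2 i (by rw [mem_range] at hi; omega))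
  filter_upwards [h1, h2] with t h3 h4
  exact ⟨fun i j hi hj hij => h3 (i, j)
    (by simp only [mem_product, mem_range]; omega) hij, fun i hi => h4 i (by rw [mem_range]; omega)⟩

/-- a path which moves finitely many coordinates only stays in the cube -/
theorem Cube_ev {m : ℕ} {b : ℕ → ℝ} (hb : b ∈ Cube) {c : ℝ → ℕ → ℝ}
    (hc : Tendsto c (𝓝[>] 0) (𝓝 b)) (h : ∀ k, m ≤ k → ∀ t, c t k = b k) :
    ∀ᶠ t in 𝓝[>] 0, c t ∈ Cube := by
  have h1 : ∀ᶠ t in 𝓝[>] 0, ∀ k ∈ range m, |c t k| < π / 6 := by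
    rw [Filter.eventually_all_finset]
    intro k _
    exact ((tendsto_pi_nhds.1 hc) k).abs.eventually_lt_const (hb k)
  filter_upwards [h1] with t ht k
  by_cases hk : k < m
  · exact ht k (mem_range.2 hk)
  · rw [h k (by omega)]
    exact hb k

theorem phi_sw_gnr {n : ℕ} (hn : 1 ≤ n) {b : ℕ → ℝ} (hb : b ∈ Cube) (hg : Gnr n b) :
    phi n (sw n b) = phi n b := by
  set z : ℕ → ℝ := fun k => eta (b (n + 1 + k)) with hz
  have hz2 : ∀ k, |z k| ≤ 2 := by
    intro k
    rw [hz]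
    simp only [eta]
    rw [abs_mul, abs_two]
    linarith [Real.abs_cos_le_one (2 * π / 3 - 2 * b (n + 1 + k))]
  have hc0 : Tendsto (pth n b z) (𝓝[>] 0) (𝓝 b) := by
    have := (pth_continuous n b z).tendsto 0
    rw [pth_zero n hb] at this
    exact this.mono_left nhdsWithin_le_nhds
  refine phi_sw_lim hb hc0 ?_
  have hcube : ∀ᶠ t in 𝓝[>] 0, pth n b z t ∈ Cube :=
    Cube_ev (m := n) hb hc0 fun k hk t => pth_ge hk b z t
  have h1 := Gnr_ev hg hc0
  have h2 : ∀ᶠ t in 𝓝[>] (0 : ℝ), t ∈ Set.Ioo (0 : ℝ) 1 := Ioo_mem_nhdsGT one_pos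
  have hne : ∀ i j, i ≤ 2 * n → j ≤ 2 * n → i ≠ j → eta (b i) - eta (b j) ≠ 0 :=
    fun i j hi hj hij h => (hg.1 i j hi hj hij).1 (eta_inj (hb i) (hb j) (sub_eq_zero.1 h))
  have hne' : ∀ i j, i ≤ 2 * n → j ≤ 2 * n → i ≠ j → eta (b i) - eta (-b j) ≠ 0 :=
    fun i j hi hj hij h => (hg.1 i j hi hj hij).2
      (eta_inj (hb i) (by rw [abs_neg]; exact hb j) (sub_eq_zero.1 h))
  have h3 := det_ev n (wRk n b) (fun k => 2 * Real.cos (2 * b k)) z (fun l => eta (b l)) (by
    refine det_one n _ _ ?_ ?_ ?_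
    · intro j hj
      exact Finset.prod_eq_zero (mem_range.2 hj) (by rw [hz]; simp)
    · refine Finset.prod_ne_zero_iff.2 fun k hk => ?_
      rw [mem_range] at hk
      exact hne _ _ (by omega) (by omega) (by omega)
    · intro i hi
      unfold wRk
      refine inv_ne_zero (mul_ne_zero (hne' _ _ (by omega) (by omega) (by omega)) ?_)
      refine Finset.prod_ne_zero_iff.2 fun k hk => ?_
      rw [mem_erase, mem_Icc] at hk
      exact hne _ _ (by omega) (by omega) (by omega))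
  filter_upwards [hcube, h1, h2, h3] with t h4 h5 h6 h7
  refine ⟨h4, ?_⟩
  have h8 := rank_alg n (wRk n b) _ (fun l => phi n (pt n l (pth n b z t))) h7 (by
    intro i hi
    rw [mem_Icc] at hi
    have h9 := Erel n hn h4 h5 i (by rw [mem_Icc]; omega)
    rw [← h9]
    refine Finset.sum_congr rfl fun l hl => ?_
    rw [mem_erase, mem_Icc] at hl
    have e1 : gg n (pth n b z t) (pth n b z t l) = ∏ k ∈ range n,
        (2 * Real.cos (2 * b k) + t * (z k - 2 * Real.cos (2 * b k)) - eta (b l)) := by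
      unfold gg
      refine Finset.prod_congr rfl fun k hk => ?_
      rw [pth_cos (mem_range.1 hk) b (hz2 k) h6.1.le h6.2.le, pth_ge (by omega)]
    have e2 : ∏ k ∈ (Icc n (2 * n)).erase l, (eta (pth n b z t l) - eta (pth n b z t k)) =
        ∏ k ∈ (Icc n (2 * n)).erase l, (eta (b l) - eta (b k)) := by
      refine Finset.prod_congr rfl fun k hk => ?_
      rw [mem_erase, mem_Icc] at hk
      rw [pth_ge (by omega), pth_ge (by omega)]
    rw [e1, e2, pth_ge (by omega : n ≤ l), pth_ge (by omega : n ≤ i)]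
    unfold wRk
    rw [div_eq_mul_inv]
    ring)
  have h10 := h8 0 (by omega)
  simp only [pt_self] at h10
  exact h10

/-- `phi` is symmetric in all coordinates -/
theorem phi_sw {n i : ℕ} (h : i + 1 ≤ 2 * n) {b : ℕ → ℝ} (hb : b ∈ Cube) :
    phi n (sw i b) = phi n b := by
  by_cases hin : i = n
  swap
  · exact phi_sw_ne h hin hb
  subst hin
  have hn : 1 ≤ i := by omega
  set c : ℝ → ℕ → ℝ := fun t k => if k ≤ 2 * i then b k + t * (k + 1) else b k with hc
  have hcc : Continuous c := by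
    refine continuous_pi fun k => ?_
    by_cases hk : k ≤ 2 * i
    · simp only [hc, hk, if_true]
      fun_prop
    · simp only [hc, hk, if_false]
      fun_prop
  have hc0 : Tendsto c (𝓝[>] 0) (𝓝 b) := by
    have h1 := hcc.tendsto 0
    have h2 : c 0 = b := by
      funext k
      simp [hc]
    rw [h2] at h1
    exact h1.mono_left nhdsWithin_le_nhds
  refine phi_sw_lim hb hc0 ?_
  have hcube : ∀ᶠ t in 𝓝[>] 0, c t ∈ Cube :=
    Cube_ev (m := 2 * i + 1) hb hc0 fun k hk t => by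
      simp only [hc]
      rw [if_neg (by omega)]
  have hlin : ∀ u v : ℝ, v ≠ 0 → ∀ᶠ t in 𝓝[>] (0 : ℝ), u + t * v ≠ 0 := by
    intro u v hv
    have := poly_ev (p := Polynomial.C u + Polynomial.X * Polynomial.C v) (by
      intro h0
      have := congrArg (fun p => Polynomial.coeff p 1) h0
      simp at this
      exact hv this)
    filter_upwards [this] with t ht
    rw [Polynomial.eval_add, Polynomial.eval_mul, Polynomial.eval_C, Polynomial.eval_C,
      Polynomial.eval_X] at ht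
    exact ht
  have hgen : ∀ᶠ t in 𝓝[>] 0, Gnr i (c t) := by
    have h1 : ∀ᶠ t in 𝓝[>] (0 : ℝ), ∀ p ∈ (range (2 * i + 1)) ×ˢ (range (2 * i + 1)), p.1 ≠ p.2 →
        c t p.1 ≠ c t p.2 ∧ c t p.1 ≠ -c t p.2 := by
      rw [Filter.eventually_all_finset]
      rintro ⟨k, l⟩ hp
      simp only [mem_product, mem_range] at hp
      by_cases hkl : k = l
      · exact Eventually.of_forall fun t h => absurd hkl h
      · have h4 := hlin (b k - b l) ((k : ℝ) - l) (sub_ne_zero.2 (by exact_mod_cast hkl))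
        have h5 := hlin (b k + b l) ((k : ℝ) + l + 2) (by positivity)
        filter_upwards [h4, h5] with t h6 h7 _
        simp only [hc]
        rw [if_pos (by omega), if_pos (by omega)]
        exact ⟨fun h => h6 (by linear_combination h), fun h => h7 (by linear_combination h)⟩
    have h2 : ∀ᶠ t in 𝓝[>] 0, ∀ k ∈ range (2 * i + 1), c t k ≠ 0 := by
      rw [Filter.eventually_all_finset]
      intro k hk
      rw [mem_range] at hk
      have hk' : k ≤ 2 * i := by omega
      simp only [hc, hk', if_true]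
      exact hlin _ _ (by positivity)
    filter_upwards [h1, h2] with t h3 h4
    exact ⟨fun k l hk hl hkl => h3 (k, l)
      (by simp only [mem_product, mem_range]; omega) hkl,
      fun k hk => h4 k (by rw [mem_range]; omega)⟩
  filter_upwards [hcube, hgen] with t h1 h2
  exact ⟨h1, phi_sw_gnr hn h1 h2⟩

end IP
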