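import Pool.Agent.Lead.IP.Lin
/-! MODULE Transfer: the double row transfer matrix. -/
namespace IP
open Finset Real

/-! ### rows -/

theorem row_zero (off : ℕ) (b : ℕ → ℝ) (v : M) : row off b 0 v = v := rfl

theorem row_succ (off : ℕ) (b : ℕ → ℝ) (k : ℕ) (v : M) :
    row off b (k + 1) v = row off b k (Rt (off + k) (b k + π / 6) v) := rfl

theorem row_congr (off k : ℕ) {b b' : ℕ → ℝ} (h : ∀ j < k, b j = b' j) :
    row off b k = row off b' k := by
  induction k with
  | zero => rfl
  | succ k ih =>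
    show row off b k ∘ₗ Rt (off + k) (b k + π / 6) = row off b' k ∘ₗ Rt (off + k) (b' k + π / 6)
    rw [ih (fun j hj => h j (by omega)), h k (by omega)]

theorem tot_row (off : ℕ) (b : ℕ → ℝ) (k : ℕ) (v : M) :
    tot (row off b k v) = (∏ j ∈ range k, s (b j + π / 6)) * tot v := by
  induction k generalizing v with
  | zero => simp [row_zero]
  | succ k ih =>
    rw [row_succ, ih, tot_Rt, prod_range_succ]
    ring

theorem row_Sup {m : ℕ} (off : ℕ) (b : ℕ → ℝ) (k : ℕ) (h : off + k ≤ 2 * m) {v : M}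
    (hv : v ∈ Sup (W m)) : row off b k v ∈ Sup (W m) := by
  induction k generalizing v with
  | zero => exact hv
  | succ k ih =>
    rw [row_succ]
    exact ih (by omega) (Rt_Sup (Or.inl (by omega)) _ hv)

theorem row_NC (off : ℕ) (b : ℕ → ℝ) (k : ℕ) {v : M}
    (hv : v ∈ Sup NC) : row off b k v ∈ Sup NC := by
  induction k generalizing v with
  | zero => exact hv
  | succ k ih =>
    rw [row_succ]
    exact ih (Rt_NC _ _ hv)

/-- an R-matrix to the right of a row commutes with it -/
theorem Rt_row_right (off : ℕ) (b : ℕ → ℝ) (k : ℕ) {j : ℕ} (h : off + k + 1 ≤ j) (u : ℝ) (v : M) :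
    Rt j u (row off b k v) = row off b k (Rt j u v) := by
  induction k generalizing v with
  | zero => rfl
  | succ k ih =>
    rw [row_succ, row_succ, ih (by omega), Rt_comm (by omega : off + k + 2 ≤ j)]

/-- an R-matrix to the left of a row commutes with it -/
theorem Rt_row_left (off : ℕ) (b : ℕ → ℝ) (k : ℕ) {j : ℕ} (h : j + 2 ≤ off) (u : ℝ) (v : M) :
    Rt j u (row off b k v) = row off b k (Rt j u v) := by
  induction k generalizing v with
  | zero => rfl
  | succ k ih =>
    rw [row_succ, row_succ, ih, Rt_comm (by omega : j + 2 ≤ off + k)]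

/-- the first factor of a row -/
theorem row_succ_left (off : ℕ) (b : ℕ → ℝ) (k : ℕ) (v : M) :
    row off b (k + 1) v = Rt off (b 0 + π / 6) (row (off + 1) (fun j => b (j + 1)) k v) := by
  induction k generalizing v with
  | zero => rfl
  | succ k ih =>
    rw [row_succ off b (k + 1), ih, row_succ (off + 1),
      show off + (k + 1) = off + 1 + k by omega]

theorem sw_left (i : ℕ) (b : ℕ → ℝ) : sw i b i = b (i + 1) := by
  unfold sw; rw [Equiv.swap_apply_left]

theorem sw_right (i : ℕ) (b : ℕ → ℝ) : sw i b (i + 1) = b i := by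
  unfold sw; rw [Equiv.swap_apply_right]

theorem sw_of_ne {i j : ℕ} (b : ℕ → ℝ) (h1 : j ≠ i) (h2 : j ≠ i + 1) : sw i b j = b j := by
  unfold sw; rw [Equiv.swap_apply_of_ne_of_ne h1 h2]

/-- a row is intertwined by an R-matrix -/
theorem row_sw (off : ℕ) (i : ℕ) (b : ℕ → ℝ) (k : ℕ) (v : M) :
    row off (sw i b) (i + 2 + k) (Rt (off + i) (b i - b (i + 1)) v) =
      Rt (off + i + 1) (b i - b (i + 1)) (row off b (i + 2 + k) v) := by
  induction k generalizing v with
  | zero =>
    show row off (sw i b) (i + 1 + 1) _ = Rt _ _ (row off b (i + 1 + 1) v)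
    rw [row_succ, row_succ, row_succ off b, row_succ off b, sw_left, sw_right,
      Rt_row_right off b i (le_refl (off + i + 1))]
    have h := yang_baxter (off + i) (b (i + 1) + π / 6) (b i - b (i + 1)) v
    rw [show b (i + 1) + π / 6 + (b i - b (i + 1)) = b i + π / 6 by ring] at h
    rw [show off + (i + 1) = off + i + 1 by omega, h]
    rw [row_congr off i (b := sw i b) (b' := b) (fun j hj => sw_of_ne b (by omega) (by omega))]
  | succ k ih =>
    rw [show i + 2 + (k + 1) = (i + 2 + k) + 1 by omega, row_succ, row_succ off b,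
      ← Rt_comm (by omega : off + i + 2 ≤ off + (i + 2 + k)), ih,
      sw_of_ne b (by omega) (by omega)]

/-- rows and insertions to the right -/
theorem row_In_right (off : ℕ) (b : ℕ → ℝ) (k : ℕ) {p : ℕ} (h : off + k + 1 ≤ p) (v : M) :
    row off b k (In p v) = In p (row off b k v) := by
  induction k generalizing v with
  | zero => rfl
  | succ k ih =>
    rw [row_succ, row_succ, Rt_In_lt (by omega : off + k + 2 ≤ p), ih (by omega)]

/-- an arc slides through a row -/
theorem row_In (off : ℕ) (i : ℕ) (b : ℕ → ℝ) (hb : b (i + 1) = b i + π / 3) (k : ℕ) (v : M) :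
    row off b (i + k + 2) (In (off + i) v) =
      (s (b i + π / 6) * s (-(b i + π / 6))) • In (off + i + 1) (row off (rem i b) (i + k) v) := by
  induction k generalizing v with
  | zero =>
    show row off b (i + 1 + 1) _ = _ • In _ (row off (rem i b) i v)
    rw [row_succ, row_succ, hb]
    have h := slide (off + i) (b i + π / 6) v
    rw [show off + (i + 1) = off + i + 1 by omega,
      show b i + π / 3 + π / 6 = b i + π / 6 + π / 3 by ring, h, map_smul,
      row_In_right off b i (le_refl (off + i + 1))]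
    rw [row_congr off i (b := rem i b) (b' := b)
      (fun j hj => by unfold rem; rw [if_pos hj])]
  | succ k ih =>
    rw [show i + (k + 1) + 2 = (i + k + 2) + 1 by omega, row_succ,
      show off + (i + k + 2) = (off + (i + k)) + 2 by omega,
      Rt_In_gt (by omega : off + i ≤ off + (i + k)), ih,
      show i + (k + 1) = (i + k) + 1 by omega, row_succ off (rem i b)]
    have : rem i b (i + k) = b (i + k + 2) := by
      unfold rem; rw [if_neg (by omega)]
    rw [this]

/-! ### the statements of the module -/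

theorem Tt_apply (n : ℕ) (b : ℕ → ℝ) (v : M) :
    Tt n b v = De 0 (row 1 b (2 * n + 1) (row 0 b (2 * n + 1) v)) := rfl

theorem tot_Tt (n : ℕ) (b : ℕ → ℝ) (v : M) : tot (Tt n b v) = nrm n b * tot v := by
  rw [Tt_apply, tot_De, tot_row, tot_row]
  unfold nrm
  rw [← mul_assoc, ← prod_mul_distrib]
  congr 1
  exact prod_congr rfl (fun j _ => (sq _).symm)

theorem Tt_Sup (n : ℕ) (b : ℕ → ℝ) {v : M} (hv : v ∈ Sup (W n)) : Tt n b v ∈ Sup (W n) := by
  rw [Tt_apply]
  apply De_Sup (by omega)
  apply row_Sup 1 b _ (by omega)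
  apply row_Sup 0 b _ (by omega)
  exact Sup_mono (by omega) hv

theorem Tt_NC (n : ℕ) (b : ℕ → ℝ) {v : M} (hv : v ∈ Sup NC) : Tt n b v ∈ Sup NC := by
  rw [Tt_apply]
  exact De_NC _ (row_NC _ _ _ (row_NC _ _ _ hv))

theorem Tt_congr (n : ℕ) {b b' : ℕ → ℝ} (h : ∀ j < 2 * n + 1, b j = b' j) : Tt n b = Tt n b' := by
  unfold Tt
  rw [row_congr 1 (2 * n + 1) h, row_congr 0 (2 * n + 1) h]

theorem nrm_congr (n : ℕ) {b b' : ℕ → ℝ} (h : ∀ j < 2 * n + 1, b j = b' j) : nrm n b = nrm n b' := by
  unfold nrm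
  exact prod_congr rfl (fun j hj => by rw [h j (mem_range.1 hj)])

theorem nrm_sw {n i : ℕ} (h : i + 1 ≤ 2 * n) (b : ℕ → ℝ) : nrm n (sw i b) = nrm n b := by
  unfold nrm sw
  apply Finset.prod_equiv (Equiv.swap i (i + 1))
  · intro j
    simp only [mem_range]
    rcases eq_or_ne j i with rfl | h1
    · rw [Equiv.swap_apply_left]; omega
    · rcases eq_or_ne j (i + 1) with rfl | h2
      · rw [Equiv.swap_apply_right]; omega
      · rw [Equiv.swap_apply_of_ne_of_ne h1 h2]
  · intro j _
    rfl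

/-- `s (π/6 + x) = cos x` -/
theorem nrm_ng (n i : ℕ) (b : ℕ → ℝ) : nrm n (ng i b) = nrm n b := by
  have hs : ∀ x : ℝ, s (x + π / 6) = Real.cos x := by
    intro x
    unfold s
    rw [show π / 3 + (x + π / 6) = x + π / 2 by ring, Real.sin_add_pi_div_two]
  unfold nrm
  apply prod_congr rfl
  intro j _
  rw [hs, hs]
  unfold ng
  rcases eq_or_ne j i with rfl | h
  · rw [Function.update_self, Real.cos_neg]
  · rw [Function.update_of_ne h]

/-- the transfer matrices are intertwined by the R-matrices -/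
theorem Tt_sw {n i : ℕ} (h : i + 1 ≤ 2 * n) (b : ℕ → ℝ) (v : M) :
    Tt n (sw i b) (Rt i (b i - b (i + 1)) v) = Rt i (b i - b (i + 1)) (Tt n b v) := by
  obtain ⟨k, hk⟩ : ∃ k, 2 * n + 1 = i + 2 + k := ⟨2 * n - 1 - i, by omega⟩
  rw [Tt_apply, Tt_apply, hk]
  have h0 := row_sw 0 i b k v
  rw [Nat.zero_add] at h0
  have h1 := row_sw 1 i b k (row 0 b (i + 2 + k) v)
  rw [Nat.add_comm 1 i] at h1
  rw [h0, h1, De_Rt_gt (Nat.zero_le i)]

theorem Tt_ngL (n : ℕ) (b : ℕ → ℝ) (v : M) : Tt n (ng 0 b) v = Tt n b v := by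
  have key : ∀ c : ℕ → ℝ, Tt n c v = De 0 (Rt 1 (c 0 + π / 6) (Rt 0 (c 0 + π / 6)
      (row 2 (fun j => c (j + 1)) (2 * n) (row 1 (fun j => c (j + 1)) (2 * n) v)))) := by
    intro c
    rw [Tt_apply, row_succ_left 1, row_succ_left 0, Rt_row_left 2 _ _ (le_refl 2)]
  rw [key, key b]
  have h1 : (fun j => ng 0 b (j + 1)) = fun j => b (j + 1) := by
    funext j
    unfold ng
    rw [Function.update_of_ne (by omega)]
  have h2 : ng 0 b 0 = - b 0 := by unfold ng; rw [Function.update_self]
  rw [h1, h2]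
  exact (reflect_left (b 0) _).symm

theorem Tt_ngR (n : ℕ) (b : ℕ → ℝ) {v : M} (hv : v ∈ Sup (W n)) : Tt n (ng (2 * n) b) v = Tt n b v := by
  have key : ∀ c : ℕ → ℝ, Tt n c v = De 0 (row 1 c (2 * n) (row 0 c (2 * n)
      (Rt (2 * n + 1) (c (2 * n) + π / 6) (Rt (2 * n) (c (2 * n) + π / 6) v)))) := by
    intro c
    rw [Tt_apply, row_succ 1, row_succ 0, Rt_row_right 0 c (2 * n) (by omega), Nat.zero_add,
      Nat.add_comm 1 (2 * n)]
  rw [key, key b]
  have h1 : ∀ off, row off (ng (2 * n) b) (2 * n) = row off b (2 * n) := by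
    intro off
    apply row_congr
    intro j hj
    unfold ng
    rw [Function.update_of_ne (by omega)]
  have h2 : ng (2 * n) b (2 * n) = - b (2 * n) := by unfold ng; rw [Function.update_self]
  rw [h1, h1, h2, ← reflect_right n (b (2 * n)) hv]

/-- an arc slides through the transfer matrix -/
theorem Tt_In {n i : ℕ} (h : i ≤ 2 * n + 1) (b : ℕ → ℝ) (hb : b (i + 1) = b i + π / 3) (v : M) :
    Tt (n + 1) b (In i v) =
      ((s (b i + π / 6) * s (-(b i + π / 6))) ^ 2) • In i (Tt n (rem i b) v) := by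
  obtain ⟨k, hk⟩ : ∃ k, 2 * n + 1 = i + k := ⟨2 * n + 1 - i, by omega⟩
  rw [Tt_apply, Tt_apply, show 2 * (n + 1) + 1 = i + k + 2 by omega, hk]
  have h0 := row_In 0 i b hb k v
  rw [Nat.zero_add] at h0
  have h1 := row_In 1 i b hb k (row 0 (rem i b) (i + k) v)
  rw [Nat.add_comm 1 i] at h1
  rw [h0, map_smul, h1, map_smul, map_smul, De_zero_In, smul_smul, sq]
end IP
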