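import Pool.Agent.Lead.IP.Defs
/-! MODULE TrigA: trigonometric polynomials in one variable (proved by helper92). -/
namespace IP
open Finset Real

theorem TP.add {m : ℕ} {F G : ℝ → ℝ} (hF : TP m F) (hG : TP m G) : TP m (fun x => F x + G x) := by
  obtain ⟨P, hP, h1⟩ := hF
  obtain ⟨Q, hQ, h2⟩ := hG
  refine ⟨P + Q, (Polynomial.natDegree_add_le _ _).trans (max_le hP hQ), fun x => ?_⟩
  rw [Complex.ofReal_add, h1, h2, Polynomial.eval_add, mul_add]

theorem TP.smul {m : ℕ} {F : ℝ → ℝ} (c : ℝ) (hF : TP m F) : TP m (fun x => c * F x) := by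
  obtain ⟨P, hP, h1⟩ := hF
  refine ⟨Polynomial.C (c : ℂ) * P, (Polynomial.natDegree_C_mul_le _ _).trans hP, fun x => ?_⟩
  rw [Complex.ofReal_mul, h1, Polynomial.eval_mul, Polynomial.eval_C]
  ring

theorem TP.neg {m : ℕ} {F : ℝ → ℝ} (hF : TP m F) : TP m (fun x => -F x) := by
  have h := hF.smul (-1)
  simpa using h

theorem TP.sub {m : ℕ} {F G : ℝ → ℝ} (hF : TP m F) (hG : TP m G) : TP m (fun x => F x - G x) := by
  have h := hF.add hG.neg
  simpa [sub_eq_add_neg] using h

theorem TP.mul {m k : ℕ} {F G : ℝ → ℝ} (hF : TP m F) (hG : TP k G) : TP (m + k) (fun x => F x * G x) := by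
  obtain ⟨P, hP, h1⟩ := hF
  obtain ⟨Q, hQ, h2⟩ := hG
  refine ⟨P * Q, Polynomial.natDegree_mul_le.trans (add_le_add hP hQ), fun x => ?_⟩
  rw [Complex.ofReal_mul, h1, h2, Polynomial.eval_mul]
  have h3 : Complex.exp (-(((m + k : ℕ) : ℂ) * x * Complex.I)) =
      Complex.exp (-((m : ℂ) * x * Complex.I)) * Complex.exp (-((k : ℂ) * x * Complex.I)) := by
    rw [← Complex.exp_add]
    congr 1
    push_cast
    ring
  rw [h3]
  ring

theorem TP.mono {m : ℕ} {F : ℝ → ℝ} (k : ℕ) (hF : TP m F) : TP (m + 2 * k) F := by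
  obtain ⟨P, hP, h1⟩ := hF
  refine ⟨Polynomial.X ^ k * P, ?_, fun x => ?_⟩
  · refine Polynomial.natDegree_mul_le.trans ?_
    rw [Polynomial.natDegree_X_pow]
    omega
  · rw [h1, Polynomial.eval_mul, Polynomial.eval_pow, Polynomial.eval_X, ← mul_assoc]
    congr 1
    rw [← Complex.exp_nat_mul, ← Complex.exp_add]
    congr 1
    push_cast
    ring

theorem TP.const (c : ℝ) : TP 0 (fun _ => c) := by
  refine ⟨Polynomial.C (c : ℂ), (Polynomial.natDegree_C _).le, fun x => ?_⟩
  simp

theorem TP.zero (m : ℕ) : TP m (fun _ => 0) := by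
  refine ⟨0, by simp, fun x => ?_⟩
  simp

theorem TP.sum {ι : Type*} (t : Finset ι) {m : ℕ} {F : ι → ℝ → ℝ} (h : ∀ i ∈ t, TP m (F i)) :
    TP m (fun x => ∑ i ∈ t, F i x) := by
  classical
  induction t using Finset.induction_on with
  | empty => simpa using TP.zero m
  | insert a t ha ih =>
    have h1 := (h a (mem_insert_self _ _)).add (ih (fun i hi => h i (mem_insert_of_mem hi)))
    simpa only [sum_insert ha] using h1

theorem TP.prod {ι : Type*} (t : Finset ι) {m : ι → ℕ} {F : ι → ℝ → ℝ} (h : ∀ i ∈ t, TP (m i) (F i)) :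
    TP (∑ i ∈ t, m i) (fun x => ∏ i ∈ t, F i x) := by
  classical
  induction t using Finset.induction_on with
  | empty => simpa using TP.const 1
  | insert a t ha ih =>
    have h1 := (h a (mem_insert_self _ _)).mul (ih (fun i hi => h i (mem_insert_of_mem hi)))
    simpa only [sum_insert ha, prod_insert ha] using h1

theorem TP.sin_add (y : ℝ) : TP 1 (fun x => Real.sin (x + y)) := by
  refine ⟨Polynomial.C (Complex.exp (y * Complex.I) * (-Complex.I / 2)) * Polynomial.X -
    Polynomial.C (Complex.exp (-(y * Complex.I)) * (-Complex.I / 2)), ?_, fun x => ?_⟩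
  · refine (Polynomial.natDegree_sub_le _ _).trans ?_
    rw [Polynomial.natDegree_C]
    refine max_le ((Polynomial.natDegree_C_mul_le _ _).trans ?_) (by omega)
    rw [Polynomial.natDegree_X]
  · rw [Complex.ofReal_sin, Complex.sin, Polynomial.eval_sub, Polynomial.eval_mul, Polynomial.eval_C,
      Polynomial.eval_C, Polynomial.eval_X]
    have e1 : Complex.exp (((x + y : ℝ) : ℂ) * Complex.I) =
        Complex.exp (-(((1 : ℕ) : ℂ) * x * Complex.I)) * (Complex.exp (y * Complex.I) *
          Complex.exp (2 * x * Complex.I)) := by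
      rw [← Complex.exp_add, ← Complex.exp_add]
      congr 1
      push_cast
      ring
    have e2 : Complex.exp (-((x + y : ℝ) : ℂ) * Complex.I) =
        Complex.exp (-(((1 : ℕ) : ℂ) * x * Complex.I)) * Complex.exp (-(y * Complex.I)) := by
      rw [← Complex.exp_add]
      congr 1
      push_cast
      ring
    rw [e1, e2]
    ring

theorem TP.sin_sub (y : ℝ) : TP 1 (fun x => Real.sin (y - x)) := by
  have h := (TP.sin_add (-y)).neg
  have e : (fun x : ℝ => -Real.sin (x + -y)) = fun x => Real.sin (y - x) := by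
    funext x
    rw [← Real.sin_neg]
    congr 1
    ring
  rwa [e] at h

theorem TP.s_add (y : ℝ) : TP 1 (fun x => s (x + y)) := by
  have h := TP.sin_add (π / 3 + y)
  have e : (fun x : ℝ => Real.sin (x + (π / 3 + y))) = fun x => s (x + y) := by
    funext x
    unfold s
    congr 1
    ring
  rwa [e] at h

theorem TP.s_sub (y : ℝ) : TP 1 (fun x => s (y - x)) := by
  have h := TP.sin_sub (π / 3 + y)
  have e : (fun x : ℝ => Real.sin (π / 3 + y - x)) = fun x => s (y - x) := by
    funext x
    unfold s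
    congr 1
    ring
  rwa [e] at h

theorem TP.sin_mul (k : ℕ) : TP k (fun x => Real.sin (k * x)) := by
  refine ⟨Polynomial.C (-Complex.I / 2) * (Polynomial.X ^ k - 1), ?_, fun x => ?_⟩
  · refine (Polynomial.natDegree_C_mul_le _ _).trans ((Polynomial.natDegree_sub_le _ _).trans ?_)
    rw [Polynomial.natDegree_X_pow, Polynomial.natDegree_one]
    simp
  · rw [Complex.ofReal_sin, Complex.sin, Polynomial.eval_mul, Polynomial.eval_C, Polynomial.eval_sub,
      Polynomial.eval_pow, Polynomial.eval_X, Polynomial.eval_one, ← Complex.exp_nat_mul]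
    have e1 : Complex.exp (((k * x : ℝ) : ℂ) * Complex.I) =
        Complex.exp (-((k : ℂ) * x * Complex.I)) *
          Complex.exp ((k : ℂ) * (2 * x * Complex.I)) := by
      rw [← Complex.exp_add]
      congr 1
      push_cast
      ring
    have e2 : Complex.exp (-((k * x : ℝ) : ℂ) * Complex.I) =
        Complex.exp (-((k : ℂ) * x * Complex.I)) := by
      congr 1
      push_cast
      ring
    rw [e1, e2]
    ring

theorem TP.cos_mul (k : ℕ) : TP k (fun x => Real.cos (k * x)) := by
  refine ⟨Polynomial.C (2⁻¹ : ℂ) * (Polynomial.X ^ k + 1), ?_, fun x => ?_⟩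
  · refine (Polynomial.natDegree_C_mul_le _ _).trans ((Polynomial.natDegree_add_le _ _).trans ?_)
    rw [Polynomial.natDegree_X_pow, Polynomial.natDegree_one]
    simp
  · rw [Complex.ofReal_cos, Complex.cos, Polynomial.eval_mul, Polynomial.eval_C, Polynomial.eval_add,
      Polynomial.eval_pow, Polynomial.eval_X, Polynomial.eval_one, ← Complex.exp_nat_mul]
    have e1 : Complex.exp (((k * x : ℝ) : ℂ) * Complex.I) =
        Complex.exp (-((k : ℂ) * x * Complex.I)) *
          Complex.exp ((k : ℂ) * (2 * x * Complex.I)) := by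
      rw [← Complex.exp_add]
      congr 1
      push_cast
      ring
    have e2 : Complex.exp (-((k * x : ℝ) : ℂ) * Complex.I) =
        Complex.exp (-((k : ℂ) * x * Complex.I)) := by
      congr 1
      push_cast
      ring
    rw [e1, e2]
    ring

theorem TP.comp_neg {m : ℕ} {F : ℝ → ℝ} (hF : TP m F) : TP m (fun x => F (-x)) := by
  obtain ⟨P, hP, h1⟩ := hF
  refine ⟨P.reflect m, ?_, fun x => ?_⟩
  · exact (Polynomial.natDegree_reflect_le).trans (max_le le_rfl hP)
  · rw [h1]
    have h0 : Complex.exp (2 * ((-x : ℝ) : ℂ) * Complex.I) ≠ 0 := Complex.exp_ne_zero _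
    let _ := invertibleOfNonzero h0
    have h2 := Polynomial.eval₂_reflect_mul_pow (RingHom.id ℂ)
      (Complex.exp (2 * ((-x : ℝ) : ℂ) * Complex.I)) m P hP
    rw [invOf_eq_inv, ← Complex.exp_neg] at h2
    have e1 : -(2 * ((-x : ℝ) : ℂ) * Complex.I) = 2 * x * Complex.I := by
      push_cast
      ring
    rw [e1, ← Complex.exp_nat_mul] at h2
    change Polynomial.eval (Complex.exp (2 * x * Complex.I)) (P.reflect m) *
      Complex.exp (m * (2 * ((-x : ℝ) : ℂ) * Complex.I)) =
      Polynomial.eval (Complex.exp (2 * ((-x : ℝ) : ℂ) * Complex.I)) P at h2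
    rw [← h2]
    have e2 : Complex.exp (-((m : ℂ) * ((-x : ℝ) : ℂ) * Complex.I)) *
        Complex.exp (m * (2 * ((-x : ℝ) : ℂ) * Complex.I)) =
        Complex.exp (-((m : ℂ) * x * Complex.I)) := by
      rw [← Complex.exp_add]
      congr 1
      push_cast
      ring
    rw [← e2]
    ring

theorem TP.continuous {m : ℕ} {F : ℝ → ℝ} (hF : TP m F) : Continuous F := by
  obtain ⟨P, hP, h1⟩ := hF
  have h2 : F = fun x : ℝ => (Complex.exp (-(m * x * Complex.I)) *
      P.eval (Complex.exp (2 * x * Complex.I))).re := by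
    funext x
    rw [← h1, Complex.ofReal_re]
  rw [h2]
  apply Complex.continuous_re.comp
  apply Continuous.mul
  · fun_prop
  · exact P.continuous.comp (by fun_prop)

/-- the points `e^{2ix}` are different if the `x` are different modulo `π` -/
theorem tA_exp_ne {x y : ℝ} (h : Real.sin (x - y) ≠ 0) :
    Complex.exp (2 * x * Complex.I) ≠ Complex.exp (2 * y * Complex.I) := by
  intro he
  apply h
  have h1 : Complex.exp (2 * x * Complex.I) * Complex.exp (-(2 * y * Complex.I)) = 1 := by
    rw [he, ← Complex.exp_add]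
    simp
  rw [← Complex.exp_add] at h1
  have h2 : (Real.sin (x - y) : ℂ) = 0 := by
    rw [Complex.ofReal_sin, Complex.sin]
    have e1 : Complex.exp (((x - y : ℝ) : ℂ) * Complex.I) =
        Complex.exp (2 * x * Complex.I + -(2 * y * Complex.I)) *
          Complex.exp (-((x - y : ℝ) : ℂ) * Complex.I) := by
      rw [← Complex.exp_add]
      congr 1
      push_cast
      ring
    rw [e1, h1]
    ring
  exact_mod_cast h2

/-- more than `m` roots modulo `π` -/
theorem TP.eq_zero {m : ℕ} {F : ℝ → ℝ} (hF : TP m F) (t : Finset ℝ) (ht : m < t.card)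
    (hd : ∀ x ∈ t, ∀ y ∈ t, x ≠ y → Real.sin (x - y) ≠ 0) (h0 : ∀ x ∈ t, F x = 0) : ∀ x, F x = 0 := by
  classical
  obtain ⟨P, hP, h1⟩ := hF
  have hP0 : P = 0 := by
    by_contra hcon
    have h2 : (t.image fun x : ℝ => Complex.exp (2 * x * Complex.I)) ⊆ P.roots.toFinset := by
      intro z hz
      obtain ⟨x, hx, rfl⟩ := mem_image.1 hz
      rw [Multiset.mem_toFinset, Polynomial.mem_roots hcon, Polynomial.IsRoot]
      have h3 := h1 x
      rw [h0 x hx, Complex.ofReal_zero] at h3
      exact (mul_eq_zero.1 h3.symm).resolve_left (Complex.exp_ne_zero _)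
    have h3 := card_le_card h2
    rw [card_image_of_injOn] at h3
    · have h4 := (Multiset.toFinset_card_le P.roots).trans (Polynomial.card_roots' P)
      omega
    · intro x hx y hy hxy
      by_contra hne
      exact tA_exp_ne (hd x hx y hy hne) hxy
  intro x
  have h2 := h1 x
  rw [hP0] at h2
  simp only [Polynomial.eval_zero, mul_zero] at h2
  exact_mod_cast h2

/-- `k` points in an interval, different modulo `π` -/
theorem tA_nodes {a b : ℝ} (hab : a < b) (k : ℕ) : ∃ t : Finset ℝ, t.card = k ∧
    (∀ x ∈ t, x ∈ Set.Ioo a b) ∧ ∀ x ∈ t, ∀ y ∈ t, x ≠ y → Real.sin (x - y) ≠ 0 := by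
  classical
  set d := min (b - a) 1 with hd
  have hd0 : 0 < d := lt_min (by linarith) one_pos
  have hk : (0 : ℝ) < k + 2 := by positivity
  set f : ℕ → ℝ := fun i => a + d * ((i + 1) / (k + 2)) with hf
  have hinj : Function.Injective f := by
    intro i j hij
    have h1 : d * (((i : ℝ) + 1) / (k + 2)) = d * (((j : ℝ) + 1) / (k + 2)) := by
      simp only [hf] at hij
      linarith
    have h2 := mul_left_cancel₀ hd0.ne' h1
    rw [div_left_inj' hk.ne'] at h2
    have h3 : (i : ℝ) = j := by linarith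
    exact_mod_cast h3
  have hmem : ∀ i < k, 0 < f i - a ∧ f i - a < d := by
    intro i hi
    have hi' : (i : ℝ) < k := by exact_mod_cast hi
    simp only [hf, add_sub_cancel_left]
    constructor
    · positivity
    · rw [mul_div_assoc', div_lt_iff₀ hk]
      nlinarith
  refine ⟨(range k).image f, ?_, ?_, ?_⟩
  · rw [card_image_of_injective _ hinj, card_range]
  · intro x hx
    obtain ⟨i, hi, rfl⟩ := mem_image.1 hx
    obtain ⟨h1, h2⟩ := hmem i (mem_range.1 hi)
    have h3 : d ≤ b - a := min_le_left _ _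
    exact ⟨by linarith, by linarith⟩
  · intro x hx y hy hne
    obtain ⟨i, hi, rfl⟩ := mem_image.1 hx
    obtain ⟨j, hj, rfl⟩ := mem_image.1 hy
    obtain ⟨h1, h2⟩ := hmem i (mem_range.1 hi)
    obtain ⟨h3, h4⟩ := hmem j (mem_range.1 hj)
    have h5 : d ≤ 1 := min_le_right _ _
    have hpi := Real.pi_gt_three
    rcases lt_trichotomy (f i) (f j) with h | h | h
    · have h6 : Real.sin (f i - f j) < 0 :=
        Real.sin_neg_of_neg_of_neg_pi_lt (by linarith) (by linarith)
      exact h6.ne
    · exact absurd h hne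
    · have h6 : 0 < Real.sin (f i - f j) :=
        Real.sin_pos_of_pos_of_lt_pi (by linarith) (by linarith)
      exact h6.ne'

theorem TP.eq_zero_of_interval {m : ℕ} {F : ℝ → ℝ} (hF : TP m F) {a b : ℝ} (hab : a < b)
    (h0 : ∀ x ∈ Set.Ioo a b, F x = 0) : ∀ x, F x = 0 := by
  obtain ⟨t, ht, h1, h2⟩ := tA_nodes hab (m + 1)
  exact hF.eq_zero t (by omega) h2 (fun x hx => h0 x (h1 x hx))

/-- complex functions that are real when multiplied by a sine are real -/
theorem tA_real {g : ℝ → ℂ} (hg : Continuous g) {H : ℝ → ℝ} {y : ℝ}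
    (h : ∀ x, (H x : ℂ) = Real.sin (x - y) * g x) (x : ℝ) : (g x).im = 0 := by
  have hc : {z : ℝ | Real.sin (z - y) = 0}.Countable := by
    have h1 : {z : ℝ | Real.sin (z - y) = 0} ⊆ Set.range (fun n : ℤ => (n : ℝ) * π + y) := by
      intro z hz
      obtain ⟨n, hn⟩ := Real.sin_eq_zero_iff.1 hz
      exact ⟨n, by simp only; linarith⟩
    exact (Set.countable_range _).mono h1
  have hd := hc.dense_compl ℝ
  have h2 : Continuous fun z => (g z).im := Complex.continuous_im.comp hg
  have h3 : (fun z => (g z).im) = fun _ => 0 := by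
    apply h2.ext_on hd continuous_const
    intro z hz
    have h4 := congrArg Complex.im (h z)
    rw [Complex.ofReal_im, Complex.im_ofReal_mul] at h4
    have h5 : Real.sin (z - y) ≠ 0 := hz
    exact (mul_eq_zero.1 h4.symm).resolve_left h5
  exact congrFun h3 x

/-- division by `sin (x - y)` -/
theorem TP.div {m : ℕ} {H : ℝ → ℝ} (hH : TP (m + 1) H) (y : ℝ) (hy : H y = 0) :
    ∃ G : ℝ → ℝ, TP m G ∧ ∀ x, H x = Real.sin (x - y) * G x := by
  obtain ⟨P, hP, h1⟩ := hH
  have hroot : P.IsRoot (Complex.exp (2 * y * Complex.I)) := by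
    have h2 := h1 y
    rw [hy, Complex.ofReal_zero] at h2
    exact (mul_eq_zero.1 h2.symm).resolve_left (Complex.exp_ne_zero _)
  obtain ⟨Q, hQ⟩ := Polynomial.dvd_iff_isRoot.2 hroot
  have hQd : Q.natDegree ≤ m := by
    by_cases hQ0 : Q = 0
    · rw [hQ0]; simp
    · have h2 : P.natDegree = 1 + Q.natDegree := by
        rw [hQ, Polynomial.natDegree_mul (Polynomial.X_sub_C_ne_zero _) hQ0,
          Polynomial.natDegree_X_sub_C]
      omega
  set R : Polynomial ℂ := Polynomial.C (2 * Complex.I * Complex.exp (y * Complex.I)) * Q with hR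
  set g : ℝ → ℂ := fun x => Complex.exp (-(m * x * Complex.I)) *
    R.eval (Complex.exp (2 * x * Complex.I)) with hg
  have hgc : Continuous g := by
    apply Continuous.mul
    · fun_prop
    · exact R.continuous.comp (by fun_prop)
  have hmain : ∀ x : ℝ, (H x : ℂ) = Real.sin (x - y) * g x := by
    intro x
    rw [h1, hQ, hg]
    simp only [hR, Polynomial.eval_mul, Polynomial.eval_sub, Polynomial.eval_X, Polynomial.eval_C]
    rw [Complex.ofReal_sin, Complex.sin]
    have hI2 := Complex.I_sq
    have e1 : Complex.exp (-(((m + 1 : ℕ) : ℂ) * x * Complex.I)) =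
        Complex.exp (-((m : ℂ) * x * Complex.I)) * Complex.exp (-(x * Complex.I)) := by
      rw [← Complex.exp_add]
      congr 1
      push_cast
      ring
    have e2 : Complex.exp (-((x - y : ℝ) : ℂ) * Complex.I) * Complex.exp (y * Complex.I) =
        Complex.exp (-(x * Complex.I)) * Complex.exp (2 * y * Complex.I) := by
      rw [← Complex.exp_add, ← Complex.exp_add]
      congr 1
      push_cast
      ring
    have e3 : Complex.exp (((x - y : ℝ) : ℂ) * Complex.I) * Complex.exp (y * Complex.I) =
        Complex.exp (-(x * Complex.I)) * Complex.exp (2 * x * Complex.I) := by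
      rw [← Complex.exp_add, ← Complex.exp_add]
      congr 1
      push_cast
      ring
    rw [e1]
    set q := Q.eval (Complex.exp (2 * x * Complex.I))
    set A := Complex.exp (-((m : ℂ) * x * Complex.I))
    linear_combination (A * q * Complex.I ^ 2) * e3 - (A * q * Complex.I ^ 2) * e2 +
      (A * q * Complex.exp (-(x * Complex.I)) * (Complex.exp (2 * x * Complex.I) -
        Complex.exp (2 * y * Complex.I))) * hI2
  have hreal := tA_real hgc hmain
  refine ⟨fun x => (g x).re, ⟨R, ?_, fun x => ?_⟩, fun x => ?_⟩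
  · exact (Polynomial.natDegree_C_mul_le _ _).trans hQd
  · have h3 : ((g x).re : ℂ) = g x := by
      apply Complex.ext
      · simp
      · rw [Complex.ofReal_im, hreal]
    rw [h3]
  · have h3 : ((g x).re : ℂ) = g x := by
      apply Complex.ext
      · simp
      · rw [Complex.ofReal_im, hreal]
    have h4 := hmain x
    rw [← h3] at h4
    exact_mod_cast h4

/-- closed under pointwise limits (Lagrange interpolation at `m+1` fixed nodes) -/
theorem TP.of_tendsto {m : ℕ} {F : ℕ → ℝ → ℝ} {G : ℝ → ℝ} (h : ∀ k, TP m (F k))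
    (hG : ∀ x, Filter.Tendsto (fun k => F k x) Filter.atTop (nhds (G x))) : TP m G := by
  classical
  obtain ⟨t, ht, -, hd⟩ := tA_nodes (show (0 : ℝ) < 1 by norm_num) (m + 1)
  set v : ℝ → ℂ := fun x => Complex.exp (2 * x * Complex.I) with hv
  have hinj : Set.InjOn v t := by
    intro x hx y hy hxy
    by_contra hne
    exact tA_exp_ne (hd x hx y hy hne) hxy
  -- interpolation formula
  have key : ∀ F : ℝ → ℝ, TP m F → ∀ x : ℝ, (F x : ℂ) = ∑ y ∈ t,
      (F y : ℂ) * (Complex.exp (m * y * Complex.I) * (Complex.exp (-(m * x * Complex.I)) *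
        (Lagrange.basis t v y).eval (v x))) := by
    rintro F ⟨P, hP, h1⟩ x
    have h2 : P = Lagrange.interpolate t v (fun y => P.eval (v y)) := by
      apply Lagrange.eq_interpolate hinj
      rw [ht]
      exact lt_of_le_of_lt (Polynomial.degree_le_natDegree) (by exact_mod_cast Nat.lt_succ_of_le hP)
    have h3 : P.eval (v x) = ∑ y ∈ t, P.eval (v y) * (Lagrange.basis t v y).eval (v x) := by
      conv_lhs => rw [h2]
      rw [Lagrange.interpolate_apply, Polynomial.eval_finsetSum]
      apply sum_congr rfl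
      intro y _
      rw [Polynomial.eval_mul, Polynomial.eval_C]
    rw [h1 x]
    change _ * P.eval (v x) = _
    rw [h3, mul_sum]
    apply sum_congr rfl
    intro y _
    rw [h1 y]
    change _ = Complex.exp (-(m * y * Complex.I)) * P.eval (v y) * _
    have e1 : Complex.exp (-((m : ℂ) * y * Complex.I)) * Complex.exp (m * y * Complex.I) = 1 := by
      rw [← Complex.exp_add]; simp
    linear_combination (-(P.eval (v y) * Complex.exp (-(m * x * Complex.I)) *
        (Lagrange.basis t v y).eval (v x))) * e1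
  have key2 : ∀ x : ℝ, (G x : ℂ) = ∑ y ∈ t,
      (G y : ℂ) * (Complex.exp (m * y * Complex.I) * (Complex.exp (-(m * x * Complex.I)) *
        (Lagrange.basis t v y).eval (v x))) := by
    intro x
    have h1 : Filter.Tendsto (fun k => (F k x : ℂ)) Filter.atTop (nhds (G x : ℂ)) :=
      (Complex.continuous_ofReal.tendsto _).comp (hG x)
    have h2 : Filter.Tendsto (fun k => ∑ y ∈ t,
      (F k y : ℂ) * (Complex.exp (m * y * Complex.I) * (Complex.exp (-(m * x * Complex.I)) *
        (Lagrange.basis t v y).eval (v x)))) Filter.atTop (nhds (∑ y ∈ t,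
      (G y : ℂ) * (Complex.exp (m * y * Complex.I) * (Complex.exp (-(m * x * Complex.I)) *
        (Lagrange.basis t v y).eval (v x))))) := by
      apply tendsto_finsetSum
      intro y _
      apply Filter.Tendsto.mul_const
      exact (Complex.continuous_ofReal.tendsto _).comp (hG y)
    have h3 : (fun k => (F k x : ℂ)) = fun k => ∑ y ∈ t,
      (F k y : ℂ) * (Complex.exp (m * y * Complex.I) * (Complex.exp (-(m * x * Complex.I)) *
        (Lagrange.basis t v y).eval (v x))) := by
      funext k
      exact key (F k) (h k) x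
    rw [h3] at h1
    exact tendsto_nhds_unique h1 h2
  refine ⟨∑ y ∈ t, Polynomial.C ((G y : ℂ) * Complex.exp (m * y * Complex.I)) *
    Lagrange.basis t v y, ?_, fun x => ?_⟩
  · apply Polynomial.natDegree_sum_le_of_forall_le
    intro y hy
    refine (Polynomial.natDegree_C_mul_le _ _).trans ?_
    rw [Polynomial.natDegree_le_iff_degree_le, Lagrange.degree_basis hinj hy, ht]
    simp
  · rw [key2 x, Polynomial.eval_finsetSum, mul_sum]
    apply sum_congr rfl
    intro y _
    rw [Polynomial.eval_mul, Polynomial.eval_C]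
    ring
end IP
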