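import Pool.Agent.Lead.IP.DetA
import Pool.Agent.Lead.IP.Asymp
/-! MODULE ValueA: the limit of `Dt / Dl` at `0`, product formula and asymptotics.
Used later: `P n 0 = (Z n 0)⁻¹ • V n 0`, so `hull n (P n 0) (P n 0) = NN n 0 0 / (Z n 0)^2`; continuity along `b = ε (1, 2, 3, ...)`
and `Dt_spec`; for `NN` take `x = (2n+1) ε`, `b 0 = (2n+2) ε`, `b j = j ε` (`1 ≤ j ≤ 2n`), so that
`tl b = ε (1, ..., 2n)` and `cons x b` is a permutation of `ε (1, ..., 2n+2)`.
(Proofs of helper24, glued by helper8.) -/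
namespace IP
open Finset Real Filter Topology

/-- `lim Dt m / Dl m` at `0` -/
noncomputable def cm (m : ℕ) : ℝ := (∏ j ∈ range m, (mu j : ℝ) / (j + 1)) *
  ∏ j ∈ range m, ∏ i ∈ range j, ((mu j : ℝ) ^ 2 - (mu i : ℝ) ^ 2) / (((j : ℝ) + 1) ^ 2 - ((i : ℝ) + 1) ^ 2)

theorem vA_tendsto_sin_div (a : ℝ) : Tendsto (fun t : ℝ => Real.sin (a * t) / t) (𝓝[≠] 0) (𝓝 a) := by
  have h : HasDerivAt (fun t : ℝ => Real.sin (a * t)) (Real.cos (a * 0) * (a * 1)) 0 :=
    ((hasDerivAt_id (0 : ℝ)).const_mul a).sin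
  have h2 := h.tendsto_slope
  simp only [mul_zero, Real.cos_zero, one_mul, mul_one] at h2
  refine h2.congr (fun t => ?_)
  simp [slope, div_eq_inv_mul]

theorem vA_tendsto_sin_ratio (a b : ℝ) (hb : b ≠ 0) :
    Tendsto (fun t : ℝ => Real.sin (a * t) / Real.sin (b * t)) (𝓝[≠] 0) (𝓝 (a / b)) := by
  have h := (vA_tendsto_sin_div a).div (vA_tendsto_sin_div b) hb
  refine h.congr' ?_
  filter_upwards [self_mem_nhdsWithin] with t ht
  have ht' : t ≠ 0 := ht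
  simp only [Pi.div_apply]
  field_simp

theorem vA_tendsto_cos_ratio (a b c d : ℝ) (h1 : c + d ≠ 0) (h2 : c - d ≠ 0) :
    Tendsto (fun t : ℝ => (2 * Real.cos (2 * (t * a)) - 2 * Real.cos (2 * (t * b))) /
      (2 * Real.cos (2 * (t * c)) - 2 * Real.cos (2 * (t * d)))) (𝓝[≠] 0)
      (𝓝 ((a ^ 2 - b ^ 2) / (c ^ 2 - d ^ 2))) := by
  have h := (vA_tendsto_sin_ratio (a + b) (c + d) h1).mul (vA_tendsto_sin_ratio (a - b) (c - d) h2)
  have h3 : (a ^ 2 - b ^ 2) / (c ^ 2 - d ^ 2) = (a + b) / (c + d) * ((a - b) / (c - d)) := by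
    rw [div_mul_div_comm]; congr 1 <;> ring
  rw [h3]
  refine h.congr (fun t => ?_)
  rw [div_mul_div_comm, ← mul_sub, ← mul_sub, Real.cos_sub_cos, Real.cos_sub_cos,
    show (2 * (t * a) + 2 * (t * b)) / 2 = (a + b) * t by ring,
    show (2 * (t * a) - 2 * (t * b)) / 2 = (a - b) * t by ring,
    show (2 * (t * c) + 2 * (t * d)) / 2 = (c + d) * t by ring,
    show (2 * (t * c) - 2 * (t * d)) / 2 = (c - d) * t by ring]
  rw [show 2 * (-2 * Real.sin ((a + b) * t) * Real.sin ((a - b) * t)) =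
    (-4) * (Real.sin ((a + b) * t) * Real.sin ((a - b) * t)) by ring,
    show 2 * (-2 * Real.sin ((c + d) * t) * Real.sin ((c - d) * t)) =
    (-4) * (Real.sin ((c + d) * t) * Real.sin ((c - d) * t)) by ring,
    mul_div_mul_left _ _ (by norm_num : (-4 : ℝ) ≠ 0)]


theorem vA_chi_tendsto (m : ℕ) : Tendsto (fun ε : ℝ => Dt m (fun i => ε * (i + 1)) / Dl m (fun i => ε * (i + 1)))
    (𝓝[≠] 0) (𝓝 (cm m)) := by
  have h : ∀ t : ℝ, Dt m (fun i => t * ((i : ℝ) + 1)) / Dl m (fun i => t * ((i : ℝ) + 1)) =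
      (∏ i ∈ range m, (Real.sin (2 * (t * mu i)) / Real.sin (2 * (t * ((i : ℝ) + 1))))) *
      ∏ j ∈ range m, ∏ i ∈ range j, ((2 * Real.cos (2 * (t * mu j)) - 2 * Real.cos (2 * (t * mu i))) /
        (2 * Real.cos (2 * (t * ((j : ℝ) + 1))) - 2 * Real.cos (2 * (t * ((i : ℝ) + 1))))) := by
    intro t
    rw [Dt_spec, Dl_eq, mul_div_mul_comm, ← prod_div_distrib, ← prod_div_distrib]
    congr 1
    · apply prod_congr rfl
      intro j _
      congr 2
      ring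
    · apply prod_congr rfl
      intro j _
      rw [← prod_div_distrib]
      apply prod_congr rfl
      intro i _
      rw [mul_sub, mul_sub]
      congr 4
      · ring
      · ring
  simp only [h]
  unfold cm
  apply Tendsto.mul
  · apply tendsto_finsetProd
    intro i _
    have h1 := vA_tendsto_sin_ratio (2 * mu i) (2 * ((i : ℝ) + 1)) (by positivity)
    rw [mul_div_mul_left _ _ (by norm_num : (2 : ℝ) ≠ 0)] at h1
    refine h1.congr (fun t => ?_)
    congr 2 <;> ring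
  · apply tendsto_finsetProd
    intro j _
    apply tendsto_finsetProd
    intro i hi
    have hi' : (i : ℝ) < j := by exact_mod_cast mem_range.1 hi
    apply vA_tendsto_cos_ratio
    · positivity
    · intro h0; linarith

theorem chi_tendsto (m : ℕ) : Tendsto (fun ε : ℝ => Dt m (fun i => ε * (i + 1)) / Dl m (fun i => ε * (i + 1)))
    (𝓝[>] 0) (𝓝 (cm m)) :=
  (vA_chi_tendsto m).mono_left (nhdsWithin_mono _ fun _ hx => ne_of_gt hx)

/-- the quotient is invariant under permutations of the variables (`Dt_perm`, `Dl_perm`) -/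
theorem chi_tendsto' (m : ℕ) (e : Equiv.Perm (Fin m)) :
    Tendsto (fun ε : ℝ => Dt m (fun i => if h : i < m then ε * ((e ⟨i, h⟩ : ℕ) + 1) else 0) /
      Dl m (fun i => if h : i < m then ε * ((e ⟨i, h⟩ : ℕ) + 1) else 0)) (𝓝[>] 0) (𝓝 (cm m)) := by
  refine (chi_tendsto m).congr fun ε => ?_
  set f : ℕ → ℝ := fun i => if h : i < m then ε * (((e ⟨i, h⟩ : Fin m) : ℕ) + 1 : ℝ) else 0 with hf
  set g : ℕ → ℝ := fun i => ε * ((i : ℝ) + 1) with hg
  have hb : ∀ i : Fin m, f i = g (e i) := by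
    intro i
    simp only [hf, hg, i.2, dif_pos]
  rw [Dt_perm m e hb, Dl_perm m e hb]
  rcases Int.units_eq_one_or (Equiv.Perm.sign e) with h | h <;> rw [h]
  · simp
  · simp

theorem vA_chi0_succ (m : ℕ) : cm (m + 1) = cm m * ((mu m : ℝ) / ((m : ℝ) + 1) *
    ∏ i ∈ range m, (((mu m : ℝ) ^ 2 - (mu i : ℝ) ^ 2) / (((m : ℝ) + 1) ^ 2 - ((i : ℝ) + 1) ^ 2))) := by
  unfold cm
  rw [prod_range_succ, prod_range_succ]
  ring

theorem vA_mu_even (q : ℕ) : mu (2 * q) = 3 * q + 1 := by unfold mu; omega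
theorem vA_mu_odd (q : ℕ) : mu (2 * q + 1) = 3 * q + 2 := by unfold mu; omega
theorem vA_mu_lt {i m : ℕ} (h : i < m) : mu i < mu m := by unfold mu; omega
theorem vA_mu_pos (m : ℕ) : 0 < mu m := by unfold mu; omega

theorem vA_chi0_pos (m : ℕ) : 0 < cm m := by
  unfold cm
  apply mul_pos
  · apply prod_pos
    intro i _
    have : (0 : ℝ) < mu i := by exact_mod_cast vA_mu_pos i
    positivity
  · apply prod_pos
    intro j _
    apply prod_pos
    intro i hi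
    have hi' : i < j := mem_range.1 hi
    have h1 : (mu i : ℝ) < mu j := by exact_mod_cast vA_mu_lt hi'
    have h2 : (0 : ℝ) < mu i := by exact_mod_cast vA_mu_pos i
    have h3 : (i : ℝ) < j := by exact_mod_cast hi'
    apply div_pos
    · nlinarith
    · have : (0 : ℝ) ≤ i := Nat.cast_nonneg i
      nlinarith

theorem vA_prod_pair (f : ℕ → ℝ) (n : ℕ) :
    ∏ i ∈ range (2 * n), f i = ∏ q ∈ range n, (f (2 * q) * f (2 * q + 1)) := by
  induction n with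
  | zero => simp
  | succ n ih =>
    rw [show 2 * (n + 1) = 2 * n + 1 + 1 by ring, prod_range_succ, prod_range_succ, ih,
      prod_range_succ]
    ring

theorem vA_prod_sq_sub (m : ℕ) : ((m : ℝ) + 1) * ∏ i ∈ range m, (((m : ℝ) + 1) ^ 2 - ((i : ℝ) + 1) ^ 2) =
    (2 * m + 1).factorial := by
  have h1 : ∀ i ∈ range m, (((m : ℝ) + 1) ^ 2 - ((i : ℝ) + 1) ^ 2) =
      ((m : ℝ) - i) * ((m : ℝ) + i + 2) := by
    intro i _; ring
  rw [prod_congr rfl h1, prod_mul_distrib]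
  have h2 : ∏ i ∈ range m, ((m : ℝ) - i) = m.factorial := by
    rw [← prod_range_add_one_eq_factorial]
    push_cast
    rw [← prod_range_reflect]
    apply prod_congr rfl
    intro i hi
    have hi' := mem_range.1 hi
    rw [Nat.cast_sub (by omega), Nat.cast_sub (by omega)]
    push_cast; ring
  have h3 : ∀ k : ℕ, (((m + 1).factorial : ℕ) : ℝ) * ∏ i ∈ range k, ((m : ℝ) + i + 2) =
      (m + 1 + k).factorial := by
    intro k
    induction k with
    | zero => simp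
    | succ k ih =>
      rw [prod_range_succ, ← mul_assoc, ih, show m + 1 + (k + 1) = (m + 1 + k) + 1 by ring,
        Nat.factorial_succ (m + 1 + k)]
      push_cast
      ring
  rw [h2, show 2 * m + 1 = m + 1 + m by ring, ← h3 m, Nat.factorial_succ m]
  push_cast
  ring

theorem vA_prod_mu_even (n : ℕ) : ∏ i ∈ range (2 * n), ((mu (2 * n) : ℝ) ^ 2 - (mu i : ℝ) ^ 2) =
    ∏ q ∈ range (2 * n), ((3 * (q : ℝ) + 2) * (3 * q + 3)) := by
  rw [vA_prod_pair, show range (2 * n) = range (n + n) by rw [two_mul], prod_range_add]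
  have h1 : ∀ q ∈ range n, ((mu (2 * n) : ℝ) ^ 2 - (mu (2 * q) : ℝ) ^ 2) *
      ((mu (2 * n) : ℝ) ^ 2 - (mu (2 * q + 1) : ℝ) ^ 2) =
      ((3 * ((n - 1 - q : ℕ) : ℝ) + 2) * (3 * ((n - 1 - q : ℕ) : ℝ) + 3)) *
      ((3 * ((n + q : ℕ) : ℝ) + 2) * (3 * ((n + q : ℕ) : ℝ) + 3)) := by
    intro q hq
    have hq' := mem_range.1 hq
    rw [vA_mu_even, vA_mu_even, vA_mu_odd, Nat.cast_sub (by omega), Nat.cast_sub (by omega)]
    push_cast
    ring
  rw [prod_congr rfl h1, prod_mul_distrib,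
    prod_range_reflect (fun q : ℕ => ((3 * (q : ℝ) + 2) * (3 * q + 3))) n]

theorem vA_prod_mu_odd (n : ℕ) : ∏ i ∈ range (2 * n + 1), ((mu (2 * n + 1) : ℝ) ^ 2 - (mu i : ℝ) ^ 2) =
    ∏ q ∈ range (2 * n + 1), ((3 * (q : ℝ) + 1) * (3 * q + 3)) := by
  rw [prod_range_succ, vA_prod_pair]
  have h1 : ∀ q ∈ range n, ((mu (2 * n + 1) : ℝ) ^ 2 - (mu (2 * q) : ℝ) ^ 2) *
      ((mu (2 * n + 1) : ℝ) ^ 2 - (mu (2 * q + 1) : ℝ) ^ 2) =
      ((3 * ((n - 1 - q : ℕ) : ℝ) + 4) * (3 * ((n - 1 - q : ℕ) : ℝ) + 3)) *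
      ((3 * ((n + q : ℕ) : ℝ) + 3) * (3 * ((n + q : ℕ) : ℝ) + 4)) := by
    intro q hq
    have hq' := mem_range.1 hq
    rw [vA_mu_even, vA_mu_odd, vA_mu_odd, Nat.cast_sub (by omega), Nat.cast_sub (by omega)]
    push_cast
    ring
  rw [prod_congr rfl h1, prod_mul_distrib,
    prod_range_reflect (fun q : ℕ => ((3 * (q : ℝ) + 4) * (3 * q + 3))) n]
  have h2 : ∏ q ∈ range (2 * n + 1), ((3 * (q : ℝ) + 1) * (3 * q + 3)) =
      (∏ q ∈ range (2 * n + 1), (3 * (q : ℝ) + 1)) * ∏ q ∈ range (2 * n + 1), (3 * (q : ℝ) + 3) :=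
    prod_mul_distrib
  have h3 : ∏ q ∈ range (2 * n + 1), (3 * (q : ℝ) + 1) = ∏ q ∈ range (2 * n), (3 * (q : ℝ) + 4) := by
    rw [prod_range_succ']
    simp only [Nat.cast_zero, mul_zero, zero_add, mul_one]
    apply prod_congr rfl
    intro q _; push_cast; ring
  have h4 : ∏ q ∈ range (2 * n + 1), (3 * (q : ℝ) + 3) =
      (∏ q ∈ range (2 * n), (3 * (q : ℝ) + 3)) * (6 * n + 3) := by
    rw [prod_range_succ]; push_cast; ring
  rw [h2, h3, h4, show range (2 * n) = range (n + n) by rw [two_mul], prod_range_add, prod_range_add,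
    prod_mul_distrib, prod_mul_distrib, vA_mu_even, vA_mu_odd]
  push_cast
  ring

theorem vA_chi0_ratio (m : ℕ) : cm (m + 1) * ((2 * m + 1).factorial : ℝ) = cm m *
    ((mu m : ℝ) * ∏ i ∈ range m, ((mu m : ℝ) ^ 2 - (mu i : ℝ) ^ 2)) := by
  rw [vA_chi0_succ, prod_div_distrib, ← vA_prod_sq_sub m]
  have h1 : ((m : ℝ) + 1) ≠ 0 := by positivity
  have h2 : ∏ i ∈ range m, (((m : ℝ) + 1) ^ 2 - ((i : ℝ) + 1) ^ 2) ≠ 0 := by
    rw [prod_ne_zero_iff]
    intro i hi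
    have hi' : (i : ℝ) < m := by exact_mod_cast mem_range.1 hi
    have : (0 : ℝ) ≤ i := Nat.cast_nonneg i
    apply ne_of_gt
    nlinarith
  field_simp

/-- the closed formula -/
theorem vA_chi0_value (n : ℕ) : cm (2 * n) * cm (2 * n + 2) / (cm (2 * n + 1) * cm (2 * n + 1)) =
    3 * (3 * n + 2) / (2 * (3 * n + 1) * (4 * n + 3)) *
      (∏ j ∈ range (2 * n + 1), (3 * (j : ℝ) + 1)) / ∏ j ∈ range (2 * n), (3 * (j : ℝ) + 2) := by
  have h1 := vA_chi0_ratio (2 * n)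
  have h2 := vA_chi0_ratio (2 * n + 1)
  rw [vA_prod_mu_even, prod_mul_distrib, vA_mu_even] at h1
  rw [vA_prod_mu_odd, prod_mul_distrib, vA_mu_odd] at h2
  have p0 := vA_chi0_pos (2 * n)
  have p1 := vA_chi0_pos (2 * n + 1)
  have p2 := vA_chi0_pos (2 * n + 2)
  have hA : (0 : ℝ) < ∏ j ∈ range (2 * n), (3 * (j : ℝ) + 2) := prod_pos (fun j _ => by positivity)
  have hB : (0 : ℝ) < ∏ j ∈ range (2 * n), (3 * (j : ℝ) + 3) := prod_pos (fun j _ => by positivity)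
  have hC : (0 : ℝ) < ∏ j ∈ range (2 * n + 1), (3 * (j : ℝ) + 1) := prod_pos (fun j _ => by positivity)
  have hB1 : ∏ j ∈ range (2 * n + 1), (3 * (j : ℝ) + 3) =
      (∏ j ∈ range (2 * n), (3 * (j : ℝ) + 3)) * (6 * n + 3) := by
    rw [prod_range_succ]; push_cast; ring
  have hf : ((2 * (2 * n + 1) + 1).factorial : ℝ) =
      (4 * n + 3) * (4 * n + 2) * ((2 * (2 * n) + 1).factorial : ℝ) := by
    rw [show 2 * (2 * n + 1) + 1 = (2 * (2 * n) + 1) + 1 + 1 by ring, Nat.factorial_succ,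
      Nat.factorial_succ]
    push_cast; ring
  have hF : (0 : ℝ) < ((2 * (2 * n) + 1).factorial : ℝ) := by exact_mod_cast Nat.factorial_pos _
  rw [hB1, hf] at h2
  set A := ∏ j ∈ range (2 * n), (3 * (j : ℝ) + 2)
  set B := ∏ j ∈ range (2 * n), (3 * (j : ℝ) + 3)
  set C := ∏ j ∈ range (2 * n + 1), (3 * (j : ℝ) + 1)
  set F := ((2 * (2 * n) + 1).factorial : ℝ)
  set x := cm (2 * n)
  set y := cm (2 * n + 1)
  have e2 : cm (2 * n + 2) = cm (2 * n + 1 + 1) := rfl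
  rw [e2]
  set z := cm (2 * n + 1 + 1)
  push_cast at h1 h2
  have k1 : x = y * F / ((3 * n + 1) * (A * B)) := by
    rw [eq_div_iff (by positivity)]; linarith
  have k2 : z = y * ((3 * n + 2) * (C * (B * (6 * n + 3)))) / ((4 * n + 3) * (4 * n + 2) * F) := by
    rw [eq_div_iff (by positivity)]; linarith
  rw [k1, k2]
  have hy : y ≠ 0 := ne_of_gt p1
  field_simp
  ring

noncomputable def RR (n : ℕ) : ℝ := 3 * (3 * n + 2) / (2 * (3 * n + 1) * (4 * n + 3)) *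
  (∏ j ∈ range (2 * n + 1), (3 * j + 1 : ℝ)) / ∏ j ∈ range (2 * n), (3 * j + 2 : ℝ)

theorem cm_RR (n : ℕ) : cm (2 * n) * cm (2 * n + 2) / cm (2 * n + 1) ^ 2 = RR n := by
  rw [pow_two, vA_chi0_value]
  rfl

theorem cm_pos (m : ℕ) : 0 < cm m := vA_chi0_pos m

theorem RR_eq_Rr (n : ℕ) : RR n = Rr n := by
  unfold RR Rr
  rw [mul_div_assoc]

theorem RR_bounds : ∃ c C : ℝ, 0 < c ∧ 0 < C ∧ ∀ n : ℕ, 1 ≤ n →
    c * (n : ℝ) ^ (-(1 / 3) : ℝ) ≤ RR n ∧ RR n ≤ C * (n : ℝ) ^ (-(1 / 3) : ℝ) := by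
  simp only [RR_eq_Rr]
  exact Rr_bounds
end IP
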