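import Pool.Agent.Lead.IP.Rank
import Pool.Agent.Lead.IP.Cyclic
import Pool.Agent.Lead.IP.Trig
/-! MODULE Vsol: the polynomial solution `V n b`.
For `l` generated from the top coordinate (`Gen`) there is `F_l ∈ Sep (2n+1) (2n)` with
`l (P n b) = phi n b * F_l b` on the cube (induction on `Gen`, `phi_sw`, `E_P`, `Sep.divdiff`; first for
`b i ≠ b (i+1)`, then by continuity).  With `cyclic` this gives all coordinates.  All other
identities hold on the cube and extend by `Sep.eq_zero`.  `phi ≠ 0` on the cube since `tot P = 1`. -/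
namespace IP
open Finset Real

/-! ### linear maps on `Sup (W n)` -/

theorem vs_lin_eq (n : ℕ) {N : Type*} [AddCommMonoid N] [Module ℝ N] (l : M →ₗ[ℝ] N) {v : M}
    (hv : v ∈ Sup (W n)) :
    l v = ∑ σ ∈ (W_finite n).toFinset, v σ • l (Finsupp.single σ 1) := by
  classical
  have h1 : v = ∑ σ ∈ (W_finite n).toFinset, Finsupp.single σ (v σ) := by
    have h2 : v.support ⊆ (W_finite n).toFinset := by
      intro σ hσ
      rw [Set.Finite.mem_toFinset]
      exact (Finsupp.mem_supported ℝ v).1 hv (Finset.mem_coe.2 hσ)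
    conv_lhs => rw [← Finsupp.sum_single v]
    exact Finsupp.sum_of_support_subset _ h2 _ (fun σ _ => Finsupp.single_zero σ)
  conv_lhs => rw [h1]
  rw [map_sum]
  apply sum_congr rfl
  intro σ _
  rw [← map_smul, Finsupp.smul_single, smul_eq_mul, mul_one]

theorem vs_contOn (n : ℕ) (l : M →ₗ[ℝ] ℝ) : ContinuousOn (fun b => l (P n b)) Cube := by
  have h1 : (fun b => l (P n b)) =
      fun b => ∑ σ ∈ (W_finite n).toFinset, P n b σ • l (Finsupp.single σ 1) := by
    funext b
    exact vs_lin_eq n l (P_Sup n b)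
  rw [h1]
  exact continuousOn_finsetSum _ (fun σ _ => (P_continuousOn n σ).smul continuousOn_const)

theorem vs_mem_Sup {A : Set St} {v : M} : v ∈ Sup A ↔ ∀ σ, σ ∉ A → v σ = 0 :=
  Finsupp.mem_supported' ℝ v

/-! ### extension from `b i ≠ b (i+1)` -/

theorem vs_ext {i : ℕ} {f g : (ℕ → ℝ) → ℝ} (hf : ContinuousOn f Cube) (hg : ContinuousOn g Cube)
    (h : ∀ b ∈ Cube, b i ≠ b (i + 1) → f b = g b) : ∀ b ∈ Cube, f b = g b := by
  intro b hb
  by_cases hne : b i = b (i + 1)
  · have hc : Continuous (fun t : ℝ => Function.update b i (b i + t)) :=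
      continuous_const.update i (continuous_const.add continuous_id)
    have hc0 : Function.update b i (b i + 0) = b := by
      rw [add_zero, Function.update_eq_self]
    have ht : Filter.Tendsto (fun t : ℝ => Function.update b i (b i + t)) (nhdsWithin 0 {0}ᶜ) (nhds b) := by
      have := hc.tendsto 0
      rw [hc0] at this
      exact this.mono_left nhdsWithin_le_nhds
    have hCube : ∀ᶠ t : ℝ in nhdsWithin 0 {0}ᶜ, Function.update b i (b i + t) ∈ Cube := by
      have hpos : 0 < π / 6 - |b i| := sub_pos.2 (hb i)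
      have h2 : ∀ᶠ t : ℝ in nhds 0, |t| < π / 6 - |b i| := by
        have h3 : Filter.Tendsto (fun t : ℝ => |t|) (nhds 0) (nhds |(0:ℝ)|) :=
          continuous_abs.tendsto 0
        rw [abs_zero] at h3
        exact h3.eventually (gt_mem_nhds hpos)
      filter_upwards [nhdsWithin_le_nhds h2] with t ht2 j
      rcases eq_or_ne j i with rfl | hj
      · rw [Function.update_self]
        have := abs_add_le (b j) t
        linarith
      · rw [Function.update_of_ne hj]
        exact hb j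
    have hW : Filter.Tendsto (fun t : ℝ => Function.update b i (b i + t)) (nhdsWithin 0 {0}ᶜ)
        (nhdsWithin b Cube) := tendsto_nhdsWithin_iff.2 ⟨ht, hCube⟩
    have hF := (hf b hb).tendsto.comp hW
    have hG := (hg b hb).tendsto.comp hW
    refine tendsto_nhds_unique_of_eventuallyEq hF hG ?_
    filter_upwards [hCube, self_mem_nhdsWithin] with t ht1 ht2
    refine h _ ht1 ?_
    show Function.update b i (b i + t) i ≠ Function.update b i (b i + t) (i + 1)
    rw [Function.update_self, Function.update_of_ne (by omega), hne]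
    intro h3
    exact ht2 (by simpa using h3)
  · exact h b hb hne

theorem vs_sin_ne {b : ℕ → ℝ} (hb : b ∈ Cube) {i j : ℕ} (hne : b i ≠ b j) :
    Real.sin (b i - b j) ≠ 0 := by
  intro h
  have h1 := abs_lt.1 (hb i)
  have h2 := abs_lt.1 (hb j)
  have hpi := Real.pi_pos
  have h3 := (Real.sin_eq_zero_iff_of_lt_of_lt (by linarith) (by linarith)).1 h
  exact hne (sub_eq_zero.1 h3)

/-! ### polynomial functions for generated functionals -/

theorem vs_gen (n : ℕ) {l : M →ₗ[ℝ] ℝ} (hl : Gen n l) :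
    ∃ F : (ℕ → ℝ) → ℝ, Sep (2 * n + 1) (2 * n) F ∧ ∀ b ∈ Cube, l (P n b) = phi n b * F b := by
  induction hl with
  | top => exact ⟨f0 n, f0_Sep n, fun b hb => by rw [Finsupp.lapply_apply, P_top n hb, mul_comm]⟩
  | act i hi l h ih =>
    obtain ⟨F, hF, hlF⟩ := ih
    obtain ⟨G, hG, hGF⟩ := hF.divdiff (i := i) (by omega) (even_two_mul n)
    refine ⟨G, hG, ?_⟩
    apply vs_ext (i := i) (vs_contOn n (l ∘ₗ E i))
      ((phi_continuousOn n).mul hG.continuous.continuousOn)
    intro b hb hne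
    have hs := vs_sin_ne hb hne
    have h1 := E_P (by omega : i + 1 ≤ 2 * n) hb l
    rw [hlF _ (sw_Cube i hb), hlF b hb, phi_sw (by omega) hb] at h1
    have h2 := hGF b
    show l (E i (P n b)) = phi n b * G b
    apply mul_left_cancel₀ hs
    rw [h1]
    linear_combination (-phi n b) * h2
  | add l l' h h' ih ih' =>
    obtain ⟨F, hF, hlF⟩ := ih
    obtain ⟨G, hG, hlG⟩ := ih'
    refine ⟨fun b => F b + G b, hF.add hG, ?_⟩
    intro b hb
    rw [LinearMap.add_apply, hlF b hb, hlG b hb]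
    ring
  | smul c l h ih =>
    obtain ⟨F, hF, hlF⟩ := ih
    refine ⟨fun b => c * F b, hF.smul c, ?_⟩
    intro b hb
    rw [LinearMap.smul_apply, hlF b hb, smul_eq_mul]
    ring

theorem vs_zero_Sep (n : ℕ) : Sep (2 * n + 1) (2 * n) (fun _ => (0 : ℝ)) := by
  have := (f0_Sep n).smul 0
  simpa using this

theorem vs_coord (n : ℕ) (σ : St) : ∃ F : (ℕ → ℝ) → ℝ, Sep (2 * n + 1) (2 * n) F ∧
    (σ = top n → F = f0 n) ∧ (¬ (σ ∈ W n ∧ σ ∈ NC) → F = fun _ => 0) ∧
    ∀ b ∈ Cube, P n b σ = phi n b * F b := by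
  by_cases h0 : σ = top n
  · refine ⟨f0 n, f0_Sep n, fun _ => rfl, ?_, ?_⟩
    · intro h
      exact absurd (h0 ▸ ⟨top_W n, top_NC n⟩) h
    · intro b hb
      rw [h0, P_top n hb, mul_comm]
  by_cases h1 : σ ∈ W n ∧ σ ∈ NC
  · obtain ⟨l, hl, hlv⟩ := cyclic n σ h1.1 h1.2
    obtain ⟨F, hF, hFl⟩ := vs_gen n hl
    refine ⟨F, hF, fun h => absurd h h0, fun h => absurd h1 h, ?_⟩
    intro b hb
    rw [← hFl b hb, hlv _ (P_Sup n b) (P_NC n b)]
  · refine ⟨fun _ => 0, vs_zero_Sep n, fun h => absurd h h0, fun _ => rfl, ?_⟩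
    intro b _
    rw [mul_zero]
    by_cases h2 : σ ∈ W n
    · exact vs_mem_Sup.1 (P_NC n b) σ (fun h3 => h1 ⟨h2, h3⟩)
    · exact vs_mem_Sup.1 (P_Sup n b) σ h2

theorem exists_V (n : ℕ) : ∃ V : (ℕ → ℝ) → M, (∀ b, V b ∈ Sup (W n)) ∧ (∀ b, V b ∈ Sup NC) ∧
    (∀ σ, Sep (2 * n + 1) (2 * n) (fun b => V b σ)) ∧
    (∀ b, V b (top n) = f0 n b) ∧
    (∀ b ∈ Cube, phi n b ≠ 0 ∧ P n b = phi n b • V b) := by
  classical
  choose F hF1 hF2 hF3 hF4 using vs_coord n
  set V : (ℕ → ℝ) → M := fun b => ∑ σ ∈ (W_finite n).toFinset, Finsupp.single σ (F σ b) with hV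
  have hVF : ∀ b σ, V b σ = F σ b := by
    intro b σ
    rw [hV]
    simp only
    rw [Finsupp.finsetSum_apply]
    by_cases h : σ ∈ W n
    · rw [sum_eq_single σ]
      · rw [Finsupp.single_eq_same]
      · intro τ _ hτ
        rw [Finsupp.single_apply, if_neg hτ]
      · intro h'
        exact absurd ((Set.Finite.mem_toFinset _).2 h) h'
    · rw [hF3 σ (fun h' => h h'.1)]
      apply sum_eq_zero
      intro τ hτ
      rw [Finsupp.single_apply, if_neg]
      rintro rfl
      exact h ((Set.Finite.mem_toFinset _).1 hτ)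
  have hPV : ∀ b ∈ Cube, P n b = phi n b • V b := by
    intro b hb
    ext σ
    rw [Finsupp.smul_apply, hVF, hF4 σ b hb, smul_eq_mul]
  refine ⟨V, ?_, ?_, ?_, ?_, ?_⟩
  · intro b
    rw [vs_mem_Sup]
    intro σ hσ
    rw [hVF, hF3 σ (fun h' => hσ h'.1)]
  · intro b
    rw [vs_mem_Sup]
    intro σ hσ
    rw [hVF, hF3 σ (fun h' => hσ h'.2)]
  · intro σ
    have : (fun b => V b σ) = F σ := funext (fun b => hVF b σ)
    rw [this]
    exact hF1 σ
  · intro b
    rw [hVF, hF2 (top n) rfl]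
  · intro b hb
    refine ⟨?_, hPV b hb⟩
    intro h0
    have h1 := tot_P n hb
    rw [hPV b hb, h0, zero_smul, map_zero] at h1
    exact zero_ne_one h1

noncomputable def V (n : ℕ) : (ℕ → ℝ) → M := (exists_V n).choose

/-- total mass of `V` -/
noncomputable def Z (n : ℕ) (b : ℕ → ℝ) : ℝ := tot (V n b)

theorem V_Sup (n : ℕ) (b : ℕ → ℝ) : V n b ∈ Sup (W n) := (exists_V n).choose_spec.1 b
theorem V_NC (n : ℕ) (b : ℕ → ℝ) : V n b ∈ Sup NC := (exists_V n).choose_spec.2.1 b
theorem V_Sep (n : ℕ) (σ : St) : Sep (2 * n + 1) (2 * n) (fun b => V n b σ) :=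
  (exists_V n).choose_spec.2.2.1 σ
theorem V_top (n : ℕ) (b : ℕ → ℝ) : V n b (top n) = f0 n b := (exists_V n).choose_spec.2.2.2.1 b
theorem vs_phi_ne (n : ℕ) {b : ℕ → ℝ} (hb : b ∈ Cube) : phi n b ≠ 0 :=
  ((exists_V n).choose_spec.2.2.2.2 b hb).1
theorem vs_P (n : ℕ) {b : ℕ → ℝ} (hb : b ∈ Cube) : P n b = phi n b • V n b :=
  ((exists_V n).choose_spec.2.2.2.2 b hb).2

/-! ### separately trigonometric polynomials with different degrees -/

/-- separately trigonometric polynomials of degree `m j` in the coordinate `j` -/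
def SepD (L : ℕ) (m : ℕ → ℕ) (F : (ℕ → ℝ) → ℝ) : Prop :=
  (∀ b j, j < L → TP (m j) (fun x => F (Function.update b j x))) ∧
  ∀ b b', (∀ j < L, b j = b' j) → F b = F b'

theorem Sep.toD {L m : ℕ} {F : (ℕ → ℝ) → ℝ} (hF : Sep L m F) : SepD L (fun _ => m) F := hF

theorem SepD.sub {L : ℕ} {m : ℕ → ℕ} {F G : (ℕ → ℝ) → ℝ} (hF : SepD L m F) (hG : SepD L m G) :
    SepD L m (fun b => F b - G b) :=
  ⟨fun b j hj => (hF.1 b j hj).sub (hG.1 b j hj), fun b b' h => by
    show F b - G b = F b' - G b'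
    rw [hF.2 b b' h, hG.2 b b' h]⟩

theorem SepD.add {L : ℕ} {m : ℕ → ℕ} {F G : (ℕ → ℝ) → ℝ} (hF : SepD L m F) (hG : SepD L m G) :
    SepD L m (fun b => F b + G b) :=
  ⟨fun b j hj => (hF.1 b j hj).add (hG.1 b j hj), fun b b' h => by
    show F b + G b = F b' + G b'
    rw [hF.2 b b' h, hG.2 b b' h]⟩

theorem SepD.smul {L : ℕ} {m : ℕ → ℕ} {F : (ℕ → ℝ) → ℝ} (c : ℝ) (hF : SepD L m F) :
    SepD L m (fun b => c * F b) :=
  ⟨fun b j hj => (hF.1 b j hj).smul c, fun b b' h => by
    show c * F b = c * F b'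
    rw [hF.2 b b' h]⟩

theorem SepD.mul {L : ℕ} {m k : ℕ → ℕ} {F G : (ℕ → ℝ) → ℝ} (hF : SepD L m F) (hG : SepD L k G) :
    SepD L (fun j => m j + k j) (fun b => F b * G b) :=
  ⟨fun b j hj => (hF.1 b j hj).mul (hG.1 b j hj), fun b b' h => by
    show F b * G b = F b' * G b'
    rw [hF.2 b b' h, hG.2 b b' h]⟩

theorem SepD.sum {ι : Type*} (t : Finset ι) {L : ℕ} {m : ℕ → ℕ} {F : ι → (ℕ → ℝ) → ℝ}
    (h : ∀ i ∈ t, SepD L m (F i)) : SepD L m (fun b => ∑ i ∈ t, F i b) :=
  ⟨fun b j hj => TP.sum t (fun i hi => (h i hi).1 b j hj), fun b b' hb => by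
    show ∑ i ∈ t, F i b = ∑ i ∈ t, F i b'
    exact sum_congr rfl (fun i hi => (h i hi).2 b b' hb)⟩

theorem SepD.congr {L : ℕ} {m k : ℕ → ℕ} {F : (ℕ → ℝ) → ℝ} (hF : SepD L m F)
    (h : ∀ j < L, m j = k j) : SepD L k F :=
  ⟨fun b j hj => h j hj ▸ hF.1 b j hj, hF.2⟩

theorem SepD.eq_zero {L : ℕ} {m : ℕ → ℕ} {F : (ℕ → ℝ) → ℝ} (hF : SepD L m F)
    (h0 : ∀ b ∈ Cube, F b = 0) : ∀ b, F b = 0 := by
  have hpi := Real.pi_pos
  have key : ∀ k, ∀ b : ℕ → ℝ, (∀ j, k ≤ j → |b j| < π / 6) → F b = 0 := by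
    intro k
    induction k with
    | zero => exact fun b hb => h0 b (fun j => hb j (Nat.zero_le j))
    | succ k ih =>
      intro b hb
      by_cases hk : k < L
      · have h1 := (hF.1 b k hk).eq_zero_of_interval (a := -(π / 6)) (b := π / 6) (by linarith) ?_ (b k)
        · rw [Function.update_eq_self] at h1
          exact h1
        · intro x hx
          apply ih
          intro j hj
          rcases eq_or_ne j k with rfl | hne
          · rw [Function.update_self]
            exact abs_lt.2 ⟨hx.1, hx.2⟩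
          · rw [Function.update_of_ne hne]
            exact hb j (by omega)
      · have h1 := hF.2 b (Function.update b k 0) (fun j hj => by
          rw [Function.update_of_ne (by omega)])
        rw [h1]
        apply ih
        intro j hj
        rcases eq_or_ne j k with rfl | hne
        · rw [Function.update_self, abs_zero]
          linarith
        · rw [Function.update_of_ne hne]
          exact hb j (by omega)
  intro b
  have h1 := hF.2 b (fun j => if j < L then b j else 0) (fun j hj => by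
    simp only [if_pos hj])
  rw [h1]
  apply key L
  intro j hj
  simp only [if_neg (not_lt.2 hj), abs_zero]
  linarith

/-- vector valued functions -/
def SepV (n L : ℕ) (m : ℕ → ℕ) (w : (ℕ → ℝ) → M) : Prop :=
  (∀ b, w b ∈ Sup (W n)) ∧ ∀ σ, SepD L m (fun b => w b σ)

theorem SepV.lin {n L : ℕ} {m : ℕ → ℕ} {w : (ℕ → ℝ) → M} (hw : SepV n L m w) (l : M →ₗ[ℝ] ℝ) :
    SepD L m (fun b => l (w b)) := by
  have h1 : (fun b => l (w b)) =
      fun b => ∑ σ ∈ (W_finite n).toFinset, l (Finsupp.single σ 1) * w b σ := by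
    funext b
    rw [vs_lin_eq n l (hw.1 b)]
    exact sum_congr rfl (fun σ _ => by rw [smul_eq_mul, mul_comm])
  rw [h1]
  exact SepD.sum _ (fun σ _ => (hw.2 σ).smul _)

theorem V_SepV (n : ℕ) : SepV n (2 * n + 1) (fun _ => 2 * n) (V n) :=
  ⟨V_Sup n, fun σ => (V_Sep n σ).toD⟩

theorem vs_Sep_lin (n : ℕ) (l : M →ₗ[ℝ] ℝ) : Sep (2 * n + 1) (2 * n) (fun b => l (V n b)) :=
  (V_SepV n).lin l

/-- degree one in the coordinate `k` -/
theorem vs_coord_TP {L k : ℕ} (hk : k < L) {f : ℝ → ℝ} (hf : TP 1 f) :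
    SepD L (fun j => if j = k then 1 else 0) (fun b => f (b k)) := by
  refine ⟨?_, ?_⟩
  · intro b j hj
    by_cases h : j = k
    · subst h
      simp only [Function.update_self, if_true]
      exact hf
    · simp only [if_neg h, Function.update_of_ne (Ne.symm h)]
      exact TP.const _
  · intro b b' h
    show f (b k) = f (b' k)
    rw [h k hk]

theorem vs_s_neg (k : ℝ) : TP 1 (fun x => s (-(x + k))) := by
  have h := TP.s_sub (-k)
  have h1 : (fun x => s (-(x + k))) = fun x => s (-k - x) := by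
    funext x
    congr 1
    ring
  rw [h1]
  exact h

theorem Rt_apply' (i : ℕ) (u : ℝ) (v : M) (σ : St) :
    Rt i u v σ = s (-u) * v σ + Real.sin u * (Finsupp.lapply σ ∘ₗ E i : M →ₗ[ℝ] ℝ) v := by
  simp [Rt]

theorem SepV.Rt {n L : ℕ} {m : ℕ → ℕ} {w : (ℕ → ℝ) → M} (hw : SepV n L m w) {i k : ℕ}
    (hi : i < 2 * n) (hk : k < L) :
    SepV n L (fun j => (if j = k then 1 else 0) + m j) (fun b => IP.Rt i (b k + π / 6) (w b)) := by
  refine ⟨fun b => Rt_Sup (Or.inl hi) _ (hw.1 b), ?_⟩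
  intro σ
  simp only [Rt_apply']
  exact ((vs_coord_TP hk (vs_s_neg (π / 6))).mul (hw.2 σ)).add
    ((vs_coord_TP hk (TP.sin_add (π / 6))).mul (hw.lin _))

theorem SepV.row {n L : ℕ} (off k : ℕ) (h : off + k ≤ 2 * n) (hk : k ≤ L) :
    ∀ {m : ℕ → ℕ} {w : (ℕ → ℝ) → M}, SepV n L m w →
    SepV n L (fun j => (if j < k then 1 else 0) + m j) (fun b => IP.row off b k (w b)) := by
  induction k with
  | zero =>
    intro m w hw
    simp only [Nat.not_lt_zero, if_false, zero_add, row_zero]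
    exact hw
  | succ k ih =>
    intro m w hw
    have h1 := ih (by omega) (by omega) (hw.Rt (i := off + k) (k := k) (by omega) (by omega))
    refine ⟨h1.1, fun σ => (h1.2 σ).congr ?_⟩
    intro j _
    split_ifs <;> omega

theorem vs_nrm (n : ℕ) : SepD (2 * n + 1) (fun _ => 2) (nrm n) := by
  refine ⟨?_, ?_⟩
  · intro b j hj
    have h1 : ∀ k ∈ range (2 * n + 1), TP (if k = j then 2 else 0)
        (fun x => s (Function.update b j x k + π / 6) ^ 2) := by
      intro k _
      by_cases h : k = j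
      · subst h
        simp only [Function.update_self, if_true, sq]
        exact (TP.s_add (π / 6)).mul (TP.s_add (π / 6))
      · simp only [if_neg h, Function.update_of_ne h]
        exact TP.const _
    have h2 := TP.prod (range (2 * n + 1)) h1
    rw [Finset.sum_ite_eq' (range (2 * n + 1)) j (fun _ => 2), if_pos (mem_range.2 hj)] at h2
    exact h2
  · intro b b' h
    exact nrm_congr n h

/-! ### the statements of the module -/

theorem V_sw {n i : ℕ} (h : i + 1 ≤ 2 * n) (b : ℕ → ℝ) :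
    s (b i - b (i + 1)) • V n (sw i b) = Rt i (b i - b (i + 1)) (V n b) := by
  have hdiff : ∀ f : ℝ → ℝ, (∀ c, TP 1 (fun x => f (x - c))) → (∀ c, TP 1 (fun x => f (c - x))) →
      SepD (2 * n + 1) (fun j => if j = i ∨ j = i + 1 then 1 else 0)
        (fun b => f (b i - b (i + 1))) := by
    intro f h1 h2
    refine ⟨?_, ?_⟩
    · intro b j hj
      by_cases hj1 : j = i
      · subst hj1
        simp only [Function.update_self, Function.update_of_ne (Nat.succ_ne_self j), true_or, if_true]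
        exact h1 _
      by_cases hj2 : j = i + 1
      · subst hj2
        simp only [Function.update_self, Function.update_of_ne (Nat.succ_ne_self i).symm, or_true, if_true]
        exact h2 _
      · simp only [Function.update_of_ne (Ne.symm hj1), Function.update_of_ne (Ne.symm hj2), hj1, hj2,
          or_self, if_false]
        exact TP.const _
    · intro b b' hb
      show f (b i - b (i + 1)) = f (b' i - b' (i + 1))
      rw [hb i (by omega), hb (i + 1) (by omega)]
  ext σ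
  rw [Finsupp.smul_apply, smul_eq_mul, ← sub_eq_zero]
  have e1 : ∀ c : ℝ, TP 1 (fun x => s (x - c)) := by
    intro c
    simpa only [sub_eq_add_neg] using TP.s_add (-c)
  have e2 : ∀ c : ℝ, TP 1 (fun x => s (c - x)) := fun c => TP.s_sub c
  have key : SepD (2 * n + 1) (fun j => (if j = i ∨ j = i + 1 then 1 else 0) + 2 * n)
      (fun b => s (b i - b (i + 1)) * V n (sw i b) σ - Rt i (b i - b (i + 1)) (V n b) σ) := by
    simp only [Rt_apply']
    refine SepD.sub ((hdiff s e1 e2).mul ((V_Sep n σ).comp_sw (by omega)).toD) (SepD.add ?_ ?_)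
    · refine (hdiff (fun x => s (-x)) ?_ ?_).mul (V_Sep n σ).toD
      · intro c
        simp only [neg_sub]
        exact e2 c
      · intro c
        simp only [neg_sub]
        exact e1 c
    · refine (hdiff Real.sin ?_ ?_).mul ((V_SepV n).lin _)
      · intro c
        simpa only [sub_eq_add_neg] using TP.sin_add (-c)
      · exact fun c => TP.sin_sub c
  refine key.eq_zero ?_ b
  intro b hb
  have h1 := P_sw h hb
  rw [vs_P n (sw_Cube i hb), vs_P n hb, phi_sw h hb, map_smul, smul_comm] at h1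
  have h2 := smul_right_injective M (vs_phi_ne n hb) h1
  have h3 := DFunLike.congr_fun h2 σ
  rw [Finsupp.smul_apply, smul_eq_mul] at h3
  rw [h3, sub_self]

theorem vs_ng {n k : ℕ} (hk : k ≤ 2 * n) (h : ∀ b ∈ Cube, P n (ng k b) = P n b) (b : ℕ → ℝ) :
    V n (ng k b) = V n b := by
  ext σ
  rw [← sub_eq_zero]
  refine Sep.eq_zero ((V_Sep n σ).comp_ng.sub (V_Sep n σ)) ?_ b
  intro b hb
  have h1 := h b hb
  rw [vs_P n (ng_Cube k hb), vs_P n hb, phi_ng hk hb] at h1
  have h2 := smul_right_injective M (vs_phi_ne n hb) h1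
  rw [h2, sub_self]

theorem V_ngL (n : ℕ) (b : ℕ → ℝ) : V n (ng 0 b) = V n b :=
  vs_ng (Nat.zero_le _) (fun _ hb => P_ngL n hb) b

theorem V_ngR (n : ℕ) (b : ℕ → ℝ) : V n (ng (2 * n) b) = V n b :=
  vs_ng (le_refl _) (fun _ hb => P_ngR n hb) b

theorem V_Tt (n : ℕ) (b : ℕ → ℝ) : Tt n b (V n b) = nrm n b • V n b := by
  ext σ
  rw [Finsupp.smul_apply, smul_eq_mul, ← sub_eq_zero]
  have hV : SepV (n + 1) (2 * n + 1) (fun _ => 2 * n) (V n) :=
    ⟨fun b => Sup_mono (Nat.le_succ n) (V_Sup n b), (V_SepV n).2⟩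
  have h1 := SepV.row 1 (2 * n + 1) (by omega) (le_refl _)
    (SepV.row 0 (2 * n + 1) (by omega) (le_refl _) hV)
  have h2 := h1.lin (Finsupp.lapply σ ∘ₗ De 0)
  have h3 : SepD (2 * n + 1) (fun _ => 2 + 2 * n) (fun b => Tt n b (V n b) σ) := by
    refine SepD.congr h2 ?_
    intro j hj
    simp only [if_pos hj]
    omega
  have key := h3.sub ((vs_nrm n).mul (V_Sep n σ).toD)
  refine key.eq_zero ?_ b
  intro b hb
  have h4 := Tt_P n hb
  rw [vs_P n hb, map_smul, smul_comm] at h4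
  have h5 := smul_right_injective M (vs_phi_ne n hb) h4
  have h6 := DFunLike.congr_fun h5 σ
  rw [Finsupp.smul_apply, smul_eq_mul] at h6
  rw [h6, sub_self]

theorem Z_Sep (n : ℕ) : Sep (2 * n + 1) (2 * n) (Z n) := vs_Sep_lin n tot

theorem vs_phi_Z (n : ℕ) {b : ℕ → ℝ} (hb : b ∈ Cube) : phi n b * Z n b = 1 := by
  have h := tot_P n hb
  rw [vs_P n hb, map_smul, smul_eq_mul] at h
  exact h

theorem Z_sw {n i : ℕ} (h : i + 1 ≤ 2 * n) (b : ℕ → ℝ) : Z n (sw i b) = Z n b := by
  rw [← sub_eq_zero]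
  refine Sep.eq_zero (((Z_Sep n).comp_sw (by omega)).sub (Z_Sep n)) ?_ b
  intro b hb
  have h1 := vs_phi_Z n (sw_Cube i hb)
  rw [phi_sw h hb, ← vs_phi_Z n hb] at h1
  rw [mul_left_cancel₀ (vs_phi_ne n hb) h1, sub_self]

theorem Z_ng {n i : ℕ} (h : i ≤ 2 * n) (b : ℕ → ℝ) : Z n (ng i b) = Z n b := by
  rw [← sub_eq_zero]
  refine Sep.eq_zero ((Z_Sep n).comp_ng.sub (Z_Sep n)) ?_ b
  intro b hb
  have h1 := vs_phi_Z n (ng_Cube i hb)
  rw [phi_ng h hb, ← vs_phi_Z n hb] at h1
  rw [mul_left_cancel₀ (vs_phi_ne n hb) h1, sub_self]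

theorem Z_ne (n : ℕ) {b : ℕ → ℝ} (hb : b ∈ Cube) : Z n b ≠ 0 := by
  intro h
  have h1 := vs_phi_Z n hb
  rw [h, mul_zero] at h1
  exact zero_ne_one h1

theorem P_eq (n : ℕ) {b : ℕ → ℝ} (hb : b ∈ Cube) : P n b = (Z n b)⁻¹ • V n b := by
  rw [vs_P n hb, eq_inv_of_mul_eq_one_left (vs_phi_Z n hb)]

theorem V_zero (b : ℕ → ℝ) : V 0 b = Finsupp.single (top 0) 1 := by
  classical
  ext σ
  by_cases h : σ = top 0
  · rw [h, V_top, Finsupp.single_eq_same]
    simp [f0]
  · rw [vs_mem_Sup.1 (V_Sup 0 b) σ (fun h' => h (W_zero h')), Finsupp.single_apply,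
      if_neg (Ne.symm h)]
end IP
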